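import Pool.Agent.Run7.h458.Transfer
set_option autoImplicit false
set_option linter.unusedSectionVars false

/-!
# A complete subfield with a countable value group
-/

open Filter Topology

namespace Run7.h458

open Cardinal in
theorem exists_subfield {F : Type} [NormedField F] [CompleteSpace F] [IsUltrametricDist F] (S : Set F)
    (hS : S.Countable) (h1 : ∃ x ∈ S, 1 < ‖x‖) :
    ∃ (k : Type) (_ : NontriviallyNormedField k) (_ : NormedAlgebra k F) (_ : CompleteSpace k)
      (_ : IsUltrametricDist k), (∀ x ∈ S, ∃ y : k, algebraMap k F y = x) ∧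
        (Set.range fun y : k => ‖y‖).Countable := by
  classical
  let k₀ : Subfield F := Subfield.closure S
  have hk₀ : (k₀ : Set F).Countable := by
    have h2 : #k₀ ≤ ℵ₀ := by
      refine (Subfield.cardinalMk_closure_le_max S).trans (max_le ?_ le_rfl)
      exact Cardinal.mk_le_aleph0_iff.2 hS.to_subtype
    exact Cardinal.le_aleph0_iff_set_countable.1 h2
  let k : Subfield F := k₀.topologicalClosure
  have hkc : IsClosed (k : Set F) := isClosed_closure
  have hSk : ∀ x ∈ S, x ∈ k := fun x hx => subset_closure (Subfield.subset_closure hx)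
  let n1 : NormedField k := inferInstance
  have hn : ∀ x : k, ‖x‖ = ‖(x : F)‖ := fun x => rfl
  obtain ⟨x₁, hx₁, hx₁n⟩ := h1
  let n2 : NontriviallyNormedField k := { n1 with non_trivial := ⟨⟨x₁, hSk x₁ hx₁⟩, hx₁n⟩ }
  let n3 : NormedAlgebra k F :=
    { k.subtype.toAlgebra with
      norm_smul_le := fun a x => by
        change ‖(a : F) * x‖ ≤ ‖(a : F)‖ * ‖x‖
        rw [norm_mul] }
  have n4 : CompleteSpace k := hkc.completeSpace_coe
  have n5 : IsUltrametricDist k := by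
    refine IsUltrametricDist.isUltrametricDist_of_forall_norm_add_le_max_norm fun x y => ?_
    exact IsUltrametricDist.norm_add_le_max (x : F) (y : F)
  refine ⟨k, n2, n3, n4, n5, fun x hx => ⟨⟨x, hSk x hx⟩, rfl⟩, ?_⟩
  refine ((hk₀.image fun x => ‖x‖)).mono ?_
  rintro _ ⟨y, rfl⟩
  by_cases hy : (y : F) = 0
  · refine ⟨0, zero_mem k₀, ?_⟩
    change ‖(0 : F)‖ = ‖(y : F)‖
    rw [hy]
  · have h2 : (y : F) ∈ closure (k₀ : Set F) := y.2
    rw [Metric.mem_closure_iff] at h2
    obtain ⟨z, hz, hzy⟩ := h2 ‖(y : F)‖ (norm_pos_iff.2 hy)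
    refine ⟨z, hz, ?_⟩
    change ‖z‖ = ‖(y : F)‖
    rw [dist_eq_norm] at hzy
    have e1 : z = (y : F) - ((y : F) - z) := by ring
    rw [e1, sub_eq_add_neg, IsUltrametricDist.norm_add_eq_max_of_norm_ne_norm (by rw [norm_neg]; exact hzy.ne'),
      norm_neg, max_eq_left hzy.le]

/-- A radius outside the divisible hull of a countable value group. -/
theorem exists_radius {k : Type} [NormedField k] (hk : (Set.range fun y : k => ‖y‖).Countable) {r₁ r₂ : ℝ}
    (h0 : 0 < r₁) (h : r₁ < r₂) : ∃ r : ℝ, r₁ < r ∧ r < r₂ ∧ ∀ x : k, x ≠ 0 → ∀ n : ℕ, n ≠ 0 → ‖x‖ ≠ r ^ n := by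
  let B : Set ℝ := ⋃ n : ℕ, {r : ℝ | 0 < r ∧ n ≠ 0 ∧ r ^ n ∈ Set.range fun y : k => ‖y‖}
  have hB : B.Countable := by
    refine Set.countable_iUnion fun n => ?_
    refine Set.MapsTo.countable_of_injOn (f := fun r : ℝ => r ^ n) (t := Set.range fun y : k => ‖y‖) ?_ ?_ hk
    · rintro r ⟨hr, hn, hr2⟩
      exact hr2
    · rintro x ⟨hx, hn, -⟩ y ⟨hy, -, -⟩ hxy
      exact (pow_left_inj₀ hx.le hy.le hn).1 hxy
  obtain ⟨r, hr, hr1, hr2⟩ := (hB.dense_compl ℝ).exists_between h
  refine ⟨r, hr1, hr2, fun x _ n hn hxr => hr (Set.mem_iUnion.2 ⟨n, h0.trans hr1, hn, x, hxr⟩)⟩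

end Run7.h458
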