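import Pool.Agent.Run7.h458.KEst
set_option autoImplicit false
set_option linter.unusedSectionVars false

/-!
# Estimates from the Nullstellensatz
-/

open MvPolynomial Pool.Agent.Y129.TA Pool.Agent.R388.TP

namespace Run7.h458

variable {K : Type} [Field K] [IsAlgClosed K] [CharZero K] {a : AbsoluteValue K ℝ}
  (ha : ∀ x y, a (x + y) ≤ max (a x) (a y)) {σ : Type} [Fintype σ]

theorem exists_val₂_poly {τ : Type} (f : Polynomial (MvPolynomial (Fin 2) K)) (u : Fin 2 → MvPolynomial τ K) (l : τ) :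
    ∃ P : MvPolynomial τ K, ∀ v, eval v P = val₂ f (fun i => eval v (u i)) (v l) := by
  refine ⟨f.eval₂ (aeval u : MvPolynomial (Fin 2) K →ₐ[K] MvPolynomial τ K).toRingHom (X l), fun v => ?_⟩
  rw [Polynomial.hom_eval₂, val₂_eq, eval_X]
  congr 1
  refine MvPolynomial.ringHom_ext (fun b => ?_) fun i => ?_
  · change eval v (aeval u (C b)) = _
    rw [aeval_C, MvPolynomial.algebraMap_eq, eval_C, eval_C]
  · change eval v (aeval u (X i)) = _
    rw [aeval_X, eval_X]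

include ha

theorem estimate1 {Z : Set (σ → K)} {e : ℕ} {lam : K} {q : Fin 2 → MvPolynomial σ K}
    {Φ : Polynomial (MvPolynomial (Fin 2) K)} {Ψ : σ → Polynomial (MvPolynomial (Fin 2) K)} {S : Finset K}
    {r : σ → MvPolynomial (Fin 3) K}
    (hpt : ∀ (t : Fin 2 → K) (θ : K) (x : σ → K), ∏ b ∈ S, (t 1 - b * t 0) = 1 → val₂ Φ t θ = 0 →
      (∀ i, x i = eval ![t 0, t 1, θ] (r i)) →
        (∀ f, (∀ y ∈ Z, eval y f = 0) → eval x f = 0) ∧ (∀ j, eval x (q j) = Qf e lam t j) ∧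
          ∀ i, val₂ (Ψ i) (Qf e lam t) (x i) = 0)
    {κ : Type} [Fintype κ] (f : κ → MvPolynomial σ K) (hf : ∀ k, ∀ y ∈ Z, eval y (f k) = 0) {B η : ℝ}
    (hB : 0 ≤ B) (hη : 0 < η) :
    ∃ ε : ℝ, 0 < ε ∧ ∀ (t : Fin 2 → K) (θ : K) (x : σ → K), (∀ j, a (t j) ≤ B) → a θ ≤ B → (∀ i, a (x i) ≤ B) →
      a (∏ b ∈ S, (t 1 - b * t 0) - 1) ≤ ε → a (val₂ Φ t θ) ≤ ε →
      (∀ i, a (x i - eval ![t 0, t 1, θ] (r i)) ≤ ε) →
        (∀ k, a (eval x (f k)) ≤ η) ∧ (∀ j, a (eval x (q j) - Qf e lam t j) ≤ η) ∧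
          ∀ i, a (val₂ (Ψ i) (Qf e lam t) (x i)) ≤ η := by
  classical
  let τ := Fin 3 ⊕ σ
  let tt : (τ → K) → Fin 2 → K := fun v => ![v (Sum.inl 0), v (Sum.inl 1)]
  let ut : Fin 2 → MvPolynomial τ K := ![X (Sum.inl 0), X (Sum.inl 1)]
  have hut : ∀ v, (fun i => eval v (ut i)) = tt v := by
    intro v
    funext i
    fin_cases i
    · simp [ut, tt]
    · simp [ut, tt]
  let uQ : Fin 2 → MvPolynomial τ K :=
    ![X (Sum.inl 0) ^ e + C lam * X (Sum.inl 1) ^ e, X (Sum.inl 1) ^ e]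
  have huQ : ∀ v, (fun i => eval v (uQ i)) = Qf e lam (tt v) := by
    intro v
    funext i
    fin_cases i
    · simp [uQ, tt, Qf]
    · simp [uQ, tt, Qf]
  obtain ⟨PΦ, hPΦ⟩ := exists_val₂_poly Φ ut (Sum.inl 2 : τ)
  choose PΨ hPΨ using fun i => exists_val₂_poly (Ψ i) uQ (Sum.inr i : τ)
  have hr3 : ∀ (v : τ → K) i, eval v (rename Sum.inl (r i)) = eval ![tt v 0, tt v 1, v (Sum.inl 2)] (r i) := by
    intro v i
    rw [eval_rename]
    congr 2
    funext l
    fin_cases l <;> rfl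
  let E : Option (Option σ) → MvPolynomial τ K := fun o => o.elim
    (∏ b ∈ S, (X (Sum.inl 1) - C b * X (Sum.inl 0)) - 1) fun o' => o'.elim PΦ fun i =>
      X (Sum.inr i) - rename Sum.inl (r i)
  have hE0 : ∀ v, eval v (E none) = ∏ b ∈ S, (tt v 1 - b * tt v 0) - 1 := by
    intro v
    simp [E, tt, map_prod]
  have hE1 : ∀ v, eval v (E (some none)) = val₂ Φ (tt v) (v (Sum.inl 2)) := by
    intro v
    change eval v PΦ = _
    rw [hPΦ, hut]
  have hE2 : ∀ v i, eval v (E (some (some i))) = v (Sum.inr i) - eval ![tt v 0, tt v 1, v (Sum.inl 2)] (r i) := by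
    intro v i
    change eval v (X (Sum.inr i) - rename Sum.inl (r i)) = _
    rw [map_sub, eval_X, hr3]
  have hV : ∀ v, (∀ k, eval v (E k) = 0) →
      (∀ f, (∀ y ∈ Z, eval y f = 0) → eval (fun i => v (Sum.inr i)) f = 0) ∧
      (∀ j, eval (fun i => v (Sum.inr i)) (q j) = Qf e lam (tt v) j) ∧
        ∀ i, val₂ (Ψ i) (Qf e lam (tt v)) (v (Sum.inr i)) = 0 := by
    intro v hv
    have h0 := hv none
    rw [hE0, sub_eq_zero] at h0
    have h1 := hv (some none)
    rw [hE1] at h1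
    refine hpt (tt v) (v (Sum.inl 2)) (fun i => v (Sum.inr i)) h0 h1 fun i => ?_
    have h2 := hv (some (some i))
    rw [hE2, sub_eq_zero] at h2
    exact h2
  -- the three families
  choose d₁ hd₁ h₁ using fun k => smallB ha E (rename Sum.inr (f k)) (fun v hv => by
    rw [eval_rename]
    exact (hV v hv).1 (f k) (hf k)) hB hη
  choose d₂ hd₂ h₂ using fun j => smallB ha E (rename Sum.inr (q j) - uQ j) (fun v hv => by
    rw [map_sub, eval_rename, sub_eq_zero]
    have h3 := (hV v hv).2.1 j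
    have h4 := congrFun (huQ v) j
    rw [h4]
    exact h3) hB hη
  choose d₃ hd₃ h₃ using fun i => smallB ha E (PΨ i) (fun v hv => by
    rw [hPΨ, huQ]
    exact (hV v hv).2.2 i) hB hη
  obtain ⟨e₁, he₁, he₁'⟩ := exists_pos_le d₁ hd₁
  obtain ⟨e₂, he₂, he₂'⟩ := exists_pos_le d₂ hd₂
  obtain ⟨e₃, he₃, he₃'⟩ := exists_pos_le d₃ hd₃
  refine ⟨min e₁ (min e₂ e₃), lt_min he₁ (lt_min he₂ he₃), fun t θ x ht hθ hx h1 h2 h3 => ?_⟩
  let v : τ → K := Sum.elim ![t 0, t 1, θ] x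
  have htv : tt v = t := by
    funext i
    fin_cases i <;> rfl
  have hv : ∀ i, a (v i) ≤ B := by
    rintro (i | i)
    · fin_cases i
      · exact ht 0
      · exact ht 1
      · exact hθ
    · exact hx i
  have hE : ∀ k, a (eval v (E k)) ≤ min e₁ (min e₂ e₃) := by
    rintro (_ | _ | i)
    · rw [hE0, htv]
      exact h1
    · rw [hE1, htv]
      exact h2
    · rw [hE2, htv]
      exact h3 i
  refine ⟨fun k => ?_, fun j => ?_, fun i => ?_⟩
  · have h4 := h₁ k v hv fun l => (hE l).trans ((min_le_left _ _).trans (he₁' k))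
    rw [eval_rename] at h4
    exact h4
  · have h4 := h₂ j v hv fun l => (hE l).trans ((min_le_right _ _).trans ((min_le_left _ _).trans (he₂' j)))
    rw [map_sub, eval_rename] at h4
    have h5 := congrFun (huQ v) j
    rw [h5, htv] at h4
    exact h4
  · have h4 := h₃ i v hv fun l => (hE l).trans ((min_le_right _ _).trans ((min_le_right _ _).trans (he₃' i)))
    rw [hPΨ, huQ, htv] at h4
    exact h4

end Run7.h458
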