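import Pool.Agent.Run7.h458.Circle
set_option autoImplicit false
set_option linter.unusedSectionVars false

/-!
# Construction of the field of a circle
-/

open Polynomial Filter Topology UniformSpace

namespace Run7.h458

section gauss

variable {k : Type} [NontriviallyNormedField k] [IsUltrametricDist k]

/-- The Gauss norm. -/
noncomputable def gn (r : ℝ) (P : k[X]) : ℝ := P.gaussNorm (NormedField.toAbsoluteValue k) r

theorem nonarch (k : Type) [NontriviallyNormedField k] [IsUltrametricDist k] :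
    IsNonarchimedean (NormedField.toAbsoluteValue k) := fun x y => IsUltrametricDist.norm_add_le_max x y

variable {r : ℝ} (hr : 0 < r)

include hr

theorem gn_mul (P Q : k[X]) : gn r (P * Q) = gn r P * gn r Q := gaussNorm_mul (nonarch k) hr P Q

theorem gn_nonneg (P : k[X]) : 0 ≤ gn r P := gaussNorm_nonneg _ P hr.le

theorem gn_eq_zero (P : k[X]) : gn r P = 0 ↔ P = 0 :=
  gaussNorm_eq_zero_iff _ _ (fun _ hx => (AbsoluteValue.eq_zero _).mp hx) hr

theorem gn_add (P Q : k[X]) : gn r (P + Q) ≤ max (gn r P) (gn r Q) :=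
  isNonarchimedean_gaussNorm _ (nonarch k) hr.le P Q

theorem gn_coeff (P : k[X]) (i : ℕ) : ‖P.coeff i‖ * r ^ i ≤ gn r P :=
  le_gaussNorm (NormedField.toAbsoluteValue k) P hr.le i

theorem gn_ne {P : k[X]} (hP : P ≠ 0) : gn r P ≠ 0 := fun h => hP ((gn_eq_zero hr P).1 h)

/-- The Gauss norm of a rational function. -/
noncomputable def rn (r : ℝ) (f : RatFunc k) : ℝ := gn r f.num / gn r f.denom

theorem rn_div (P : k[X]) {Q : k[X]} (hQ : Q ≠ 0) :
    rn r (algebraMap k[X] (RatFunc k) P / algebraMap k[X] (RatFunc k) Q) = gn r P / gn r Q := by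
  set f := algebraMap k[X] (RatFunc k) P / algebraMap k[X] (RatFunc k) Q with hf
  have hd : f.denom ≠ 0 := f.denom_ne_zero
  have h1 := f.num_div_denom
  have hd' : algebraMap k[X] (RatFunc k) f.denom ≠ 0 := by
    rwa [Ne, map_eq_zero_iff _ (RatFunc.algebraMap_injective k)]
  have hQ' : algebraMap k[X] (RatFunc k) Q ≠ 0 := by
    rwa [Ne, map_eq_zero_iff _ (RatFunc.algebraMap_injective k)]
  conv_rhs at h1 => rw [hf]
  rw [div_eq_div_iff hd' hQ', ← map_mul, ← map_mul] at h1
  have h2 := RatFunc.algebraMap_injective k h1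
  rw [rn, div_eq_div_iff (gn_ne hr hd) (gn_ne hr hQ), ← gn_mul hr, ← gn_mul hr, h2]

/-- The Gauss norm as an absolute value. -/
noncomputable def rabs : AbsoluteValue (RatFunc k) ℝ where
  toFun := rn r
  map_mul' f g := by
    have h1 : f * g = algebraMap k[X] (RatFunc k) (f.num * g.num) / algebraMap k[X] (RatFunc k) (f.denom * g.denom) := by
      conv_lhs => rw [← f.num_div_denom, ← g.num_div_denom]
      rw [map_mul, map_mul, div_mul_div_comm]
    rw [h1, rn_div hr _ (mul_ne_zero f.denom_ne_zero g.denom_ne_zero), gn_mul hr, gn_mul hr, rn, rn,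
      div_mul_div_comm]
  nonneg' f := div_nonneg (gn_nonneg hr _) (gn_nonneg hr _)
  eq_zero' f := by
    rw [rn, div_eq_zero_iff, or_iff_left (gn_ne hr f.denom_ne_zero), gn_eq_zero hr, RatFunc.num_eq_zero_iff]
  add_le' f g := by
    have hdf := f.denom_ne_zero
    have hdg := g.denom_ne_zero
    have h1 : f + g = algebraMap k[X] (RatFunc k) (f.num * g.denom + f.denom * g.num) /
        algebraMap k[X] (RatFunc k) (f.denom * g.denom) := by
      conv_lhs => rw [← f.num_div_denom, ← g.num_div_denom]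
      rw [div_add_div _ _ (by rwa [Ne, map_eq_zero_iff _ (RatFunc.algebraMap_injective k)])
        (by rwa [Ne, map_eq_zero_iff _ (RatFunc.algebraMap_injective k)])]
      simp only [map_mul, map_add]
    have hf0 : 0 ≤ gn r f.num / gn r f.denom := div_nonneg (gn_nonneg hr _) (gn_nonneg hr _)
    have hg0 : 0 ≤ gn r g.num / gn r g.denom := div_nonneg (gn_nonneg hr _) (gn_nonneg hr _)
    rw [h1, rn_div hr _ (mul_ne_zero hdf hdg)]
    have h2 := gn_add hr (f.num * g.denom) (f.denom * g.num)
    rw [gn_mul hr, gn_mul hr] at h2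
    have hpf : 0 < gn r f.denom := lt_of_le_of_ne (gn_nonneg hr _) (gn_ne hr hdf).symm
    have hpg : 0 < gn r g.denom := lt_of_le_of_ne (gn_nonneg hr _) (gn_ne hr hdg).symm
    rw [gn_mul hr, div_le_iff₀ (mul_pos hpf hpg)]
    refine h2.trans ?_
    rw [rn, rn]
    have e1 : (gn r f.num / gn r f.denom + gn r g.num / gn r g.denom) * (gn r f.denom * gn r g.denom) =
        gn r f.num * gn r g.denom + gn r f.denom * gn r g.num := by
      field_simp
    rw [e1]
    exact max_le (le_add_of_nonneg_right (mul_nonneg hpf.le (gn_nonneg hr _)))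
      (le_add_of_nonneg_left (mul_nonneg (gn_nonneg hr _) hpg.le))

theorem rabs_apply (f : RatFunc k) : rabs (k := k) hr f = gn r f.num / gn r f.denom := rfl

theorem rabs_poly (P : k[X]) : rabs (k := k) hr (algebraMap k[X] (RatFunc k) P) = gn r P := by
  have h1 := rn_div hr P (one_ne_zero (α := k[X]))
  rw [map_one, div_one] at h1
  have h2 : gn r (1 : k[X]) = 1 := by
    have h3 := gn_mul hr (1 : k[X]) 1
    rw [mul_one] at h3
    have h4 : gn r (1 : k[X]) ≠ 0 := gn_ne hr one_ne_zero
    have h5 : gn r (1 : k[X]) * 1 = gn r (1 : k[X]) * gn r (1 : k[X]) := by rw [mul_one]; exact h3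
    exact (mul_left_cancel₀ h4 h5).symm
  rw [h2, div_one] at h1
  exact h1

theorem rabs_add (f g : RatFunc k) :
    rabs (k := k) hr (f + g) ≤ max (rabs (k := k) hr f) (rabs (k := k) hr g) := by
  have hdf := f.denom_ne_zero
  have hdg := g.denom_ne_zero
  have h1 : f + g = algebraMap k[X] (RatFunc k) (f.num * g.denom + f.denom * g.num) /
      algebraMap k[X] (RatFunc k) (f.denom * g.denom) := by
    conv_lhs => rw [← f.num_div_denom, ← g.num_div_denom]
    rw [div_add_div _ _ (by rwa [Ne, map_eq_zero_iff _ (RatFunc.algebraMap_injective k)])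
      (by rwa [Ne, map_eq_zero_iff _ (RatFunc.algebraMap_injective k)])]
    simp only [map_mul, map_add]
  have h3 : rabs (k := k) hr (f + g) = gn r (f.num * g.denom + f.denom * g.num) / gn r (f.denom * g.denom) := by
    rw [h1]
    exact rn_div hr _ (mul_ne_zero hdf hdg)
  have h2 := gn_add hr (f.num * g.denom) (f.denom * g.num)
  rw [gn_mul hr, gn_mul hr] at h2
  have hpf : 0 < gn r f.denom := lt_of_le_of_ne (gn_nonneg hr _) (gn_ne hr hdf).symm
  have hpg : 0 < gn r g.denom := lt_of_le_of_ne (gn_nonneg hr _) (gn_ne hr hdg).symm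
  rw [h3, gn_mul hr, div_le_iff₀ (mul_pos hpf hpg), rabs_apply, rabs_apply, max_mul_of_nonneg _ _
    (mul_pos hpf hpg).le]
  refine h2.trans (max_le_max (le_of_eq ?_) (le_of_eq ?_))
  · field_simp
  · field_simp

end gauss

section compl

variable {K : Type} [Field K] (ν : AbsoluteValue K ℝ)

/-- The completion at an absolute value. -/
def HC : Type := ν.Completion

noncomputable instance : NormedField (HC ν) := inferInstanceAs (NormedField ν.Completion)

instance : CompleteSpace (HC ν) := inferInstanceAs (CompleteSpace ν.Completion)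

/-- The embedding in the completion. -/
noncomputable def HC.emb : K →+* HC ν :=
  (Completion.coeRingHom : WithAbs ν →+* Completion (WithAbs ν)).comp (WithAbs.equiv ν).symm.toRingHom

theorem HC.norm_emb (f : K) : ‖HC.emb ν f‖ = ν f := by
  change ‖((((WithAbs.equiv ν).symm f : WithAbs ν)) : Completion (WithAbs ν))‖ = _
  rw [Completion.norm_coe]
  rfl

theorem HC.denseRange : DenseRange (HC.emb ν) := by
  have h1 : DenseRange ((↑) : WithAbs ν → Completion (WithAbs ν)) := Completion.denseRange_coe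
  intro x
  have h2 := h1 x
  refine closure_mono ?_ h2
  rintro _ ⟨y, rfl⟩
  exact ⟨WithAbs.equiv ν y, by
    change ((((WithAbs.equiv ν).symm ((WithAbs.equiv ν) y) : WithAbs ν)) : Completion (WithAbs ν)) = _
    rw [RingEquiv.symm_apply_apply]⟩

end compl

/-- The field of a circle whose radius is not in the divisible hull of the value group. -/
theorem exists_circle (k : Type) [NontriviallyNormedField k] [IsUltrametricDist k] (r : ℝ) (hr : 0 < r)
    (hrk : ∀ x : k, x ≠ 0 → ∀ n : ℕ, n ≠ 0 → ‖x‖ ≠ r ^ n) :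
    ∃ (H : Type) (_ : NontriviallyNormedField H) (_ : NormedAlgebra k H) (_ : CompleteSpace H)
      (_ : IsUltrametricDist H) (c : Circle k H), ‖c.v‖ = r := by
  classical
  let ν := rabs (k := k) hr
  let j : RatFunc k →+* HC ν := HC.emb ν
  have hj : ∀ f, ‖j f‖ = ν f := HC.norm_emb ν
  have hjd : DenseRange j := HC.denseRange ν
  let i0 : k →+* HC ν := j.comp (algebraMap k (RatFunc k))
  have hi0 : ∀ x, ‖i0 x‖ = ‖x‖ := by
    intro x
    change ‖j (algebraMap k (RatFunc k) x)‖ = _
    rw [hj, IsScalarTower.algebraMap_apply k k[X] (RatFunc k)]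
    refine (rabs_poly hr _).trans ?_
    exact gaussNorm_C _ _ _
  let n1 : NormedField (HC ν) := inferInstance
  obtain ⟨x0, hx0⟩ := NontriviallyNormedField.non_trivial (α := k)
  let n2 : NontriviallyNormedField (HC ν) :=
    { n1 with non_trivial := ⟨i0 x0, by rw [hi0]; exact hx0⟩ }
  let n3 : Algebra k (HC ν) := i0.toAlgebra
  let n4 : NormedAlgebra k (HC ν) :=
    { n3 with
      norm_smul_le := fun a x => by
        rw [Algebra.smul_def]
        change ‖i0 a * x‖ ≤ _
        rw [norm_mul, hi0] }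
  have n5 : IsUltrametricDist (HC ν) := by
    refine IsUltrametricDist.isUltrametricDist_of_forall_norm_add_le_max_norm fun x y => ?_
    refine hjd.induction_on₂ ?_ (fun a b => ?_) x y
    · exact isClosed_le (continuous_norm.comp continuous_add)
        ((continuous_norm.comp continuous_fst).max (continuous_norm.comp continuous_snd))
    · rw [← map_add, hj, hj, hj]
      exact rabs_add hr _ _
  have n6 : CompleteSpace (HC ν) := inferInstance
  let v : HC ν := j RatFunc.X
  have hv : ‖v‖ = r := by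
    change ‖j RatFunc.X‖ = r
    rw [hj, ← RatFunc.algebraMap_X]
    refine (rabs_poly hr _).trans ?_
    have h1 := gaussNorm_monomial (NormedField.toAbsoluteValue k) r 1 (1 : k)
    rw [monomial_one_one_eq_X] at h1
    rw [gn, h1, pow_one]
    change ‖(1 : k)‖ * r = r
    rw [norm_one, one_mul]
  have hv0 : v ≠ 0 := by
    rw [← norm_pos_iff, hv]
    exact hr
  have haev : ∀ P : k[X], aeval v P = j (algebraMap k[X] (RatFunc k) P) := by
    intro P
    have h1 : (aeval v : k[X] →ₐ[k] (HC ν)).toRingHom = j.comp (algebraMap k[X] (RatFunc k)) := by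
      refine Polynomial.ringHom_ext (fun a => ?_) ?_
      · change aeval v (C a) = j (algebraMap k[X] (RatFunc k) (C a))
        rw [aeval_C]
        change j (algebraMap k (RatFunc k) a) = _
        rw [IsScalarTower.algebraMap_apply k k[X] (RatFunc k)]
        rfl
      · change aeval v X = j (algebraMap k[X] (RatFunc k) X)
        rw [aeval_X, RatFunc.algebraMap_X]
    exact DFunLike.congr_fun h1 P
  have hnorm : ∀ P : k[X], ‖aeval v P‖ = gn r P := by
    intro P
    rw [haev, hj]
    exact rabs_poly hr P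
  have hcoeff : ∀ (P : k[X]) (i : ℕ), ‖P.coeff i‖ * ‖v‖ ^ i ≤ ‖aeval v P‖ := by
    intro P i
    rw [hnorm, hv]
    exact gn_coeff hr P i
  -- the Laurent polynomials
  let D : Subring (HC ν) :=
    { carrier := {h | ∃ (P : k[X]) (n : ℕ), h = aeval v P * v⁻¹ ^ n}
      mul_mem' := by
        rintro _ _ ⟨P, n, rfl⟩ ⟨Q, m, rfl⟩
        refine ⟨P * Q, n + m, ?_⟩
        rw [map_mul, pow_add]
        ring
      one_mem' := ⟨1, 0, by simp⟩
      add_mem' := by
        rintro _ _ ⟨P, n, rfl⟩ ⟨Q, m, rfl⟩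
        refine ⟨P * X ^ m + Q * X ^ n, n + m, ?_⟩
        have h1 : ∀ l : ℕ, v ^ l * v⁻¹ ^ l = 1 := fun l => by rw [← mul_pow, mul_inv_cancel₀ hv0, one_pow]
        simp only [map_add, map_mul, map_pow, aeval_X, pow_add]
        linear_combination (-(aeval v P * v⁻¹ ^ n)) * h1 m - (aeval v Q * v⁻¹ ^ m) * h1 n
      zero_mem' := ⟨0, 0, by simp⟩
      neg_mem' := by
        rintro _ ⟨P, n, rfl⟩
        exact ⟨-P, n, by rw [map_neg, neg_mul]⟩ }
  let D' := D.topologicalClosure
  have hDD : D ≤ D' := Subring.le_topologicalClosure D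
  have hD'c : IsClosed (D' : Set (HC ν)) := Subring.isClosed_topologicalClosure D
  have hpoly : ∀ P : k[X], aeval v P ∈ D := fun P => ⟨P, 0, by simp⟩
  have hinv : ∀ n : ℕ, v⁻¹ ^ n ∈ D := fun n => ⟨1, n, by simp⟩
  -- the inverse of a polynomial
  have hinvpoly : ∀ Q : k[X], Q ≠ 0 → (aeval v Q)⁻¹ ∈ D' := by
    intro Q hQ
    obtain ⟨i, hi⟩ := Polynomial.exists_eq_gaussNorm (NormedField.toAbsoluteValue k) r Q
    have hi' : gn r Q = ‖Q.coeff i‖ * r ^ i := hi
    have hQi : Q.coeff i ≠ 0 := by
      intro h0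
      rw [h0, norm_zero, zero_mul] at hi'
      exact gn_ne hr hQ hi'
    have hlt : ∀ l, l ≠ i → ‖Q.coeff l‖ * r ^ l < ‖Q.coeff i‖ * r ^ i := by
      intro l hl
      refine lt_of_le_of_ne (by rw [← hi']; exact gn_coeff hr Q l) fun heq => ?_
      have hQl : Q.coeff l ≠ 0 := by
        intro h0
        rw [h0, norm_zero, zero_mul] at heq
        exact (mul_pos (norm_pos_iff.2 hQi) (pow_pos hr i)).ne heq
      rcases lt_or_gt_of_ne hl with h | h
      · refine hrk (Q.coeff l / Q.coeff i) (div_ne_zero hQl hQi) (i - l) (by omega) ?_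
        rw [norm_div, div_eq_iff (norm_pos_iff.2 hQi).ne']
        have h2 : r ^ i = r ^ (i - l) * r ^ l := by rw [← pow_add, Nat.sub_add_cancel h.le]
        rw [h2] at heq
        have h3 : 0 < r ^ l := pow_pos hr l
        have h4 : ‖Q.coeff l‖ * r ^ l = (r ^ (i - l) * ‖Q.coeff i‖) * r ^ l := by rw [heq]; ring
        exact mul_right_cancel₀ h3.ne' h4
      · refine hrk (Q.coeff i / Q.coeff l) (div_ne_zero hQi hQl) (l - i) (by omega) ?_
        rw [norm_div, div_eq_iff (norm_pos_iff.2 hQl).ne']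
        have h2 : r ^ l = r ^ (l - i) * r ^ i := by rw [← pow_add, Nat.sub_add_cancel h.le]
        rw [h2] at heq
        have h3 : 0 < r ^ i := pow_pos hr i
        have h4 : ‖Q.coeff i‖ * r ^ i = (r ^ (l - i) * ‖Q.coeff l‖) * r ^ i := by rw [← heq]; ring
        exact mul_right_cancel₀ h3.ne' h4
    set b : HC ν := aeval v (monomial i (Q.coeff i)) with hb
    have hb' : b = algebraMap k (HC ν) (Q.coeff i) * v ^ i := by rw [hb, aeval_monomial]
    have hbn : ‖b‖ = ‖Q.coeff i‖ * r ^ i := by
      rw [hb', norm_mul, norm_pow, hv, norm_algebraMap']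
    have hb0 : b ≠ 0 := by
      rw [← norm_pos_iff, hbn]
      exact mul_pos (norm_pos_iff.2 hQi) (pow_pos hr i)
    have hbinv : b⁻¹ ∈ D := by
      refine ⟨C (Q.coeff i)⁻¹, i, ?_⟩
      rw [hb', mul_inv, aeval_C, map_inv₀, inv_pow]
    set t : HC ν := -(aeval v (Q - monomial i (Q.coeff i)) * b⁻¹) with ht
    have htD : t ∈ D := neg_mem (mul_mem (hpoly _) hbinv)
    have htn : ‖t‖ < 1 := by
      rw [ht, norm_neg, norm_mul, norm_inv, hbn, ← div_eq_mul_inv, div_lt_one (by rw [← hbn]; exact norm_pos_iff.2 hb0),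
        hnorm]
      obtain ⟨l, hl⟩ := Polynomial.exists_eq_gaussNorm (NormedField.toAbsoluteValue k) r
        (Q - monomial i (Q.coeff i))
      have hl' : gn r (Q - monomial i (Q.coeff i)) = ‖(Q - monomial i (Q.coeff i)).coeff l‖ * r ^ l := hl
      rw [hl', coeff_sub, coeff_monomial]
      by_cases h : l = i
      · rw [h, if_pos rfl, sub_self, norm_zero, zero_mul]
        exact mul_pos (norm_pos_iff.2 hQi) (pow_pos hr i)
      · rw [if_neg (Ne.symm h), sub_zero]
        exact hlt l h
    have hQb : aeval v Q = b * (1 - t) := by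
      rw [ht, map_sub, ← hb]
      field_simp
      ring
    rw [hQb, mul_inv]
    refine mul_mem (hDD hbinv) ?_
    have h1 := (hasSum_geometric_of_norm_lt_one htn).tendsto_sum_nat
    refine hD'c.mem_of_tendsto h1 (Eventually.of_forall fun n => ?_)
    exact hDD (sum_mem fun l _ => pow_mem htD l)
  have hall : ∀ h : HC ν, h ∈ D' := by
    intro h
    refine hjd.induction_on h hD'c fun f => ?_
    obtain ⟨P, Q, hQ, hPQ⟩ := IsFractionRing.div_surjective k[X] f
    have hQ0 : Q ≠ 0 := nonZeroDivisors.ne_zero hQ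
    have h1 : j f = aeval v P * (aeval v Q)⁻¹ := by
      rw [← hPQ, map_div₀, haev, haev, div_eq_mul_inv]
    rw [h1]
    exact mul_mem (hDD (hpoly P)) (hinvpoly Q hQ0)
  refine ⟨HC ν, n2, n4, n6, n5, ⟨v, hv0, hcoeff, fun h ε hε => ?_⟩, hv⟩
  have h1 : h ∈ closure (D : Set (HC ν)) := hall h
  rw [Metric.mem_closure_iff] at h1
  obtain ⟨_, ⟨P, n, rfl⟩, h2⟩ := h1 ε hε
  refine ⟨P, n, ?_⟩
  rw [dist_eq_norm] at h2
  exact h2

end Run7.h458
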