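import Pool.Agent.Run7.h458.KEst
set_option autoImplicit false
set_option linter.unusedSectionVars false

/-!
# Continuity of the map sharp
-/

open MvPolynomial Pool.Agent.Y129.TA

namespace Run7.h458

variable {p : ℕ} [hp : Fact p.Prime] {K F : Type} [Field K] [Field F] [CharP F p] [IsAlgClosed F]
  (T : Tilting p K F)

theorem sharp_sub_le (x y : F) (hx : T.absF x ≤ 1) (hy : T.absF y ≤ 1) :
    T.absK (T.sharp x - T.sharp y) ≤ max (T.absF (x - y)) (T.absK p) := by
  let x' : T.O := ⟨x, hx⟩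
  let y' : T.O := ⟨y, hy⟩
  let z : WittVector p T.O := WittVector.teichmuller p x' - WittVector.teichmuller p y'
  have h1 : T.θ z = T.sharp x - T.sharp y := by
    rw [map_sub, T.θ_teich, T.θ_teich]
  have h2 : z.coeff 0 = x' - y' := by
    have h3 : WittVector.constantCoeff z = WittVector.constantCoeff (WittVector.teichmuller p x') -
        WittVector.constantCoeff (WittVector.teichmuller p y') := map_sub _ _ _
    rw [WittVector.constantCoeff_apply, WittVector.constantCoeff_apply, WittVector.constantCoeff_apply,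
      WittVector.teichmuller_coeff_zero, WittVector.teichmuller_coeff_zero] at h3
    exact h3
  have h3 := Tilting.abs_θ_le T z
  rw [h1, h2] at h3
  exact h3

theorem pow_sub_pow_le {a : AbsoluteValue K ℝ} (ha : ∀ x y, a (x + y) ≤ max (a x) (a y)) (hp1 : a p < 1)
    {x y : K} (hy : a y ≤ 1) {n : ℕ} (h : a (x - y) ≤ a p ^ (n + 1)) :
    a (x ^ p - y ^ p) ≤ a p ^ (n + 2) := by
  have hpp : 0 ≤ a (p : K) := a.nonneg _
  set d := x - y with hd
  have e1 : x ^ p - y ^ p = ∑ m ∈ Finset.range p, d ^ (m + 1) * y ^ (p - (m + 1)) * (p.choose (m + 1) : K) := by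
    have e2 : x = d + y := by rw [hd]; ring
    rw [e2, add_pow, Finset.sum_range_succ']
    simp
  rw [e1]
  refine usum ha _ _ (by positivity) fun m hm => ?_
  have hm' := Finset.mem_range.1 hm
  rw [map_mul, map_mul, map_pow, map_pow]
  have hd1 : a d ≤ 1 := h.trans (pow_le_one₀ hpp hp1.le)
  have hn1 : ∀ n : ℕ, a (n : K) ≤ 1 := by
    intro n
    induction n with
    | zero => rw [Nat.cast_zero, a.map_zero]; exact zero_le_one
    | succ n ih =>
      rw [Nat.cast_succ]
      exact (ha _ _).trans (max_le ih (by rw [map_one]))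
  have hyp : a y ^ (p - (m + 1)) ≤ 1 := pow_le_one₀ (a.nonneg _) hy
  by_cases hmp : m + 1 = p
  · have h2 : a d ^ (m + 1) ≤ a p ^ (n + 2) := by
      rw [hmp]
      refine (pow_le_pow_left₀ (a.nonneg _) h p).trans ?_
      rw [← pow_mul]
      refine pow_le_pow_of_le_one hpp hp1.le ?_
      have := hp.out.two_le
      nlinarith
    calc a d ^ (m + 1) * a y ^ (p - (m + 1)) * a (p.choose (m + 1) : K)
        ≤ a p ^ (n + 2) * 1 * 1 := by
          refine mul_le_mul (mul_le_mul h2 hyp (pow_nonneg (a.nonneg _) _) (by positivity)) (hn1 _) (a.nonneg _) (by positivity)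
      _ = _ := by ring
  · obtain ⟨c, hc⟩ := hp.out.dvd_choose_self (Nat.succ_ne_zero m) (lt_of_le_of_ne hm' hmp)
    have h2 : a (p.choose (m + 1) : K) ≤ a p := by
      have hc' : p.choose (m + 1) = p * c := hc
      have h3 : (p.choose (m + 1) : K) = p * c := by rw [hc', Nat.cast_mul]
      rw [h3, map_mul]
      exact mul_le_of_le_one_right hpp (hn1 c)
    have h3 : a d ^ (m + 1) ≤ a p ^ (n + 1) := by
      refine le_trans ?_ h
      exact pow_le_of_le_one (a.nonneg _) hd1 (Nat.succ_ne_zero m)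
    calc a d ^ (m + 1) * a y ^ (p - (m + 1)) * a (p.choose (m + 1) : K)
        ≤ a p ^ (n + 1) * 1 * a p := by
          refine mul_le_mul (mul_le_mul h3 hyp (pow_nonneg (a.nonneg _) _) (by positivity)) h2 (a.nonneg _) (by positivity)
      _ = _ := by ring

theorem sharp_cont (n : ℕ) : ∀ x y : F, T.absF x ≤ 1 → T.absF y ≤ 1 → T.absF (x - y) ≤ T.absK p ^ p ^ n →
    T.absK (T.sharp x - T.sharp y) ≤ T.absK p ^ (n + 1) := by
  have hpp : 0 < T.absK p := T.absK.pos T.p_ne
  induction n with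
  | zero =>
    intro x y hx hy h
    rw [pow_zero, pow_one] at h
    rw [zero_add, pow_one]
    exact (sharp_sub_le T x y hx hy).trans (max_le h le_rfl)
  | succ n ih =>
    intro x y hx hy h
    obtain ⟨x', hx'⟩ := IsAlgClosed.exists_pow_nat_eq x hp.out.pos
    obtain ⟨y', hy'⟩ := IsAlgClosed.exists_pow_nat_eq y hp.out.pos
    have hle : ∀ z' z : F, z' ^ p = z → T.absF z ≤ 1 → T.absF z' ≤ 1 := by
      intro z' z hz h1
      rw [← hz, map_pow] at h1
      by_contra h2
      push Not at h2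
      exact absurd h1 (not_le.2 (one_lt_pow₀ h2 hp.out.ne_zero))
    have hx1 := hle x' x hx' hx
    have hy1 := hle y' y hy' hy
    have h1 : T.absF (x' - y') ≤ T.absK p ^ p ^ n := by
      rw [← hx', ← hy', ← sub_pow_char, map_pow, pow_succ, pow_mul] at h
      exact le_of_pow_le_pow_left₀ hp.out.ne_zero (by positivity) h
    have h2 := ih x' y' hx1 hy1 h1
    rw [← hx', ← hy', map_pow, map_pow]
    exact pow_sub_pow_le T.ultraK T.p_lt (by rw [T.abs_sharp]; exact hy1) h2

theorem exists_modulus {ε : ℝ} (hε : 0 < ε) : ∃ η : ℝ, 0 < η ∧ η ≤ 1 ∧ ∀ x y : F, T.absF x ≤ 1 → T.absF y ≤ 1 →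
    T.absF (x - y) ≤ η → T.absK (T.sharp x - T.sharp y) ≤ ε := by
  have hpp : 0 < T.absK p := T.absK.pos T.p_ne
  obtain ⟨n, hn⟩ := exists_pow_lt_of_lt_one hε T.p_lt
  refine ⟨T.absK p ^ p ^ n, by positivity, pow_le_one₀ hpp.le T.p_lt.le, fun x y hx hy h => ?_⟩
  refine (sharp_cont T n x y hx hy h).trans (le_trans ?_ hn.le)
  exact pow_le_pow_of_le_one hpp.le T.p_lt.le (Nat.le_succ n)

/-- Continuity of the values of a form. -/
theorem form_cont {σ : Type} [Fintype σ] {f : MvPolynomial σ K} {D : ℕ} (hf : f.IsHomogeneous D) {ε : ℝ} (hε : 0 < ε) :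
    ∃ η : ℝ, 0 < η ∧ η ≤ 1 ∧ ∀ (s : F) (x y : σ → F), s ≠ 0 → (∀ i, T.absF (x i) ≤ T.absF s) →
      (∀ i, T.absF (y i) ≤ T.absF s) → (∀ i, T.absF (x i - y i) ≤ η * T.absF s) →
        T.absK (eval (fun i => T.sharp (x i)) f - eval (fun i => T.sharp (y i)) f) ≤ ε * T.absF s ^ D := by
  obtain ⟨C, hC, hC'⟩ := lipB T.ultraK f (B := 1) zero_le_one
  obtain ⟨η, hη, hη1, hη'⟩ := exists_modulus T (show 0 < ε / C by positivity)
  refine ⟨η, hη, hη1, fun s x y hs hx hy hxy => ?_⟩
  have hs0 : 0 < T.absF s := T.absF.pos hs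
  have hdiv : ∀ z : F, T.absF z ≤ T.absF s → T.absF (z / s) ≤ 1 := fun z hz => by
    rw [map_div₀]
    exact div_le_one_of_le₀ hz hs0.le
  have hsc : ∀ z : σ → F, eval (fun i => T.sharp (z i)) f =
      T.sharp s ^ D * eval (fun i => T.sharp (z i / s)) f := by
    intro z
    rw [← eval_smul_of_homogeneous hf]
    congr 2
    funext i
    rw [← map_mul, mul_div_cancel₀ _ hs]
  rw [hsc x, hsc y, ← mul_sub, map_mul, map_pow, T.abs_sharp, mul_comm]
  refine mul_le_mul_of_nonneg_right ?_ (by positivity)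
  have h1 := hC' (fun i => T.sharp (x i / s)) (fun i => T.sharp (y i / s)) (ε / C) (by positivity)
    (fun i => by rw [T.abs_sharp]; exact hdiv _ (hx i)) (fun i => by rw [T.abs_sharp]; exact hdiv _ (hy i))
    fun i => hη' _ _ (hdiv _ (hx i)) (hdiv _ (hy i)) (by
      rw [← sub_div, map_div₀, div_le_iff₀ hs0]
      exact hxy i)
  have h2 : C * (ε / C) = ε := by field_simp
  rwa [h2] at h1

/-- A point close to a point of the cone is in the tube. -/
theorem tube_of_near {σ κ : Type} [Fintype σ] [Fintype κ] (f : κ → MvPolynomial σ K) (D : κ → ℕ)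
    (hf : ∀ k, (f k).IsHomogeneous (D k)) {ε c : ℝ} (hε : 0 < ε) (hc : 0 < c) :
    ∃ η η₁ : ℝ, 0 < η ∧ 0 < η₁ ∧ ∀ (x x' : σ → F), (∃ i, c ≤ T.absF (x i)) →
      (∀ k, T.absK (eval (fun i => T.sharp (x i)) (f k)) ≤ η₁) → (∀ i, T.absF (x' i - x i) ≤ η) →
        (∃ i, c ≤ T.absF (x' i)) ∧ ∀ (u : F) (k : κ), T.InTube (f k) (D k) ε (fun i => u * x' i) := by
  classical
  choose η hη hη1 hη' using fun k => form_cont T (hf k) hε
  obtain ⟨η₀, hη₀, hη₀'⟩ := exists_pos_le η hη
  have hcD : ∀ k, 0 < ε * c ^ D k := fun k => by positivity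
  obtain ⟨η₁, hη₁, hη₁'⟩ := exists_pos_le _ hcD
  refine ⟨min η₀ 1 * c / 2, η₁, by positivity, hη₁, fun x x' hxc hfx hxx => ?_⟩
  have hlt : min η₀ 1 * c / 2 < c := by
    have h1 : min η₀ 1 ≤ 1 := min_le_right _ _
    nlinarith
  have hne : Nonempty σ := ⟨hxc.choose⟩
  obtain ⟨b, -, hb⟩ := Finset.exists_max_image Finset.univ (fun i => T.absF (x i)) Finset.univ_nonempty
  have hb' : ∀ i, T.absF (x i) ≤ T.absF (x b) := fun i => hb i (Finset.mem_univ i)
  have hcb : c ≤ T.absF (x b) := by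
    obtain ⟨i, hi⟩ := hxc
    exact hi.trans (hb' i)
  have hb0 : x b ≠ 0 := fun h => by rw [h, T.absF.map_zero] at hcb; linarith
  have hs0 : 0 < T.absF (x b) := T.absF.pos hb0
  have hx'le : ∀ i, T.absF (x' i) ≤ T.absF (x b) := by
    intro i
    have e1 : x' i = x i + (x' i - x i) := by ring
    rw [e1]
    exact (T.ultraF _ _).trans (max_le (hb' i) ((hxx i).trans (hlt.le.trans hcb)))
  have hx'b : T.absF (x' b) = T.absF (x b) := by
    have e1 : x' b = x b + (x' b - x b) := by ring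
    rw [e1]
    exact aadd_eq T.ultraF ((hxx b).trans_lt (hlt.trans_le hcb))
  refine ⟨⟨b, by rw [hx'b]; exact hcb⟩, fun u k B hB => ?_⟩
  have h1 := hη' k (x b) x' x hb0 hx'le hb' fun i => by
    refine (hxx i).trans ?_
    have h2 : min η₀ 1 * c / 2 ≤ η₀ * c := by
      have h3 : min η₀ 1 ≤ η₀ := min_le_left _ _
      have h4 : 0 ≤ min η₀ 1 := le_min hη₀.le zero_le_one
      nlinarith
    refine h2.trans ?_
    exact mul_le_mul (hη₀' k) hcb hc.le (hη k).le
  have h2 : T.absK (eval (fun i => T.sharp (x' i)) (f k)) ≤ ε * T.absF (x b) ^ D k := by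
    have e1 : eval (fun i => T.sharp (x' i)) (f k) = (eval (fun i => T.sharp (x' i)) (f k) -
      eval (fun i => T.sharp (x i)) (f k)) + eval (fun i => T.sharp (x i)) (f k) := by ring
    rw [e1]
    refine (T.ultraK _ _).trans (max_le h1 ((hfx k).trans ((hη₁' k).trans ?_)))
    exact mul_le_mul_of_nonneg_left (pow_le_pow_left₀ hc.le hcb _) hε.le
  have h3 : eval (fun i => T.sharp (u * x' i)) (f k) = T.sharp u ^ D k * eval (fun i => T.sharp (x' i)) (f k) := by
    rw [← eval_smul_of_homogeneous (hf k)]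
    congr 2
    funext i
    rw [map_mul]
  rw [h3, map_mul, map_pow, T.abs_sharp]
  have h4 : T.absF u * T.absF (x b) ≤ B := by
    have h5 := hB b
    rwa [map_mul, hx'b] at h5
  calc T.absF u ^ D k * T.absK (eval (fun i => T.sharp (x' i)) (f k))
      ≤ T.absF u ^ D k * (ε * T.absF (x b) ^ D k) := mul_le_mul_of_nonneg_left h2 (by positivity)
    _ = ε * (T.absF u * T.absF (x b)) ^ D k := by ring
    _ ≤ ε * B ^ D k := mul_le_mul_of_nonneg_left (pow_le_pow_left₀ (by positivity) h4 _) hε.le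

end Run7.h458
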