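import Mathlib
set_option autoImplicit false
set_option linter.unusedSectionVars false

/-!
# A tower of separable extensions
-/

open Polynomial

namespace Run7.h458

/-- The value of a polynomial with coefficients in a polynomial ring, in an algebra. -/
noncomputable def val₃ {k R τ : Type} [CommRing k] [CommRing R] (κ : k →+* R) (h : Polynomial (MvPolynomial τ k))
    (u : τ → R) (w : R) : R := h.eval₂ (MvPolynomial.eval₂Hom κ u) w

theorem map_val₃ {k R R' τ : Type} [CommRing k] [CommRing R] [CommRing R'] (κ : k →+* R) (f : R →+* R')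
    (h : Polynomial (MvPolynomial τ k)) (u : τ → R) (w : R) :
    f (val₃ κ h u w) = val₃ (f.comp κ) h (fun i => f (u i)) (f w) := by
  rw [val₃, val₃, Polynomial.hom_eval₂]
  congr 1
  refine MvPolynomial.ringHom_ext (fun b => ?_) fun i => ?_
  · rw [RingHom.comp_apply, MvPolynomial.coe_eval₂Hom, MvPolynomial.eval₂_C, MvPolynomial.coe_eval₂Hom,
      MvPolynomial.eval₂_C]
    rfl
  · rw [RingHom.comp_apply, MvPolynomial.coe_eval₂Hom, MvPolynomial.eval₂_X, MvPolynomial.coe_eval₂Hom,
      MvPolynomial.eval₂_X]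

/-- The polynomials to which the lemma on towers applies. -/
structure Nice {k τ : Type} [CommRing k] (g : Polynomial (MvPolynomial τ k)) : Prop where
  monic : g.Monic
  pos : 0 < g.natDegree
  der : ∃ t : k, t ≠ 0 ∧ derivative g = C (MvPolynomial.C t)

section

variable {k : Type} [Field k] {E : Type} [Field E] [Algebra (RatFunc k) E] [Algebra k[X] E]
  [IsScalarTower k[X] (RatFunc k) E] [IsSepClosed E] {τ : Type}

/-- The constants. -/
noncomputable def cst (k R : Type) [Field k] [CommRing R] [Algebra k[X] R] : k →+* R := (algebraMap k[X] R).comp C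

theorem exists_root_sep {g : Polynomial (MvPolynomial τ k)} (hg : Nice g) (u : τ → E)
    (hu : ∀ i, IsIntegral k[X] (u i)) : ∃ w : E, IsIntegral k[X] w ∧ val₃ (cst k E) g u w = 0 := by
  set P : E[X] := g.map (MvPolynomial.eval₂Hom (cst k E) u) with hP
  have hPm : P.Monic := hg.monic.map _
  have hPn : P.natDegree = g.natDegree := hg.monic.natDegree_map _
  obtain ⟨t, ht, hd⟩ := hg.der
  have hcinj : Function.Injective (cst k E) := (cst k E).injective
  have hder : derivative P = C (cst k E t) := by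
    rw [hP, derivative_map, hd, map_C, MvPolynomial.coe_eval₂Hom, MvPolynomial.eval₂_C]
  have ht' : cst k E t ≠ 0 := by
    rwa [Ne, map_eq_zero_iff _ hcinj]
  have hsep : P.Separable := by
    rw [separable_def, hder]
    refine ⟨0, C (cst k E t)⁻¹, ?_⟩
    rw [zero_mul, zero_add, ← C_mul, inv_mul_cancel₀ ht', C_1]
  have hdeg : P.degree ≠ 0 := by
    rw [degree_eq_natDegree hPm.ne_zero, hPn]
    exact_mod_cast hg.pos.ne'
  obtain ⟨w, hw⟩ := IsSepClosed.exists_root P hdeg hsep
  have hw0 : P.eval w = 0 := hw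
  refine ⟨w, ?_, ?_⟩
  · let C' := integralClosure k[X] E
    let u' : τ → C' := fun i => ⟨u i, hu i⟩
    have h1 : IsIntegral C' w := by
      refine ⟨g.map (MvPolynomial.eval₂Hom (cst k C') u'), hg.monic.map _, ?_⟩
      rw [eval₂_map, ← hw0, hP, eval_map]
      congr 1
      refine MvPolynomial.ringHom_ext (fun b => ?_) fun i => ?_
      · rw [RingHom.comp_apply, MvPolynomial.coe_eval₂Hom, MvPolynomial.eval₂_C, MvPolynomial.coe_eval₂Hom,
          MvPolynomial.eval₂_C]
        rfl
      · rw [RingHom.comp_apply, MvPolynomial.coe_eval₂Hom, MvPolynomial.eval₂_X, MvPolynomial.coe_eval₂Hom,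
          MvPolynomial.eval₂_X]
        rfl
    exact isIntegral_trans (R := k[X]) (A := C') w h1
  · rw [val₃, ← hw0, hP, eval_map]

end

theorem exists_tower {k : Type} [Field k] {σ : Type} [Finite σ] {g₁ : Polynomial (MvPolynomial (Fin 1) k)}
    {g₂ : Polynomial (MvPolynomial (Fin 2) k)} {g₃ : σ → Polynomial (MvPolynomial (Fin 3) k)}
    (h₁ : Nice g₁) (h₂ : Nice g₂) (h₃ : ∀ i, Nice (g₃ i)) :
    ∃ (L₀ : Type) (_ : Field L₀) (_ : Algebra (RatFunc k) L₀) (_ : Algebra k[X] L₀)
      (_ : IsScalarTower k[X] (RatFunc k) L₀) (_ : FiniteDimensional (RatFunc k) L₀)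
      (_ : Algebra.IsSeparable (RatFunc k) L₀) (T₁ Θ : integralClosure k[X] L₀) (x : σ → integralClosure k[X] L₀),
      val₃ (cst k (integralClosure k[X] L₀)) g₁ ![algebraMap k[X] _ X] T₁ = 0 ∧
      val₃ (cst k (integralClosure k[X] L₀)) g₂ ![algebraMap k[X] _ X, T₁] Θ = 0 ∧
      ∀ i, val₃ (cst k (integralClosure k[X] L₀)) (g₃ i) ![algebraMap k[X] _ X, T₁, Θ] (x i) = 0 := by
  classical
  let E := SeparableClosure (RatFunc k)
  let v : E := algebraMap k[X] E X
  have hv : IsIntegral k[X] v := isIntegral_algebraMap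
  obtain ⟨w₁, hw₁, hg₁⟩ := exists_root_sep h₁ ![v] fun i => by
    fin_cases i
    exact hv
  obtain ⟨w₂, hw₂, hg₂⟩ := exists_root_sep h₂ ![v, w₁] fun i => by
    fin_cases i
    · exact hv
    · exact hw₁
  have hg₃ : ∀ i, ∃ w : E, IsIntegral k[X] w ∧ val₃ (cst k E) (g₃ i) ![v, w₁, w₂] w = 0 := fun i =>
    exists_root_sep (h₃ i) ![v, w₁, w₂] fun j => by
      fin_cases j
      · exact hv
      · exact hw₁
      · exact hw₂
  choose w₃ hw₃ hg₃ using hg₃
  let S : Set E := {w₁, w₂} ∪ Set.range w₃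
  have hSfin : Finite S := Set.Finite.to_subtype ((Set.toFinite _).union (Set.finite_range w₃))
  let L₀ : IntermediateField (RatFunc k) E := IntermediateField.adjoin (RatFunc k) S
  have hfd : FiniteDimensional (RatFunc k) L₀ := IntermediateField.finiteDimensional_adjoin fun y _ =>
    Algebra.IsIntegral.isIntegral y
  have hS : ∀ y ∈ S, y ∈ L₀ := fun y hy => IntermediateField.subset_adjoin _ _ hy
  have h1m : w₁ ∈ L₀ := hS _ (Or.inl (by simp))
  have h2m : w₂ ∈ L₀ := hS _ (Or.inl (by simp))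
  have h3m : ∀ i, w₃ i ∈ L₀ := fun i => hS _ (Or.inr ⟨i, rfl⟩)
  have hst : IsScalarTower k[X] L₀ E := by
    refine IsScalarTower.of_algebraMap_eq fun P => ?_
    rw [IsScalarTower.algebraMap_apply k[X] (RatFunc k) E, IsScalarTower.algebraMap_apply k[X] (RatFunc k) L₀]
    rfl
  have hint : ∀ (y : E) (hy : y ∈ L₀), IsIntegral k[X] y → IsIntegral k[X] (⟨y, hy⟩ : L₀) := by
    intro y hy h
    have h4 : Function.Injective (algebraMap L₀ E) := (algebraMap L₀ E).injective
    exact (isIntegral_algebraMap_iff h4).1 h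
  have hsepL : Algebra.IsSeparable (RatFunc k) L₀ := inferInstance
  let f : integralClosure k[X] L₀ →+* E := (algebraMap L₀ E).comp (algebraMap (integralClosure k[X] L₀) L₀)
  have hf : Function.Injective f := (algebraMap L₀ E).injective.comp Subtype.val_injective
  have hfc : f.comp (cst k (integralClosure k[X] L₀)) = cst k E := RingHom.ext fun b => rfl
  have hfv : f (algebraMap k[X] (integralClosure k[X] L₀) X) = v := rfl
  refine ⟨L₀, inferInstance, inferInstance, inferInstance, inferInstance, hfd, hsepL,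
    ⟨⟨w₁, h1m⟩, hint _ _ hw₁⟩, ⟨⟨w₂, h2m⟩, hint _ _ hw₂⟩, fun i => ⟨⟨w₃ i, h3m i⟩, hint _ _ (hw₃ i)⟩, ?_, ?_, fun i => ?_⟩
  · apply hf
    rw [map_val₃, map_zero, hfc, ← hg₁]
    congr 1
    funext j
    fin_cases j
    rfl
  · apply hf
    rw [map_val₃, map_zero, hfc, ← hg₂]
    congr 1
    funext j
    fin_cases j <;> rfl
  · apply hf
    rw [map_val₃, map_zero, hfc, ← hg₃ i]
    congr 1
    funext j
    fin_cases j <;> rfl

end Run7.h458
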