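import Pool.Agent.Run7.h458.Stage1
import Pool.Agent.Run7.h458.MakeCircle
import Pool.Agent.Run7.h458.FieldK
import Pool.Agent.Run7.h458.Tower
import Pool.Agent.Run7.h458.Sharp
import Pool.Agent.Run7.h458.KEst2
set_option autoImplicit false
set_option linter.unusedSectionVars false

/-!
# Assembly: preliminaries
-/

open Filter Topology Pool.Agent.Y129.TA

namespace Run7.h458

section curve

open Polynomial

theorem exists_curve₂ (p : ℕ) [hp : Fact p.Prime] {k : Type} [NontriviallyNormedField k] [CompleteSpace k]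
    [IsUltrametricDist k] {F : Type} [NormedField F] [NormedAlgebra k F] [IsUltrametricDist F] [CompleteSpace F]
    [IsAlgClosed F] [CharP F p] (hk : (Set.range fun y : k => ‖y‖).Countable) (hd : DenseNorm F)
    (L₀ : Type) [Field L₀]
    [Algebra (RatFunc k) L₀] [Algebra k[X] L₀] [IsScalarTower k[X] (RatFunc k) L₀]
    [FiniteDimensional (RatFunc k) L₀] [Algebra.IsSeparable (RatFunc k) L₀]
    {ι : Type} [Fintype ι] (y : ι → integralClosure k[X] L₀) (i₀ : ι)
    (hy : y i₀ = algebraMap k[X] (integralClosure k[X] L₀) X) (Z : Finset (ι → k)) (hZ : ∀ z ∈ Z, z i₀ = 1)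
    {r₁ r₂ ρ η η' : ℝ} (h0 : 0 < r₁) (h12 : r₁ < r₂) (hρ : 0 < ρ) (hη : ρ * r₂ ≤ η) (hη' : ρ < η')
    (hpts : ∀ a : F, r₁ < ‖a‖ → ‖a‖ < r₂ → ∀ ψ : integralClosure k[X] L₀ →+* F,
      (∀ P : k[X], ψ (algebraMap k[X] (integralClosure k[X] L₀) P) = aeval a P) →
        ∃ z ∈ Z, ∀ i, ‖ψ (y i) - algebraMap k F (z i) * a‖ ≤ ρ * ‖a‖) :
    ∃ r : ℝ, r₁ < r ∧ r < r₂ ∧ ∃ Y : Set (Option ι → F), IsClosedCone Y ∧ DimGE Y 1 ∧
      (∀ w ∈ Y, w none = 0 → w (some i₀) = 0 → w = 0) ∧ ∀ w ∈ Y,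
      (w none ≠ 0 → ‖w (some i₀)‖ ≤ r * ‖w none‖ → ∃ ψ : integralClosure k[X] L₀ →+* F,
        (∀ P : k[X], ψ (algebraMap k[X] (integralClosure k[X] L₀) P) = aeval (w (some i₀) / w none) P) ∧
          ∀ i, ‖w (some i) / w none - ψ (y i)‖ ≤ η) ∧
      (w (some i₀) ≠ 0 → r * ‖w none‖ ≤ ‖w (some i₀)‖ → ∃ z ∈ Z,
        ∀ i, ‖w (some i) / w (some i₀) - algebraMap k F (z i)‖ ≤ η') := by
  obtain ⟨r, hr1, hr2, hr⟩ := exists_radius hk h0 h12
  obtain ⟨H, iH1, iH2, iH3, iH4, c, hc⟩ := exists_circle k r (h0.trans hr1) hr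
  obtain ⟨Y, hY1, hY2, hY3, hY4⟩ := exists_curve p c (by rw [hc]; exact hr) hd L₀ y i₀ hy Z hZ (r₁ := r₁) (r₂ := r₂)
    (ρ := ρ) (η := η) (η' := η') (by rw [hc]; exact hr1) (by rw [hc]; exact hr2) hρ (by
      rw [hc]
      exact (mul_lt_mul_of_pos_left hr2 hρ).trans_le hη) hη' hpts
  rw [hc] at hY4
  exact ⟨r, hr1, hr2, Y, hY1, hY2, hY3, hY4⟩

end curve

section field

variable {p : ℕ} [hp : Fact p.Prime] {K F : Type} [Field K] [Field F]

theorem charZero_of_tilt (T : TiltPair p K F) : CharZero K := by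
  obtain ⟨ℓ, hℓ⟩ := CharP.exists K
  rcases CharP.char_is_prime_or_zero K ℓ with hprime | h0
  · exfalso
    have : Fact ℓ.Prime := ⟨hprime⟩
    have h1 : (p : ZMod ℓ) ≠ 0 := by
      intro h0
      have h2 := congrArg (ZMod.castHom (dvd_refl ℓ) K) h0
      rw [map_natCast, map_zero] at h2
      exact T.p_ne h2
    have h2 := ZMod.pow_card_sub_one_eq_one h1
    have h3 := congrArg (ZMod.castHom (dvd_refl ℓ) K) h2
    rw [map_pow, map_natCast, map_one] at h3
    have h4 := congrArg T.absK h3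
    rw [map_pow, map_one] at h4
    have h5 : T.absK p ^ (ℓ - 1) < 1 := pow_lt_one₀ (T.absK.nonneg _) T.p_lt (by
      have := hprime.two_le
      omega)
    exact h5.ne h4
  · rw [h0] at hℓ
    exact CharP.charP_to_charZero K

theorem exists_abs_between [IsAlgClosed F] (T : TiltPair p K F) {s t : ℝ} (hs : 0 < s) (hst : s < t) :
    ∃ a : F, s < T.absF a ∧ T.absF a < t := by
  have ht : 0 < t := hs.trans hst
  have hpp : 0 < T.absK p := T.absK.pos T.p_ne
  obtain ⟨ϖ, hϖ⟩ := T.surj (p : K)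
  have hϖa : T.absF ϖ = T.absK p := by rw [← T.abs_sharp, hϖ]
  have hϖ0 : ϖ ≠ 0 := fun h => by rw [h, T.absF.map_zero] at hϖa; exact hpp.ne hϖa
  set L := Real.log (T.absK p) with hL
  have hL0 : L < 0 := Real.log_neg hpp T.p_lt
  have h1 : Real.log t / L < Real.log s / L := div_lt_div_of_neg_of_lt hL0 (Real.log_lt_log hs hst)
  obtain ⟨x, hx1, hx2⟩ := exists_rat_btwn h1
  have hden : 0 < x.den := x.den_pos
  obtain ⟨a, ha⟩ := IsAlgClosed.exists_pow_nat_eq (ϖ ^ x.num) hden
  have ha0 : a ≠ 0 := by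
    rintro rfl
    rw [zero_pow hden.ne'] at ha
    exact zpow_ne_zero _ hϖ0 ha.symm
  have hap : 0 < T.absF a := T.absF.pos ha0
  have h2 : (x.den : ℝ) * Real.log (T.absF a) = x.num * L := by
    have h3 := congrArg (fun z => Real.log (T.absF z)) ha
    simp only [map_pow, map_zpow₀, Real.log_pow, Real.log_zpow, hϖa] at h3
    exact h3
  have h3 : Real.log (T.absF a) = x * L := by
    have h4 : (x : ℝ) = x.num / x.den := by
      conv_lhs => rw [← Rat.num_div_den x]
      push_cast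
      rfl
    rw [h4, div_mul_eq_mul_div, ← h2]
    field_simp
  refine ⟨a, ?_, ?_⟩
  · rw [← Real.log_lt_log_iff hs hap, h3]
    rwa [lt_div_iff_of_neg hL0] at hx2
  · rw [← Real.log_lt_log_iff hap ht, h3]
    rwa [div_lt_iff_of_neg hL0] at hx1

end field

section descend

open Polynomial

/-- The coefficients of a polynomial with coefficients in a polynomial ring. -/
def coeffs {R τ : Type} [CommRing R] (g : Polynomial (MvPolynomial τ R)) : Set R :=
  Set.range fun z : ℕ × (τ →₀ ℕ) => MvPolynomial.coeff z.2 (g.coeff z.1)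

theorem coeffs_countable {R τ : Type} [CommRing R] [Countable τ] (g : Polynomial (MvPolynomial τ R)) :
    (coeffs g).Countable := Set.countable_range _

theorem exists_descend {k F τ : Type} [Field k] [Field F] (φ : k →+* F) (g : Polynomial (MvPolynomial τ F))
    (h : ∀ x ∈ coeffs g, ∃ y, φ y = x) : ∃ g' : Polynomial (MvPolynomial τ k), g'.map (MvPolynomial.map φ) = g := by
  classical
  have hmv : ∀ f : MvPolynomial τ F, (∀ α, ∃ y, φ y = MvPolynomial.coeff α f) →
      ∃ f' : MvPolynomial τ k, MvPolynomial.map φ f' = f := by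
    intro f hf
    choose y hy using hf
    refine ⟨∑ α ∈ f.support, MvPolynomial.monomial α (y α), ?_⟩
    rw [map_sum]
    conv_rhs => rw [← MvPolynomial.support_sum_monomial_coeff f]
    refine Finset.sum_congr rfl fun α _ => ?_
    rw [MvPolynomial.map_monomial, hy]
  have h1 : ∀ i, ∃ f' : MvPolynomial τ k, MvPolynomial.map φ f' = g.coeff i := fun i =>
    hmv _ fun α => h _ ⟨(i, α), rfl⟩
  choose f hf using h1
  refine ⟨∑ i ∈ g.support, monomial i (f i), ?_⟩
  rw [Polynomial.map_sum]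
  conv_rhs => rw [g.as_sum_support]
  refine Finset.sum_congr rfl fun i _ => ?_
  rw [map_monomial, hf]

theorem Nice.descend {k F τ : Type} [Field k] [Field F] (φ : k →+* F) {g : Polynomial (MvPolynomial τ k)}
    (h : Nice (g.map (MvPolynomial.map φ))) (ht : ∀ t : F, derivative (g.map (MvPolynomial.map φ)) =
      C (MvPolynomial.C t) → ∃ y, φ y = t) : Nice g := by
  have hinj : Function.Injective (MvPolynomial.map φ : MvPolynomial τ k →+* MvPolynomial τ F) :=
    MvPolynomial.map_injective φ φ.injective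
  refine ⟨monic_of_injective hinj h.monic, ?_, ?_⟩
  · have h1 := h.pos
    rwa [natDegree_map_eq_of_injective hinj] at h1
  · obtain ⟨t, ht0, htd⟩ := h.der
    obtain ⟨y, hy⟩ := ht t htd
    refine ⟨y, fun h0 => ht0 ?_, ?_⟩
    · rw [← hy, h0, map_zero]
    · apply Polynomial.map_injective _ hinj
      rw [← derivative_map, htd, map_C, MvPolynomial.map_C, hy]

theorem val₃_map {k F τ : Type} [Field k] [Field F] (φ : k →+* F) (g : Polynomial (MvPolynomial τ k)) (u : τ → F)
    (w : F) : val₃ φ g u w = val₂ (g.map (MvPolynomial.map φ)) u w := by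
  rw [val₃, val₂_eq, Polynomial.eval₂_map]
  congr 1
  refine MvPolynomial.ringHom_ext (fun b => ?_) fun i => ?_
  · rw [MvPolynomial.coe_eval₂Hom, MvPolynomial.eval₂_C, RingHom.comp_apply, MvPolynomial.map_C, MvPolynomial.eval_C]
  · rw [MvPolynomial.coe_eval₂Hom, MvPolynomial.eval₂_X, RingHom.comp_apply, MvPolynomial.map_X, MvPolynomial.eval_X]

end descend

end Run7.h458
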