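import Pool.Agent.Run7.h458.Assembly1
set_option autoImplicit false
set_option linter.unusedSectionVars false

/-!
# Assembly: the system of equations over the tilt
-/

open Filter Topology Pool.Agent.Y129.TA

namespace Run7.h458

variable {p : ℕ} [hp : Fact p.Prime] {K F : Type} [Field K] [Field F] [CharP F p] [IsAlgClosed F]

open Polynomial in
/-- The first equation. -/
noncomputable def hprod (S : Finset K) : Polynomial (MvPolynomial (Fin 1) K) :=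
  ∏ b ∈ S, (X - C (MvPolynomial.C b * MvPolynomial.X 0)) - 1

open Polynomial in
theorem hprod_val (S : Finset K) (a w : K) : val₂ (hprod S) ![a] w = ∏ b ∈ S, (w - b * a) - 1 := by
  rw [val₂, hprod, Polynomial.map_sub, Polynomial.eval_sub, Polynomial.map_prod, Polynomial.eval_prod]
  congr 1
  · refine Finset.prod_congr rfl fun b _ => ?_
    simp
  · simp

open Polynomial in
theorem hprod_monic {S : Finset K} (hS : S.Nonempty) : (hprod S).Monic ∧ 0 < (hprod S).natDegree := by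
  have h1 : (∏ b ∈ S, (X - C (MvPolynomial.C b * MvPolynomial.X 0)) : Polynomial (MvPolynomial (Fin 1) K)).Monic :=
    monic_prod_of_monic _ _ fun b _ => monic_X_sub_C _
  have h2 : (∏ b ∈ S, (X - C (MvPolynomial.C b * MvPolynomial.X 0)) : Polynomial (MvPolynomial (Fin 1) K)).natDegree =
      S.card := by
    rw [natDegree_prod_of_monic _ _ fun b _ => monic_X_sub_C _]
    simp only [natDegree_X_sub_C, Finset.sum_const, smul_eq_mul, mul_one]
  have h3 : (1 : Polynomial (MvPolynomial (Fin 1) K)).degree <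
      (∏ b ∈ S, (X - C (MvPolynomial.C b * MvPolynomial.X 0)) : Polynomial (MvPolynomial (Fin 1) K)).degree := by
    rw [degree_one, degree_eq_natDegree h1.ne_zero, h2]
    exact_mod_cast Finset.card_pos.2 hS
  refine ⟨h1.sub_of_left h3, ?_⟩
  rw [hprod, natDegree_sub_eq_left_of_natDegree_lt, h2]
  · exact Finset.card_pos.2 hS
  · rw [natDegree_one, h2]
    exact Finset.card_pos.2 hS

open Polynomial in
theorem exists_gs (T : Tilting p K F) {σ : Type} [Fintype σ] {S : Finset K} (hS : S.Nonempty)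
    {Φ : Polynomial (MvPolynomial (Fin 2) K)} (hΦ : Φ.Monic) (hΦn : 0 < Φ.natDegree) (r : σ → MvPolynomial (Fin 3) K)
    {r₂ : ℝ} (hr₂ : 1 ≤ r₂) :
    ∃ B : ℝ, r₂ ≤ B ∧ ∀ ε : ℝ, 0 < ε → ∃ (g₁ : Polynomial (MvPolynomial (Fin 1) F))
      (g₂ : Polynomial (MvPolynomial (Fin 2) F)) (g₃ : σ → Polynomial (MvPolynomial (Fin 3) F)),
      Nice g₁ ∧ Nice g₂ ∧ (∀ i, Nice (g₃ i)) ∧ ∀ (a T₁ Θ : F) (x : σ → F), T.absF a ≤ r₂ → val₂ g₁ ![a] T₁ = 0 →
        val₂ g₂ ![a, T₁] Θ = 0 → (∀ i, val₂ (g₃ i) ![a, T₁, Θ] (x i) = 0) →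
          T.absF T₁ ≤ B ∧ T.absF Θ ≤ B ∧ (∀ i, T.absF (x i) ≤ B) ∧
          T.absK (∏ b ∈ S, (T.sharp T₁ - b * T.sharp a) - 1) ≤ ε ∧
          T.absK (val₂ Φ ![T.sharp a, T.sharp T₁] (T.sharp Θ)) ≤ ε ∧
          ∀ i, T.absK (T.sharp (x i) - MvPolynomial.eval ![T.sharp a, T.sharp T₁, T.sharp Θ] (r i)) ≤ ε := by
  classical
  obtain ⟨hm₁, hn₁⟩ := hprod_monic hS
  obtain ⟨S₁, hS₁, H₁⟩ := exists_monic_zero T hm₁ hn₁ hr₂
  obtain ⟨S₂, hS₂, H₂⟩ := exists_monic_zero T hΦ hΦn (le_max_of_le_left hr₂ : 1 ≤ max r₂ S₁)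
  have hm₃ : ∀ i, (X - C (r i) : Polynomial (MvPolynomial (Fin 3) K)).Monic := fun i => monic_X_sub_C _
  have hn₃ : ∀ i, 0 < (X - C (r i) : Polynomial (MvPolynomial (Fin 3) K)).natDegree := fun i => by
    rw [natDegree_X_sub_C]
    exact one_pos
  choose S₃ hS₃ H₃ using fun i => exists_monic_zero T (hm₃ i) (hn₃ i)
    (le_max_of_le_left (le_max_of_le_left hr₂) : 1 ≤ max (max r₂ S₁) S₂)
  have hsum : 0 ≤ ∑ i, S₃ i := Finset.sum_nonneg fun i _ => zero_le_one.trans (hS₃ i)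
  have hS₃' : ∀ i, S₃ i ≤ ∑ i, S₃ i := fun i =>
    Finset.single_le_sum (f := S₃) (fun i _ => zero_le_one.trans (hS₃ i)) (Finset.mem_univ i)
  refine ⟨r₂ + S₁ + S₂ + ∑ i, S₃ i, by linarith, fun ε hε => ?_⟩
  obtain ⟨g₁, hg₁m, hg₁n, hg₁d, hg₁⟩ := H₁ ε hε
  obtain ⟨g₂, hg₂m, hg₂n, hg₂d, hg₂⟩ := H₂ ε hε
  choose g₃ hg₃m hg₃n hg₃d hg₃ using fun i => H₃ i ε hε
  refine ⟨g₁, g₂, g₃, ⟨hg₁m, hg₁n, hg₁d⟩, ⟨hg₂m, hg₂n, hg₂d⟩, fun i => ⟨hg₃m i, hg₃n i, hg₃d i⟩,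
    fun a T₁ Θ x ha h1 h2 h3 => ?_⟩
  obtain ⟨hT₁, hT₁'⟩ := hg₁ ![a] T₁ (fun i => by fin_cases i; exact ha) h1
  obtain ⟨hΘ, hΘ'⟩ := hg₂ ![a, T₁] Θ (fun i => by
    fin_cases i
    · exact le_max_of_le_left ha
    · exact le_max_of_le_right hT₁) h2
  have hx := fun i => hg₃ i ![a, T₁, Θ] (x i) (fun j => by
    fin_cases j
    · exact le_max_of_le_left (le_max_of_le_left ha)
    · exact le_max_of_le_left (le_max_of_le_right hT₁)
    · exact le_max_of_le_right hΘ) (h3 i)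
  have e1 : (fun i => T.sharp ((![a] : Fin 1 → F) i)) = ![T.sharp a] := by
    funext i
    fin_cases i
    rfl
  have e2 : (fun i => T.sharp ((![a, T₁] : Fin 2 → F) i)) = ![T.sharp a, T.sharp T₁] := by
    funext i
    fin_cases i <;> rfl
  have e3 : (fun i => T.sharp ((![a, T₁, Θ] : Fin 3 → F) i)) = ![T.sharp a, T.sharp T₁, T.sharp Θ] := by
    funext i
    fin_cases i <;> rfl
  rw [e1, hprod_val] at hT₁'
  rw [e2] at hΘ'
  refine ⟨by linarith, by linarith, fun i => by linarith [(hx i).1, hS₃' i], hT₁', hΘ', fun i => ?_⟩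
  have h4 := (hx i).2
  rw [e3] at h4
  have e4 : val₂ (X - C (r i)) ![T.sharp a, T.sharp T₁, T.sharp Θ] (T.sharp (x i)) =
      T.sharp (x i) - MvPolynomial.eval ![T.sharp a, T.sharp T₁, T.sharp Θ] (r i) := by
    simp [val₂]
  rw [e4] at h4
  exact h4

end Run7.h458
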