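import Pool.Agent.Run7.h458.Assembly2
set_option autoImplicit false
set_option linter.unusedSectionVars false

/-!
# Assembly: the curve in the tube
-/

open Filter Topology Pool.Agent.Y129.TA

namespace Run7.h458

theorem sharp_div {p : ℕ} {K F : Type} [Field K] [Field F] (T : TiltPair p K F) (x a : F) (ha : a ≠ 0) :
    T.sharp (x / a) = T.sharp x / T.sharp a := by
  have h1 : T.sharp a ≠ 0 := by
    intro h0
    have h := T.abs_sharp a
    rw [h0, AbsoluteValue.map_zero] at h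
    exact ha (T.absF.eq_zero.1 h.symm)
  rw [eq_div_iff h1, ← map_mul, div_mul_cancel₀ _ ha]

open Polynomial in
theorem der_mem_coeffs {F τ : Type} [Field F] {g : Polynomial (MvPolynomial τ F)} {t : F}
    (h : derivative g = C (MvPolynomial.C t)) : t ∈ coeffs g := by
  have h1 := congrArg (fun f => MvPolynomial.coeff 0 (f.coeff 0)) h
  simp only [coeff_derivative, Nat.cast_zero, zero_add, mul_one, coeff_C_zero, MvPolynomial.coeff_zero_C] at h1
  exact ⟨(1, 0), h1⟩

open Polynomial in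
theorem exists_tube_curve {p : ℕ} [hp : Fact p.Prime] {K F : Type} [Field K] [IsAlgClosed K] [NormedField F]
    [IsAlgClosed F] [CharP F p] [CompleteSpace F] (T : Tilting p K F) (hT : ∀ x, T.absF x = ‖x‖) {σ : Type} [Fintype σ]
    {Z : Set (σ → K)} (hZ : IsClosedCone Z) (h1 : DimGE Z 1) (h2 : DimLE Z 1) {κ : Type} [Fintype κ]
    (f : κ → MvPolynomial σ K) (D : κ → ℕ) (hf : ∀ k, (f k).IsHomogeneous (D k))
    (hfZ : ∀ k, ∀ x ∈ Z, MvPolynomial.eval x (f k) = 0) {ε : ℝ} (hε : 0 < ε) :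
    ∃ Y : Set (Option (Option σ) → F), IsClosedCone Y ∧ DimGE Y 1 ∧
      ∀ w ∈ Y, w ≠ 0 → (∃ i, w (some (some i)) ≠ 0) ∧ ∀ k, T.InTube (f k) (D k) ε fun i => w (some (some i)) := by
  classical
  have hc0 : CharZero K := charZero_of_tilt T.toTiltPair
  have hultra : IsUltrametricDist F := by
    refine IsUltrametricDist.isUltrametricDist_of_forall_norm_add_le_max_norm fun x y => ?_
    rw [← hT, ← hT, ← hT]
    exact T.ultraF x y
  have hd : DenseNorm F := fun s t hs hst => by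
    obtain ⟨a, ha⟩ := exists_abs_between T.toTiltPair hs hst
    exact ⟨a, by rw [← hT]; exact ha.1, by rw [← hT]; exact ha.2⟩
  obtain ⟨e, lam, q, Φ, N, Ψ, S₀, he, hq, hΦ, hΦn, hΨ, hΨh, htri⟩ := exists_triangular hZ h1 h2
  obtain ⟨S, hS₀, hScard⟩ := Infinite.exists_superset_card_eq S₀ (S₀.card + ∑ i, N i + 1) (by omega)
  have hSne : S.Nonempty := Finset.card_pos.1 (by omega)
  have hSN : ∀ i, N i + 1 ≤ S.card := fun i => by
    have h3 := Finset.single_le_sum (f := N) (fun i _ => Nat.zero_le _) (Finset.mem_univ i)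
    omega
  obtain ⟨r, hr⟩ := htri S hS₀ hSne
  obtain ⟨C₀, c, η₀, hC1, hc, hη₀, hη₀1, hest⟩ := estimate2 T.ultraK he lam hq hΨ hΨh S hSne
  have hC0 : 0 < C₀ := zero_lt_one.trans_le hC1
  obtain ⟨ηt, ηt1, hηt, hηt1, htube⟩ := tube_of_near T f D hf hε hc
  -- the radii
  set r₁ : ℝ := 1 + ∑ i, C₀ * (4 / ηt) ^ N i with hr₁
  have hterm : ∀ i, 0 ≤ C₀ * (4 / ηt) ^ N i := fun i => by positivity
  have hr₁1 : 1 ≤ r₁ := by
    have : 0 ≤ ∑ i, C₀ * (4 / ηt) ^ N i := Finset.sum_nonneg fun i _ => hterm i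
    linarith
  have hr₁0 : 0 < r₁ := zero_lt_one.trans_le hr₁1
  have hr₁i : ∀ i, C₀ * (4 / ηt) ^ N i ≤ r₁ := fun i => by
    have := Finset.single_le_sum (f := fun i => C₀ * (4 / ηt) ^ N i) (fun i _ => hterm i) (Finset.mem_univ i)
    linarith
  set ρ : ℝ := ηt / (4 * r₁) with hρ
  have hρ0 : 0 < ρ := by positivity
  have hρN : ∀ i, C₀ / r₁ ^ S.card ≤ ρ ^ N i := by
    intro i
    have h3 : r₁ * r₁ ^ N i ≤ r₁ ^ S.card := by
      rw [← pow_succ']
      exact pow_le_pow_right₀ hr₁1 (hSN i)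
    have h4 : C₀ / r₁ ^ S.card ≤ C₀ / (r₁ * r₁ ^ N i) :=
      div_le_div_of_nonneg_left hC0.le (by positivity) h3
    refine h4.trans ?_
    have h5 : ρ ^ N i = (ηt / 4) ^ N i / r₁ ^ N i := by
      rw [hρ, ← div_div, div_pow (ηt / 4)]
    rw [h5, ← div_div]
    refine div_le_div_of_nonneg_right ?_ (by positivity)
    rw [div_le_iff₀ hr₁0]
    have h6 := mul_le_mul_of_nonneg_left (hr₁i i) (show 0 ≤ (ηt / 4) ^ N i by positivity)
    have h7 : (ηt / 4) ^ N i * (C₀ * (4 / ηt) ^ N i) = C₀ := by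
      have h8 : (ηt / 4) ^ N i * (4 / ηt) ^ N i = 1 := by
        rw [← mul_pow]
        have : ηt / 4 * (4 / ηt) = 1 := by field_simp
        rw [this, one_pow]
      calc _ = C₀ * ((ηt / 4) ^ N i * (4 / ηt) ^ N i) := by ring
        _ = _ := by rw [h8, mul_one]
    rwa [h7] at h6
  have hρt : ρ < ηt := by
    rw [hρ, div_lt_iff₀ (by positivity)]
    nlinarith
  set η₂ : ℝ := min (min η₀ ηt1) (C₀ / r₁ ^ S.card) with hη₂
  have hη₂0 : 0 < η₂ := by positivity
  -- the roots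
  choose R hR using fun (b : K) (i : σ) => exists_roots T (f := (Ψ i).map (MvPolynomial.eval (Qf e lam ![1, b])))
    ((hΨ i).1.map _) (by rw [(hΨ i).1.natDegree_map, (hΨ i).2.1]; exact (hΨ i).2.2) hC1
    (ε := C₀ / r₁ ^ S.card) (by positivity)
  -- the equations
  obtain ⟨B, hB, hgs⟩ := exists_gs T hSne hΦ hΦn r (r₂ := 2 * r₁) (by linarith)
  obtain ⟨ε₁, hε₁, hest1⟩ := estimate1 T.ultraK hr f hfZ (B := B) (η := η₂) (by linarith) hη₂0
  obtain ⟨g₁, g₂, g₃, hg₁, hg₂, hg₃, hg⟩ := hgs (min ε₁ (1 / 2)) (by positivity)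
  have hpoint : ∀ (a T₁ Θ : F) (x : σ → F), T.absF a ≤ 2 * r₁ → val₂ g₁ ![a] T₁ = 0 →
      val₂ g₂ ![a, T₁] Θ = 0 → (∀ i, val₂ (g₃ i) ![a, T₁, Θ] (x i) = 0) →
      (∀ k, T.absK (MvPolynomial.eval (fun i => T.sharp (x i)) (f k)) ≤ ηt1) ∧ (∃ i, c ≤ T.absF (x i)) ∧
      (∃ i, c * T.absF a ≤ T.absF (x i)) ∧ (1 ≤ T.absF a → (∀ i, T.absF (x i) ≤ C₀ * T.absF a) ∧
        ∃ b ∈ S, ∀ i, T.absK (val₂ (Ψ i) (Qf e lam ![1, b]) (T.sharp (x i) / T.sharp a)) ≤
          max η₂ (C₀ / T.absF a ^ S.card)) := by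
    intro a T₁ Θ x ha h3 h4 h5
    obtain ⟨hT₁, hΘ, hx, h6, h7, h8⟩ := hg a T₁ Θ x ha h3 h4 h5
    have haB : T.absF a ≤ B := ha.trans hB
    obtain ⟨h9, h10, h11⟩ := hest1 ![T.sharp a, T.sharp T₁] (T.sharp Θ) (fun i => T.sharp (x i)) (fun j => by
        fin_cases j
        · change T.absK (T.sharp a) ≤ B
          rw [T.abs_sharp]
          exact haB
        · change T.absK (T.sharp T₁) ≤ B
          rw [T.abs_sharp]
          exact hT₁) (by rw [T.abs_sharp]; exact hΘ) (fun i => by rw [T.abs_sharp]; exact hx i)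
      (h6.trans (min_le_left _ _)) (h7.trans (min_le_left _ _)) fun i => (h8 i).trans (min_le_left _ _)
    have hη₂le : η₂ ≤ η₀ := (min_le_left _ _).trans (min_le_left _ _)
    obtain ⟨h12, h13, h14⟩ := hest ![T.sharp a, T.sharp T₁] (fun i => T.sharp (x i))
      (by
        refine (h6.trans (min_le_right _ _)).trans_lt ?_
        norm_num) (fun j => (h10 j).trans hη₂le) fun i => (h11 i).trans hη₂le
    refine ⟨fun k => (h9 k).trans ((min_le_left _ _).trans (min_le_right _ _)), ?_, ?_, fun ha1 => ?_⟩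
    · obtain ⟨i, hi⟩ := h12
      exact ⟨i, by rwa [T.abs_sharp] at hi⟩
    · obtain ⟨i, hi⟩ := h13
      refine ⟨i, ?_⟩
      rw [T.abs_sharp] at hi
      change c * T.absK (T.sharp a) ≤ _ at hi
      rwa [T.abs_sharp] at hi
    · obtain ⟨h15, h16⟩ := h14 (by
        change 1 ≤ T.absK (T.sharp a)
        rwa [T.abs_sharp])
      refine ⟨fun i => ?_, ?_⟩
      · have h17 := h15 i
        change T.absK (T.sharp (x i)) ≤ C₀ * T.absK (T.sharp a) at h17
        rwa [T.abs_sharp, T.abs_sharp] at h17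
      · obtain ⟨b, hb, h18⟩ := h16 η₂ h11
        refine ⟨b, hb, fun i => ?_⟩
        have h19 := h18 i
        change T.absK (val₂ (Ψ i) (Qf e lam ![1, b]) (T.sharp (x i) / T.sharp a)) ≤
          max η₂ (C₀ / T.absK (T.sharp a) ^ S.card) at h19
        rwa [T.abs_sharp] at h19
  -- the field
  obtain ⟨u, hu, -⟩ := hd 1 2 one_pos (by norm_num)
  let 𝒮 : Set F := coeffs g₁ ∪ coeffs g₂ ∪ (⋃ i, coeffs (g₃ i)) ∪ (⋃ b ∈ S, ⋃ i, (R b i : Set F)) ∪ {u}
  have h𝒮 : 𝒮.Countable := by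
    refine Set.Countable.union (Set.Countable.union (Set.Countable.union (Set.Countable.union ?_ ?_) ?_) ?_) ?_
    · exact coeffs_countable _
    · exact coeffs_countable _
    · exact Set.countable_iUnion fun i => coeffs_countable _
    · exact Set.Countable.biUnion S.countable_toSet fun b _ => Set.countable_iUnion fun i => (R b i).countable_toSet
    · exact Set.countable_singleton u
  obtain ⟨k, ik1, ik2, ik3, ik4, hkS, hkc⟩ := exists_subfield 𝒮 h𝒮 ⟨u, Or.inr rfl, hu⟩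
  obtain ⟨g₁', hg₁'⟩ := exists_descend (algebraMap k F) g₁ fun x hx => hkS x (Or.inl (Or.inl (Or.inl (Or.inl hx))))
  obtain ⟨g₂', hg₂'⟩ := exists_descend (algebraMap k F) g₂ fun x hx => hkS x (Or.inl (Or.inl (Or.inl (Or.inr hx))))
  choose g₃' hg₃' using fun i => exists_descend (algebraMap k F) (g₃ i) fun x hx =>
    hkS x (Or.inl (Or.inl (Or.inr (Set.mem_iUnion.2 ⟨i, hx⟩))))
  have hn₁ : Nice g₁' := Nice.descend (algebraMap k F) (by rw [hg₁']; exact hg₁) fun t ht => by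
    rw [hg₁'] at ht
    exact hkS t (Or.inl (Or.inl (Or.inl (Or.inl (der_mem_coeffs ht)))))
  have hn₂ : Nice g₂' := Nice.descend (algebraMap k F) (by rw [hg₂']; exact hg₂) fun t ht => by
    rw [hg₂'] at ht
    exact hkS t (Or.inl (Or.inl (Or.inl (Or.inr (der_mem_coeffs ht)))))
  have hn₃ : ∀ i, Nice (g₃' i) := fun i =>
    Nice.descend (algebraMap k F) (by rw [hg₃' i]; exact hg₃ i) fun t ht => by
      rw [hg₃' i] at ht
      exact hkS t (Or.inl (Or.inl (Or.inr (Set.mem_iUnion.2 ⟨i, der_mem_coeffs ht⟩))))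
  obtain ⟨L₀, iL1, iL2, iL3, iL4, iL5, iL6, T₁, Θ, x, hx1, hx2, hx3⟩ := exists_tower hn₁ hn₂ hn₃
  -- the points
  have hψpt : ∀ (a : F) (ψ : integralClosure k[X] L₀ →+* F), T.absF a ≤ 2 * r₁ →
      (∀ P : k[X], ψ (algebraMap k[X] (integralClosure k[X] L₀) P) = aeval a P) →
      val₂ g₁ ![a] (ψ T₁) = 0 ∧ val₂ g₂ ![a, ψ T₁] (ψ Θ) = 0 ∧ ∀ i, val₂ (g₃ i) ![a, ψ T₁, ψ Θ] (ψ (x i)) = 0 := by
    intro a ψ _ hψ
    have hcst : ψ.comp (cst k (integralClosure k[X] L₀)) = algebraMap k F := by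
      refine RingHom.ext fun b => ?_
      change ψ (algebraMap k[X] _ (C b)) = _
      rw [hψ, aeval_C]
    have hψX : ψ (algebraMap k[X] (integralClosure k[X] L₀) X) = a := by rw [hψ, aeval_X]
    refine ⟨?_, ?_, fun i => ?_⟩
    · have h3 := congrArg ψ hx1
      rw [map_val₃, hcst, map_zero, val₃_map, hg₁'] at h3
      rw [← h3]
      congr 1
      funext j
      fin_cases j
      exact hψX.symm
    · have h3 := congrArg ψ hx2
      rw [map_val₃, hcst, map_zero, val₃_map, hg₂'] at h3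
      rw [← h3]
      congr 1
      funext j
      fin_cases j
      · exact hψX.symm
      · rfl
    · have h3 := congrArg ψ (hx3 i)
      rw [map_val₃, hcst, map_zero, val₃_map, hg₃' i] at h3
      rw [← h3]
      congr 1
      funext j
      fin_cases j
      · exact hψX.symm
      · rfl
      · rfl
  have hP : ∀ (a : F) (ψ : integralClosure k[X] L₀ →+* F), T.absF a ≤ 2 * r₁ →
      (∀ P : k[X], ψ (algebraMap k[X] (integralClosure k[X] L₀) P) = aeval a P) → _ := fun a ψ ha hψ =>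
    hpoint a (ψ T₁) (ψ Θ) (fun i => ψ (x i)) ha (hψpt a ψ ha hψ).1 (hψpt a ψ ha hψ).2.1 (hψpt a ψ ha hψ).2.2
  let y : Option σ → integralClosure k[X] L₀ := fun o => o.elim (algebraMap k[X] _ X) x
  -- the centers
  let 𝒵 : Set (Option σ → k) := {z | z none = 1 ∧ (∃ b ∈ S, ∀ i, algebraMap k F (z (some i)) ∈ R b i) ∧
    ∃ (a : F) (ψ : integralClosure k[X] L₀ →+* F), r₁ < ‖a‖ ∧ ‖a‖ < 2 * r₁ ∧
      (∀ P : k[X], ψ (algebraMap k[X] (integralClosure k[X] L₀) P) = aeval a P) ∧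
        ∀ o, ‖ψ (y o) - algebraMap k F (z o) * a‖ ≤ ρ * ‖a‖}
  have h𝒵 : 𝒵.Finite := by
    have h3 : (⋃ b ∈ S, {z : Option σ → k | ∀ o, z o ∈ (o.elim {1} fun i => algebraMap k F ⁻¹' (R b i : Set F) :
        Set k)}).Finite := by
      refine Set.Finite.biUnion S.finite_toSet fun b _ => Set.Finite.pi' fun o => ?_
      rcases o with _ | i
      · exact Set.finite_singleton 1
      · exact (R b i).finite_toSet.preimage (algebraMap k F).injective.injOn
    refine h3.subset ?_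
    rintro z ⟨hz1, ⟨b, hb, hz2⟩, -⟩
    refine Set.mem_biUnion hb ?_
    rintro (_ | i)
    · exact hz1
    · exact hz2 i
  have hpts : ∀ a : F, r₁ < ‖a‖ → ‖a‖ < 2 * r₁ → ∀ ψ : integralClosure k[X] L₀ →+* F,
      (∀ P : k[X], ψ (algebraMap k[X] (integralClosure k[X] L₀) P) = aeval a P) →
        ∃ z ∈ h𝒵.toFinset, ∀ i, ‖ψ (y i) - algebraMap k F (z i) * a‖ ≤ ρ * ‖a‖ := by
    intro a ha1 ha2 ψ hψ
    have ha0 : 0 < ‖a‖ := hr₁0.trans ha1
    have hane : a ≠ 0 := norm_pos_iff.1 ha0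
    obtain ⟨-, -, -, h3⟩ := hP a ψ (by rw [hT]; exact ha2.le) hψ
    obtain ⟨h4, b, hb, h5⟩ := h3 (by rw [hT]; linarith)
    have h6 : ∀ i, ∃ z : F, z ∈ R b i ∧ ‖ψ (x i) - z * a‖ ≤ ρ * ‖a‖ := by
      intro i
      obtain ⟨z, hz, hz2⟩ := hR b i (ψ (x i) / a) (by
        rw [map_div₀, div_le_iff₀ (by rw [hT]; exact ha0)]
        exact h4 i)
      refine ⟨z, hz, ?_⟩
      rw [(hΨ i).1.natDegree_map, (hΨ i).2.1, sharp_div T.toTiltPair _ _ hane] at hz2
      have h7 : T.absF (ψ (x i) / a - z) ^ N i ≤ ρ ^ N i := by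
        refine hz2.trans ((max_le ?_ le_rfl).trans (hρN i))
        refine (h5 i).trans (max_le (min_le_right _ _) ?_)
        refine div_le_div_of_nonneg_left hC0.le (by positivity) ?_
        rw [hT]
        exact pow_le_pow_left₀ hr₁0.le ha1.le _
      have h8 := le_of_pow_le_pow_left₀ (hΨ i).2.2.ne' hρ0.le h7
      rw [hT] at h8
      have e1 : ψ (x i) - z * a = (ψ (x i) / a - z) * a := by
        rw [sub_mul, div_mul_cancel₀ _ hane]
      rw [e1, norm_mul]
      exact mul_le_mul_of_nonneg_right h8 ha0.le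
    choose z hz hz2 using h6
    choose z' hz' using fun i => hkS (z i) (Or.inl (Or.inr (Set.mem_biUnion hb (Set.mem_iUnion.2 ⟨i, hz i⟩))))
    have h7 : ∀ o : Option σ, ‖ψ (y o) - algebraMap k F ((o.elim 1 z' : k)) * a‖ ≤ ρ * ‖a‖ := by
      rintro (_ | i)
      · change ‖ψ (algebraMap k[X] _ X) - algebraMap k F 1 * a‖ ≤ _
        rw [hψ, aeval_X, map_one, one_mul, sub_self, norm_zero]
        positivity
      · change ‖ψ (x i) - algebraMap k F (z' i) * a‖ ≤ _
        rw [hz']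
        exact hz2 i
    refine ⟨fun o => o.elim 1 z', ?_, h7⟩
    rw [Set.Finite.mem_toFinset]
    refine ⟨rfl, ⟨b, hb, fun i => ?_⟩, a, ψ, ha1, ha2, hψ, h7⟩
    change algebraMap k F (z' i) ∈ R b i
    rw [hz']
    exact hz i
  obtain ⟨rr, hrr1, hrr2, Y, hY1, hY2, hY3, hY4⟩ := exists_curve₂ p hkc hd L₀ y none rfl h𝒵.toFinset
    (fun z hz => ((Set.Finite.mem_toFinset _).1 hz).1) (r₁ := r₁) (r₂ := 2 * r₁) (ρ := ρ) (η := ηt) (η' := ηt)
    hr₁0 (by linarith) hρ0 (by
      rw [hρ, div_mul_eq_mul_div, div_le_iff₀ (by positivity)]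
      nlinarith) hρt hpts
  refine ⟨Y, hY1, hY2, fun w hw hw0 => ?_⟩
  have hrr0 : 0 < rr := hr₁0.trans hrr1
  by_cases hV : w none ≠ 0 ∧ ‖w (some none)‖ ≤ rr * ‖w none‖
  · obtain ⟨hn0, hle⟩ := hV
    obtain ⟨ψ, hψ, hψ2⟩ := (hY4 w hw).1 hn0 hle
    have ha : T.absF (w (some none) / w none) ≤ 2 * r₁ := by
      rw [hT, norm_div, div_le_iff₀ (norm_pos_iff.2 hn0)]
      refine hle.trans ?_
      exact mul_le_mul_of_nonneg_right hrr2.le (norm_nonneg _)
    obtain ⟨h3, h4, -, -⟩ := hP _ ψ ha hψ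
    obtain ⟨⟨i, hi⟩, h5⟩ := htube (fun i => ψ (x i)) (fun i => w (some (some i)) / w none) h4 h3 fun i => by
      rw [hT]
      exact hψ2 (some i)
    refine ⟨⟨i, fun h0 => ?_⟩, fun l => ?_⟩
    · rw [h0, zero_div, T.absF.map_zero] at hi
      linarith
    · have h6 := h5 (w none) l
      have e1 : (fun i => w none * (w (some (some i)) / w none)) = fun i => w (some (some i)) := by
        funext i
        rw [mul_div_cancel₀ _ hn0]
      rw [e1] at h6
      exact h6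
  · have hW : w (some none) ≠ 0 ∧ rr * ‖w none‖ ≤ ‖w (some none)‖ := by
      by_cases hn0 : w none = 0
      · refine ⟨fun h0 => hw0 (hY3 w hw hn0 h0), ?_⟩
        rw [hn0, norm_zero, mul_zero]
        exact norm_nonneg _
      · have h3 : rr * ‖w none‖ < ‖w (some none)‖ := by
          by_contra hlt
          exact hV ⟨hn0, not_lt.1 hlt⟩
        refine ⟨fun h0 => ?_, h3.le⟩
        rw [h0, norm_zero] at h3
        exact absurd (mul_pos hrr0 (norm_pos_iff.2 hn0)) (not_lt.2 h3.le)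
    obtain ⟨hs0, hle⟩ := hW
    obtain ⟨z, hz, hz2⟩ := (hY4 w hw).2 hs0 hle
    obtain ⟨hz3, -, a, ψ, ha1, ha2, hψ, hψ2⟩ := (Set.Finite.mem_toFinset _).1 hz
    have ha0 : 0 < ‖a‖ := hr₁0.trans ha1
    have hane : a ≠ 0 := norm_pos_iff.1 ha0
    have hTa : 1 ≤ T.absF a := by rw [hT]; linarith
    obtain ⟨h3, -, h4, -⟩ := hP a ψ (by rw [hT]; exact ha2.le) hψ
    have hTa0 : 0 < T.absF a := zero_lt_one.trans_le hTa
    obtain ⟨⟨i, hi⟩, h5⟩ := htube (fun i => ψ (x i) / a) (fun i => w (some (some i)) / w (some none)) (by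
      obtain ⟨i, hi⟩ := h4
      refine ⟨i, ?_⟩
      rw [map_div₀, le_div_iff₀ hTa0]
      exact hi) (fun l => by
      have e1 : MvPolynomial.eval (fun i => T.sharp (ψ (x i))) (f l) =
          T.sharp a ^ D l * MvPolynomial.eval (fun i => T.sharp (ψ (x i) / a)) (f l) := by
        rw [← eval_smul_of_homogeneous (hf l)]
        congr 2
        funext i
        rw [← map_mul, mul_div_cancel₀ _ hane]
      have h6 := h3 l
      rw [e1, map_mul, map_pow, T.abs_sharp] at h6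
      refine le_trans ?_ h6
      exact le_mul_of_one_le_left (T.absK.nonneg _) (one_le_pow₀ hTa)) fun i => by
      have h6 := hz2 (some i)
      have h7 := hψ2 (some i)
      change ‖ψ (x i) - algebraMap k F (z (some i)) * a‖ ≤ ρ * ‖a‖ at h7
      have e1 : w (some (some i)) / w (some none) - ψ (x i) / a =
          (w (some (some i)) / w (some none) - algebraMap k F (z (some i))) -
            (ψ (x i) - algebraMap k F (z (some i)) * a) / a := by
        field_simp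
        ring
      rw [hT, e1]
      refine (nsub_le_max _ _).trans (max_le h6 ?_)
      rw [norm_div, div_le_iff₀ ha0]
      exact h7.trans (mul_le_mul_of_nonneg_right hρt.le ha0.le)
    refine ⟨⟨i, fun h0 => ?_⟩, fun l => ?_⟩
    · rw [h0, zero_div, T.absF.map_zero] at hi
      linarith
    · have h6 := h5 (w (some none)) l
      have e1 : (fun i => w (some none) * (w (some (some i)) / w (some none))) = fun i => w (some (some i)) := by
        funext i
        rw [mul_div_cancel₀ _ hs0]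
      rw [e1] at h6
      exact h6

end Run7.h458
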