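import Pool.Agent.R388.TP.Gens
set_option autoImplicit false
set_option linter.unusedSectionVars false

/-!
# The dimension does not decrease under specialization
-/

open MvPolynomial Pool.Agent.Y129.TA

namespace Run7.h458

/-- The polynomial with the monomials of `f` and with variables as coefficients. -/
noncomputable def gen {F α ν : Type} [Field F] (R : Type) [CommRing R] (f : MvPolynomial α F) (i : ν) :
    MvPolynomial α (MvPolynomial (ν × (α →₀ ℕ)) R) :=
  ∑ β ∈ f.support, monomial β (X (i, β))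

theorem map_gen {F α ν R : Type} [Field F] [CommRing R] (φ : R →+* F) (w : ν × (α →₀ ℕ) → F)
    (f : MvPolynomial α F) (i : ν) :
    map (eval₂Hom φ w) (gen R f i) = ∑ β ∈ f.support, monomial β (w (i, β)) := by
  rw [gen, map_sum]
  refine Finset.sum_congr rfl fun β _ => ?_
  rw [map_monomial, coe_eval₂Hom, eval₂_X]

theorem map_gen_hom {F α ν R : Type} [Field F] [CommRing R] (φ : R →+* F) (w : ν × (α →₀ ℕ) → F)
    {f : MvPolynomial α F} {D : ℕ} (hf : f.IsHomogeneous D) (i : ν) :
    (map (eval₂Hom φ w) (gen R f i)).IsHomogeneous D := by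
  rw [map_gen]
  refine IsHomogeneous.sum _ _ _ fun β hβ => isHomogeneous_monomial _ ?_
  have h1 := hf (mem_support_iff.1 hβ)
  rw [← h1, Finsupp.degree_eq_weight_one (R := ℕ)]
  rfl

/-- The exponents of degree `L`. -/
noncomputable def exps (n L : ℕ) : Finset (Fin n →₀ ℕ) := Finset.univ.finsuppAntidiag L

theorem mem_exps {n L : ℕ} {β : Fin n →₀ ℕ} : β ∈ exps n L ↔ β.degree = L := by
  rw [exps, Finset.mem_finsuppAntidiag, Finsupp.degree_eq_sum]
  exact ⟨fun h => h.1, fun h => ⟨h, Finset.subset_univ _⟩⟩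

theorem component_eq {F : Type} [Field F] {n : ℕ} (L : ℕ) (f : MvPolynomial (Fin n) F) :
    homogeneousComponent L f = ∑ β ∈ exps n L, monomial β (coeff β f) := by
  classical
  ext γ
  rw [coeff_homogeneousComponent, coeff_sum]
  simp only [coeff_monomial]
  rw [Finset.sum_ite_eq']
  by_cases h : γ.degree = L
  · rw [if_pos h, if_pos (mem_exps.2 h)]
  · rw [if_neg h, if_neg fun h' => h (mem_exps.1 h')]

theorem dimGE_specialize {E₁ F : Type} [Field E₁] [Field F] [Algebra E₁ F] [IsAlgClosed F] {m n d : ℕ}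
    {κ : Type} [Fintype κ] {s z : Fin m → F}
    (hsz : ∀ f : MvPolynomial (Fin m) E₁, aeval s f = 0 → aeval z f = 0)
    (G : κ → MvPolynomial (Fin n) (MvPolynomial (Fin m) E₁)) (D : κ → ℕ)
    (hG : ∀ l, (G l).IsHomogeneous (D l))
    (h : DimGE {y : Fin n → F | ∀ l, eval y (map (aeval s).toRingHom (G l)) = 0} d) :
    DimGE {y : Fin n → F | ∀ l, eval y (map (aeval z).toRingHom (G l)) = 0} d := by
  classical
  have hinf : Infinite F := IsAlgClosed.instInfinite
  intro q hq
  by_contra hno
  push Not at hno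
  choose Dq hDq hqD using hq
  let I : Ideal (MvPolynomial (Fin n) F) :=
    Ideal.span (Set.range (Sum.elim (fun l => map (aeval z).toRingHom (G l)) q))
  obtain ⟨L, hL⟩ : ∃ L : ℕ, (Ideal.span (Set.range (X : Fin n → MvPolynomial (Fin n) F))) ^ L ≤ I := by
    have h1 : Ideal.span (Set.range (X : Fin n → MvPolynomial (Fin n) F)) ≤ I.radical := by
      rw [Ideal.span_le]
      rintro _ ⟨i, rfl⟩
      rw [SetLike.mem_coe, ← vanishingIdeal_zeroLocus_eq_radical (K := F), mem_vanishingIdeal_iff]
      intro w hw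
      rw [mem_zeroLocus_iff] at hw
      have hw0 : w = 0 := by
        by_contra hne
        obtain ⟨j, hj⟩ := hno w (fun l => by
          have := hw _ (Ideal.subset_span ⟨Sum.inl l, rfl⟩)
          rwa [aeval_eq_eval] at this) hne
        apply hj
        have := hw _ (Ideal.subset_span ⟨Sum.inr j, rfl⟩)
        rwa [aeval_eq_eval] at this
      rw [aeval_X, hw0]
      rfl
    exact Ideal.exists_pow_le_of_le_radical_of_fg h1
      ⟨(Set.finite_range (X : Fin n → MvPolynomial (Fin n) F)).toFinset, by simp⟩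
  have hb : ∀ α : exps n L, ∃ c : κ ⊕ Fin d → MvPolynomial (Fin n) F,
      ∑ k, c k * Sum.elim (fun l => map (aeval z).toRingHom (G l)) q k = monomial (α : Fin n →₀ ℕ) 1 := by
    intro α
    refine (Ideal.mem_span_range_iff_exists_fun).1 (hL (Pool.Agent.Y129.TB.mem_pow_of_homogeneous ?_))
    exact isHomogeneous_monomial _ (mem_exps.1 α.2)
  choose b hb using hb
  let ν := Fin d ⊕ (exps n L × (κ ⊕ Fin d))
  let R := MvPolynomial (Fin m) E₁
  let Hp : exps n L → MvPolynomial (Fin n) (MvPolynomial (ν × (Fin n →₀ ℕ)) R) := fun α =>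
    ∑ k, gen R (b α k) (Sum.inr (α, k) : ν) *
      Sum.elim (fun l => map C (G l)) (fun j => gen R (q j) (Sum.inl j : ν)) k
  let Mx : Matrix (exps n L) (exps n L) (MvPolynomial (ν × (Fin n →₀ ℕ)) R) := fun α β => coeff β (Hp α)
  have hmap : ∀ (φ : R →+* F) (w : ν × (Fin n →₀ ℕ) → F) (α : exps n L), map (eval₂Hom φ w) (Hp α) =
      ∑ k, map (eval₂Hom φ w) (gen R (b α k) (Sum.inr (α, k) : ν)) *
        Sum.elim (fun l => map φ (G l)) (fun j => map (eval₂Hom φ w) (gen R (q j) (Sum.inl j : ν))) k := by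
    intro φ w α
    rw [map_sum]
    refine Finset.sum_congr rfl fun k _ => ?_
    rw [map_mul]
    congr 1
    rcases k with l | j
    · rw [Sum.elim_inl, Sum.elim_inl, map_map]
      congr 1
      exact congrArg _ (RingHom.ext fun c => by rw [RingHom.comp_apply, coe_eval₂Hom, eval₂_C])
    · rfl
  let w : ν × (Fin n →₀ ℕ) → F := fun i => Sum.elim (fun j => coeff i.2 (q j)) (fun k => coeff i.2 (b k.1 k.2)) i.1
  have hw1 : ∀ (φ : R →+* F) (α : exps n L) k, map (eval₂Hom φ w) (gen R (b α k) (Sum.inr (α, k) : ν)) = b α k := by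
    intro φ α k
    rw [map_gen]
    exact support_sum_monomial_coeff _
  have hw2 : ∀ (φ : R →+* F) (j : Fin d), map (eval₂Hom φ w) (gen R (q j) (Sum.inl j : ν)) = q j := by
    intro φ j
    rw [map_gen]
    exact support_sum_monomial_coeff _
  have hdet : ∀ (φ : R →+* F) (w : ν × (Fin n →₀ ℕ) → F), eval₂Hom φ w Mx.det =
      (Matrix.of fun α β : exps n L => coeff (β : Fin n →₀ ℕ) (map (eval₂Hom φ w) (Hp α))).det := by
    intro φ w
    rw [RingHom.map_det]
    congr 1
  have h1 : eval₂Hom (aeval z).toRingHom w Mx.det = 1 := by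
    rw [hdet]
    have h2 : (Matrix.of fun α β : exps n L => coeff (β : Fin n →₀ ℕ)
        (map (eval₂Hom (aeval z).toRingHom w) (Hp α))) = 1 := by
      ext α β
      rw [Matrix.of_apply, hmap]
      have h3 : ∀ k, Sum.elim (fun l => map (aeval z).toRingHom (G l)) (fun j => map (eval₂Hom (aeval z).toRingHom w)
          (gen R (q j) (Sum.inl j : ν))) k = Sum.elim (fun l => map (aeval z).toRingHom (G l)) q k := by
        rintro (l | j)
        · rfl
        · rw [Sum.elim_inr, Sum.elim_inr, hw2]
      simp only [hw1, h3, hb]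
      rw [coeff_monomial, Matrix.one_apply]
      congr 1
      rw [Subtype.ext_iff]
    rw [h2, Matrix.det_one]
  -- the specialization
  obtain ⟨w', hw'⟩ : ∃ w' : ν × (Fin n →₀ ℕ) → F, eval₂Hom (aeval s).toRingHom w' Mx.det ≠ 0 := by
    by_contra hall
    push Not at hall
    have h2 : map (aeval s).toRingHom Mx.det = 0 := by
      refine MvPolynomial.funext fun w' => ?_
      rw [eval_map, map_zero]
      exact hall w'
    have h3 : map (aeval z).toRingHom Mx.det = 0 := by
      ext γ
      rw [coeff_map, coeff_zero]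
      refine hsz _ ?_
      have h4 := congrArg (coeff γ) h2
      rwa [coeff_map, coeff_zero] at h4
    have h4 : eval w (map (aeval z).toRingHom Mx.det) = 1 := by
      rw [eval_map]
      exact h1
    rw [h3, map_zero] at h4
    exact zero_ne_one h4
  obtain ⟨y, hy, hy0, hyq⟩ := h (fun j => map (eval₂Hom (aeval s).toRingHom w') (gen R (q j) (Sum.inl j : ν)))
    fun j => ⟨Dq j, hDq j, map_gen_hom _ _ (hqD j) _⟩
  have h2 : ∀ α : exps n L, eval y (homogeneousComponent L (map (eval₂Hom (aeval s).toRingHom w') (Hp α))) = 0 := by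
    intro α
    have h3 := Pool.Agent.R388.TP.component_zero (k := F) (L := F) (X := {x | ∃ t : F, x = t • y}) (by
        rintro a _ ⟨t, rfl⟩
        exact ⟨a * t, smul_smul a t y⟩)
      (g := map (eval₂Hom (aeval s).toRingHom w') (Hp α)) (by
        rintro _ ⟨t, rfl⟩
        rw [aeval_eq_eval, hmap]

        rw [map_sum]
        refine Finset.sum_eq_zero fun k _ => ?_
        rw [map_mul]
        rcases k with l | j
        · have h4 := eval_smul_of_homogeneous ((hG l).map (aeval s).toRingHom) t y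
          rw [hy l, mul_zero] at h4
          rw [Sum.elim_inl]
          exact mul_eq_zero_of_right _ h4
        · have h4 := eval_smul_of_homogeneous (map_gen_hom (R := R) (aeval s).toRingHom w' (hqD j) (Sum.inl j : ν)) t y
          rw [hyq j, mul_zero] at h4
          rw [Sum.elim_inr]
          exact mul_eq_zero_of_right _ h4) L (x := y) ⟨1, (one_smul F y).symm⟩
    rwa [aeval_eq_eval] at h3
  have h3 : (Matrix.of fun α β : exps n L => coeff (β : Fin n →₀ ℕ)
      (map (eval₂Hom (aeval s).toRingHom w') (Hp α))).mulVec (fun β => ∏ i, y i ^ (β : Fin n →₀ ℕ) i) = 0 := by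
    funext α
    rw [Matrix.mulVec, Pi.zero_apply, dotProduct]
    have h4 := h2 α
    rw [component_eq, map_sum] at h4
    rw [← h4, ← Finset.sum_coe_sort (exps n L)]
    refine Finset.sum_congr rfl fun β _ => ?_
    rw [Matrix.of_apply, eval_monomial, Finsupp.prod_fintype _ _ (by simp)]
  rw [hdet] at hw'
  have h4 := Matrix.eq_zero_of_mulVec_eq_zero hw' h3
  apply hy0
  funext i
  have h5 := congrFun h4 ⟨Finsupp.single i L, mem_exps.2 (Finsupp.degree_single _ _)⟩
  rw [Pi.zero_apply] at h5 ⊢
  obtain ⟨j, -, hj⟩ := Finset.prod_eq_zero_iff.1 h5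
  by_cases hji : j = i
  · rw [hji, Finsupp.single_eq_same] at hj
    exact eq_zero_of_pow_eq_zero hj
  · rw [Finsupp.single_eq_of_ne hji, pow_zero] at hj
    exact absurd hj one_ne_zero

end Run7.h458
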