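import Pool.Agent.Run7.h458.NearW
import Pool.Agent.Run7.h458.DimSpec
import Pool.Agent.Run7.h458.Sharp
set_option autoImplicit false
set_option linter.unusedSectionVars false

/-!
# Approximations over a dense algebraically closed subfield
-/

open MvPolynomial Pool.Agent.Y129.TA
open Pool.Agent.Y129.TB (IsConeOver Approximable InTube eval_map_alg)

namespace Run7.h458

/-- Forms with coefficients close to those of given forms, over a dense algebraically closed subfield. -/
theorem exists_forms {E₁ F : Type} [Field E₁] [IsAlgClosed E₁] [NormedField F] [IsAlgClosed F] [Algebra E₁ F]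
    (ha : ∀ x y : F, ‖x + y‖ ≤ max ‖x‖ ‖y‖)
    (hM : ManyNodes ((NormedField.toAbsoluteValue F).comp (algebraMap E₁ F).injective))
    (hd : ∀ x : F, ∀ ε : ℝ, 0 < ε → ∃ e : E₁, ‖algebraMap E₁ F e - x‖ < ε) {n d r : ℕ}
    (g : Fin r → MvPolynomial (Fin n) F) (D : Fin r → ℕ) (hg : ∀ l, (g l).IsHomogeneous (D l))
    (h : DimGE {y : Fin n → F | ∀ l, eval y (g l) = 0} d) {δ : ℝ} (hδ : 0 < δ) :
    ∃ γ : Fin r → MvPolynomial (Fin n) E₁, (∀ l, (γ l).IsHomogeneous (D l)) ∧
      DimGE {y : Fin n → F | ∀ l, aeval y (γ l) = 0} d ∧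
      ∀ (y : Fin n → F) l, (∀ i, ‖y i‖ ≤ 1) → ‖aeval y (γ l) - eval y (g l)‖ ≤ δ := by
  classical
  let ρ := (l : Fin r) × (g l).support
  let e : ρ ≃ Fin (Fintype.card ρ) := Fintype.equivFin ρ
  let s : Fin (Fintype.card ρ) → F := fun j => coeff ((e.symm j).2 : Fin n →₀ ℕ) (g (e.symm j).1)
  let G : Fin r → MvPolynomial (Fin n) (MvPolynomial (Fin (Fintype.card ρ)) E₁) := fun l =>
    ∑ β : (g l).support, monomial (β : Fin n →₀ ℕ) (X (e ⟨l, β⟩))
  have hGmap : ∀ (R : Type) [CommRing R] (φ : MvPolynomial (Fin (Fintype.card ρ)) E₁ →+* R) l,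
      map φ (G l) = ∑ β : (g l).support, monomial (β : Fin n →₀ ℕ) (φ (X (e ⟨l, β⟩))) := by
    intro R _ φ l
    rw [map_sum]
    exact Finset.sum_congr rfl fun β _ => map_monomial _ _ _
  have hGh : ∀ l, (G l).IsHomogeneous (D l) := by
    intro l
    refine IsHomogeneous.sum _ _ _ fun β _ => isHomogeneous_monomial _ ?_
    rw [← hg l (mem_support_iff.1 β.2), Finsupp.degree_eq_weight_one (R := ℕ)]
    rfl
  obtain ⟨z, hz, hzs⟩ := exists_specialization ha hM hd s hδ
  have hs : ∀ l, map (aeval s).toRingHom (G l) = g l := by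
    intro l
    rw [hGmap]
    have h1 : ∀ β : (g l).support, (aeval s).toRingHom (X (e ⟨l, β⟩) : MvPolynomial (Fin (Fintype.card ρ)) E₁) =
        coeff (β : Fin n →₀ ℕ) (g l) := by
      intro β
      change aeval s (X (e ⟨l, β⟩)) = _
      rw [aeval_X]
      change coeff ((e.symm (e ⟨l, β⟩)).2 : Fin n →₀ ℕ) (g (e.symm (e ⟨l, β⟩)).1) = _
      rw [Equiv.symm_apply_apply]
    simp only [h1]
    rw [Finset.sum_coe_sort (g l).support fun β => monomial β (coeff β (g l))]
    exact support_sum_monomial_coeff _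
  have hzz : ∀ f : MvPolynomial (Fin (Fintype.card ρ)) E₁, aeval (fun i => algebraMap E₁ F (z i)) f =
      algebraMap E₁ F (eval z f) := fun f =>
    (MvPolynomial.eval₂_comp_left (algebraMap E₁ F) (RingHom.id E₁) z f).symm
  have hmm : ∀ l, map (aeval fun i => algebraMap E₁ F (z i)).toRingHom (G l) =
      map (algebraMap E₁ F) (map (eval z) (G l)) := by
    intro l
    rw [map_map]
    congr 1
    exact congrArg _ (RingHom.ext fun f => hzz f)
  refine ⟨fun l => map (eval z) (G l), fun l => (hGh l).map _, ?_, fun y l hy => ?_⟩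
  · have h1 := dimGE_specialize (E₁ := E₁) (F := F) (s := s) (z := fun i => algebraMap E₁ F (z i)) (d := d)
      (fun f hf => by rw [hzz, hz f hf, map_zero]) G D hGh (by simpa only [hs] using h)
    simpa only [hmm, eval_map_alg] using h1
  · rw [← eval_map_alg, ← hmm, ← hs l, hGmap, hGmap, ← map_sub, ← Finset.sum_sub_distrib, map_sum]
    have hδ0 : 0 ≤ δ := hδ.le
    refine ultra_sum (a := NormedField.toAbsoluteValue F) ha Finset.univ _ hδ0 fun β _ => ?_
    change ‖eval y _‖ ≤ δ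
    have h1 : (aeval fun i => algebraMap E₁ F (z i)).toRingHom
        (X (e ⟨l, β⟩) : MvPolynomial (Fin (Fintype.card ρ)) E₁) = algebraMap E₁ F (z (e ⟨l, β⟩)) := aeval_X _ _
    have h2 : (aeval s).toRingHom (X (e ⟨l, β⟩) : MvPolynomial (Fin (Fintype.card ρ)) E₁) = s (e ⟨l, β⟩) :=
      aeval_X _ _
    rw [h1, h2, ← map_sub, eval_monomial, norm_mul]
    have h3 : ‖(β : Fin n →₀ ℕ).prod fun i k => y i ^ k‖ ≤ 1 := by
      rw [Finsupp.prod, norm_prod]
      refine Finset.prod_le_one (fun i _ => norm_nonneg _) fun i _ => ?_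
      rw [norm_pow]
      exact pow_le_one₀ (norm_nonneg _) (hy i)
    exact (mul_le_mul (hzs _) h3 (norm_nonneg _) hδ0).trans_eq (mul_one δ)

theorem approximable_dense {p : ℕ} [hp : Fact p.Prime] {C F E₁ : Type} [Field C] [IsAlgClosed C] [Field F]
    [IsAlgClosed F] [CharP F p] [Field E₁] [IsAlgClosed E₁] [Algebra E₁ F] (T : Tilting p C F)
    (hd : ∀ x : F, ∀ ε : ℝ, 0 < ε → ∃ e : E₁, T.absF (algebraMap E₁ F e - x) < ε) {n d : ℕ}
    {Z : Set (Fin (n + 1) → C)} (h : Approximable T.toTiltPair C F Z d) :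
    Approximable T.toTiltPair C E₁ Z d := by
  classical
  have hinf : Infinite F := IsAlgClosed.instInfinite
  let nF : NormedField F := T.absF.toNormedField
  have hcE : CharP E₁ p := (algebraMap E₁ F).charP (algebraMap E₁ F).injective p
  have hM : ManyNodes ((NormedField.toAbsoluteValue F).comp (algebraMap E₁ F).injective) :=
    manyNodes (F := E₁) (p := p) _
  intro r P D hP hPX ε hε
  obtain ⟨ηt, ηt1, hηt, hηt1, htube⟩ := tube_of_near T P D hP hε one_pos
  obtain ⟨Y, hY, hYge, hYle, hYt⟩ := h r P D hP hPX (min ηt1 ε) (lt_min hηt1 hε)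
  obtain ⟨y₀, hy₀, -⟩ := hYge (fun _ => 0) fun _ => ⟨1, one_pos, isHomogeneous_zero _ _ _⟩
  have hY0 : (0 : Fin (n + 1) → F) ∈ Y := by
    have := hY.2 0 y₀ hy₀
    rwa [zero_smul] at this
  obtain ⟨r', g, hg, hYg⟩ := Pool.Agent.R388.TP.exists_gens (k := F) (L := F) hY ⟨y₀, hy₀⟩
  have hYg' : Y = {y | ∀ l, eval y (g l) = 0} := by
    rw [hYg]
    ext w
    simp only [Set.mem_ofPred_eq, aeval_eq_eval]
  choose Dg hDg hgD using hg
  obtain ⟨q, hq, hq0⟩ := hYle
  obtain ⟨δ₁, hδ₁, hnear⟩ := near_closed T.ultraF (manyNodes (p := p) T.absF) g (η := min ηt (1 / 2)) (by positivity)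
  have s1 : ∀ t : Fin (n + 1), ∃ δ : ℝ, 0 < δ ∧ ∀ v : Fin (n + 1) → F, (∀ i, T.absF (v i) ≤ 1) →
      (∀ k, T.absF (eval v (Sum.elim g q k)) ≤ δ) → T.absF (eval v (X t)) ≤ 1 / 2 := by
    intro t
    refine small T.ultraF _ _ (fun v hv => ?_) (by norm_num)
    have h3 := hq0 v (by rw [hYg']; exact fun l => hv (Sum.inl l)) fun j => hv (Sum.inr j)
    rw [eval_X, h3]
    rfl
  choose δ₂ hδ₂ hs1 using s1
  obtain ⟨δ₃, hδ₃, hδ₃'⟩ := exists_pos_le δ₂ hδ₂
  obtain ⟨γ, hγ, hγge, hγy⟩ := exists_forms (E₁ := E₁) (F := F) T.ultraF hM hd g Dg hgD (d := d)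
    (by rw [← hYg']; exact hYge) (δ := min δ₁ δ₃) (lt_min hδ₁ hδ₃)
  have hcone : ∀ a : F, ∀ y ∈ {y : Fin (n + 1) → F | ∀ l, aeval y (γ l) = 0},
      a • y ∈ {y : Fin (n + 1) → F | ∀ l, aeval y (γ l) = 0} := by
    intro a y hy l
    have h1 := Pool.Agent.R388.TP.aeval_smul (hγ l) a y
    rw [hy l, mul_zero] at h1
    exact h1
  have hsmall : ∀ y ∈ {y : Fin (n + 1) → F | ∀ l, aeval y (γ l) = 0}, (∀ i, T.absF (y i) ≤ 1) →
      ∀ l, T.absF (eval y (g l)) ≤ min δ₁ δ₃ := by
    intro y hy hy1 l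
    have h1 := hγy y l hy1
    rw [hy l, zero_sub, norm_neg] at h1
    exact h1
  refine ⟨{y : Fin (n + 1) → F | ∀ l, aeval y (γ l) = 0}, ⟨⟨Ideal.span (Set.range γ), ?_⟩, hcone⟩, hγge,
    ⟨q, hq, ?_⟩, ?_⟩
  · ext y
    rw [mem_zeroLocus_iff]
    constructor
    · intro hy f hf
      have h1 : Ideal.span (Set.range γ) ≤ RingHom.ker (aeval y : MvPolynomial (Fin (n + 1)) E₁ →ₐ[E₁] F) := by
        rw [Ideal.span_le]
        rintro _ ⟨l, rfl⟩
        exact hy l
      exact h1 hf
    · intro hy l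
      exact hy _ (Ideal.subset_span ⟨l, rfl⟩)
  · intro y hy hyq
    by_contra hy0
    obtain ⟨a, ha', h3, t, h4⟩ := exists_normal T.toTiltPair hy0
    have h5 := hs1 t (fun t => a * y t) h3 (by
      rintro (l | j)
      · exact (hsmall (a • y) (hcone a y hy) h3 l).trans ((min_le_right _ _).trans (hδ₃' t))
      · obtain ⟨Dj, hDj, hqj⟩ := hq j
        have h6 := eval_smul_of_homogeneous hqj a y
        rw [hyq j, mul_zero] at h6
        rw [Sum.elim_inr, h6, T.absF.map_zero]
        exact (hδ₂ t).le)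
    rw [eval_X, h4] at h5
    norm_num at h5
  · intro y hy k
    by_cases hy0 : y = 0
    · rw [hy0]
      intro B hB
      have h1 := hYt 0 hY0 k B hB
      have hB0 : 0 ≤ B := (T.absF.nonneg _).trans (hB 0)
      exact h1.trans (mul_le_mul_of_nonneg_right (min_le_right _ _) (pow_nonneg hB0 _))
    · obtain ⟨a, ha', h3, t, h4⟩ := exists_normal T.toTiltPair hy0
      obtain ⟨x, hx, hxy⟩ := hnear (fun i => a * y i) h3 fun l =>
        (hsmall (a • y) (hcone a y hy) h3 l).trans (min_le_left _ _)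
      have hxY : x ∈ Y := by
        rw [hYg']
        exact hx
      have hx1 : ∀ i, T.absF (x i) ≤ 1 := by
        intro i
        have e1 : x i = a * y i + (x i - a * y i) := by ring
        rw [e1]
        exact (T.ultraF _ _).trans (max_le (h3 i) ((hxy i).trans ((min_le_right _ _).trans (by norm_num))))
      have hxt : (1 : ℝ) ≤ T.absF (x t) := by
        have e1 : x t = a * y t + (x t - a * y t) := by ring
        rw [e1, aadd_eq T.ultraF ((hxy t).trans_lt ((min_le_right _ _).trans_lt (by rw [h4]; norm_num))), h4]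
      have h5 := (htube x (fun i => a * y i) ⟨t, hxt⟩ (fun k => by
        have h6 := hYt x hxY k 1 hx1
        rw [one_pow, mul_one] at h6
        have h7 : eval (fun i => T.sharp (x i)) (P k) = aeval (fun i => T.sharp (x i)) (P k) := by
          rw [aeval_eq_eval]
        rw [h7]
        exact h6.trans (min_le_left _ _)) fun i => by
          rw [← T.absF.map_neg, neg_sub]
          exact (hxy i).trans (min_le_left _ _)).2 a⁻¹ k
      intro B hB
      have e2 : (fun i => a⁻¹ * (a * y i)) = y := by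
        funext i
        rw [← mul_assoc, inv_mul_cancel₀ ha', one_mul]
      rw [e2] at h5
      have h6 := h5 B hB
      rw [aeval_eq_eval]
      exact h6

end Run7.h458
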