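import Mathlib
set_option autoImplicit false
set_option linter.unusedSectionVars false

/-!
# Extension of embeddings of the algebraic closure to its completion
-/

open Filter Topology

namespace Run7.h458

theorem exists_aut {E F : Type} [NontriviallyNormedField E] [CompleteSpace E] [IsUltrametricDist E]
    [NormedField F] [CompleteSpace F] [IsAlgClosed F] [Algebra E F]
    (hn : ∀ x : E, ‖algebraMap E F x‖ = ‖x‖)
    (hd : ∀ x : F, ∀ ε : ℝ, 0 < ε → ∃ e : F, IsAlgebraic E e ∧ ‖e - x‖ < ε)
    (σ : algebraicClosure E F →ₐ[E] F) :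
    ∃ τ : F ≃+* F, (∀ a : algebraicClosure E F, τ a = σ a) ∧ ∀ x, ‖τ x‖ = ‖x‖ := by
  let L := algebraicClosure E F
  have halg : Algebra.IsAlgebraic E L := inferInstance
  -- isometry
  let f₁ : AbsoluteValue L ℝ := (NormedField.toAbsoluteValue F).comp (algebraMap L F).injective
  let f₂ : AbsoluteValue L ℝ := (NormedField.toAbsoluteValue F).comp (σ : L →+* F).injective
  have h1 : ∀ x : L, ‖σ x‖ = ‖(x : F)‖ := by
    intro x
    have e1 : f₁ x = spectralNorm E L x := spectralNorm_unique_field_norm_ext (f := f₁) (fun a => by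
      change ‖algebraMap L F (algebraMap E L a)‖ = _
      rw [← IsScalarTower.algebraMap_apply, hn]) x
    have e2 : f₂ x = spectralNorm E L x := spectralNorm_unique_field_norm_ext (f := f₂) (fun a => by
      change ‖σ (algebraMap E L a)‖ = _
      rw [σ.commutes, hn]) x
    exact e2.trans e1.symm
  have ue : IsUniformInducing (algebraMap L F) := isUniformEmbedding_subtype_val.isUniformInducing
  have dr : DenseRange (algebraMap L F) := by
    intro x
    rw [Metric.mem_closure_iff]
    intro ε hε
    obtain ⟨e, he, hex⟩ := hd x ε hε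
    refine ⟨e, ⟨⟨e, mem_algebraicClosure_iff.2 he⟩, rfl⟩, ?_⟩
    rw [dist_comm, dist_eq_norm]
    exact hex
  have hf : UniformContinuous (σ : L →+* F) := by
    refine Isometry.uniformContinuous (Isometry.of_dist_eq fun x y => ?_)
    rw [dist_eq_norm]
    change ‖σ x - σ y‖ = dist (x : F) (y : F)
    rw [← map_sub, h1, dist_eq_norm]
    rfl
  let τ : F →+* F := IsDenseInducing.extendRingHom ue dr hf
  have hτc : Continuous τ := (uniformContinuous_uniformly_extend ue dr hf).continuous
  have hτ1 : ∀ a : L, τ a = σ a := fun a => uniformly_extend_of_ind ue dr hf a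
  have hτ2 : ∀ x, ‖τ x‖ = ‖x‖ := by
    intro x
    refine DenseRange.induction_on dr x (isClosed_eq (hτc.norm) continuous_norm) fun a => ?_
    rw [show τ (algebraMap L F a) = σ a from hτ1 a, h1]
    rfl
  -- surjectivity
  let σ' : L →ₐ[E] L := σ.codRestrict L.toSubalgebra fun x => by
    have h2 : IsAlgebraic E (σ x) := (halg.isAlgebraic x).algHom σ
    exact mem_algebraicClosure_iff.2 h2
  have hσ' : Function.Surjective σ' := (Algebra.IsAlgebraic.algHom_bijective σ').2
  have hiso : Isometry τ := Isometry.of_dist_eq fun x y => by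
    rw [dist_eq_norm, dist_eq_norm, ← map_sub, hτ2]
  have hcl : IsClosed (Set.range τ) := hiso.isClosedEmbedding.isClosed_range
  have hsurj : Function.Surjective τ := by
    rw [← Set.range_eq_univ, ← hcl.closure_eq]
    refine (dr.mono ?_).closure_eq
    rintro _ ⟨a, rfl⟩
    obtain ⟨b, hb⟩ := hσ' a
    refine ⟨b, ?_⟩
    rw [hτ1]
    exact congrArg Subtype.val hb
  exact ⟨RingEquiv.ofBijective τ ⟨τ.injective, hsurj⟩, hτ1, hτ2⟩

end Run7.h458
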