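import Pool.Agent.Run7.h458.Assembly3
import Pool.Agent.R388.TP.Gens

/-!
# Q1 for curves over algebraically closed perfectoid fields
-/

set_option autoImplicit false

open MvPolynomial Pool.Agent.Y129.TA

namespace Run7.h458

/-- The projection of a closed cone. -/
theorem exists_project {F : Type} [Field F] [IsAlgClosed F] {τ ι : Type} [Fintype τ] [Fintype ι]
    (s : ι → τ) {Y : Set (τ → F)} (hY : IsClosedCone Y) {d : ℕ} (hd : DimGE Y d)
    (h0 : ∀ w ∈ Y, w ≠ 0 → ∃ i, w (s i) ≠ 0) :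
    IsClosedCone {x : ι → F | ∃ w ∈ Y, ∀ i, x i = w (s i)} ∧
      DimGE {x : ι → F | ∃ w ∈ Y, ∀ i, x i = w (s i)} d := by
  have hinf : Infinite F := IsAlgClosed.instInfinite
  have hne : Y.Nonempty := by
    obtain ⟨y, hy, -⟩ := hd (fun _ => 0) fun _ => ⟨1, one_pos, isHomogeneous_zero _ _ _⟩
    exact ⟨y, hy⟩
  obtain ⟨r, g, hg, hYg⟩ := Pool.Agent.R388.TP.exists_gens (k := F) (L := F) hY hne
  have hYg' : ∀ w, w ∈ Y ↔ ∀ l, eval w (g l) = 0 := by
    intro w
    rw [hYg]
    simp only [Set.mem_ofPred_eq, aeval_eq_eval]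
  constructor
  · have h1 : {x : ι → F | ∃ w ∈ Y, ∀ i, x i = w (s i)} =
        imageOf g (fun i => (X (s i) : MvPolynomial τ F)) := by
      ext x
      simp only [imageOf, Set.mem_ofPred_eq, hYg', eval_X]
    rw [h1]
    refine imageOf_closedCone hg (fun i => isHomogeneous_X F (s i)) one_pos ?_
    intro z hz hz'
    by_contra hne0
    obtain ⟨i, hi⟩ := h0 z ((hYg' z).2 hz) hne0
    have h2 := hz' i
    rw [eval_X] at h2
    exact hi h2
  · intro q hq
    obtain ⟨y, hy, hy0, hyq⟩ := hd (fun j => rename s (q j)) fun j => by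
      obtain ⟨D, hD, hqD⟩ := hq j
      exact ⟨D, hD, hqD.rename_isHomogeneous⟩
    obtain ⟨i, hi⟩ := h0 y hy hy0
    refine ⟨fun i => y (s i), ⟨y, hy, fun _ => rfl⟩, fun h => hi (congrFun h i), fun j => ?_⟩
    have h1 := hyq j
    rw [eval_rename] at h1
    exact h1

/-- Q1 for closed subsets of dimension one. -/
theorem approximable_one {p : ℕ} [Fact p.Prime] {K F : Type} [Field K] [IsAlgClosed K]
    [NormedField F] [IsAlgClosed F] [CharP F p] [CompleteSpace F] (T : Tilting p K F)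
    (hT : ∀ x, T.absF x = ‖x‖) {σ : Type} [Fintype σ] {Z : Set (σ → K)} (hZ : IsClosedCone Z)
    (h1 : DimGE Z 1) (h2 : DimLE Z 1) : T.toTiltPair.Approximable Z 1 := by
  classical
  have hinf : Infinite K := IsAlgClosed.instInfinite
  obtain ⟨y₀, hy₀, hy₀0, -⟩ := h1 (fun _ => 0) fun _ => ⟨1, one_pos, isHomogeneous_zero _ _ _⟩
  have hne : Nonempty σ := by
    by_contra h
    rw [not_nonempty_iff] at h
    exact hy₀0 (funext fun t => h.elim t)
  have hZ0 : (0 : σ → K) ∈ Z := by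
    have := hZ.2 0 y₀ hy₀
    rwa [zero_smul] at this
  obtain ⟨s, g, hg, hZg⟩ := Pool.Agent.R388.TP.exists_gens (k := K) (L := K) hZ ⟨y₀, hy₀⟩
  have hZg' : ∀ w, w ∈ Z ↔ ∀ l, eval w (g l) = 0 := by
    intro w
    rw [hZg]
    simp only [Set.mem_ofPred_eq, aeval_eq_eval]
  obtain ⟨q, hq, hq0⟩ := id h2
  let G : Fin s ⊕ Fin 2 → MvPolynomial σ K := Sum.elim g q
  have s1 : ∀ t : σ, ∃ δ : ℝ, 0 < δ ∧ ∀ v : σ → K, (∀ i, T.absK (v i) ≤ 1) →
      (∀ k, T.absK (eval v (G k)) ≤ δ) → T.absK (eval v (X t)) ≤ 1 / 2 := by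
    intro t
    refine small T.ultraK _ _ (fun v hv => ?_) (by norm_num)
    have h3 := hq0 v ((hZg' v).2 fun l => hv (Sum.inl l)) fun j => hv (Sum.inr j)
    rw [eval_X, h3]
    rfl
  choose δ₁ hδ₁ hs1 using s1
  obtain ⟨δ, hδ, hδ'⟩ := exists_pos_le δ₁ hδ₁
  have a2 : ∀ j : Fin 2, ∃ D, 0 < D ∧ ∃ g : MvPolynomial σ F, g.IsHomogeneous D ∧
      ∀ t : σ → F, (∀ i, T.absF (t i) ≤ 1) → eval t g = 0 →
        T.absK (eval (fun i => T.sharp (t i)) (q j)) ≤ δ := by
    intro j
    obtain ⟨D, hD, hD'⟩ := hq j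
    exact Pool.Agent.Y129.TA.approx T hD hD' hδ
  choose Dg hDg u hu hua using a2
  choose D hD hgD using hg
  intro r P DP hPD hPX ε hε
  obtain ⟨Y, hY, hY1, hYt⟩ := exists_tube_curve T hT hZ h1 h2 (κ := Fin r ⊕ Fin s)
    (Sum.elim P g) (Sum.elim DP D) (by rintro (k | l); exacts [hPD k, hgD l])
    (by rintro (k | l) x hx; exacts [hPX k x hx, (hZg' x).1 hx l]) (lt_min hε hδ)
  obtain ⟨hc, hge⟩ := exists_project (fun i : σ => (some (some i) : Option (Option σ))) hY hY1
    fun w hw hw0 => (hYt w hw hw0).1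
  have ht : ∀ y ∈ {x : σ → F | ∃ w ∈ Y, ∀ i, x i = w (some (some i))}, ∀ k,
      T.InTube (Sum.elim P g k) (Sum.elim DP D k) (min ε δ) y := by
    rintro y ⟨w, hw, hyw⟩ k
    have hy : y = fun i => w (some (some i)) := funext hyw
    by_cases hw0 : w = 0
    · intro B hB
      have h3 : y = 0 := by
        rw [hy, hw0]
        rfl
      have h4 : eval (fun i => T.sharp (y i)) (Sum.elim P g k) = 0 := by
        have h5 : (fun i => T.sharp (y i)) = 0 := by
          funext i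
          have h6 := T.abs_sharp (y i)
          rw [h3, Pi.zero_apply, T.absF.map_zero] at h6
          rw [h3]
          exact (T.absK.eq_zero).1 h6
        rw [h5]
        rcases k with k | l
        · exact hPX k 0 hZ0
        · exact (hZg' 0).1 hZ0 l
      rw [h4, map_zero]
      have hB0 : 0 ≤ B := (T.absF.nonneg _).trans (hB (Classical.arbitrary _))
      positivity
    · rw [hy]
      exact (hYt w hw hw0).2 k
  refine ⟨{x : σ → F | ∃ w ∈ Y, ∀ i, x i = w (some (some i))}, hc, hge, ?_, ?_⟩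
  · refine ⟨u, fun j => ⟨Dg j, hDg j, hu j⟩, ?_⟩
    intro y hy hy2
    by_contra hy0
    obtain ⟨a, ha', h3, t, h4⟩ := exists_normal T.toTiltPair hy0
    have h5 := hs1 t (fun t => T.sharp (a * y t)) (fun i => by rw [T.abs_sharp]; exact h3 i) (by
      rintro (l | j)
      · have h4 := ht (a • y) (hc.2 a y hy) (Sum.inr l) 1 h3
        simp only [Sum.elim_inr, one_pow, mul_one] at h4
        exact h4.trans ((min_le_right _ _).trans (hδ' t))
      · refine (hua j (fun i => a * y i) h3 ?_).trans (hδ' t)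
        rw [eval_smul_of_homogeneous (hu j), hy2 j, mul_zero])
    rw [eval_X, T.abs_sharp, h4] at h5
    norm_num at h5
  · intro y hy k B hB
    have hB0 : 0 ≤ B := (T.absF.nonneg _).trans (hB (Classical.arbitrary _))
    exact (ht y hy (Sum.inl k) B hB).trans
      (mul_le_mul_of_nonneg_right (min_le_left _ _) (pow_nonneg hB0 _))

end Run7.h458
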