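import Pool.Agent.Run7.h458.Descent2
import Pool.Agent.Run7.h458.Extend
import Pool.Agent.Run7.h458.Dense
import Pool.Agent.Run7.h458.Final
set_option autoImplicit false
set_option linter.unusedSectionVars false

/-!
# Q1 over a perfectoid field and over the completion of its algebraic closure
-/

open MvPolynomial Pool.Agent.Y129.TA
open Pool.Agent.Y129.TB (IsConeOver Approximable InTube eval_map_alg BaseField DimLEOver form_map)

namespace Run7.h458

/-- The field is complete for the absolute value: Cauchy sequences converge. -/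
def CompleteFor {F : Type} [Field F] (a : AbsoluteValue F ℝ) : Prop :=
  ∀ u : ℕ → F, (∀ ε : ℝ, 0 < ε → ∃ N, ∀ m, N ≤ m → ∀ n, N ≤ n → a (u m - u n) < ε) →
    ∃ x, ∀ ε : ℝ, 0 < ε → ∃ N, ∀ n, N ≤ n → a (u n - x) < ε

/-- `F` is the completion of an algebraic closure of its complete subfield `E`: the fields `F` and `E` are
complete, and the elements of `F` which are algebraic over `E` are dense in `F`. -/
structure IsCompletedClosure {p : ℕ} {C F : Type} [Field C] [Field F] (T : TiltPair p C F) (E : Type)
    [Field E] [Algebra E F] : Prop where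
  complete : CompleteFor T.absF
  complete_base : CompleteFor (T.absF.comp (algebraMap E F).injective)
  dense : ∀ x : F, ∀ ε : ℝ, 0 < ε → ∃ e : F, IsAlgebraic E e ∧ T.absF (e - x) < ε

theorem completeSpace_of {F : Type} [NormedField F]
    (hF : CompleteFor (NormedField.toAbsoluteValue F)) : CompleteSpace F := by
  refine Metric.complete_of_cauchySeq_tendsto fun u hu => ?_
  obtain ⟨x, hx⟩ := hF u fun ε hε => by
    obtain ⟨N, hN⟩ := Metric.cauchySeq_iff.1 hu ε hε
    refine ⟨N, fun m hm n hn => ?_⟩
    have h3 := hN m hm n hn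
    rwa [dist_eq_norm] at h3
  refine ⟨x, Metric.tendsto_atTop.2 fun ε hε => ?_⟩
  obtain ⟨N, hN⟩ := hx ε hε
  refine ⟨N, fun n hn => ?_⟩
  rw [dist_eq_norm]
  exact hN n hn

section

variable {p : ℕ} [hp : Fact p.Prime] {C F K E : Type} [Field C] [Field F] [CharP F p]
  [Field K] [Field E] [Algebra K C] [Algebra E F]

/-- The automorphisms of the completion. -/
theorem exists_aut' [IsAlgClosed F] (T : Tilting p C F) (B : BaseField T K E)
    (h : IsCompletedClosure T.toTiltPair E) (σ : algebraicClosure E F →ₐ[E] F) :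
    ∃ τ : F ≃+* F, (∀ a : algebraicClosure E F, τ (algebraMap (algebraicClosure E F) F a) = σ a) ∧
      ∀ x, T.absF (τ x) = T.absF x := by
  let nF : NormedField F := T.absF.toNormedField
  have hcF : CompleteSpace F := completeSpace_of h.complete
  let a : AbsoluteValue E ℝ := T.absF.comp (algebraMap E F).injective
  let nE₀ : NormedField E := a.toNormedField
  obtain ⟨ϖ, hϖ⟩ := B.val
  have hpp : 0 < T.absK p := T.absK.pos T.p_ne
  let nE : NontriviallyNormedField E := NontriviallyNormedField.ofNormNeOne ⟨ϖ, by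
      rintro rfl
      rw [map_zero, map_zero] at hϖ
      exact hpp.ne hϖ, by
      change T.absF (algebraMap E F ϖ) ≠ 1
      rw [hϖ]
      exact T.p_lt.ne⟩
  have hcE : CompleteSpace E := completeSpace_of h.complete_base
  have hE : IsUltrametricDist E := by
    refine IsUltrametricDist.isUltrametricDist_of_forall_norm_add_le_max_norm fun x y => ?_
    change T.absF (algebraMap E F (x + y)) ≤ max (T.absF (algebraMap E F x)) (T.absF (algebraMap E F y))
    rw [map_add]
    exact T.ultraF _ _
  exact exists_aut (E := E) (F := F) (fun _ => rfl) h.dense σ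

/-- Q1 over the completion of the algebraic closure implies Q1. -/
theorem descends [IsAlgClosed C] [IsAlgClosed F] (T : Tilting p C F) (B : BaseField T K E)
    (h : IsCompletedClosure T.toTiltPair E) {n d : ℕ} {Z : Set (Fin (n + 1) → C)}
    (hZ : IsConeOver K Z) (hZd : DimLEOver K Z d) (ha : Approximable T.toTiltPair C F Z d) :
    Approximable T.toTiltPair K E Z d := by
  have hL : IsAlgClosed (algebraicClosure E F) := IsAlgClosure.isAlgClosed E
  refine descent_dense T B (L := algebraicClosure E F) (exists_aut' T B h) hZ hZd ?_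
  refine approximable_dense T (fun x ε hε => ?_) ha
  obtain ⟨e, he, hex⟩ := h.dense x ε hε
  exact ⟨⟨e, mem_algebraicClosure_iff.2 he⟩, hex⟩

theorem cone_extend {E' F' ι : Type} [Field E'] [Field F'] [Algebra E' F'] {Y : Set (ι → F')}
    (h : IsConeOver E' Y) : IsConeOver F' Y := by
  obtain ⟨⟨J, hJ⟩, hc⟩ := h
  refine ⟨⟨J.map (MvPolynomial.map (algebraMap E' F')), ?_⟩, hc⟩
  ext y
  rw [hJ, mem_zeroLocus_iff, mem_zeroLocus_iff]
  constructor
  · intro hy f hf
    have h1 : J.map (MvPolynomial.map (algebraMap E' F')) ≤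
        RingHom.ker (aeval y : MvPolynomial ι F' →ₐ[F'] F') := by
      rw [Ideal.map_le_iff_le_comap]
      intro g hg
      rw [Ideal.mem_comap, RingHom.mem_ker, aeval_map_algebraMap]
      exact hy g hg
    exact h1 hf
  · intro hy g hg
    rw [← aeval_map_algebraMap F']
    exact hy _ (Ideal.mem_map_of_mem _ hg)

/-- Q1 implies Q1 over the completion of the algebraic closure. -/
theorem ascends [IsAlgClosed C] [IsAlgClosed F] (T : Tilting p C F) {n d : ℕ}
    {Z : Set (Fin (n + 1) → C)} (hZ : IsConeOver K Z) (ha : Approximable T.toTiltPair K E Z d) :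
    Approximable T.toTiltPair C F Z d := by
  classical
  have hinf : Infinite C := IsAlgClosed.instInfinite
  have hne := Pool.Agent.R388.TP.nonempty_of_approximable T.toTiltPair ha
  obtain ⟨s, g, hg, hZg⟩ := Pool.Agent.R388.TP.exists_gens hZ hne
  have hZ0 : (0 : Fin (n + 1) → C) ∈ Z := by
    obtain ⟨y, hy⟩ := hne
    have := hZ.2 0 y hy
    rwa [zero_smul] at this
  choose D hD hgD using hg
  intro r P DP hPD hPX ε hε
  have s1 : ∀ k : Fin r, ∃ δ : ℝ, 0 < δ ∧ ∀ v : Fin (n + 1) → C, (∀ i, T.absK (v i) ≤ 1) →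
      (∀ l, T.absK (eval v (MvPolynomial.map (algebraMap K C) (g l))) ≤ δ) →
        T.absK (eval v (P k)) ≤ ε := by
    intro k
    refine small T.ultraK _ _ (fun v hv => ?_) hε
    have h1 : v ∈ Z := by
      rw [hZg]
      intro l
      rw [← eval_map_alg]
      exact hv l
    rw [← aeval_eq_eval]
    exact hPX k v h1
  choose δ₁ hδ₁ hs1 using s1
  obtain ⟨δ, hδ, hδ'⟩ := exists_pos_le δ₁ hδ₁
  obtain ⟨Y, hY, hYge, hYle, hYt⟩ := ha s g D hgD (fun l x hx => by
    rw [hZg] at hx
    exact hx l) δ hδ
  refine ⟨Y, cone_extend hY, hYge, hYle, fun y hy k B hB => ?_⟩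
  have hB0 : 0 ≤ B := (T.absF.nonneg _).trans (hB 0)
  by_cases hy0 : y = 0
  · have h1 : (fun i => T.sharp (y i)) = 0 := by
      funext i
      rw [hy0]
      exact T.toTiltPair.sharp_zero
    rw [h1, hPX k 0 hZ0, map_zero]
    positivity
  · obtain ⟨a, ha', h3, t, h4⟩ := exists_normal T.toTiltPair hy0
    have h5 := hs1 k (fun i => T.sharp (a * y i)) (fun i => by rw [T.abs_sharp]; exact h3 i) fun l => by
      rw [eval_map_alg]
      have h6 := hYt (a • y) (hY.2 a y hy) l 1 h3
      rw [one_pow, mul_one] at h6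
      exact h6.trans (hδ' k)
    have h6 : (fun i => T.sharp (a * y i)) = fun i => T.sharp a * T.sharp (y i) := by
      funext i
      exact map_mul _ _ _
    rw [h6, eval_smul_of_homogeneous (hPD k), map_mul, map_pow, T.abs_sharp] at h5
    rw [aeval_eq_eval]
    have h7 : 0 < T.absF a := T.absF.pos ha'
    have h8 : 1 ≤ T.absF a * B := by
      rw [← h4, map_mul]
      exact mul_le_mul_of_nonneg_left (hB t) h7.le
    have h9 : (0 : ℝ) < T.absF a ^ DP k := pow_pos h7 _
    refine le_of_mul_le_mul_left ?_ h9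
    refine h5.trans ?_
    have h10 : (1 : ℝ) ≤ (T.absF a * B) ^ DP k := one_le_pow₀ h8
    calc ε = ε * 1 := (mul_one ε).symm
      _ ≤ ε * (T.absF a * B) ^ DP k := mul_le_mul_of_nonneg_left h10 hε.le
      _ = T.absF a ^ DP k * (ε * B ^ DP k) := by rw [mul_pow]; ring

/-- Q1 for all closed subsets of dimension one over a perfectoid field. -/
theorem curves_over [IsAlgClosed C] [IsAlgClosed F] (T : Tilting p C F) (B : BaseField T K E)
    (h : IsCompletedClosure T.toTiltPair E) {n : ℕ} {Z : Set (Fin (n + 1) → C)}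
    (hZ : IsConeOver K Z) (hge : DimGE Z 1) (hle : DimLEOver K Z 1) :
    Approximable T.toTiltPair K E Z 1 := by
  refine descends T B h hZ hle ?_
  let nF : NormedField F := T.absF.toNormedField
  have hcF : CompleteSpace F := completeSpace_of h.complete
  have h1 : DimLE Z 1 := by
    obtain ⟨q, hq, hq0⟩ := hle
    refine ⟨fun j => MvPolynomial.map (algebraMap K C) (q j), fun j => form_map (hq j), fun y hy hyq => ?_⟩
    exact hq0 y hy fun j => by
      rw [← eval_map_alg]
      exact hyq j
  have h2 := approximable_one T (fun _ => rfl) (cone_extend hZ) hge h1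
  intro r P D hP hPX ε hε
  obtain ⟨Y, hY, hY1, hY2, hY3⟩ := h2 r P D hP (fun k x hx => by
    rw [← aeval_eq_eval]
    exact hPX k x hx) ε hε
  refine ⟨Y, hY, hY1, hY2, fun y hy k B hB => ?_⟩
  rw [aeval_eq_eval]
  exact hY3 y hy k B hB

end

end Run7.h458
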