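import Pool.Agent.Run7.h458.Eval
set_option autoImplicit false
set_option linter.unusedSectionVars false

/-!
# Charts: finite algebras over a disc
-/

open Polynomial Filter Topology Module

namespace Run7.h458

section Root

/-- A root of the characteristic polynomial of an element of a finite algebra over an algebraically closed field is
the value of the element under a homomorphism. -/
theorem exists_hom_of_root {F A ι : Type} [Field F] [IsAlgClosed F] [CommRing A] [Algebra F A] [Fintype ι]
    [DecidableEq ι] (b : Basis ι F A) (f : A) (x : F) (hx : (Algebra.leftMulMatrix b f).charpoly.eval x = 0) :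
    ∃ ψ : A →ₐ[F] F, ψ f = x := by
  have hfin : Module.Finite F A := Module.Finite.of_basis b
  have h1 : ¬ IsUnit (algebraMap F A x - f) := by
    intro hu
    have h2 : IsUnit (Algebra.leftMulMatrix b (algebraMap F A x - f)) := hu.map (Algebra.leftMulMatrix b)
    rw [map_sub, AlgHom.commutes] at h2
    rw [Matrix.eval_charpoly] at hx
    have h3 := (Matrix.isUnit_iff_isUnit_det _).1 h2
    rw [Matrix.algebraMap_eq_diagonal] at h3
    have h4 : Matrix.diagonal (algebraMap F (ι → F) x) = Matrix.scalar ι x := by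
      rw [Matrix.scalar_apply]
      rfl
    rw [h4, hx] at h3
    exact not_isUnit_zero h3
  obtain ⟨M, hM, hxM⟩ := exists_max_ideal_of_mem_nonunits h1
  let : Field (A ⧸ M) := Ideal.Quotient.field M
  have hb : Function.Bijective (algebraMap F (A ⧸ M)) := IsAlgClosed.algebraMap_bijective_of_isIntegral
  let e : F ≃ₐ[F] (A ⧸ M) := AlgEquiv.ofBijective (Algebra.ofId F (A ⧸ M)) hb
  refine ⟨(e.symm : (A ⧸ M) →ₐ[F] F).comp (Ideal.Quotient.mkₐ F M), ?_⟩
  have h5 : Ideal.Quotient.mk M f = algebraMap F (A ⧸ M) x := by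
    have h6 : Ideal.Quotient.mk M (algebraMap F A x - f) = 0 := Ideal.Quotient.eq_zero_iff_mem.2 hxM
    rw [map_sub, sub_eq_zero] at h6
    exact h6.symm
  change e.symm (Ideal.Quotient.mk M f) = x
  rw [h5]
  exact e.symm_apply_apply x

theorem charpoly_smul_coeff {H ι : Type} [Field H] [Infinite H] [Fintype ι] [DecidableEq ι] (M : Matrix ι ι H)
    {c : H} (hc : c ≠ 0) (j : ℕ) (hj : j ≤ Fintype.card ι) :
    (c • M).charpoly.coeff j = c ^ (Fintype.card ι - j) * M.charpoly.coeff j := by
  have h1 : (c • M).charpoly.comp (C c * X) = C (c ^ Fintype.card ι) * M.charpoly := by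
    refine Polynomial.funext fun t => ?_
    rw [eval_comp, eval_mul, eval_C, eval_X, eval_mul, eval_C, Matrix.eval_charpoly, Matrix.eval_charpoly]
    have h2 : Matrix.scalar ι (c * t) - c • M = c • (Matrix.scalar ι t - M) := by
      ext i j
      simp only [Matrix.scalar_apply, Matrix.sub_apply, Matrix.smul_apply, Matrix.diagonal_apply, smul_eq_mul]
      split_ifs <;> ring
    rw [h2, Matrix.det_smul]
  have h2 := congrArg (fun P : H[X] => P.coeff j) h1
  simp only [comp_C_mul_X_coeff, coeff_C_mul] at h2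
  have h3 : c ^ j ≠ 0 := pow_ne_zero j hc
  refine mul_right_cancel₀ h3 ?_
  rw [h2]
  have h4 : c ^ Fintype.card ι = c ^ (Fintype.card ι - j) * c ^ j := by
    rw [← pow_add, Nat.sub_add_cancel hj]
  rw [h4]
  ring

end Root

/-- A chart: the finite `H`-algebra `A` comes from a finite free algebra `B` over `k[X]`, by `X ↦ v`. -/
structure Chart {k H : Type} [NontriviallyNormedField k] [NormedField H] [NormedAlgebra k H] (c : Circle k H)
    (A : Type) [CommRing A] [Algebra H A] where
  B : Type
  [ringB : CommRing B]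
  [algB : Algebra k[X] B]
  ι : Type
  [finι : Fintype ι]
  [decι : DecidableEq ι]
  b : Basis ι k[X] B
  φ : B →+* A
  bA : Basis ι H A
  φ_alg : ∀ P : k[X], φ (algebraMap k[X] B P) = algebraMap H A (aeval c.v P)
  φ_b : ∀ i, φ (b i) = bA i

attribute [instance] Chart.ringB Chart.algB Chart.finι Chart.decι

namespace Chart

variable {k H A : Type} [NontriviallyNormedField k] [NormedField H] [NormedAlgebra k H] {c : Circle k H}
  [CommRing A] [Algebra H A] (ch : Chart c A)

/-- The lattice of the chart. -/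
def Mem (f : A) : Prop := ∀ i, ch.bA.repr f i ∈ Tate k c.v

theorem φ_repr (x : ch.B) (i : ch.ι) : ch.bA.repr (ch.φ x) i = aeval c.v (ch.b.repr x i) := by
  have h1 : ch.φ x = ∑ i, aeval c.v (ch.b.repr x i) • ch.bA i := by
    conv_lhs => rw [← ch.b.sum_repr x]
    rw [map_sum]
    refine Finset.sum_congr rfl fun i _ => ?_
    rw [Algebra.smul_def, map_mul, ch.φ_alg, ch.φ_b, Algebra.smul_def]
  rw [h1]
  have h2 := ch.bA.repr_sum_self fun i => aeval c.v (ch.b.repr x i)
  exact congrFun h2 i

theorem mem_φ (x : ch.B) : ch.Mem (ch.φ x) := fun i => by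
  rw [φ_repr]
  exact aeval_mem_tate _ _

theorem Mem.add {ch : Chart c A} {f g : A} (hf : ch.Mem f) (hg : ch.Mem g) : ch.Mem (f + g) := fun i => by
  rw [map_add, Finsupp.add_apply]
  exact add_mem (hf i) (hg i)

theorem Mem.sub {ch : Chart c A} {f g : A} (hf : ch.Mem f) (hg : ch.Mem g) : ch.Mem (f - g) := fun i => by
  rw [map_sub, Finsupp.sub_apply]
  exact sub_mem (hf i) (hg i)

theorem Mem.smul {ch : Chart c A} {f : A} (hf : ch.Mem f) {h : H} (hh : h ∈ Tate k c.v) : ch.Mem (h • f) :=
  fun i => by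
  rw [map_smul, Finsupp.smul_apply, smul_eq_mul]
  exact mul_mem hh (hf i)

theorem mem_sum {κ : Type} (s : Finset κ) (f : κ → A) (hf : ∀ j ∈ s, ch.Mem (f j)) : ch.Mem (∑ j ∈ s, f j) :=
  fun i => by
  rw [map_sum, Finsupp.coe_finsetSum, Finset.sum_apply]
  exact sum_mem fun j hj => hf j hj i

theorem leftMulMatrix_φ (x : ch.B) :
    Algebra.leftMulMatrix ch.bA (ch.φ x) =
      (Algebra.leftMulMatrix ch.b x).map (aeval c.v : k[X] →ₐ[k] H) := by
  ext i j
  rw [Algebra.leftMulMatrix_eq_repr_mul, Matrix.map_apply, Algebra.leftMulMatrix_eq_repr_mul, ← ch.φ_b,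
    ← map_mul, φ_repr]

/-- The polynomials as elements of the ring of convergent power series. -/
noncomputable def toTate (c : Circle k H) : k[X] →+* Tate k c.v :=
  (aeval c.v : k[X] →ₐ[k] H).toRingHom.codRestrict _ fun P => aeval_mem_tate _ P

/-- The matrix of an element of the lattice. -/
noncomputable def mat (h : ch.ι → Tate k c.v) : Matrix ch.ι ch.ι (Tate k c.v) :=
  ∑ i, h i • (Algebra.leftMulMatrix ch.b (ch.b i)).map (toTate c)

/-- The element with the coordinates `h`. -/
noncomputable def elt (h : ch.ι → Tate k c.v) : A := ∑ i, (h i : H) • ch.bA i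

theorem elt_repr (h : ch.ι → Tate k c.v) (i : ch.ι) : ch.bA.repr (ch.elt h) i = h i := by
  have h2 := ch.bA.repr_sum_self fun i => ((h i : Tate k c.v) : H)
  exact congrFun h2 i

theorem mem_elt (h : ch.ι → Tate k c.v) : ch.Mem (ch.elt h) := fun i => by
  rw [elt_repr]
  exact (h i).2

/-- The coordinates of an element of the lattice. -/
noncomputable def coord {ch : Chart c A} {f : A} (hf : ch.Mem f) : ch.ι → Tate k c.v := fun i => ⟨ch.bA.repr f i, hf i⟩

theorem elt_coord {ch : Chart c A} {f : A} (hf : ch.Mem f) : ch.elt (coord hf) = f := ch.bA.sum_repr f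

theorem mat_map_subtype (h : ch.ι → Tate k c.v) :
    (ch.mat h).map (Tate k c.v).subtype = Algebra.leftMulMatrix ch.bA (ch.elt h) := by
  rw [elt, map_sum, mat]
  ext i j
  rw [Matrix.map_apply, Matrix.sum_apply, map_sum, Matrix.sum_apply]
  refine Finset.sum_congr rfl fun l _ => ?_
  rw [map_smul, ← ch.φ_b, leftMulMatrix_φ]
  simp only [Matrix.smul_apply, Matrix.map_apply, smul_eq_mul, map_mul]
  rfl

theorem charpoly_coeff_mem {f : A} (hf : ch.Mem f) (j : ℕ) :
    (Algebra.leftMulMatrix ch.bA f).charpoly.coeff j ∈ Tate k c.v := by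
  have h1 : (Algebra.leftMulMatrix ch.bA f).charpoly = (ch.mat (coord hf)).charpoly.map (Tate k c.v).subtype := by
    rw [← Matrix.charpoly_map, mat_map_subtype, elt_coord]
  rw [h1, coeff_map]
  exact ((ch.mat (coord hf)).charpoly.coeff j).2

section

variable {F : Type} [NormedField F] [NormedAlgebra k F] [IsAlgClosed F]

/-- The value of an element of the lattice at a point. -/
noncomputable def val {a : F} (E : Tate k c.v →+* F) (ψ : ch.B →+* F) (h : ch.ι → Tate k c.v) : F :=
  ∑ i, E (h i) * ψ (ch.b i)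

/-- The homomorphisms `B → F` with `X ↦ a` are finite in number. -/
theorem finite_points (a : F) : {ψ : ch.B →+* F | ∀ P : k[X], ψ (algebraMap k[X] ch.B P) = aeval a P}.Finite := by
  let : Algebra k[X] F := (aeval a : k[X] →ₐ[k] F).toRingHom.toAlgebra
  have hfree : Module.Free k[X] ch.B := Module.Free.of_basis ch.b
  have hfin : Module.Finite k[X] ch.B := Module.Finite.of_basis ch.b
  have h1 : Finite (ch.B →ₐ[k[X]] F) := Finite.algHom k[X] ch.B F
  have h2 := Set.finite_range fun ψ : ch.B →ₐ[k[X]] F => (ψ : ch.B →+* F)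
  refine h2.subset fun ψ hψ => ?_
  exact ⟨⟨ψ, hψ⟩, rfl⟩

/-- A root of the characteristic polynomial at `X ↦ a` is the value at a point. -/
theorem exists_point {a : F} (E : Tate k c.v →+* F)
    (hE : ∀ P : k[X], E ⟨aeval c.v P, aeval_mem_tate _ _⟩ = aeval a P) (h : ch.ι → Tate k c.v) {Q : k[X][X]}
    (hQ : Q.map (aeval c.v : k[X] →ₐ[k] H).toRingHom = (Algebra.leftMulMatrix ch.bA (ch.elt h)).charpoly) {x : F}
    (hx : (Q.map (aeval a : k[X] →ₐ[k] F).toRingHom).eval x = 0) :
    ∃ ψ : ch.B →+* F, (∀ P : k[X], ψ (algebraMap k[X] ch.B P) = aeval a P) ∧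
      ∑ i, E (h i) * ψ (ch.b i) = x := by
  let : Algebra k[X] F := (aeval a : k[X] →ₐ[k] F).toRingHom.toAlgebra
  have halg : ∀ P : k[X], algebraMap k[X] F P = aeval a P := fun P => rfl
  have h1 : (ch.mat h).charpoly = Q.map (toTate c) := by
    refine Polynomial.map_injective (Tate k c.v).subtype Subtype.val_injective ?_
    rw [← Matrix.charpoly_map, mat_map_subtype, ← hQ, Polynomial.map_map]
    rfl
  let bF : Basis ch.ι F (TensorProduct k[X] F ch.B) := Algebra.TensorProduct.basis F ch.b
  have h2 : ∀ x : ch.B, Algebra.leftMulMatrix bF (1 ⊗ₜ[k[X]] x) =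
      (Algebra.leftMulMatrix ch.b x).map (algebraMap k[X] F) := by
    intro x
    ext i j
    rw [Algebra.leftMulMatrix_eq_repr_mul, Matrix.map_apply, Algebra.leftMulMatrix_eq_repr_mul]
    change (Algebra.TensorProduct.basis F ch.b).repr _ i = _
    rw [Algebra.TensorProduct.basis_apply, Algebra.TensorProduct.tmul_mul_tmul, mul_one,
      Algebra.TensorProduct.basis_repr_tmul, one_smul, Finsupp.mapRange_apply]
  let fa : TensorProduct k[X] F ch.B := ∑ i, E (h i) • (1 ⊗ₜ[k[X]] ch.b i)
  have h3 : (ch.mat h).map E = Algebra.leftMulMatrix bF fa := by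
    rw [map_sum, mat]
    ext i j
    rw [Matrix.map_apply, Matrix.sum_apply, map_sum, Matrix.sum_apply]
    refine Finset.sum_congr rfl fun l _ => ?_
    rw [map_smul, h2]
    simp only [Matrix.smul_apply, Matrix.map_apply, smul_eq_mul, map_mul, halg]
    congr 1
    exact hE _
  have h4 : (Algebra.leftMulMatrix bF fa).charpoly.eval x = 0 := by
    rw [← h3, Matrix.charpoly_map, h1, Polynomial.map_map]
    have h5 : E.comp (toTate c) = (aeval a : k[X] →ₐ[k] F).toRingHom := RingHom.ext fun P => hE P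
    rw [h5]
    exact hx
  obtain ⟨ψ, hψ⟩ := exists_hom_of_root bF fa x h4
  refine ⟨(ψ : TensorProduct k[X] F ch.B →+* F).comp
    (Algebra.TensorProduct.includeRight : ch.B →ₐ[k[X]] TensorProduct k[X] F ch.B).toRingHom, fun P => ?_, ?_⟩
  · change ψ ((Algebra.TensorProduct.includeRight : ch.B →ₐ[k[X]] TensorProduct k[X] F ch.B) (algebraMap k[X] ch.B P)) = _
    rw [AlgHom.commutes, IsScalarTower.algebraMap_apply k[X] F (TensorProduct k[X] F ch.B), AlgHom.commutes]
    rfl
  · rw [← hψ, map_sum]
    refine Finset.sum_congr rfl fun i _ => ?_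
    rw [map_smul, smul_eq_mul]
    rfl

end

end Chart

end Run7.h458
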