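import Pool.Agent.Run7.h458.Krasner
set_option autoImplicit false
set_option linter.unusedSectionVars false

/-!
# Charts at infinity
-/

open Polynomial Filter Topology Module IntermediateField

namespace Run7.h458

section field

variable {k H : Type} [NontriviallyNormedField k] [NontriviallyNormedField H] [NormedAlgebra k H]
  [CompleteSpace H] [IsUltrametricDist H]

theorem exists_chart_field (c : Circle k H) (L : Type) [Field L] [Algebra H L] [FiniteDimensional H L]
    [Algebra.IsSeparable H L] : Nonempty (Chart c.inv L) := by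
  classical
  obtain ⟨β, P, m, hβ, hroot⟩ := exists_laurent_generator c L
  set n := finrank H L with hn
  have hn0 : 0 < n := finrank_pos
  obtain ⟨s, hs⟩ : ∃ s : ℕ, ∀ i ∈ Finset.range n, (P i).natDegree ≤ s :=
    ⟨(Finset.range n).sup fun i => (P i).natDegree, fun i hi => Finset.le_sup (f := fun i => (P i).natDegree) hi⟩
  have hv := c.v_ne
  have hvv : c.v * c.v⁻¹ = 1 := mul_inv_cancel₀ hv
  let q : ℕ → k[X] := fun i => X ^ (s * (n - i) + m i - (P i).natDegree) * reflect (P i).natDegree (P i)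
  have hq : ∀ i ∈ Finset.range n, aeval c.v⁻¹ (q i) = c.v⁻¹ ^ (s * (n - i)) * (aeval c.v (P i) * c.v⁻¹ ^ m i) := by
    intro i hi
    have hi' := Finset.mem_range.1 hi
    have h1 : (P i).natDegree ≤ s * (n - i) + m i := by
      have h2 := hs i hi
      have h3 : s ≤ s * (n - i) := Nat.le_mul_of_pos_right s (by omega)
      omega
    rw [aeval_reflect hv (P i) (le_refl _)]
    simp only [q, map_mul, map_pow, aeval_X]
    set d := (P i).natDegree
    have h4 : c.v⁻¹ ^ (s * (n - i)) * c.v⁻¹ ^ m i = c.v⁻¹ ^ (s * (n - i) + m i - d) * c.v⁻¹ ^ d := by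
      rw [← pow_add, ← pow_add, Nat.sub_add_cancel h1]
    have h5 : c.v⁻¹ ^ d * c.v ^ d = 1 := by rw [← mul_pow, mul_comm, hvv, one_pow]
    calc c.v⁻¹ ^ (s * (n - i) + m i - d) * aeval c.v⁻¹ (reflect d (P i))
        = c.v⁻¹ ^ (s * (n - i) + m i - d) * (c.v⁻¹ ^ d * c.v ^ d) * aeval c.v⁻¹ (reflect d (P i)) := by
          rw [h5, mul_one]
      _ = (c.v⁻¹ ^ (s * (n - i) + m i - d) * c.v⁻¹ ^ d) * (c.v ^ d * aeval c.v⁻¹ (reflect d (P i))) := by ring
      _ = (c.v⁻¹ ^ (s * (n - i)) * c.v⁻¹ ^ m i) * (c.v ^ d * aeval c.v⁻¹ (reflect d (P i))) := by rw [h4]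
      _ = _ := by ring
  let Q : k[X][X] := X ^ n + ∑ i ∈ Finset.range n, C (q i) * X ^ i
  have hlow : (∑ i ∈ Finset.range n, C (q i) * X ^ i : k[X][X]).degree < n := by
    refine (degree_sum_le _ _).trans_lt ?_
    rw [Finset.sup_lt_iff (WithBot.bot_lt_coe _)]
    intro i hi
    refine (degree_C_mul_X_pow_le _ _).trans_lt ?_
    exact_mod_cast Finset.mem_range.1 hi
  have hQm : Q.Monic := monic_X_pow_add hlow
  have hQn : Q.natDegree = n := by
    have h1 : Q.degree = n := by
      rw [degree_add_eq_left_of_degree_lt (by rw [degree_X_pow]; exact hlow), degree_X_pow]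
    exact natDegree_eq_of_degree_eq_some h1
  let ξ : L := algebraMap H L (c.v⁻¹ ^ s) * β
  have hξ : H⟮ξ⟯ = ⊤ := by
    rw [eq_top_iff, ← hβ, IntermediateField.adjoin_simple_le_iff]
    have h1 : β = algebraMap H L (c.v ^ s) * ξ := by
      have h2 : c.v ^ s * c.v⁻¹ ^ s = 1 := by rw [← mul_pow, hvv, one_pow]
      simp only [ξ]
      rw [← mul_assoc, ← map_mul, h2, map_one, one_mul]
    rw [h1]
    exact mul_mem (IntermediateField.algebraMap_mem _ _) (IntermediateField.mem_adjoin_simple_self H ξ)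
  let f : k[X] →+* L := (algebraMap H L).comp (aeval c.v⁻¹ : k[X] →ₐ[k] H).toRingHom
  have hf : ∀ R : k[X], f R = algebraMap H L (aeval c.v⁻¹ R) := fun R => rfl
  have hQξ : Q.eval₂ f ξ = 0 := by
    simp only [Q, eval₂_add, eval₂_X_pow, eval₂_finsetSum, eval₂_mul, eval₂_C, hf]
    simp only [map_add, map_pow, aeval_X, map_sum, map_mul, aeval_C] at hroot
    have h3 : ∀ i ∈ Finset.range n, algebraMap H L (aeval c.v⁻¹ (q i)) * ξ ^ i =
        algebraMap H L (c.v⁻¹ ^ (s * n)) * ((algebraMap H L (aeval c.v (P i)) * (algebraMap H L c.v⁻¹) ^ m i) * β ^ i) := by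
      intro i hi
      have hi' := Finset.mem_range.1 hi
      rw [hq i hi]
      simp only [ξ, mul_pow, map_mul, map_pow]
      have h4 : s * n = s * (n - i) + s * i := by rw [← mul_add, Nat.sub_add_cancel hi'.le]
      rw [h4, pow_add, ← pow_mul (algebraMap H L c.v⁻¹) s i]
      ring
    rw [Finset.sum_congr rfl h3, ← Finset.mul_sum]
    have h5 : ξ ^ n = algebraMap H L (c.v⁻¹ ^ (s * n)) * β ^ n := by
      simp only [ξ, mul_pow, map_pow]
      rw [← pow_mul]
    rw [h5, ← mul_add]
    have h6 : β ^ n + ∑ i ∈ Finset.range n, algebraMap H L (aeval c.v (P i)) * (algebraMap H L c.v⁻¹) ^ m i * β ^ i = 0 := by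
      rw [← hroot]
    rw [h6, mul_zero]
  let pb := AdjoinRoot.powerBasis' hQm
  have hdim : pb.dim = n := by
    rw [AdjoinRoot.powerBasis'_dim, hQn]
  have hmin : (minpoly H ξ).natDegree = n := (Field.primitive_element_iff_minpoly_natDegree_eq H ξ).1 hξ
  have hli : LinearIndependent H fun j : Fin pb.dim => ξ ^ (j : ℕ) := by
    have h1 := (linearIndependent_pow (K := H) ξ).comp (Fin.cast (hdim.trans hmin.symm))
      (Fin.cast_injective _)
    exact h1
  have : Nonempty (Fin pb.dim) := ⟨⟨0, by omega⟩⟩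
  let bL : Basis (Fin pb.dim) H L := basisOfLinearIndependentOfCardEqFinrank hli (by
    rw [Fintype.card_fin, hdim])
  let φ : AdjoinRoot Q →+* L := AdjoinRoot.lift f ξ hQξ
  exact ⟨{
    B := AdjoinRoot Q
    ι := Fin pb.dim
    b := pb.basis
    φ := φ
    bA := bL
    φ_alg := fun R => by
      change AdjoinRoot.lift f ξ hQξ (AdjoinRoot.of Q R) = _
      rw [AdjoinRoot.lift_of]
      rfl
    φ_b := fun j => by
      rw [pb.coe_basis, map_pow]
      change (AdjoinRoot.lift f ξ hQξ (AdjoinRoot.powerBasis' hQm).gen) ^ (j : ℕ) = bL j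
      rw [AdjoinRoot.powerBasis'_gen, AdjoinRoot.lift_root]
      simp only [bL, coe_basisOfLinearIndependentOfCardEqFinrank] }⟩

end field

section pi

variable {k H : Type} [NontriviallyNormedField k] [NormedField H] [NormedAlgebra k H] {c : Circle k H}

/-- The product of charts. -/
noncomputable def Chart.pi {I : Type} [Fintype I] [DecidableEq I] {L : I → Type} [∀ i, CommRing (L i)]
    [∀ i, Algebra H (L i)] (ch : ∀ i, Chart c (L i)) {A : Type} [CommRing A] [Algebra H A] (e : A ≃ₐ[H] (∀ i, L i)) :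
    Chart c A where
  B := ∀ i, (ch i).B
  ι := Σ i, (ch i).ι
  b := Pi.basis fun i => (ch i).b
  φ := (e.symm : (∀ i, L i) →+* A).comp (RingHom.pi fun i => (ch i).φ.comp (Pi.evalRingHom _ i))
  bA := (Pi.basis fun i => (ch i).bA).map e.symm.toLinearEquiv
  φ_alg P := by
    change e.symm (fun i => (ch i).φ (algebraMap k[X] (∀ i, (ch i).B) P i)) = _
    have h1 : (fun i => (ch i).φ (algebraMap k[X] (∀ i, (ch i).B) P i)) =
        algebraMap H (∀ i, L i) (aeval c.v P) := by
      funext i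
      exact (ch i).φ_alg P
    rw [h1, AlgEquiv.commutes]
  φ_b := by
    rintro ⟨i, j⟩
    change e.symm (fun l => (ch l).φ ((Pi.basis fun i => (ch i).b) ⟨i, j⟩ l)) = e.symm ((Pi.basis fun i => (ch i).bA) ⟨i, j⟩)
    congr 1
    funext l
    rw [Pi.basis_apply, Pi.basis_apply]
    by_cases hl : l = i
    · subst hl
      rw [Pi.single_eq_same, Pi.single_eq_same, (ch l).φ_b]
    · rw [Pi.single_eq_of_ne hl, Pi.single_eq_of_ne hl, map_zero]

end pi

end Run7.h458
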