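import Pool.Agent.Run7.h458.ChartInf
set_option autoImplicit false
set_option linter.unusedSectionVars false

/-!
# The chart of a finite separable extension of the field of rational functions
-/

open Polynomial Filter Topology Module
open scoped TensorProduct nonZeroDivisors

namespace Run7.h458

variable {k H : Type} [NontriviallyNormedField k] [NontriviallyNormedField H] [NormedAlgebra k H]
  [IsUltrametricDist H]

/-- The rational functions as elements of the field of the circle. -/
noncomputable def Circle.ratHom (c : Circle k H) : RatFunc k →+* H :=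
  IsFractionRing.lift (A := k[X]) (K := RatFunc k) (g := (aeval c.v : k[X] →ₐ[k] H).toRingHom)
    c.aeval_injective

theorem Circle.ratHom_algebraMap (c : Circle k H) (P : k[X]) :
    c.ratHom (algebraMap k[X] (RatFunc k) P) = aeval c.v P :=
  IsFractionRing.lift_algebraMap _ P

theorem exists_chart_integral (c : Circle k H) (L₀ : Type) [Field L₀]
    [Algebra (RatFunc k) L₀] [Algebra k[X] L₀] [IsScalarTower k[X] (RatFunc k) L₀]
    [FiniteDimensional (RatFunc k) L₀] [Algebra.IsSeparable (RatFunc k) L₀] :
    ∃ (A : Type) (_ : CommRing A) (_ : Algebra H A) (_ : Nontrivial A) (V : Chart c A)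
      (e : integralClosure k[X] L₀ →+* V.B)
      (I : Type) (_ : Fintype I) (L : I → Type) (_ : ∀ i, Field (L i)) (_ : ∀ i, Algebra H (L i))
      (_ : ∀ i, FiniteDimensional H (L i)) (_ : ∀ i, Algebra.IsSeparable H (L i)) (_ : A ≃ₐ[H] ∀ i, L i),
      ∀ P : k[X], e (algebraMap k[X] (integralClosure k[X] L₀) P) = algebraMap k[X] V.B P := by
  classical
  let : Algebra (RatFunc k) H := c.ratHom.toAlgebra
  have hfree : Module.Free k[X] (integralClosure k[X] L₀) := by
    have : IsTorsionFree k[X] L₀ := .trans_faithfulSMul k[X] (RatFunc k) L₀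
    exact IsIntegralClosure.module_free k[X] (RatFunc k) L₀ (integralClosure k[X] L₀)
  have hfin : Module.Finite k[X] (integralClosure k[X] L₀) :=
    IsIntegralClosure.finite k[X] (RatFunc k) L₀ (integralClosure k[X] L₀)
  have hloc : IsLocalization (Algebra.algebraMapSubmonoid (integralClosure k[X] L₀) k[X]⁰) L₀ :=
    IsIntegralClosure.isLocalization k[X] (RatFunc k) L₀ (integralClosure k[X] L₀)
  let b := Module.Free.chooseBasis k[X] (integralClosure k[X] L₀)
  let b₀ : Basis _ (RatFunc k) L₀ := b.localizationLocalization (RatFunc k) k[X]⁰ L₀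
  let A := H ⊗[RatFunc k] L₀
  let bA : Basis _ H A := Algebra.TensorProduct.basis H b₀
  let φ : integralClosure k[X] L₀ →+* A :=
    (Algebra.TensorProduct.includeRight : L₀ →ₐ[RatFunc k] A).toRingHom.comp
      (algebraMap (integralClosure k[X] L₀) L₀)
  have hφ : ∀ P : k[X], φ (algebraMap k[X] (integralClosure k[X] L₀) P) = algebraMap H A (aeval c.v P) := by
    intro P
    change (Algebra.TensorProduct.includeRight : L₀ →ₐ[RatFunc k] A)
      (algebraMap (integralClosure k[X] L₀) L₀ (algebraMap k[X] (integralClosure k[X] L₀) P)) = _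
    rw [← IsScalarTower.algebraMap_apply, IsScalarTower.algebraMap_apply k[X] (RatFunc k) L₀,
      AlgHom.commutes, IsScalarTower.algebraMap_apply (RatFunc k) H A, ← c.ratHom_algebraMap]
    rfl
  let V : Chart c A :=
    { B := integralClosure k[X] L₀
      ι := _
      b := b
      φ := φ
      bA := bA
      φ_alg := hφ
      φ_b := fun i => by
        change (1 : H) ⊗ₜ[RatFunc k] (algebraMap (integralClosure k[X] L₀) L₀ (b i)) = Algebra.TensorProduct.basis H b₀ i
        rw [Algebra.TensorProduct.basis_apply, Basis.localizationLocalization_apply] }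
  have hfinA : Module.Finite H A := inferInstance
  have hA : Algebra.FormallyEtale H A := by
    have h1 : Algebra.FormallyEtale (RatFunc k) L₀ := Algebra.FormallyEtale.of_isSeparable (RatFunc k) L₀
    infer_instance
  obtain ⟨I, hI, L, hL1, hL2, e, hL3⟩ := (Algebra.FormallyEtale.iff_exists_algEquiv_prod H A).1 hA
  let : Fintype I := Fintype.ofFinite I
  refine ⟨A, inferInstance, inferInstance, inferInstance, V, RingHom.id _, I, inferInstance, L, hL1, hL2, ?_, hL3, e,
    fun P => rfl⟩
  intro i
  exact Module.Finite.of_surjective ((LinearMap.proj i).comp e.toLinearMap)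
      ((Function.surjective_eval i).comp e.surjective)

end Run7.h458
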