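import Pool.Agent.Run7.h458.Tool
set_option autoImplicit false

/-!
# The field of a circle
-/

open Polynomial Filter Topology

namespace Run7.h458

/-- `H` is the field of the circle `|v| = r`: the Laurent polynomials in `v` are dense in `H`, and their norm is the
maximum of the norms of the terms. -/
structure Circle (k H : Type) [NontriviallyNormedField k] [NormedField H] [NormedAlgebra k H] where
  v : H
  v_ne : v ≠ 0
  coeff_le : ∀ (P : k[X]) (i : ℕ), ‖P.coeff i‖ * ‖v‖ ^ i ≤ ‖aeval v P‖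
  dense : ∀ (h : H) (ε : ℝ), 0 < ε → ∃ (P : k[X]) (n : ℕ), ‖h - aeval v P * v⁻¹ ^ n‖ < ε

/-- The closure of the polynomials in `t`. -/
noncomputable def Tate (k : Type) {H : Type} [NontriviallyNormedField k] [NormedField H] [NormedAlgebra k H] (t : H) : Subring H :=
  (aeval t : k[X] →ₐ[k] H).range.toSubring.topologicalClosure

section

variable {k H : Type} [NontriviallyNormedField k] [NormedField H] [NormedAlgebra k H]

theorem aeval_mem_tate (t : H) (P : k[X]) : aeval t P ∈ Tate k t :=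
  Subring.le_topologicalClosure _ ⟨P, rfl⟩

theorem tate_isClosed (t : H) : IsClosed (Tate k t : Set H) := Subring.isClosed_topologicalClosure _

theorem mem_tate_iff {t h : H} : h ∈ Tate k t ↔ ∀ ε : ℝ, 0 < ε → ∃ P : k[X], ‖h - aeval t P‖ < ε := by
  have h0 : (Tate k t : Set H) = closure ((aeval t : k[X] →ₐ[k] H).range : Set H) := rfl
  rw [← SetLike.mem_coe, h0, Metric.mem_closure_iff]
  constructor
  · intro hh ε hε
    obtain ⟨b, ⟨P, rfl⟩, hP⟩ := hh ε hε
    refine ⟨P, ?_⟩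
    rw [dist_eq_norm] at hP
    exact hP
  · intro hh ε hε
    obtain ⟨P, hP⟩ := hh ε hε
    refine ⟨aeval t P, ⟨P, rfl⟩, ?_⟩
    rw [dist_eq_norm]
    exact hP

theorem algebraMap_mem_tate (t : H) (c : k) : algebraMap k H c ∈ Tate k t := by
  have h := aeval_mem_tate t (C c)
  rwa [aeval_C] at h

theorem self_mem_tate (t : H) : t ∈ Tate k t := by
  have h := aeval_mem_tate (k := k) t X
  rwa [aeval_X] at h

theorem norm_aeval_le [IsUltrametricDist H] (t : H) (P : k[X]) {R : ℝ} (hR : 0 ≤ R)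
    (h : ∀ i, ‖P.coeff i‖ * ‖t‖ ^ i ≤ R) : ‖aeval t P‖ ≤ R := by
  rw [aeval_eq_sum_range]
  refine IsUltrametricDist.norm_sum_le_of_forall_le_of_nonneg hR fun i _ => ?_
  rw [norm_smul, norm_pow]
  exact h i

/-- The polynomials in `t⁻¹`. -/
theorem aeval_reflect {t : H} (ht : t ≠ 0) (P : k[X]) {N : ℕ} (hN : P.natDegree ≤ N) :
    aeval t P = t ^ N * aeval t⁻¹ (reflect N P) := by
  have : Invertible t := invertibleOfNonzero ht
  have h := eval₂_reflect_mul_pow (algebraMap k H) t N P hN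
  rw [invOf_eq_inv] at h
  rw [aeval_def, aeval_def, ← h, mul_comm]

namespace Circle

variable (c : Circle k H)

theorem norm_v_pos : 0 < ‖c.v‖ := norm_pos_iff.2 c.v_ne

/-- The same circle with the coordinate `v⁻¹`. -/
noncomputable def inv : Circle k H where
  v := c.v⁻¹
  v_ne := inv_ne_zero c.v_ne
  coeff_le P i := by
    rcases le_or_gt i P.natDegree with hi | hi
    · have h1 := aeval_reflect (inv_ne_zero c.v_ne) P (le_refl _)
      rw [inv_inv] at h1
      rw [h1, norm_mul, norm_pow]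
      have h2 := c.coeff_le (reflect P.natDegree P) (P.natDegree - i)
      rw [coeff_reflect, revAt_le (Nat.sub_le _ _), Nat.sub_sub_self hi] at h2
      have h3 : ‖c.v⁻¹‖ ^ P.natDegree * (‖P.coeff i‖ * ‖c.v‖ ^ (P.natDegree - i)) =
          ‖P.coeff i‖ * ‖c.v⁻¹‖ ^ i := by
        have h4 : ‖c.v⁻¹‖ ^ P.natDegree = ‖c.v⁻¹‖ ^ (P.natDegree - i) * ‖c.v⁻¹‖ ^ i := by
          rw [← pow_add, Nat.sub_add_cancel hi]
        rw [h4, norm_inv]
        have h5 : ‖c.v‖⁻¹ ^ (P.natDegree - i) * ‖c.v‖ ^ (P.natDegree - i) = 1 := by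
          rw [← mul_pow, inv_mul_cancel₀ c.norm_v_pos.ne', one_pow]
        calc ‖c.v‖⁻¹ ^ (P.natDegree - i) * ‖c.v‖⁻¹ ^ i * (‖P.coeff i‖ * ‖c.v‖ ^ (P.natDegree - i))
            = (‖c.v‖⁻¹ ^ (P.natDegree - i) * ‖c.v‖ ^ (P.natDegree - i)) *
              (‖P.coeff i‖ * ‖c.v‖⁻¹ ^ i) := by ring
          _ = _ := by rw [h5, one_mul]
      rw [← h3]
      exact mul_le_mul_of_nonneg_left h2 (by positivity)
    · rw [coeff_eq_zero_of_natDegree_lt hi, norm_zero, zero_mul]
      exact norm_nonneg _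
  dense h ε hε := by
    obtain ⟨P, n, hP⟩ := c.dense h ε hε
    refine ⟨X ^ n * reflect P.natDegree P, P.natDegree, ?_⟩
    have h1 := aeval_reflect c.v_ne P (le_refl _)
    rw [inv_inv, map_mul, map_pow, aeval_X]
    have h2 : c.v⁻¹ ^ n * aeval c.v⁻¹ (reflect P.natDegree P) * c.v ^ P.natDegree =
        aeval c.v P * c.v⁻¹ ^ n := by
      rw [h1]
      ring
    rw [h2]
    exact hP

theorem inv_v : c.inv.v = c.v⁻¹ := rfl

theorem aeval_injective : Function.Injective (aeval c.v : k[X] → H) := by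
  intro P Q h
  have h1 : aeval c.v (P - Q) = 0 := by rw [map_sub, h, sub_self]
  ext i
  have h2 := c.coeff_le (P - Q) i
  rw [h1, norm_zero] at h2
  have h3 : ‖(P - Q).coeff i‖ ≤ 0 := by
    by_contra h4
    push Not at h4
    exact absurd (mul_pos h4 (pow_pos c.norm_v_pos i)) (not_lt.2 h2)
  have h4 : (P - Q).coeff i = 0 := norm_le_zero_iff.1 h3
  rw [coeff_sub, sub_eq_zero] at h4
  exact h4

/-- A Laurent polynomial is the sum of a polynomial in `v` and a polynomial in `v⁻¹`, with bounds. -/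
theorem split_laurent [IsUltrametricDist H] (P : k[X]) (n : ℕ) :
    ∃ a ∈ Tate k c.v, ∃ b ∈ Tate k c.v⁻¹, aeval c.v P * c.v⁻¹ ^ n = a + b ∧
      ‖a‖ ≤ ‖aeval c.v P * c.v⁻¹ ^ n‖ ∧ ‖b‖ ≤ ‖aeval c.v P * c.v⁻¹ ^ n‖ := by
  classical
  let P0 : k[X] := ∑ i ∈ Finset.range n, monomial i (P.coeff i)
  let P1 : k[X] := divX^[n] P
  have hP1 : ∀ i, P1.coeff i = P.coeff (i + n) := by
    intro i
    have : ∀ (m : ℕ) (Q : k[X]) (i : ℕ), (divX^[m] Q).coeff i = Q.coeff (i + m) := by
      intro m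
      induction m with
      | zero => intro Q i; rfl
      | succ m ih =>
        intro Q i
        rw [Function.iterate_succ_apply, ih, coeff_divX]
        congr 1
    exact this n P i
  have hP0 : ∀ i, P0.coeff i = if i < n then P.coeff i else 0 := by
    intro i
    simp only [P0, finsetSum_coeff, coeff_monomial]
    rw [Finset.sum_ite_eq' (Finset.range n) i]
    simp [Finset.mem_range]
  have hPP : P = P0 + X ^ n * P1 := by
    ext i
    rw [coeff_add, hP0, coeff_X_pow_mul', hP1]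
    split_ifs with h1 h2 h2
    · omega
    · rw [add_zero]
    · rw [zero_add, Nat.sub_add_cancel h2]
    · omega
  have hdeg : P0.natDegree ≤ n := by
    rw [natDegree_le_iff_coeff_eq_zero]
    intro i hi
    rw [hP0, if_neg (by omega)]
  have hv1 : c.v * c.v⁻¹ = 1 := mul_inv_cancel₀ c.v_ne
  have hvn : c.v ^ n * c.v⁻¹ ^ n = 1 := by rw [← mul_pow, hv1, one_pow]
  refine ⟨aeval c.v P1, aeval_mem_tate _ _, aeval c.v⁻¹ (reflect n P0), aeval_mem_tate _ _, ?_, ?_, ?_⟩
  · conv_lhs => rw [hPP, map_add, aeval_reflect c.v_ne P0 hdeg, map_mul, map_pow, aeval_X]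
    calc (c.v ^ n * (aeval c.v⁻¹) (reflect n P0) + c.v ^ n * (aeval c.v) P1) * c.v⁻¹ ^ n
        = (c.v ^ n * c.v⁻¹ ^ n) * (aeval c.v P1 + aeval c.v⁻¹ (reflect n P0)) := by ring
      _ = _ := by rw [hvn, one_mul]
  · refine norm_aeval_le _ _ (norm_nonneg _) fun i => ?_
    rw [hP1, norm_mul, norm_pow, norm_inv]
    have h1 := c.coeff_le P (i + n)
    have h2 : ‖P.coeff (i + n)‖ * ‖c.v‖ ^ i =
        (‖P.coeff (i + n)‖ * ‖c.v‖ ^ (i + n)) * ‖c.v‖⁻¹ ^ n := by
      rw [pow_add, mul_assoc, mul_assoc, ← mul_pow, mul_inv_cancel₀ c.norm_v_pos.ne', one_pow,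
        mul_one]
    rw [h2]
    exact mul_le_mul_of_nonneg_right h1 (by positivity)
  · have h3 : aeval c.v⁻¹ (reflect n P0) = aeval c.v P0 * c.v⁻¹ ^ n := by
      rw [aeval_reflect c.v_ne P0 hdeg]
      calc _ = (c.v ^ n * c.v⁻¹ ^ n) * aeval c.v⁻¹ (reflect n P0) := by rw [hvn, one_mul]
        _ = _ := by ring
    rw [h3, norm_mul, norm_mul]
    refine mul_le_mul_of_nonneg_right ?_ (norm_nonneg _)
    refine norm_aeval_le _ _ (norm_nonneg _) fun i => ?_
    rw [hP0]
    split_ifs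
    · exact c.coeff_le P i
    · rw [norm_zero, zero_mul]
      exact norm_nonneg _

/-- Every element of `H` is a sum of a power series in `v` and a power series in `v⁻¹`, with bounds. -/
theorem split [IsUltrametricDist H] [CompleteSpace H] (h : H) :
    ∃ a ∈ Tate k c.v, ∃ b ∈ Tate k c.v⁻¹, h = a + b ∧ ‖a‖ ≤ 2 * ‖h‖ ∧ ‖b‖ ≤ 2 * ‖h‖ := by
  have hc0 : CompleteSpace (Tate k c.v) := (tate_isClosed c.v).completeSpace_coe
  have hc1 : CompleteSpace (Tate k c.v⁻¹) := (tate_isClosed c.v⁻¹).completeSpace_coe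
  let Φ : (Tate k c.v × Tate k c.v⁻¹) →+ H :=
    { toFun := fun x => (x.1 : H) + x.2
      map_zero' := by simp
      map_add' := fun x y => by
        simp only [Prod.fst_add, Prod.snd_add, Subring.coe_add]
        ring }
  have hΦ : Continuous Φ := by
    have h1 : Continuous fun x : (Tate k c.v × Tate k c.v⁻¹) => (x.1 : H) + x.2 :=
      (continuous_subtype_val.comp continuous_fst).add (continuous_subtype_val.comp continuous_snd)
    exact h1
  obtain ⟨g, hg, hg2⟩ := succApprox Φ hΦ (C := 1) zero_le_one (fun e => by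
    by_cases he : e = 0
    · refine ⟨0, ?_, ?_⟩
      · simp [he]
      · simp [he]
    have he' : 0 < ‖e‖ := norm_pos_iff.2 he
    obtain ⟨P, n, hP⟩ := c.dense e (‖e‖ / 2) (by positivity)
    obtain ⟨a, ha, b, hb, h1, h2, h3⟩ := c.split_laurent P n
    have h4 : ‖aeval c.v P * c.v⁻¹ ^ n‖ ≤ ‖e‖ := by
      have h5 : aeval c.v P * c.v⁻¹ ^ n = e - (e - aeval c.v P * c.v⁻¹ ^ n) := by ring
      rw [h5]
      refine (nsub_le_max _ _).trans (max_le le_rfl ?_)
      linarith
    refine ⟨(⟨a, ha⟩, ⟨b, hb⟩), ?_, ?_⟩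
    · rw [one_mul, Prod.norm_def]
      exact max_le (h2.trans h4) (h3.trans h4)
    · change ‖e - (a + b)‖ ≤ _
      rw [← h1]
      exact hP.le) h
  refine ⟨g.1, g.1.2, g.2, g.2.2, hg.symm, ?_, ?_⟩
  · rw [mul_one] at hg2
    exact (norm_fst_le g).trans hg2
  · rw [mul_one] at hg2
    exact (norm_snd_le g).trans hg2

/-- An element of `k⟨v⟩ ∩ v ^ n k⟨v⁻¹⟩` is a polynomial of degree at most `n`. -/
theorem polynomial_of_mem [IsUltrametricDist H] [CompleteSpace k] {h : H} (h0 : h ∈ Tate k c.v) {n : ℕ}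
    (h1 : c.v⁻¹ ^ n * h ∈ Tate k c.v⁻¹) : ∃ P : k[X], P.natDegree ≤ n ∧ h = aeval c.v P := by
  classical
  let V : Submodule k H := (degreeLT k (n + 1)).map (aeval c.v : k[X] →ₐ[k] H).toLinearMap
  have hV : IsClosed (V : Set H) := by
    have : FiniteDimensional k (degreeLT k (n + 1)) :=
      Module.Finite.equiv (degreeLTEquiv k (n + 1)).symm
    have : FiniteDimensional k V := Module.Finite.map _ _
    exact Submodule.closed_of_finiteDimensional V
  have hmem : h ∈ V := by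
    rw [← SetLike.mem_coe, ← hV.closure_eq, Metric.mem_closure_iff]
    intro ε hε
    obtain ⟨P, hP⟩ := mem_tate_iff.1 h0 (ε / 2) (by positivity)
    have hvn : 0 < ‖c.v‖ ^ n := pow_pos c.norm_v_pos n
    obtain ⟨W, hW⟩ := mem_tate_iff.1 h1 (ε / 2 / ‖c.v‖ ^ n) (by positivity)
    -- `P` is close to `v ^ n W(v⁻¹)`
    set N := W.natDegree with hN
    have hW2 := aeval_reflect (inv_ne_zero c.v_ne) W (le_refl _)
    rw [inv_inv, ← hN] at hW2
    have hclose : ‖aeval c.v P - c.v ^ n * aeval c.v⁻¹ W‖ < ε / 2 := by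
      have e1 : aeval c.v P - c.v ^ n * aeval c.v⁻¹ W =
          (c.v ^ n * (c.v⁻¹ ^ n * h - aeval c.v⁻¹ W)) - (h - aeval c.v P) := by
        have : c.v ^ n * c.v⁻¹ ^ n = 1 := by
          rw [← mul_pow, mul_inv_cancel₀ c.v_ne, one_pow]
        linear_combination (-h) * this
      rw [e1]
      refine (nsub_le_max _ _).trans_lt (max_lt ?_ hP)
      rw [norm_mul, norm_pow]
      rw [lt_div_iff₀ hvn] at hW
      rwa [mul_comm]
    have hmul : aeval c.v (X ^ N * P - X ^ n * reflect N W) =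
        c.v ^ N * (aeval c.v P - c.v ^ n * aeval c.v⁻¹ W) := by
      rw [hW2]
      simp only [map_sub, map_mul, map_pow, aeval_X]
      have : c.v ^ N * c.v⁻¹ ^ N = 1 := by
        rw [← mul_pow, mul_inv_cancel₀ c.v_ne, one_pow]
      linear_combination (c.v ^ n * aeval c.v (reflect N W)) * this
    have hcoeff : ∀ j, n < j → ‖P.coeff j‖ * ‖c.v‖ ^ j ≤ ε / 2 := by
      intro j hj
      have h2 := c.coeff_le (X ^ N * P - X ^ n * reflect N W) (N + j)
      rw [hmul, norm_mul, norm_pow] at h2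
      have h3 : (X ^ N * P - X ^ n * reflect N W).coeff (N + j) = P.coeff j := by
        rw [coeff_sub, coeff_X_pow_mul', if_pos (by omega), coeff_X_pow_mul', if_pos (by omega),
          Nat.add_sub_cancel_left, coeff_reflect]
        have h4 : revAt N (N + j - n) = N + j - n := revAt_eq_self_of_lt (by omega)
        rw [h4, coeff_eq_zero_of_natDegree_lt (p := W) (by omega), sub_zero]
      rw [h3, pow_add] at h2
      have h5 : 0 < ‖c.v‖ ^ N := pow_pos c.norm_v_pos N
      have h6 : ‖c.v‖ ^ N * (‖P.coeff j‖ * ‖c.v‖ ^ j) ≤ ‖c.v‖ ^ N * (ε / 2) := by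
        calc ‖c.v‖ ^ N * (‖P.coeff j‖ * ‖c.v‖ ^ j) = ‖P.coeff j‖ * (‖c.v‖ ^ N * ‖c.v‖ ^ j) := by ring
          _ ≤ _ := h2
          _ ≤ _ := mul_le_mul_of_nonneg_left hclose.le h5.le
      exact le_of_mul_le_mul_left h6 h5
    let P0 : k[X] := ∑ i ∈ Finset.range (n + 1), monomial i (P.coeff i)
    have hP0 : ∀ i, P0.coeff i = if i < n + 1 then P.coeff i else 0 := by
      intro i
      simp only [P0, finsetSum_coeff, coeff_monomial]
      rw [Finset.sum_ite_eq' (Finset.range (n + 1)) i]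
      simp [Finset.mem_range]
    refine ⟨aeval c.v P0, ⟨P0, ?_, rfl⟩, ?_⟩
    · rw [SetLike.mem_coe, mem_degreeLT, degree_lt_iff_coeff_zero]
      intro i hi
      rw [hP0, if_neg (by omega)]
    · rw [dist_eq_norm]
      have e2 : h - aeval c.v P0 = (h - aeval c.v P) + aeval c.v (P - P0) := by
        rw [map_sub]; ring
      rw [e2]
      refine (IsUltrametricDist.norm_add_le_max _ _).trans_lt (max_lt (by linarith) ?_)
      refine lt_of_le_of_lt (norm_aeval_le _ _ (show (0 : ℝ) ≤ ε / 2 by positivity) fun i => ?_)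
        (by linarith)
      rw [coeff_sub, hP0]
      split_ifs with hi
      · rw [sub_self, norm_zero, zero_mul]
        positivity
      · rw [sub_zero]
        exact hcoeff i (by omega)
  obtain ⟨P, hP, hP2⟩ := hmem
  refine ⟨P, ?_, hP2.symm⟩
  rw [SetLike.mem_coe, mem_degreeLT] at hP
  by_cases hP0 : P = 0
  · rw [hP0, natDegree_zero]
    exact Nat.zero_le _
  · have := (natDegree_lt_iff_degree_lt hP0).2 hP
    omega

end Circle

end

end Run7.h458
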