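import Pool.Agent.Run7.h458.Galois
import Pool.Agent.R388.TP.Descent
set_option autoImplicit false
set_option linter.unusedSectionVars false

/-!
# Descent of approximations from an algebraic extension of the tilt
-/

open MvPolynomial Pool.Agent.Y129.TB Pool.Agent.R388.TP
open Pool.Agent.Y129.TA (TiltPair Tilting exists_normal eval_smul_of_homogeneous small exists_pos_le DimGE DimLE
  IsForm)

namespace Run7.h458

variable {p : ℕ} [hp : Fact p.Prime] {C F K E L : Type} [Field C] [Field F] [CharP F p]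
  [Field K] [Field E] [Field L] [Algebra K C] [Algebra E F] [Algebra L F] [Algebra E L]
  [IsScalarTower E L F] {ι : Type} [Fintype ι]

theorem descent_dense [IsAlgClosed C] [IsAlgClosed F] [Nonempty ι] [Algebra.IsAlgebraic E L]
    (T : Tilting p C F) (B : BaseField T K E)
    (hG : ∀ σ : L →ₐ[E] F, ∃ τ : F ≃+* F, (∀ a : L, τ (algebraMap L F a) = σ a) ∧
      ∀ x, T.absF (τ x) = T.absF x)
    {Z : Set (ι → C)} {d : ℕ} (hX : IsConeOver K Z) (hXd : DimLEOver K Z d)
    (ha : Approximable T.toTiltPair C L Z d) :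
    Approximable T.toTiltPair K E Z d := by
  classical
  have : Infinite C := IsAlgClosed.instInfinite
  have : Infinite F := IsAlgClosed.instInfinite
  obtain ⟨s, g, hg, hXg⟩ := exists_gens hX (nonempty_of_approximable T.toTiltPair ha)
  obtain ⟨q, hq, hq0⟩ := hXd
  -- the forms `q j`
  let G : Fin s ⊕ Fin (d + 1) → MvPolynomial ι C :=
    Sum.elim (fun l => MvPolynomial.map (algebraMap K C) (g l))
      (fun j => MvPolynomial.map (algebraMap K C) (q j))
  have s1 : ∀ t : ι, ∃ δ : ℝ, 0 < δ ∧ ∀ v : ι → C, (∀ i, T.absK (v i) ≤ 1) →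
      (∀ k, T.absK (eval v (G k)) ≤ δ) → T.absK (eval v (X t)) ≤ 1 / 2 := by
    intro t
    refine small T.ultraK _ _ (fun v hv => ?_) (by norm_num)
    have h1 : v ∈ Z := by
      rw [hXg]
      intro l
      rw [← eval_map_alg]
      exact hv (Sum.inl l)
    have h2 := hq0 v h1 fun j => by
      rw [← eval_map_alg]
      exact hv (Sum.inr j)
    rw [eval_X, h2]
    rfl
  choose δ₁ hδ₁ hs1 using s1
  obtain ⟨δ, hδ, hδ'⟩ := exists_pos_le δ₁ hδ₁
  have a2 : ∀ j : Fin (d + 1), ∃ D, 0 < D ∧ ∃ g : MvPolynomial ι E, g.IsHomogeneous D ∧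
      ∀ t : ι → F, (∀ i, T.absF (t i) ≤ 1) → aeval t g = 0 →
        T.absK (aeval (fun i => T.sharp (t i)) (q j)) ≤ δ := by
    intro j
    obtain ⟨D, hD, hD'⟩ := hq j
    exact Pool.Agent.Y129.TB.approx T B hD hD' hδ
  choose Dg hDg u hu hua using a2
  choose D hD hgD using hg
  intro r P DP hPD hPX ε hε
  let ε' := min ε δ
  have hε' : 0 < ε' := lt_min hε hδ
  let Q : Fin (r + s) → MvPolynomial ι K := Fin.append P g
  let D' : Fin (r + s) → ℕ := Fin.append DP D
  have hQD : ∀ k, (Q k).IsHomogeneous (D' k) := fun k => by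
    refine Fin.addCases (fun i => ?_) (fun j => ?_) k
    · simp only [Q, D', Fin.append_left]
      exact hPD i
    · simp only [Q, D', Fin.append_right]
      exact hgD j
  have hQX : ∀ k, ∀ x ∈ Z, aeval x (Q k) = 0 := fun k x hx => by
    refine Fin.addCases (fun i => ?_) (fun j => ?_) k
    · simp only [Q, Fin.append_left]
      exact hPX i x hx
    · simp only [Q, Fin.append_right]
      rw [hXg] at hx
      exact hx j
  obtain ⟨Y', hY', hY'd, -, hY't⟩ := ha (r + s) (fun k => MvPolynomial.map (algebraMap K C) (Q k)) D'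
    (fun k => (hQD k).map _) (fun k x hx => by
      rw [aeval_map_algebraMap]
      exact hQX k x hx) ε' hε'
  obtain ⟨⟨I', hI'⟩, hcone'⟩ := hY'
  let J : Ideal (MvPolynomial ι E) := I'.comap (MvPolynomial.map (algebraMap E L))
  -- the points of `Y` are the conjugates of points of `Y'`
  have key : ∀ y ∈ zeroLocus F J, ∃ (τF : F ≃+* F) (y' : ι → F), y' ∈ Y' ∧
      (∀ i, y i = τF (y' i)) ∧ (∀ a : E, τF (algebraMap E F a) = algebraMap E F a) ∧
      ∀ x, T.absF (τF x) = T.absF x := by
    intro y hy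
    obtain ⟨σ, hσ⟩ := exists_emb (E := E) (E' := L) (F := F) (I := I') (y := y)
      fun P hP => (mem_zeroLocus_iff.1 hy) P hP
    obtain ⟨τF, h1, h3⟩ := hG σ
    have h5 : ∀ a : E, τF (algebraMap E F a) = algebraMap E F a := by
      intro a
      rw [IsScalarTower.algebraMap_apply E L F a, h1, σ.commutes,
        ← IsScalarTower.algebraMap_apply E L F a]
    refine ⟨τF, fun i => τF.symm (y i), ?_, fun i => (τF.apply_symm_apply _).symm, h5, h3⟩
    rw [hI', mem_zeroLocus_iff]
    intro f hf
    have h6 := hσ f hf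
    apply τF.injective
    rw [map_zero, ← h6]
    have h7 : (τF : F →+* F).comp (aeval (fun i => τF.symm (y i)) :
        MvPolynomial ι L →ₐ[L] F).toRingHom = eval₂Hom (σ : L →+* F) y := by
      refine MvPolynomial.ringHom_ext (fun c => ?_) fun i => ?_
      · rw [coe_eval₂Hom, eval₂_C]
        change τF (aeval (fun i => τF.symm (y i)) (MvPolynomial.C c)) = σ c
        rw [aeval_C, h1]
      · rw [coe_eval₂Hom, eval₂_X]
        change τF (aeval (fun i => τF.symm (y i)) (X i)) = y i
        rw [aeval_X, τF.apply_symm_apply]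
    exact congrArg (fun χ : MvPolynomial ι L →+* F => χ f) h7
  have hmem : ∀ y' ∈ Y', ∀ τF : F ≃+* F, (∀ a : E, τF (algebraMap E F a) = algebraMap E F a) →
      (fun i => τF (y' i)) ∈ zeroLocus F J := by
    intro y' hy' τF h1
    rw [mem_zeroLocus_iff]
    intro f hf
    have h2 : aeval y' (MvPolynomial.map (algebraMap E L) f) = 0 := by
      rw [hI'] at hy'
      exact (mem_zeroLocus_iff.1 hy') _ hf
    rw [aeval_map_algebraMap] at h2
    have h3 : (aeval (fun i => τF (y' i)) : MvPolynomial ι E →ₐ[E] F).toRingHom =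
        (τF : F →+* F).comp (aeval y' : MvPolynomial ι E →ₐ[E] F).toRingHom := by
      refine MvPolynomial.ringHom_ext (fun c => ?_) fun i => ?_
      · change aeval (fun i => τF (y' i)) (MvPolynomial.C c) = τF (aeval y' (MvPolynomial.C c))
        rw [aeval_C, aeval_C, h1]
      · change aeval (fun i => τF (y' i)) (X i) = τF (aeval y' (X i))
        rw [aeval_X, aeval_X]
    have h4 : aeval (fun i => τF (y' i)) f = τF (aeval y' f) :=
      congrArg (fun χ : MvPolynomial ι E →+* F => χ f) h3
    rw [h4, h2, map_zero]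
  have hcone : ∀ a : F, ∀ y ∈ zeroLocus F J, a • y ∈ zeroLocus F J := by
    intro a y hy
    obtain ⟨τF, y', hy', h1, h2, -⟩ := key y hy
    have h3 := hmem _ (hcone' (τF.symm a) y' hy') τF h2
    have h4 : (fun i => τF ((τF.symm a • y') i)) = a • y := by
      funext i
      rw [Pi.smul_apply, Pi.smul_apply, smul_eq_mul, smul_eq_mul, map_mul, τF.apply_symm_apply,
        ← h1]
    rwa [h4] at h3
  -- the tubes
  have htube : ∀ y ∈ zeroLocus F J, ∀ k, InTube T.toTiltPair (Q k) (D' k) ε' y := by
    intro y hy k Bd hBd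
    obtain ⟨τF, y', hy', h1, h2, h4⟩ := key y hy
    have h6 := hY't y' hy' k Bd (fun i => by rw [← h4, ← h1]; exact hBd i)
    rw [aeval_map_algebraMap] at h6
    have h7 := abs_aut T B τF h4 h2 (hQD k) y'
    have h8 : (fun i => T.sharp (τF (y' i))) = fun i => T.sharp (y i) := by
      funext i
      rw [h1]
    rw [h8] at h7
    rw [h7]
    exact h6
  refine ⟨zeroLocus F J, ⟨⟨J, rfl⟩, hcone⟩, ?_, ?_, ?_⟩
  · intro w hw
    obtain ⟨y', hy', h1, h2⟩ := hY'd w hw
    refine ⟨y', ?_, h1, h2⟩
    exact hmem y' hy' (RingEquiv.refl F) fun a => rfl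
  · refine ⟨fun j => MvPolynomial.map (algebraMap E F) (u j),
      fun j => form_map ⟨Dg j, hDg j, hu j⟩, ?_⟩
    intro y hy hy2
    by_contra hy0
    obtain ⟨a, ha', h1, t, ht⟩ := exists_normal T.toTiltPair hy0
    have h3 := hs1 t (fun t => T.sharp (a * y t)) (fun i => by rw [T.abs_sharp]; exact h1 i) (by
      rintro (l | j)
      · have h4 := htube (a • y) (hcone a y hy) (Fin.natAdd r l) 1 h1
        simp only [Q, Fin.append_right, one_pow, mul_one] at h4
        have h5 : eval (fun t => T.sharp (a * y t)) (G (Sum.inl l)) =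
            aeval (fun t => T.sharp (a * y t)) (g l) := eval_map_alg _ _
        rw [h5]
        exact h4.trans ((min_le_right _ _).trans (hδ' t))
      · have h5 : eval (fun t => T.sharp (a * y t)) (G (Sum.inr j)) =
            aeval (fun t => T.sharp (a * y t)) (q j) := eval_map_alg _ _
        rw [h5]
        refine (hua j (fun i => a * y i) h1 ?_).trans (hδ' t)
        have h6 : aeval y (u j) = 0 := by
          rw [← eval_map_alg]
          exact hy2 j
        rw [aeval_smul_fin (hu j), h6, mul_zero])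
    rw [eval_X, T.abs_sharp, ht] at h3
    norm_num at h3
  · intro y hy k Bd hBd
    have h1 := htube y hy (Fin.castAdd s k) Bd hBd
    simp only [Q, D', Fin.append_left] at h1
    refine h1.trans ?_
    have hB0 : 0 ≤ Bd := (T.absF.nonneg _).trans (hBd (Classical.arbitrary _))
    exact mul_le_mul_of_nonneg_right (min_le_left _ _) (pow_nonneg hB0 _)

end Run7.h458
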