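import Pool.Agent.R388.TP.Kummer
set_option autoImplicit false
set_option linter.unusedSectionVars false

/-!
# A criterion for dimension one
-/

open MvPolynomial Pool.Agent.Y129.TA Pool.Agent.Y129.TB Pool.Agent.R388.TP

namespace Run7.h458

/-- A closed cone which maps onto the plane by two of the coordinates has dimension at least `1`. -/
theorem dimGE_one {F σ : Type} [Field F] [IsAlgClosed F] [Fintype σ] {Y : Set (σ → F)} (hY : IsClosedCone Y)
    (i j : σ) (h : ∀ α β : F, α ≠ 0 → ∃ w ∈ Y, w i = α ∧ w j = β) : DimGE Y 1 := by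
  classical
  obtain ⟨⟨J, hJ⟩, hcone⟩ := hY
  have hinf : Infinite F := IsAlgClosed.instInfinite
  let I : Ideal (MvPolynomial σ F) := vanishingIdeal F Y
  have hIY : zeroLocus F I = Y := by
    refine Set.Subset.antisymm ?_ ?_
    · rw [hJ]
      intro w hw
      rw [mem_zeroLocus_iff] at hw ⊢
      intro f hf
      refine hw f ?_
      rw [mem_vanishingIdeal_iff]
      intro x hx
      rw [hJ, mem_zeroLocus_iff] at hx
      exact hx f hf
    · intro w hw
      rw [mem_zeroLocus_iff]
      intro f hf
      rw [mem_vanishingIdeal_iff] at hf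
      exact hf w hw
  have hI : ∀ f ∈ I, ∀ n, homogeneousComponent n f ∈ I := by
    intro f hf n
    rw [mem_vanishingIdeal_iff] at hf ⊢
    intro x hx
    exact component_zero (k := F) hcone hf n hx
  let g : MvPolynomial (Fin 2) F →ₐ[F] MvPolynomial σ F := aeval ![X i, X j]
  have hg : ∀ q, g q ∈ I → q = 0 := by
    intro q hq
    rw [mem_vanishingIdeal_iff] at hq
    have h1 : X 0 * q = 0 := by
      refine MvPolynomial.funext fun x => ?_
      rw [map_mul, eval_X, map_zero]
      by_cases hx : x 0 = 0
      · rw [hx, zero_mul]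
      · obtain ⟨w, hw, hw1, hw2⟩ := h (x 0) (x 1) hx
        have h2 := hq w hw
        have h3 : aeval w (g q) = eval x q := by
          have h4 : ((aeval w : MvPolynomial σ F →ₐ[F] F).comp g) = (aeval x : MvPolynomial (Fin 2) F →ₐ[F] F) := by
            refine MvPolynomial.algHom_ext fun l => ?_
            fin_cases l
            · simp [g, hw1]
            · simp [g, hw2]
          have h5 := DFunLike.congr_fun h4 q
          rw [aeval_eq_eval x] at h5
          exact h5
        rw [h3] at h2
        rw [h2, mul_zero]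
    exact (mul_eq_zero.1 h1).resolve_left (X_ne_zero 0)
  let S : Submonoid (MvPolynomial σ F) := (nonZeroDivisors (MvPolynomial (Fin 2) F)).map g
  have hdis : Disjoint (I : Set (MvPolynomial σ F)) (S : Set (MvPolynomial σ F)) := by
    rw [Set.disjoint_left]
    rintro _ hf ⟨q, hq, rfl⟩
    exact nonZeroDivisors.ne_zero hq (hg q hf)
  obtain ⟨P, hP, hIP, hPS⟩ := Ideal.exists_le_prime_disjoint I S hdis
  rw [← hIY]
  refine dimGE_of_algInd' (P := P) hIP hI (fun l : Fin (1 + 1) => Ideal.Quotient.mkₐ F P (g (X l))) ?_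
  rw [algebraicIndependent_iff]
  intro q hq
  have h1 : aeval (fun l : Fin (1 + 1) => Ideal.Quotient.mkₐ F P (g (X l))) q = Ideal.Quotient.mkₐ F P (g q) := by
    have h4 : (aeval (fun l : Fin (1 + 1) => Ideal.Quotient.mkₐ F P (g (X l))) : MvPolynomial (Fin 2) F →ₐ[F] _) =
        (Ideal.Quotient.mkₐ F P).comp g := by
      refine MvPolynomial.algHom_ext fun l => ?_
      simp
    exact DFunLike.congr_fun h4 q
  rw [h1] at hq
  have h2 : g q ∈ P := Ideal.Quotient.eq_zero_iff_mem.1 hq
  by_contra hq0
  exact Set.disjoint_left.1 hPS h2 ⟨q, mem_nonZeroDivisors_of_ne_zero hq0, rfl⟩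

end Run7.h458
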