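import Pool.Agent.Run7.h458.Circle
set_option autoImplicit false

/-!
# Values of convergent power series
-/

open Polynomial Filter Topology

namespace Run7.h458

variable {k H F : Type} [NontriviallyNormedField k] [NormedField H] [NormedAlgebra k H]
  [NormedField F] [NormedAlgebra k F] [IsUltrametricDist F] [CompleteSpace F]

theorem Circle.exists_eval (c : Circle k H) (a : F) (ha : ‖a‖ ≤ ‖c.v‖) :
    ∃ E : Tate k c.v →+* F, (∀ P : k[X], E ⟨aeval c.v P, aeval_mem_tate _ _⟩ = aeval a P) ∧
      ∀ h, ‖E h‖ ≤ ‖h‖ := by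
  let A : Subalgebra k H := (aeval c.v : k[X] →ₐ[k] H).range
  let e : k[X] ≃ₐ[k] A := AlgEquiv.ofInjective (aeval c.v) c.aeval_injective
  let i : A →+* Tate k c.v := Subring.inclusion (Subring.le_topologicalClosure A.toSubring)
  let f : A →+* F := ((aeval a).comp (e.symm : A →ₐ[k] k[X])).toRingHom
  have hef : ∀ P : k[X], f (e P) = aeval a P := by
    intro P
    change aeval a (e.symm (e P)) = _
    rw [AlgEquiv.symm_apply_apply]
  have heP : ∀ P : k[X], ((e P : A) : H) = aeval c.v P := fun P => rfl
  have hie : ∀ P : k[X], i (e P) = ⟨aeval c.v P, aeval_mem_tate _ _⟩ := fun P => rfl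
  have hbound : ∀ x : A, ‖f x‖ ≤ 1 * ‖x‖ := by
    intro x
    obtain ⟨P, rfl⟩ := e.surjective x
    rw [hef, one_mul]
    have h1 : ‖(e P : A)‖ = ‖aeval c.v P‖ := by rw [← heP]; rfl
    rw [h1]
    refine norm_aeval_le _ _ (norm_nonneg _) fun i => ?_
    refine le_trans ?_ (c.coeff_le P i)
    exact mul_le_mul_of_nonneg_left (pow_le_pow_left₀ (norm_nonneg _) ha i) (norm_nonneg _)
  have hf : UniformContinuous f := AddMonoidHomClass.uniformContinuous_of_bound f 1 hbound
  have hi : Isometry i := by
    refine AddMonoidHomClass.isometry_of_norm i fun x => ?_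
    rfl
  have hdr : DenseRange i := by
    intro x
    rw [Metric.mem_closure_iff]
    intro ε hε
    obtain ⟨P, hP⟩ := mem_tate_iff.1 x.2 ε hε
    refine ⟨i (e P), ⟨e P, rfl⟩, ?_⟩
    rw [dist_eq_norm, hie]
    exact hP
  let E := IsDenseInducing.extendRingHom hi.isUniformInducing hdr hf
  have hE : ∀ x, E (i x) = f x := fun x =>
    IsDenseInducing.extend_eq (hi.isUniformInducing.isDenseInducing hdr) hf.continuous x
  have hEc : Continuous E :=
    (uniformContinuous_uniformly_extend hi.isUniformInducing hdr hf).continuous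
  refine ⟨E, fun P => ?_, fun h => ?_⟩
  · rw [← hie, hE, hef]
  · refine DenseRange.induction_on hdr h (isClosed_le hEc.norm continuous_norm) fun x => ?_
    rw [hE]
    have h1 := hbound x
    rw [one_mul] at h1
    exact h1

end Run7.h458
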