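import Pool.Agent.Run7.h458.Sections
set_option autoImplicit false
set_option linter.unusedSectionVars false

/-!
# The equations of the glued curve and its points
-/

open Polynomial Filter Topology Module

namespace Run7.h458

section points

variable {k H : Type} [NontriviallyNormedField k] [NontriviallyNormedField H] [NormedAlgebra k H] {c : Circle k H}
  {A : Type} [CommRing A] [Algebra H A] (ch : Chart c A) {F : Type} [NormedField F] [NormedAlgebra k F]
  [IsAlgClosed F]

/-- A linear combination of the `s i`. -/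
def comb {ι : Type} [Fintype ι] (s : ι → A) (T : ι → k) : A := ∑ i, algebraMap k H (T i) • s i

theorem Chart.exists_point_all {ι : Type} [Fintype ι] {s : ι → A} (hs : ∀ i, ch.Mem (s i)) {a : F}
    (E : Tate k c.v →+* F) (hE : ∀ P : k[X], E ⟨aeval c.v P, aeval_mem_tate _ _⟩ = aeval a P) (x : ι → F)
    (h : ∀ T : ι → k, ∃ Q : k[X][X], Q.map (aeval c.v : k[X] →ₐ[k] H).toRingHom =
      (Algebra.leftMulMatrix ch.bA (comb (H := H) s T)).charpoly ∧
        (Q.map (aeval a : k[X] →ₐ[k] F).toRingHom).eval (∑ i, algebraMap k F (T i) * x i) = 0) :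
    ∃ ψ : ch.B →+* F, (∀ P : k[X], ψ (algebraMap k[X] ch.B P) = aeval a P) ∧
      ∀ i, ∑ l, E (Chart.coord (hs i) l) * ψ (ch.b l) = x i := by
  classical
  have hEk : ∀ t : k, E ⟨algebraMap k H t, algebraMap_mem_tate _ t⟩ = algebraMap k F t := by
    intro t
    have e1 : (⟨algebraMap k H t, algebraMap_mem_tate _ t⟩ : Tate k c.v) = ⟨aeval c.v (C t), aeval_mem_tate _ _⟩ :=
      Subtype.ext (aeval_C _ _).symm
    rw [e1, hE, aeval_C]
  let val : (ch.B →+* F) → ι → F := fun ψ i => ∑ l, E (Chart.coord (hs i) l) * ψ (ch.b l)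
  let S : (ch.B →+* F) → Submodule k (ι → k) := fun ψ =>
    LinearMap.ker (∑ i, (LinearMap.proj i : (ι → k) →ₗ[k] k).smulRight (val ψ i - x i))
  have hS : ∀ ψ T, T ∈ S ψ ↔ ∑ i, algebraMap k F (T i) * (val ψ i - x i) = 0 := by
    intro ψ T
    rw [LinearMap.mem_ker, LinearMap.sum_apply]
    simp only [LinearMap.smulRight_apply, LinearMap.proj_apply, Algebra.smul_def]
  let Ψ := (ch.finite_points (F := F) a).toFinset
  have hinf : Infinite k := NontriviallyNormedField.infinite k
  have h1 : ∃ ψ ∈ Ψ, S ψ = ⊤ := by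
    by_contra hno
    push Not at hno
    have h2 : (⊤ : Submodule k (ι → k)) ∉ Ψ.image S := by
      intro h3
      obtain ⟨ψ, hψ, h4⟩ := Finset.mem_image.1 h3
      exact hno ψ hψ h4
    have h3 := Subspace.biUnion_ne_univ_of_top_notMem h2
    rw [Ne, Set.eq_univ_iff_forall] at h3
    push Not at h3
    obtain ⟨T, hT⟩ := h3
    obtain ⟨Q, hQ, hx⟩ := h T
    let hT' : ch.ι → Tate k c.v := fun l =>
      ∑ i, ⟨algebraMap k H (T i), algebraMap_mem_tate _ (T i)⟩ * Chart.coord (hs i) l
    have h4 : ch.elt hT' = comb (H := H) s T := by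
      apply ch.bA.repr.injective
      ext l
      rw [ch.elt_repr, comb, map_sum, Finsupp.coe_finsetSum, Finset.sum_apply]
      simp only [hT', AddSubmonoidClass.coe_finsetSum, map_smul, Finsupp.smul_apply, smul_eq_mul]
      rfl
    rw [← h4] at hQ
    obtain ⟨ψ, hψ, hψ2⟩ := ch.exists_point E hE hT' hQ hx
    have h5 : T ∈ S ψ := by
      rw [hS]
      simp only [mul_sub, Finset.sum_sub_distrib]
      rw [sub_eq_zero, ← hψ2]
      simp only [hT', map_sum, map_mul, hEk, val, Finset.mul_sum, Finset.sum_mul]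
      rw [Finset.sum_comm]
      refine Finset.sum_congr rfl fun l _ => Finset.sum_congr rfl fun i _ => ?_
      ring
    apply hT
    rw [Set.mem_iUnion₂]
    exact ⟨S ψ, Finset.mem_image.2 ⟨ψ, (Set.Finite.mem_toFinset _).2 hψ, rfl⟩, h5⟩
  obtain ⟨ψ, hψ, hψ2⟩ := h1
  refine ⟨ψ, (Set.Finite.mem_toFinset _).1 hψ, fun i => ?_⟩
  have h3 : (Pi.single i 1 : ι → k) ∈ S ψ := by rw [hψ2]; trivial
  rw [hS, Finset.sum_eq_single i] at h3
  · rw [Pi.single_eq_same, map_one, one_mul, sub_eq_zero] at h3
    exact h3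
  · intro j _ hj
    rw [Pi.single_eq_of_ne hj, map_zero, zero_mul]
  · intro hi
    exact absurd (Finset.mem_univ i) hi

end points

section form

variable {k F : Type} [Field k] [Field F] [Algebra k F]

theorem homog_eval_left (P : k[X]) {D : ℕ} (hD : P.natDegree ≤ D) {ζ β : F} (hζ : ζ ≠ 0) :
    ∑ i ∈ Finset.range (D + 1), algebraMap k F (P.coeff i) * ζ ^ (D - i) * β ^ i = ζ ^ D * aeval (β / ζ) P := by
  rw [aeval_eq_sum_range' (Nat.lt_succ_of_le hD), Finset.mul_sum]
  refine Finset.sum_congr rfl fun i hi => ?_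
  have hi' : i ≤ D := by have := Finset.mem_range.1 hi; omega
  rw [Algebra.smul_def, div_pow]
  have h1 : ζ ^ D = ζ ^ (D - i) * ζ ^ i := by rw [← pow_add, Nat.sub_add_cancel hi']
  rw [h1]
  have h2 : ζ ^ i ≠ 0 := pow_ne_zero _ hζ
  field_simp

theorem homog_eval_right (P : k[X]) {D : ℕ} (hD : P.natDegree ≤ D) {ζ β : F} (hβ : β ≠ 0) :
    ∑ i ∈ Finset.range (D + 1), algebraMap k F (P.coeff i) * ζ ^ (D - i) * β ^ i =
      β ^ D * aeval (ζ / β) (reflect D P) := by
  have h0 : (reflect D P).natDegree ≤ D := by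
    rw [natDegree_le_iff_coeff_eq_zero]
    intro i hi
    rw [coeff_reflect, revAt_eq_self_of_lt hi]
    exact coeff_eq_zero_of_natDegree_lt (by omega)
  rw [← homog_eval_left (reflect D P) h0 hβ, ← Finset.sum_range_reflect]
  refine Finset.sum_congr rfl fun i hi => ?_
  have hi' : i ≤ D := by have := Finset.mem_range.1 hi; omega
  have h1 : D + 1 - 1 - i = D - i := by omega
  rw [h1, coeff_reflect, revAt_le hi', Nat.sub_sub_self hi']
  ring

variable {ι : Type} [Fintype ι]

/-- The equation of the glued curve. -/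
noncomputable def form (F : Type) [Field F] [Algebra k F] (P : ℕ → k[X]) (N m : ℕ) (T : ι → k) (i₀ : ι) :
    MvPolynomial (Option ι) F :=
  ∑ j ∈ Finset.range (N + 1), (∑ i ∈ Finset.range (m * (N - j) + 1),
    MvPolynomial.C (algebraMap k F ((P j).coeff i)) * MvPolynomial.X none ^ (m * (N - j) - i) *
      MvPolynomial.X (some i₀) ^ i) *
        (∑ l, MvPolynomial.C (algebraMap k F (T l)) * MvPolynomial.X (some l) ^ m) ^ j

variable {P : ℕ → k[X]} {N m : ℕ} (hP : ∀ j, (P j).natDegree ≤ m * (N - j)) (T : ι → k) (i₀ : ι)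

theorem eval_form (w : Option ι → F) : MvPolynomial.eval w (form F P N m T i₀) =
    ∑ j ∈ Finset.range (N + 1), (∑ i ∈ Finset.range (m * (N - j) + 1),
      algebraMap k F ((P j).coeff i) * w none ^ (m * (N - j) - i) * w (some i₀) ^ i) *
        (∑ l, algebraMap k F (T l) * w (some l) ^ m) ^ j := by
  simp only [form, map_sum, map_mul, map_pow, MvPolynomial.eval_C, MvPolynomial.eval_X]

include hP in
theorem eval_form_left {w : Option ι → F} (hw : w none ≠ 0) : MvPolynomial.eval w (form F P N m T i₀) =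
    w none ^ (m * N) * ((∑ j ∈ Finset.range (N + 1), C (P j) * X ^ j : k[X][X]).map
      (aeval (w (some i₀) / w none) : k[X] →ₐ[k] F).toRingHom).eval
        (∑ l, algebraMap k F (T l) * (w (some l) / w none) ^ m) := by
  rw [eval_form, Polynomial.map_sum, eval_finsetSum, Finset.mul_sum]
  refine Finset.sum_congr rfl fun j hj => ?_
  have hj' : j ≤ N := by have := Finset.mem_range.1 hj; omega
  rw [homog_eval_left (P j) (hP j) hw, Polynomial.map_mul, Polynomial.map_pow, map_X, map_C, eval_mul, eval_C,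
    eval_pow, eval_X]
  have h1 : ∑ l, algebraMap k F (T l) * w (some l) ^ m =
      w none ^ m * ∑ l, algebraMap k F (T l) * (w (some l) / w none) ^ m := by
    rw [Finset.mul_sum]
    refine Finset.sum_congr rfl fun l _ => ?_
    rw [div_pow]
    have h2 : w none ^ m ≠ 0 := pow_ne_zero _ hw
    field_simp
  have h2 : w none ^ (m * N) = w none ^ (m * (N - j)) * (w none ^ m) ^ j := by
    rw [← pow_mul, ← pow_add, ← mul_add, Nat.sub_add_cancel hj']
  rw [h1, mul_pow, h2]
  change _ * aeval (w (some i₀) / w none) (P j) * _ = _ * (aeval (w (some i₀) / w none) (P j) * _)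
  ring

include hP in
theorem eval_form_right {w : Option ι → F} (hw : w (some i₀) ≠ 0) : MvPolynomial.eval w (form F P N m T i₀) =
    w (some i₀) ^ (m * N) * ((∑ j ∈ Finset.range (N + 1), C (reflect (m * (N - j)) (P j)) * X ^ j : k[X][X]).map
      (aeval (w none / w (some i₀)) : k[X] →ₐ[k] F).toRingHom).eval
        (∑ l, algebraMap k F (T l) * (w (some l) / w (some i₀)) ^ m) := by
  rw [eval_form, Polynomial.map_sum, eval_finsetSum, Finset.mul_sum]
  refine Finset.sum_congr rfl fun j hj => ?_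
  have hj' : j ≤ N := by have := Finset.mem_range.1 hj; omega
  rw [homog_eval_right (P j) (hP j) hw, Polynomial.map_mul, Polynomial.map_pow, map_X, map_C, eval_mul, eval_C,
    eval_pow, eval_X]
  have h1 : ∑ l, algebraMap k F (T l) * w (some l) ^ m =
      w (some i₀) ^ m * ∑ l, algebraMap k F (T l) * (w (some l) / w (some i₀)) ^ m := by
    rw [Finset.mul_sum]
    refine Finset.sum_congr rfl fun l _ => ?_
    rw [div_pow]
    have h2 : w (some i₀) ^ m ≠ 0 := pow_ne_zero _ hw
    field_simp
  have h2 : w (some i₀) ^ (m * N) = w (some i₀) ^ (m * (N - j)) * (w (some i₀) ^ m) ^ j := by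
    rw [← pow_mul, ← pow_add, ← mul_add, Nat.sub_add_cancel hj']
  rw [h1, mul_pow, h2]
  change _ * aeval (w none / w (some i₀)) (reflect (m * (N - j)) (P j)) * _ =
    _ * (aeval (w none / w (some i₀)) (reflect (m * (N - j)) (P j)) * _)
  ring

theorem eval_form_zero (hm : 0 < m) (hN : P N = 1) {w : Option ι → F} (h0 : w none = 0) (h1 : w (some i₀) = 0) :
    MvPolynomial.eval w (form F P N m T i₀) = (∑ l, algebraMap k F (T l) * w (some l) ^ m) ^ N := by
  rw [eval_form, Finset.sum_range_succ, Finset.sum_eq_zero, zero_add]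
  · rw [hN]
    simp
  · intro j hj
    have hj' : j < N := Finset.mem_range.1 hj
    rw [Finset.sum_eq_zero, zero_mul]
    intro i hi
    rw [h0, h1]
    by_cases hi0 : i = 0
    · rw [hi0, Nat.sub_zero, zero_pow (Nat.mul_pos hm (by omega)).ne']
      ring
    · rw [zero_pow hi0, mul_zero]

theorem eval_form_smul (a : F) (w : Option ι → F) :
    MvPolynomial.eval (a • w) (form F P N m T i₀) = a ^ (m * N) * MvPolynomial.eval w (form F P N m T i₀) := by
  rw [eval_form, eval_form, Finset.mul_sum]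
  refine Finset.sum_congr rfl fun j hj => ?_
  have hj' : j ≤ N := by have := Finset.mem_range.1 hj; omega
  have h1 : ∑ l, algebraMap k F (T l) * (a • w) (some l) ^ m =
      a ^ m * ∑ l, algebraMap k F (T l) * w (some l) ^ m := by
    rw [Finset.mul_sum]
    refine Finset.sum_congr rfl fun l _ => ?_
    rw [Pi.smul_apply, smul_eq_mul, mul_pow]
    ring
  have h2 : ∑ i ∈ Finset.range (m * (N - j) + 1),
      algebraMap k F ((P j).coeff i) * (a • w) none ^ (m * (N - j) - i) * (a • w) (some i₀) ^ i =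
      a ^ (m * (N - j)) * ∑ i ∈ Finset.range (m * (N - j) + 1),
        algebraMap k F ((P j).coeff i) * w none ^ (m * (N - j) - i) * w (some i₀) ^ i := by
    rw [Finset.mul_sum]
    refine Finset.sum_congr rfl fun i hi => ?_
    have hi' : i ≤ m * (N - j) := by have := Finset.mem_range.1 hi; omega
    rw [Pi.smul_apply, Pi.smul_apply, smul_eq_mul, smul_eq_mul, mul_pow, mul_pow]
    have h3 : a ^ (m * (N - j)) = a ^ (m * (N - j) - i) * a ^ i := by
      rw [← pow_add, Nat.sub_add_cancel hi']
    rw [h3]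
    ring
  have h4 : a ^ (m * N) = a ^ (m * (N - j)) * (a ^ m) ^ j := by
    rw [← pow_mul, ← pow_add, ← mul_add, Nat.sub_add_cancel hj']
  rw [h1, h2, mul_pow, h4]
  ring

end form

end Run7.h458
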