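import Pool.Agent.Y129.TB.Final
set_option autoImplicit false
set_option linter.unusedSectionVars false

/-!
# The Galois action and the map of Fontaine
-/

open MvPolynomial WittVector Pool.Agent.Y129.TB
open Pool.Agent.Y129.TA (TiltPair Tilting exists_normal eval_smul_of_homogeneous)

namespace Run7.h458

variable {p : ℕ} [hp : Fact p.Prime] {C F K E : Type} [Field C] [Field F] [CharP F p] [Field K]
  [Field E] [Algebra K C] [Algebra E F] {T : Tilting p C F}

/-- The endomorphism of the ring of integers induced by an isometric endomorphism. -/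
def autO (T : TiltPair p C F) (τ : F →+* F) (hτ : ∀ x, T.absF (τ x) = T.absF x) : T.O →+* T.O where
  toFun x := ⟨τ x, by
    change T.absF (τ x) ≤ 1
    rw [hτ]
    exact x.2⟩
  map_one' := Subtype.ext (map_one τ)
  map_mul' x y := Subtype.ext (map_mul τ (x : F) (y : F))
  map_zero' := Subtype.ext (map_zero τ)
  map_add' x y := Subtype.ext (map_add τ (x : F) (y : F))

theorem chain_div [IsAlgClosed F] {ϖ : T.O} (hϖ : T.absF ϖ = T.absK p) {v : WittVector p T.O}
    (hq : T.θ (teichmuller p ϖ * v) = p) {Y : ℕ → WittVector p T.O}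
    (hY : ∀ j, Step (teichmuller p ϖ * v) (Y j) (Y (j + 1))) (j : ℕ) :
    ∃ β : T.O, T.absF β = max (T.absK (T.θ (Y 0))) (T.absK p ^ j) ∧ ∃ z, Y j = teichmuller p β * z := by
  have hθ : ∀ j, T.θ (Y j) = T.θ (Y 0) := by
    intro j
    induction j with
    | zero => rfl
    | succ j ih => rw [θ_step hq (hY j), ih]
  obtain ⟨η, hη⟩ := T.surj (T.θ (Y 0))
  have hηa : T.absF η = T.absK (T.θ (Y 0)) := by rw [← T.abs_sharp, hη]
  have hη1 : T.absF η ≤ 1 := by rw [hηa]; exact T.θ_le _
  let η' : T.O := ⟨η, hη1⟩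
  have hpp : 0 < T.absK p := T.absK.pos T.p_ne
  rw [← hηa]
  induction j with
  | zero =>
    refine ⟨1, ?_, Y 0, ?_⟩
    · rw [pow_zero, max_eq_right hη1, Subring.coe_one, map_one]
    · rw [map_one, one_mul]
  | succ j ih =>
    obtain ⟨β, hβ, z, hz⟩ := ih
    have hβp : 0 < T.absF β := by rw [hβ]; exact (pow_pos hpp j).trans_le (le_max_right _ _)
    have hβ0 : β ≠ 0 := fun h => by rw [h, Subring.coe_zero, map_zero] at hβp; exact lt_irrefl _ hβp
    have hγ : ∃ γ : T.O, T.absF γ = max (T.absF η) (T.absK p ^ (j + 1)) := by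
      rcases le_total (T.absF η) (T.absK p ^ (j + 1)) with h | h
      · refine ⟨ϖ ^ (j + 1), ?_⟩
        rw [max_eq_right h, Subring.coe_pow, map_pow, hϖ]
      · exact ⟨η', (max_eq_left h).symm⟩
    obtain ⟨γ, hγ⟩ := hγ
    refine ⟨γ, hγ, step_gain hϖ v hβ0 hz ?_ ?_ ?_ (hY j)⟩
    · rw [hθ j, ← hηa, hγ]
      exact le_max_left _ _
    · rw [hγ, hβ]
      refine max_le_max le_rfl ?_
      exact pow_le_pow_of_le_one hpp.le T.p_lt.le (Nat.le_succ j)
    · rw [hβ, hγ, hϖ, mul_max_of_nonneg _ _ hpp.le]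
      refine max_le_max ?_ ?_
      · exact mul_le_of_le_one_left (T.absF.nonneg _) T.p_lt.le
      · rw [pow_succ, mul_comm]

/-- An element `q = [ϖ] v` with components in `E` and `θ(q) = p`. -/
theorem exists_q (T : Tilting p C F) (B : BaseField T K E) : ∃ (ϖ : T.O) (v : WittVector p T.O)
    (q : WittVector p (OE T.toTiltPair E)), T.absF ϖ = T.absK p ∧ T.θ (teichmuller p ϖ * v) = p ∧
      WittVector.map (OE T.toTiltPair E).subtype q = teichmuller p ϖ * v := by
  have hpp : 0 < T.absK p := T.absK.pos T.p_ne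
  obtain ⟨ϖ₀, hϖ₀⟩ := B.val
  let ϖ : T.O := ⟨algebraMap E F ϖ₀, by
    change T.absF _ ≤ 1
    rw [hϖ₀]
    exact T.p_lt.le⟩
  have hϖ : T.absF ϖ = T.absK p := hϖ₀
  have hϖF : (ϖ : F) ≠ 0 := by
    intro h0
    rw [h0, map_zero] at hϖ
    exact hpp.ne hϖ
  let ϖ' : OE T.toTiltPair E := ⟨ϖ, ϖ₀, rfl⟩
  obtain ⟨s, hs⟩ := B.mem (teichmuller p ϖ')
  rw [map_teichmuller] at hs
  have hs1 : T.θ (teichmuller p ϖ) = algebraMap K C s := hs
  rw [T.θ_teich] at hs1
  have hsne : algebraMap K C s ≠ 0 := by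
    rw [← hs1]
    exact T.toTiltPair.sharp_ne hϖF
  have hp' : T.absK (algebraMap K C ((p : K) / s)) ≤ 1 := by
    rw [map_div₀, map_div₀, map_natCast, ← hs1, T.abs_sharp, hϖ, div_self hpp.ne']
  obtain ⟨v₀, hv₀⟩ := B.surj ((p : K) / s) hp'
  refine ⟨ϖ, WittVector.map (OE T.toTiltPair E).subtype v₀, teichmuller p ϖ' * v₀, hϖ, ?_, ?_⟩
  · rw [map_mul, hv₀, T.θ_teich, hs1, map_div₀, map_natCast]
    exact mul_div_cancel₀ _ hsne
  · rw [map_mul, map_teichmuller]
    rfl

theorem map_aut_fix (τ : F →+* F) (hτ : ∀ x, T.absF (τ x) = T.absF x)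
    (hE : ∀ a : E, τ (algebraMap E F a) = algebraMap E F a) (q : WittVector p (OE T.toTiltPair E)) :
    WittVector.map (autO T.toTiltPair τ hτ) (WittVector.map (OE T.toTiltPair E).subtype q) =
      WittVector.map (OE T.toTiltPair E).subtype q := by
  have h0 : (autO T.toTiltPair τ hτ).comp (OE T.toTiltPair E).subtype = (OE T.toTiltPair E).subtype := by
    refine RingHom.ext fun x => ?_
    obtain ⟨a, ha⟩ := x.2
    refine Subtype.ext ?_
    change τ ((x : T.O) : F) = ((x : T.O) : F)
    have h1 : ((x : T.O) : F) = algebraMap E F a := ha.symm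
    rw [h1, hE]
  rw [map_map', h0]

theorem theta_aut [IsAlgClosed F] (B : BaseField T K E) (τ : F →+* F)
    (hτ : ∀ x, T.absF (τ x) = T.absF x) (hE : ∀ a : E, τ (algebraMap E F a) = algebraMap E F a)
    (x : WittVector p T.O) :
    T.absK (T.θ (WittVector.map (autO T.toTiltPair τ hτ) x)) ≤ T.absK (T.θ x) := by
  have hpp : 0 < T.absK p := T.absK.pos T.p_ne
  obtain ⟨ϖ, v, q, hϖ, hq, hqv⟩ := exists_q T B
  choose next hnext using fun x : WittVector p T.O => Step.exists (teichmuller p ϖ * v) x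
  let Y : ℕ → WittVector p T.O := fun j => next^[j] x
  have hY : ∀ j, Step (teichmuller p ϖ * v) (Y j) (Y (j + 1)) := by
    intro j
    change Step _ (next^[j] _) (next^[j + 1] _)
    rw [Function.iterate_succ_apply']
    exact hnext _
  have hfix : WittVector.map (autO T.toTiltPair τ hτ) (teichmuller p ϖ * v) = teichmuller p ϖ * v := by
    rw [← hqv]
    exact map_aut_fix τ hτ hE q
  have hY' : ∀ j, Step (teichmuller p ϖ * v) (WittVector.map (autO T.toTiltPair τ hτ) (Y j))
      (WittVector.map (autO T.toTiltPair τ hτ) (Y (j + 1))) := by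
    intro j
    have h1 := (hY j).map (autO T.toTiltPair τ hτ)
    rwa [hfix] at h1
  have hθ : ∀ j, T.θ (WittVector.map (autO T.toTiltPair τ hτ) (Y j)) =
      T.θ (WittVector.map (autO T.toTiltPair τ hτ) x) := by
    intro j
    induction j with
    | zero => rfl
    | succ j ih => rw [θ_step hq (hY' j), ih]
  have hle : ∀ j, T.absK (T.θ (WittVector.map (autO T.toTiltPair τ hτ) x)) ≤
      max (T.absK (T.θ x)) (T.absK p ^ j) := by
    intro j
    obtain ⟨β, hβ, z, hz⟩ := chain_div hϖ hq hY j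
    rw [← hθ j, hz, map_mul, map_mul, map_mul, map_teichmuller, T.θ_teich, T.abs_sharp]
    have h1 : T.absF ((autO T.toTiltPair τ hτ β : T.O) : F) = T.absF β := hτ _
    rw [h1, hβ]
    exact mul_le_of_le_one_right (le_max_of_le_left (T.absK.nonneg _)) (T.θ_le _)
  by_contra hlt
  push Not at hlt
  have hpos : 0 < T.absK (T.θ (WittVector.map (autO T.toTiltPair τ hτ) x)) := (T.absK.nonneg _).trans_lt hlt
  obtain ⟨j, hj⟩ := exists_pow_lt_of_lt_one hpos T.p_lt
  exact absurd (hle j) (not_le.2 (max_lt hlt hj))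

/-- The absolute values of the polynomials over `K` are invariant. -/
theorem abs_aut_le [IsAlgClosed F] (T : Tilting p C F) (B : BaseField T K E) (τ : F →+* F)
    (hτ : ∀ x, T.absF (τ x) = T.absF x) (hE : ∀ a : E, τ (algebraMap E F a) = algebraMap E F a)
    {σ : Type} [Fintype σ] {P : MvPolynomial σ K} {D : ℕ} (hP : P.IsHomogeneous D) (y : σ → F) :
    T.absK (aeval (fun i => T.sharp (τ (y i))) P) ≤ T.absK (aeval (fun i => T.sharp (y i)) P) := by
  classical
  by_cases hy : y = 0
  · have h1 : (fun i => T.sharp (τ (y i))) = fun i => T.sharp (y i) := by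
      funext i
      rw [hy, Pi.zero_apply, map_zero]
    rw [h1]
  obtain ⟨a, ha, h1, -⟩ := exists_normal T.toTiltPair hy
  have hpp : 0 < T.absK p := T.absK.pos T.p_ne
  -- the coefficients become integral
  obtain ⟨b, hb⟩ : ∃ b : ℝ, ∀ α ∈ P.support, T.absK (algebraMap K C (coeff α P)) ≤ b :=
    ⟨∑ α ∈ P.support, T.absK (algebraMap K C (coeff α P)), fun α hα =>
      Finset.single_le_sum (f := fun α => T.absK (algebraMap K C (coeff α P)))
        (fun α _ => T.absK.nonneg _) hα⟩
  obtain ⟨m, hm⟩ : ∃ m : ℕ, T.absK p ^ m * max b 1 < 1 := by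
    obtain ⟨m, hm⟩ := exists_pow_lt_of_lt_one (show (0 : ℝ) < 1 / max b 1 by positivity) T.p_lt
    refine ⟨m, ?_⟩
    rwa [lt_div_iff₀ (by positivity)] at hm
  let h' : MvPolynomial σ K := MvPolynomial.C ((p : K) ^ m) * P
  have hint : ∀ α, T.absK (algebraMap K C (coeff α h')) ≤ 1 := by
    intro α
    rw [coeff_C_mul, map_mul, map_mul, map_pow, map_natCast, map_pow]
    by_cases hα : α ∈ P.support
    · refine (mul_le_mul_of_nonneg_left ((hb α hα).trans (le_max_left b 1))
        (pow_nonneg hpp.le m)).trans hm.le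
    · rw [notMem_support_iff.1 hα, map_zero, map_zero, mul_zero]
      exact zero_le_one
  choose H hH using fun α => B.surj (coeff α h') (hint α)
  let t : σ → T.O := fun i => ⟨a * y i, h1 i⟩
  let t' : σ → T.O := fun i => autO T.toTiltPair τ hτ (t i)
  have h2 : WittVector.map (autO T.toTiltPair τ hτ) (WittVector.map (ev T E t) (lift T h' H)) =
      WittVector.map (ev T E t') (lift T h' H) := by
    rw [map_lift, map_lift, map_sum]
    refine Finset.sum_congr rfl fun α _ => ?_
    rw [map_mul, map_aut_fix τ hτ hE, map_teichmuller, map_prod]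
    congr 2
    exact Finset.prod_congr rfl fun i _ => map_pow _ _ _
  have h3 := theta_aut B τ hτ hE (WittVector.map (ev T E t) (lift T h' H))
  rw [h2, θ_lift T h' H hH, θ_lift T h' H hH] at h3
  have h4 : ∀ x : σ → C, aeval x h' = (p : C) ^ m * aeval x P := by
    intro x
    rw [map_mul, aeval_C, map_pow, map_natCast]
  have hsc : ∀ (c : C) (x : σ → C), aeval (fun i => c * x i) P = c ^ D * aeval x P := by
    intro c x
    rw [← eval_map_alg, ← eval_map_alg]
    exact eval_smul_of_homogeneous (hP.map _) c x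
  have h5 : (fun i => T.sharp ((t i : T.O) : F)) = fun i => T.sharp a * T.sharp (y i) := by
    funext i
    exact map_mul _ _ _
  have h6 : (fun i => T.sharp ((t' i : T.O) : F)) = fun i => T.sharp (τ a) * T.sharp (τ (y i)) := by
    funext i
    change T.sharp (τ (a * y i)) = _
    rw [map_mul, map_mul]
  rw [h4, h4, h5, h6, hsc, hsc, map_mul, map_mul, map_mul, map_mul, map_pow, map_pow, map_pow, T.abs_sharp,
    T.abs_sharp, hτ] at h3
  have h7 : 0 < T.absK p ^ m := pow_pos hpp m
  have h8 : 0 < T.absF a ^ D := pow_pos (T.absF.pos ha) D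
  exact le_of_mul_le_mul_left (le_of_mul_le_mul_left h3 h7) h8

theorem abs_aut [IsAlgClosed F] (T : Tilting p C F) (B : BaseField T K E) (τ : F ≃+* F)
    (hτ : ∀ x, T.absF (τ x) = T.absF x) (hE : ∀ a : E, τ (algebraMap E F a) = algebraMap E F a)
    {σ : Type} [Fintype σ] {P : MvPolynomial σ K} {D : ℕ} (hP : P.IsHomogeneous D) (y : σ → F) :
    T.absK (aeval (fun i => T.sharp (τ (y i))) P) = T.absK (aeval (fun i => T.sharp (y i)) P) := by
  refine le_antisymm (abs_aut_le T B τ hτ hE hP y) ?_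
  have h1 := abs_aut_le T B (τ.symm : F →+* F) (fun x => by
    have h2 := hτ (τ.symm x)
    rw [τ.apply_symm_apply] at h2
    exact h2.symm) (fun a => by
      change τ.symm _ = _
      rw [RingEquiv.symm_apply_eq, hE]) hP fun i => τ (y i)
  simpa using h1

end Run7.h458
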