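import Pool.Agent.Run7.h458.Value
import Pool.Agent.Run7.h458.DimLemma
set_option autoImplicit false
set_option linter.unusedSectionVars false

/-!
# The glued curve
-/

open Polynomial Filter Topology Module Pool.Agent.Y129.TA

namespace Run7.h458

variable {k H : Type} [NontriviallyNormedField k] [NontriviallyNormedField H] [NormedAlgebra k H]
  [CompleteSpace k] [IsUltrametricDist k] [CompleteSpace H] [IsUltrametricDist H] {c : Circle k H} {A : Type}
  [CommRing A] [Algebra H A] (V : Chart c A) (W : Chart c.inv A) {F : Type} [NormedField F] [NormedAlgebra k F]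
  [IsUltrametricDist F] [CompleteSpace F] [IsAlgClosed F] {p : ℕ} [hp : Fact p.Prime] [CharP F p]

theorem pow_bound {C δ η : ℝ} (hδ : 0 ≤ δ) (h : δ < η) (m₀ : ℕ) : ∃ M : ℕ, ∀ M', M ≤ M' → m₀ ≤ p ^ M' ∧
    C * δ ^ p ^ M' ≤ η ^ p ^ M' := by
  have hη : 0 < η := hδ.trans_lt h
  have h1 : δ / η < 1 := (div_lt_one hη).2 h
  have h2 := tendsto_pow_atTop_nhds_zero_of_lt_one (div_nonneg hδ hη.le) h1
  have h3 : Tendsto (fun n : ℕ => |C| * (δ / η) ^ n) atTop (𝓝 (|C| * 0)) := h2.const_mul _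
  rw [mul_zero] at h3
  have h4 := h3.eventually (gt_mem_nhds (zero_lt_one' ℝ))
  obtain ⟨n₀, hn₀⟩ := Filter.eventually_atTop.1 h4
  refine ⟨max m₀ n₀, fun M' hM' => ?_⟩
  have h5 : M' ≤ p ^ M' := (Nat.lt_pow_self hp.out.one_lt).le
  refine ⟨(le_max_left _ _).trans (hM'.trans h5), ?_⟩
  have h6 := hn₀ (p ^ M') ((le_max_right _ _).trans (hM'.trans h5))
  have h7 : 0 < η ^ p ^ M' := pow_pos hη _
  rw [div_pow, mul_div_assoc', div_lt_one h7] at h6
  refine le_trans ?_ h6.le
  exact mul_le_mul_of_nonneg_right (le_abs_self C) (by positivity)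

theorem le_of_pow_char {x y : F} {η : ℝ} (hη : 0 ≤ η) (M : ℕ) (h : ‖x ^ p ^ M - y ^ p ^ M‖ ≤ η ^ p ^ M) :
    ‖x - y‖ ≤ η := by
  rw [← sub_pow_char_pow, norm_pow] at h
  exact le_of_pow_le_pow_left₀ (pow_pos hp.out.pos M).ne' hη h

/-- The glued curve. -/
theorem exists_glued [Nontrivial A] {ι : Type} [Fintype ι] (y : ι → V.B) (ω : ι → W.B) (i₀ : ι)
    (hy : y i₀ = algebraMap k[X] V.B X) (hω : ω i₀ = 1) {δ η η' C₀ : ℝ} (hδ : 0 ≤ δ) (hη : δ < η)
    (hη' : δ / ‖c.v‖ < η')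
    (hclose : ∀ (M : ℕ) (i : ι), ‖V.bA.equivFun (V.φ (y i) ^ p ^ M - c.v ^ p ^ M • W.φ (ω i) ^ p ^ M)‖ ≤
      C₀ * δ ^ p ^ M) :
    ∃ Y : Set (Option ι → F), IsClosedCone Y ∧ DimGE Y 1 ∧
      (∀ w ∈ Y, w none = 0 → w (some i₀) = 0 → w = 0) ∧ ∀ w ∈ Y,
      (w none ≠ 0 → ‖w (some i₀)‖ ≤ ‖c.v‖ * ‖w none‖ → ∃ ψ : V.B →+* F,
        (∀ P : k[X], ψ (algebraMap k[X] V.B P) = aeval (w (some i₀) / w none) P) ∧
          ∀ i, ‖w (some i) / w none - ψ (y i)‖ ≤ η) ∧
      (w (some i₀) ≠ 0 → ‖c.v‖ * ‖w none‖ ≤ ‖w (some i₀)‖ → ∃ ψ : W.B →+* F,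
        (∀ P : k[X], ψ (algebraMap k[X] W.B P) = aeval (w none / w (some i₀)) P) ∧
          ∀ i, ‖w (some i) / w (some i₀) - ψ (ω i)‖ ≤ η') := by
  classical
  have hv0 : 0 < ‖c.v‖ := c.norm_v_pos
  have hyA : V.φ (y i₀) = algebraMap H A c.v := by rw [hy, V.φ_alg, aeval_X]
  obtain ⟨m₀, C, hC, hsec⟩ := exists_sections V W y ω i₀ hyA hω
  obtain ⟨CV, hCV, hCV2⟩ := Chart.exists_bound_points (F := F) V ‖c.v‖ (norm_nonneg _)
  obtain ⟨CW, hCW, hCW2⟩ := Chart.exists_bound_points (F := F) W ‖c.inv.v‖ (norm_nonneg _)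
  obtain ⟨C1, hC1, hC12⟩ := exists_bound_basis V.bA W.bA
  have hδη' : 0 ≤ δ / ‖c.v‖ := div_nonneg hδ hv0.le
  obtain ⟨M1, hM1⟩ := pow_bound (p := p) (C := CV * (C * C₀)) hδ hη (max m₀ 1)
  obtain ⟨M2, hM2⟩ := pow_bound (p := p) (C := CW * (C1 * (C * C₀))) hδη' hη' 0
  set M := max M1 M2 with hM
  set m := p ^ M with hm
  have hm0 : m₀ ≤ m := (le_max_left _ _).trans (hM1 M (le_max_left _ _)).1
  have hm1 : 0 < m := (le_max_right m₀ 1).trans (hM1 M (le_max_left _ _)).1
  have hbV : CV * (C * C₀) * δ ^ m ≤ η ^ m := (hM1 M (le_max_left _ _)).2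
  have hbW : CW * (C1 * (C * C₀)) * (δ / ‖c.v‖) ^ m ≤ η' ^ m := (hM2 M (le_max_right _ _)).2
  obtain ⟨s, hsV, hsW, hs0, hs⟩ := hsec m hm0
  have hsV2 : ∀ i, ‖V.bA.equivFun (V.φ (y i) ^ m - s i)‖ ≤ C * (C₀ * δ ^ m) := fun i =>
    (hs i).1.trans (mul_le_mul_of_nonneg_left (hclose M i) hC)
  have hsV3 : ∀ i, ‖V.bA.equivFun (s i - c.v ^ m • W.φ (ω i) ^ m)‖ ≤ C * (C₀ * δ ^ m) := fun i =>
    (hs i).2.trans (mul_le_mul_of_nonneg_left (hclose M i) hC)
  -- the characteristic polynomials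
  have hcomb : ∀ T : ι → k, c.v⁻¹ ^ m • comb (H := H) s T = comb (H := H) (fun i => c.v⁻¹ ^ m • s i) T := by
    intro T
    rw [comb, comb, Finset.smul_sum]
    refine Finset.sum_congr rfl fun i _ => ?_
    rw [smul_comm]
  have hchar : ∀ T : ι → k, ∃ P : ℕ → k[X], (∀ j, (P j).natDegree ≤ m * (Fintype.card V.ι - j)) ∧
      P (Fintype.card V.ι) = 1 ∧
      (∑ j ∈ Finset.range (Fintype.card V.ι + 1), Polynomial.C (P j) * X ^ j : k[X][X]).map
        (aeval c.v : k[X] →ₐ[k] H).toRingHom = (Algebra.leftMulMatrix V.bA (comb (H := H) s T)).charpoly ∧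
      (∑ j ∈ Finset.range (Fintype.card V.ι + 1),
        Polynomial.C (reflect (m * (Fintype.card V.ι - j)) (P j)) * X ^ j : k[X][X]).map
          (aeval c.v⁻¹ : k[X] →ₐ[k] H).toRingHom =
            (Algebra.leftMulMatrix W.bA (comb (H := H) (fun i => c.v⁻¹ ^ m • s i) T)).charpoly := by
    intro T
    have h1 : W.Mem (c.v⁻¹ ^ m • comb (H := H) s T) := by
      rw [hcomb]
      exact W.mem_comb hsW T
    obtain ⟨P, h2, h3, h4, h5⟩ := exists_charpoly V W (V.mem_comb hsV T) h1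
    rw [hcomb] at h5
    exact ⟨P, h2, h3, h4, h5⟩
  choose P hPd hPN hPV hPW using hchar
  set N := Fintype.card V.ι with hN
  have hnV : Nonempty V.ι := by
    by_contra hne
    rw [not_nonempty_iff] at hne
    have h1 : ∀ x : A, x = 0 := fun x => by
      rw [← V.bA.sum_repr x]
      simp
    exact zero_ne_one ((h1 1).symm)
  have hnW : Nonempty W.ι := by
    rw [← Fintype.card_pos_iff, card_eq V W]
    exact Fintype.card_pos
  have hN0 : 0 < N := Fintype.card_pos
  let q : (ι → k) → MvPolynomial (Option ι) F := fun T => form F (P T) N m T i₀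
  let Y : Set (Option ι → F) := {w | ∀ T, MvPolynomial.eval w (q T) = 0}
  have hYmem : ∀ w, w ∈ Y ↔ ∀ T, MvPolynomial.eval w (q T) = 0 := fun w => Iff.rfl
  have hclosed : IsClosedCone Y := by
    refine ⟨⟨Ideal.span (Set.range q), ?_⟩, ?_⟩
    · ext w
      rw [MvPolynomial.mem_zeroLocus_iff, hYmem]
      constructor
      · intro h f hf
        rw [MvPolynomial.aeval_eq_eval]
        have h2 : Ideal.span (Set.range q) ≤ RingHom.ker (MvPolynomial.eval w) := by
          rw [Ideal.span_le]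
          rintro _ ⟨T, rfl⟩
          exact h T
        exact h2 hf
      · intro h T
        have h1 := h (q T) (Ideal.subset_span ⟨T, rfl⟩)
        rwa [MvPolynomial.aeval_eq_eval] at h1
    · intro a w hw T
      change MvPolynomial.eval (a • w) (form F (P T) N m T i₀) = 0
      rw [eval_form_smul]
      have h1 : MvPolynomial.eval w (form F (P T) N m T i₀) = 0 := hw T
      rw [h1, mul_zero]
  -- the points of `Y`
  have hinj : Function.Injective fun x : F => x ^ m := fun x x' h => by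
    have h1 : (x - x') ^ m = 0 := by
      rw [hm, sub_pow_char_pow, sub_eq_zero]
      exact h
    exact sub_eq_zero.1 (pow_eq_zero_iff hm1.ne' |>.1 h1)
  refine ⟨Y, hclosed, ?_, ?_, fun w hw => ⟨fun h0 hle => ?_, fun h0 hle => ?_⟩⟩
  · refine dimGE_one hclosed none (some i₀) fun α β hα => ?_
    rcases le_total ‖β‖ (‖c.v‖ * ‖α‖) with hle | hle
    · have ha : ‖β / α‖ ≤ ‖c.v‖ := by
        rw [norm_div, div_le_iff₀ (norm_pos_iff.2 hα)]
        exact hle
      obtain ⟨E, hE, hE2⟩ := c.exists_eval (β / α) ha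
      obtain ⟨ψ, hψ⟩ := V.exists_over (β / α)
      choose x hx using fun i => IsAlgClosed.exists_pow_nat_eq (V.value E ψ (hsV i)) hm1
      have hx0 : x i₀ = β / α := by
        apply hinj
        change x i₀ ^ m = (β / α) ^ m
        have h1 : s i₀ = V.φ (y i₀ ^ m) := by rw [hs0, map_pow V.φ, hyA, map_pow]
        rw [hx, V.value_congr (hsV i₀) (V.mem_φ _) h1, V.value_φ hE hψ, hy, ← map_pow, hψ, map_pow, aeval_X]
      refine ⟨fun o => α * o.elim 1 x, fun T => ?_, by simp, ?_⟩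
      · change MvPolynomial.eval _ (form F (P T) N m T i₀) = 0
        have h2 : α * (none : Option ι).elim 1 x ≠ 0 := by simpa using hα
        rw [eval_form_left (hPd T) T i₀ h2]
        have h3 : (α * (some i₀).elim 1 x) / (α * (none : Option ι).elim 1 x) = β / α := by
          simp only [Option.elim_some, Option.elim_none, mul_one]
          rw [mul_div_cancel_left₀ _ hα, hx0]
        have h4 : ∀ l, ((α * (some l).elim 1 x) / (α * (none : Option ι).elim 1 x)) ^ m = V.value E ψ (hsV l) := by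
          intro l
          simp only [Option.elim_some, Option.elim_none, mul_one]
          rw [mul_div_cancel_left₀ _ hα, hx]
        simp only [h3, h4]
        rw [V.root_of_point_comb hE hψ hsV T (hPV T), mul_zero]
      · simp only [Option.elim_some]
        rw [hx0, mul_div_cancel₀ _ hα]
    · have hβ : β ≠ 0 := by
        rintro rfl
        rw [norm_zero] at hle
        exact absurd (mul_pos hv0 (norm_pos_iff.2 hα)) (not_lt.2 hle)
      have ha : ‖α / β‖ ≤ ‖c.inv.v‖ := by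
        rw [c.inv_v, norm_inv, norm_div, div_le_iff₀ (norm_pos_iff.2 hβ)]
        rw [inv_mul_eq_div, le_div_iff₀ hv0, mul_comm]
        exact hle
      obtain ⟨E, hE, hE2⟩ := c.inv.exists_eval (α / β) ha
      obtain ⟨ψ, hψ⟩ := W.exists_over (α / β)
      choose x hx using fun i => IsAlgClosed.exists_pow_nat_eq (W.value E ψ (hsW i)) hm1
      have hx0 : x i₀ = 1 := by
        apply hinj
        change x i₀ ^ m = 1 ^ m
        have h1 : c.v⁻¹ ^ m • s i₀ = W.φ 1 := by
          rw [hs0, map_one, Algebra.algebraMap_eq_smul_one, smul_smul, ← mul_pow, inv_mul_cancel₀ c.v_ne,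
            one_pow, one_smul]
        rw [hx, W.value_congr (hsW i₀) (W.mem_φ _) h1, W.value_φ hE hψ, map_one, one_pow]
      refine ⟨fun o => β * o.elim (α / β) x, fun T => ?_, ?_, ?_⟩
      · change MvPolynomial.eval _ (form F (P T) N m T i₀) = 0
        have h2 : β * (some i₀).elim (α / β) x ≠ 0 := by
          simp only [Option.elim_some, hx0, mul_one]
          exact hβ
        rw [eval_form_right (hPd T) T i₀ h2]
        have h3 : (β * (none : Option ι).elim (α / β) x) / (β * (some i₀).elim (α / β) x) = α / β := by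
          simp only [Option.elim_some, Option.elim_none, hx0, mul_one]
          rw [mul_div_cancel_left₀ _ hβ]
        have h4 : ∀ l, ((β * (some l).elim (α / β) x) / (β * (some i₀).elim (α / β) x)) ^ m =
            W.value E ψ (hsW l) := by
          intro l
          simp only [Option.elim_some, hx0, mul_one]
          rw [mul_div_cancel_left₀ _ hβ, hx]
        simp only [h3, h4]
        rw [W.root_of_point_comb hE hψ hsW T (hPW T), mul_zero]
      · simp only [Option.elim_none]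
        rw [mul_div_cancel₀ _ hβ]
      · simp only [Option.elim_some, hx0, mul_one]
  · intro w hw h0 h1
    funext o
    rcases o with _ | l
    · exact h0
    · have h2 : MvPolynomial.eval w (form F (P (Pi.single l 1)) N m (Pi.single l 1) i₀) = 0 := hw (Pi.single l 1)
      rw [eval_form_zero (Pi.single l 1) i₀ hm1 (hPN _) h0 h1] at h2
      have h3 := pow_eq_zero_iff hN0.ne' |>.1 h2
      rw [Finset.sum_eq_single l] at h3
      · rw [Pi.single_eq_same, map_one, one_mul] at h3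
        exact pow_eq_zero_iff hm1.ne' |>.1 h3
      · intro j _ hj
        rw [Pi.single_eq_of_ne hj, map_zero, zero_mul]
      · intro hi
        exact absurd (Finset.mem_univ l) hi
  · have ha : ‖w (some i₀) / w none‖ ≤ ‖c.v‖ := by
      rw [norm_div, div_le_iff₀ (norm_pos_iff.2 h0)]
      exact hle
    obtain ⟨E, hE, hE2⟩ := c.exists_eval (w (some i₀) / w none) ha
    obtain ⟨ψ, hψ, hψ2⟩ := V.exists_point_all hsV E hE (fun i => (w (some i) / w none) ^ m) fun T => by
      refine ⟨_, hPV T, ?_⟩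
      have h1 : MvPolynomial.eval w (form F (P T) N m T i₀) = 0 := hw T
      rw [eval_form_left (hPd T) T i₀ h0] at h1
      exact (mul_eq_zero.1 h1).resolve_left (pow_ne_zero _ h0)
    refine ⟨ψ, hψ, fun i => le_of_pow_char (p := p) (hδ.trans hη.le) M ?_⟩
    have h1 : (w (some i) / w none) ^ p ^ M - ψ (y i) ^ p ^ M = -V.value E ψ ((V.mem_φ (y i ^ m)).sub (hsV i)) := by
      rw [V.value_sub (V.mem_φ (y i ^ m)) (hsV i), V.value_φ hE hψ, map_pow]
      have h2 : V.value E ψ (hsV i) = (w (some i) / w none) ^ m := hψ2 i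
      rw [h2]
      ring
    rw [h1, norm_neg]
    refine (V.norm_value_le hE2 (hCV2 _ ha ψ hψ) hCV _).trans ?_
    refine le_trans ?_ hbV
    rw [map_pow, mul_assoc CV, mul_assoc C]
    exact mul_le_mul_of_nonneg_left (hsV2 i) hCV
  · have ha : ‖w none / w (some i₀)‖ ≤ ‖c.inv.v‖ := by
      rw [c.inv_v, norm_inv, norm_div, div_le_iff₀ (norm_pos_iff.2 h0)]
      rw [inv_mul_eq_div, le_div_iff₀ hv0, mul_comm]
      exact hle
    obtain ⟨E, hE, hE2⟩ := c.inv.exists_eval (w none / w (some i₀)) ha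
    obtain ⟨ψ, hψ, hψ2⟩ := W.exists_point_all hsW E hE (fun i => (w (some i) / w (some i₀)) ^ m) fun T => by
      refine ⟨_, hPW T, ?_⟩
      have h1 : MvPolynomial.eval w (form F (P T) N m T i₀) = 0 := hw T
      rw [eval_form_right (hPd T) T i₀ h0] at h1
      exact (mul_eq_zero.1 h1).resolve_left (pow_ne_zero _ h0)
    refine ⟨ψ, hψ, fun i => le_of_pow_char (p := p) (hδη'.trans hη'.le) M ?_⟩
    have h1 : (w (some i) / w (some i₀)) ^ p ^ M - ψ (ω i) ^ p ^ M =
        W.value E ψ ((hsW i).sub (W.mem_φ (ω i ^ m))) := by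
      rw [W.value_sub (hsW i) (W.mem_φ (ω i ^ m)), W.value_φ hE hψ, map_pow]
      have h2 : W.value E ψ (hsW i) = (w (some i) / w (some i₀)) ^ m := hψ2 i
      rw [h2]
    rw [h1]
    refine (W.norm_value_le hE2 (hCW2 _ ha ψ hψ) hCW _).trans ?_
    refine le_trans ?_ hbW
    have h2 : c.v⁻¹ ^ m • s i - W.φ (ω i ^ m) = c.v⁻¹ ^ m • (s i - c.v ^ m • W.φ (ω i) ^ m) := by
      rw [smul_sub, smul_smul, ← mul_pow, inv_mul_cancel₀ c.v_ne, one_pow, one_smul, map_pow]
    rw [h2, map_smul, norm_smul, norm_pow, norm_inv, div_pow, mul_assoc CW]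
    refine mul_le_mul_of_nonneg_left ?_ hCW
    have h3 : ‖W.bA.equivFun (s i - c.v ^ m • W.φ (ω i) ^ m)‖ ≤ C1 * (C * (C₀ * δ ^ m)) :=
      (hC12 _).trans (mul_le_mul_of_nonneg_left (hsV3 i) hC1)
    calc ‖c.v‖⁻¹ ^ m * ‖W.bA.equivFun (s i - c.v ^ m • W.φ (ω i) ^ m)‖
        ≤ ‖c.v‖⁻¹ ^ m * (C1 * (C * (C₀ * δ ^ m))) := mul_le_mul_of_nonneg_left h3 (by positivity)
      _ = C1 * (C * C₀) * (δ ^ m / ‖c.v‖ ^ m) := by rw [inv_pow]; ring

end Run7.h458
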