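import Pool.Agent.Run7.h458.KSide2
set_option autoImplicit false
set_option linter.unusedSectionVars false

/-!
# Estimates
-/

open MvPolynomial Pool.Agent.Y129.TA Pool.Agent.R388.TP

namespace Run7.h458

section general

variable {K : Type} [Field K] {a : AbsoluteValue K ℝ} (ha : ∀ x y, a (x + y) ≤ max (a x) (a y))
  {τ : Type}

include ha

theorem asub_le (x y : K) : a (x - y) ≤ max (a x) (a y) := by
  rw [sub_eq_add_neg, ← a.map_neg y]
  exact ha _ _

/-- A polynomial is bounded on a ball. -/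
theorem boundedB (f : MvPolynomial τ K) {B : ℝ} (hB : 0 ≤ B) : ∃ C : ℝ, 0 < C ∧ ∀ v : τ → K,
    (∀ i, a (v i) ≤ B) → a (eval v f) ≤ C := by
  induction f using MvPolynomial.induction_on with
  | C c =>
    refine ⟨1 + a c, by positivity, fun v _ => ?_⟩
    rw [eval_C]
    linarith
  | add f g hf hg =>
    obtain ⟨C₁, hC₁, h1⟩ := hf
    obtain ⟨C₂, hC₂, h2⟩ := hg
    refine ⟨max C₁ C₂, lt_max_of_lt_left hC₁, fun v hv => ?_⟩
    rw [map_add]
    exact (ha _ _).trans (max_le_max (h1 v hv) (h2 v hv))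
  | mul_X f i hf =>
    obtain ⟨C₁, hC₁, h1⟩ := hf
    refine ⟨C₁ * (B + 1), by positivity, fun v hv => ?_⟩
    rw [map_mul, map_mul, eval_X]
    exact mul_le_mul (h1 v hv) ((hv i).trans (by linarith)) (a.nonneg _) hC₁.le

/-- A polynomial is Lipschitz on a ball. -/
theorem lipB (f : MvPolynomial τ K) {B : ℝ} (hB : 0 ≤ B) : ∃ C : ℝ, 0 < C ∧ ∀ (v v' : τ → K) (d : ℝ), 0 ≤ d →
    (∀ i, a (v i) ≤ B) → (∀ i, a (v' i) ≤ B) → (∀ i, a (v i - v' i) ≤ d) → a (eval v f - eval v' f) ≤ C * d := by
  induction f using MvPolynomial.induction_on with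
  | C c =>
    refine ⟨1, one_pos, fun v v' d hd _ _ _ => ?_⟩
    rw [eval_C, eval_C, sub_self, a.map_zero, one_mul]
    exact hd
  | add f g hf hg =>
    obtain ⟨C₁, hC₁, h1⟩ := hf
    obtain ⟨C₂, hC₂, h2⟩ := hg
    refine ⟨max C₁ C₂, lt_max_of_lt_left hC₁, fun v v' d hd hv hv' hvv => ?_⟩
    have e1 : eval v (f + g) - eval v' (f + g) = (eval v f - eval v' f) + (eval v g - eval v' g) := by
      rw [map_add, map_add]
      ring
    rw [e1, max_mul_of_nonneg _ _ hd]
    exact (ha _ _).trans (max_le_max (h1 v v' d hd hv hv' hvv) (h2 v v' d hd hv hv' hvv))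
  | mul_X f i hf =>
    obtain ⟨C₁, hC₁, h1⟩ := hf
    obtain ⟨C₂, hC₂, h2⟩ := boundedB ha f hB
    refine ⟨max (C₁ * (B + 1)) C₂, lt_max_of_lt_right hC₂, fun v v' d hd hv hv' hvv => ?_⟩
    have e1 : eval v (f * X i) - eval v' (f * X i) = (eval v f - eval v' f) * v i + eval v' f * (v i - v' i) := by
      rw [map_mul, map_mul, eval_X, eval_X]
      ring
    rw [e1, max_mul_of_nonneg _ _ hd]
    refine (ha _ _).trans (max_le_max ?_ ?_)
    · rw [map_mul]
      calc a (eval v f - eval v' f) * a (v i) ≤ (C₁ * d) * (B + 1) :=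
            mul_le_mul (h1 v v' d hd hv hv' hvv) ((hv i).trans (by linarith)) (a.nonneg _) (by positivity)
        _ = _ := by ring
    · rw [map_mul]
      exact mul_le_mul (h2 v' hv') (hvv i) (a.nonneg _) hC₂.le

theorem homog_bound [Fintype τ] {f : MvPolynomial τ K} {e : ℕ} (hf : f.IsHomogeneous e) : ∃ C : ℝ, 0 < C ∧
    ∀ (v : τ → K) (M : ℝ), (∀ i, a (v i) ≤ M) → 0 ≤ M → a (eval v f) ≤ C * M ^ e := by
  classical
  refine ⟨1 + ∑ α ∈ f.support, a (coeff α f), ?_, fun v M hv hM => ?_⟩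
  · have h : 0 ≤ ∑ α ∈ f.support, a (coeff α f) := Finset.sum_nonneg fun α _ => a.nonneg _
    linarith
  · have h0 : 0 ≤ ∑ α ∈ f.support, a (coeff α f) := Finset.sum_nonneg fun α _ => a.nonneg _
    rw [eval_eq']
    refine usum ha _ _ (mul_nonneg (by linarith) (pow_nonneg hM e)) fun α hα => ?_
    rw [map_mul, map_prod]
    have h1 : ∏ i, a (v i ^ α i) ≤ M ^ e := by
      rw [← sum_of_homogeneous hf hα, ← Finset.prod_pow_eq_pow_sum]
      refine Finset.prod_le_prod (fun i _ => a.nonneg _) fun i _ => ?_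
      rw [map_pow]
      exact pow_le_pow_left₀ (a.nonneg _) (hv i) _
    have h2 : a (coeff α f) ≤ 1 + ∑ α ∈ f.support, a (coeff α f) := by
      have := Finset.single_le_sum (f := fun α => a (coeff α f)) (fun α _ => a.nonneg _) hα
      linarith
    exact mul_le_mul h2 h1 (Finset.prod_nonneg fun i _ => a.nonneg _) (by linarith)

/-- If `Q` vanishes at all common zeros of the `E k`, then `Q` is small where all `E k` are small. -/
theorem smallB [IsAlgClosed K] [Fintype τ] {κ : Type}
    [Fintype κ] (E : κ → MvPolynomial τ K) (Q : MvPolynomial τ K)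
    (hQ : ∀ v, (∀ k, eval v (E k) = 0) → eval v Q = 0) {B η : ℝ} (hB : 0 ≤ B) (hη : 0 < η) :
    ∃ δ : ℝ, 0 < δ ∧ ∀ v : τ → K, (∀ i, a (v i) ≤ B) → (∀ k, a (eval v (E k)) ≤ δ) →
      a (eval v Q) ≤ η := by
  classical
  have h1 : Q ∈ (Ideal.span (Set.range E)).radical := by
    rw [← vanishingIdeal_zeroLocus_eq_radical (K := K), mem_vanishingIdeal_iff]
    intro v hv
    rw [aeval_eq_eval]
    refine hQ v fun k => ?_
    have h2 := (mem_zeroLocus_iff.1 hv) (E k) (Ideal.subset_span ⟨k, rfl⟩)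
    rwa [aeval_eq_eval] at h2
  obtain ⟨M, hM⟩ := h1
  have hM1 : Q ^ (M + 1) ∈ Ideal.span (Set.range E) := by
    rw [pow_succ]
    exact Ideal.mul_mem_right _ _ hM
  obtain ⟨c, hc⟩ := (Ideal.mem_span_range_iff_exists_fun).1 hM1
  choose b hb0 hb using fun k => boundedB ha (c k) hB
  obtain ⟨B', hB', hB''⟩ : ∃ B' : ℝ, 0 < B' ∧ ∀ k, b k ≤ B' :=
    ⟨1 + ∑ k, b k, by
      have : 0 ≤ ∑ k, b k := Finset.sum_nonneg fun k _ => (hb0 k).le
      linarith, fun k => by
      have h := Finset.single_le_sum (f := b) (fun k _ => (hb0 k).le) (Finset.mem_univ k)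
      linarith⟩
  refine ⟨η ^ (M + 1) / B', by positivity, fun v hv hE => ?_⟩
  have h3 : a (eval v Q) ^ (M + 1) ≤ B' * (η ^ (M + 1) / B') := by
    rw [← map_pow, ← map_pow, ← hc, map_sum]
    refine usum ha _ _ (by positivity) fun k _ => ?_
    rw [map_mul, map_mul]
    exact mul_le_mul ((hb k v hv).trans (hB'' k)) (hE k) (a.nonneg _) hB'.le
  have h4 : B' * (η ^ (M + 1) / B') = η ^ (M + 1) := by field_simp
  rw [h4] at h3
  exact le_of_pow_le_pow_left₀ (Nat.succ_ne_zero M) hη.le h3

theorem aadd_eq {x y : K} (h : a y < a x) : a (x + y) = a x := by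
  refine le_antisymm ((ha _ _).trans (max_le le_rfl h.le)) ?_
  by_contra h6
  push Not at h6
  have h7 : x = (x + y) + -y := by ring
  have h8 := ha (x + y) (-y)
  rw [← h7, a.map_neg] at h8
  exact absurd h8 (not_le.2 (max_lt h6 h))

/-- A monic polynomial at a large argument. -/
theorem monic_dom {h : Polynomial (MvPolynomial τ K)} (hm : h.Monic) {B : ℝ} (hB : 0 ≤ B) :
    ∃ S : ℝ, 1 ≤ S ∧ ∀ (u : τ → K) (w : K), (∀ i, a (u i) ≤ B) → S < a w → a (val₂ h u w) = a w ^ h.natDegree := by
  classical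
  choose b hb0 hb using fun i : ℕ => boundedB ha (h.coeff i) hB
  set S : ℝ := 1 + ∑ i ∈ Finset.range h.natDegree, b i with hS
  have hsum : 0 ≤ ∑ i ∈ Finset.range h.natDegree, b i := Finset.sum_nonneg fun i _ => (hb0 i).le
  refine ⟨S, by linarith, fun u w hu hw => ?_⟩
  have hw1 : 1 < a w := lt_of_le_of_lt (by linarith) hw
  have hw0 : 0 < a w := zero_lt_one.trans hw1
  have h1 : val₂ h u w = w ^ h.natDegree + ∑ i ∈ Finset.range h.natDegree, eval u (h.coeff i) * w ^ i := by
    rw [val₂_eq, Polynomial.eval₂_eq_sum_range, Finset.sum_range_succ, hm.coeff_natDegree, map_one, one_mul, add_comm]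
  have h2 : a (∑ i ∈ Finset.range h.natDegree, eval u (h.coeff i) * w ^ i) < a (w ^ h.natDegree) := by
    rcases Nat.eq_zero_or_pos h.natDegree with h0 | h0
    · rw [h0, Finset.range_zero, Finset.sum_empty, a.map_zero, pow_zero, map_one]
      exact one_pos
    · have h3 : a (∑ i ∈ Finset.range h.natDegree, eval u (h.coeff i) * w ^ i) ≤ S * a w ^ (h.natDegree - 1) := by
        refine usum ha _ _ (by positivity) fun i hi => ?_
        have hi' := Finset.mem_range.1 hi
        rw [map_mul, map_pow]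
        refine mul_le_mul ?_ (pow_le_pow_right₀ hw1.le (by omega)) (by positivity) (by linarith)
        have h4 := Finset.single_le_sum (f := b) (fun i _ => (hb0 i).le) hi
        linarith [hb i u hu]
      refine h3.trans_lt ?_
      rw [map_pow]
      have h5 : a w ^ h.natDegree = a w * a w ^ (h.natDegree - 1) := by
        rw [← pow_succ', Nat.sub_add_cancel h0]
      rw [h5]
      exact mul_lt_mul_of_pos_right hw (pow_pos hw0 _)
  rw [h1, aadd_eq ha h2, map_pow]

end general

section est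

variable {K : Type} [Field K] [IsAlgClosed K] [CharZero K] {a : AbsoluteValue K ℝ} (ha : ∀ x y, a (x + y) ≤ max (a x) (a y))
  {σ : Type} [Fintype σ]

include ha

theorem Qf_ge (e : ℕ) (he : 0 < e) (lam : K) : ∃ c : ℝ, 0 < c ∧ c ≤ 1 ∧ ∀ t : Fin 2 → K,
    ∃ j, c * (max (a (t 0)) (a (t 1))) ^ e ≤ a (Qf e lam t j) := by
  have hl := a.nonneg lam
  have hpos : 0 < 2 + a lam := by linarith
  refine ⟨1 / (2 + a lam), by positivity, ?_, fun t => ?_⟩
  · rw [div_le_one hpos]
    linarith
  · set M := max (a (t 0)) (a (t 1)) with hM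
    set c := 1 / (2 + a lam) with hc
    have hc0 : 0 < c := by positivity
    have hM0 : 0 ≤ M := le_max_of_le_left (a.nonneg _)
    by_cases h : c * M ^ e ≤ a (t 1) ^ e
    · refine ⟨1, ?_⟩
      simp only [Qf, Matrix.cons_val_one, Matrix.cons_val_zero, map_pow]
      exact h
    · push Not at h
      refine ⟨0, ?_⟩
      have hMp : 0 < M ^ e := by
        by_contra h0
        have h1 : M ^ e = 0 := le_antisymm (not_lt.1 h0) (pow_nonneg hM0 e)
        rw [h1, mul_zero] at h
        exact absurd (pow_nonneg (a.nonneg (t 1)) e) (not_le.2 h)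
      have hc1 : c * (1 + a lam) < 1 := by
        rw [hc, one_div, inv_mul_lt_iff₀ hpos]
        linarith
      have h1 : a (t 1) < M := by
        by_contra h2
        push Not at h2
        have h3 := pow_le_pow_left₀ hM0 h2 e
        have h4 : c * M ^ e ≤ 1 * M ^ e := mul_le_mul_of_nonneg_right (by nlinarith) hMp.le
        rw [one_mul] at h4
        exact absurd (h4.trans h3) (not_le.2 h)
      have h2 : a (t 0) = M := by
        rcases max_choice (a (t 0)) (a (t 1)) with h3 | h3
        · exact h3.symm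
        · rw [← hM] at h3
          exact absurd h3.symm h1.ne
      have h3 : a (lam * t 1 ^ e) < a (t 0 ^ e) := by
        rw [map_mul, map_pow, map_pow, h2]
        rcases hl.eq_or_lt with h4 | h4
        · rw [← h4, zero_mul]
          exact hMp
        · refine (mul_lt_mul_of_pos_left h h4).trans ?_
          rw [← mul_assoc]
          have h5 : a lam * c < 1 := by nlinarith
          exact mul_lt_of_lt_one_left hMp h5
      simp only [Qf, Matrix.cons_val_zero]
      rw [aadd_eq ha h3, map_pow, h2]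
      have h5 : c ≤ 1 := by nlinarith
      exact mul_le_of_le_one_left hMp.le h5

theorem exists_sep (S : Finset K) : ∃ s : ℝ, 0 < s ∧ s ≤ 1 ∧ ∀ b ∈ S, ∀ b' ∈ S, b ≠ b' → s ≤ a (b - b') := by
  classical
  let P := S.offDiag
  rcases P.eq_empty_or_nonempty with h0 | hne
  · refine ⟨1, one_pos, le_rfl, fun b hb b' hb' hbb => ?_⟩
    have h1 : (b, b') ∈ P := Finset.mem_offDiag.2 ⟨hb, hb', hbb⟩
    rw [h0] at h1
    exact absurd h1 (Finset.notMem_empty _)
  · obtain ⟨⟨x, y⟩, hxy, hmin⟩ := Finset.exists_min_image P (fun z => a (z.1 - z.2)) hne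
    obtain ⟨h1, h2, h3⟩ := Finset.mem_offDiag.1 hxy
    refine ⟨min 1 (a (x - y)), lt_min one_pos (a.pos (sub_ne_zero.2 h3)), min_le_left _ _, fun b hb b' hb' hbb => ?_⟩
    exact (min_le_right _ _).trans (hmin (b, b') (Finset.mem_offDiag.2 ⟨hb, hb', hbb⟩))

theorem estimate2 {e : ℕ} (he : 0 < e) (lam : K) {q : Fin 2 → MvPolynomial σ K} (hq : ∀ j, (q j).IsHomogeneous e)
    {N : σ → ℕ} {Ψ : σ → Polynomial (MvPolynomial (Fin 2) K)}
    (hΨ : ∀ i, (Ψ i).Monic ∧ (Ψ i).natDegree = N i ∧ 0 < N i)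
    (hΨh : ∀ i (b : K) (Q : Fin 2 → K) (x : K), val₂ (Ψ i) (fun j => b ^ e * Q j) (b * x) = b ^ N i * val₂ (Ψ i) Q x)
    (S : Finset K) (hS : S.Nonempty) :
    ∃ (C c η₀ : ℝ), 1 ≤ C ∧ 0 < c ∧ 0 < η₀ ∧ η₀ ≤ 1 ∧ ∀ (t : Fin 2 → K) (x : σ → K),
      a (∏ b ∈ S, (t 1 - b * t 0) - 1) < 1 → (∀ j, a (eval x (q j) - Qf e lam t j) ≤ η₀) →
      (∀ i, a (val₂ (Ψ i) (Qf e lam t) (x i)) ≤ η₀) →
      (∃ i, c ≤ a (x i)) ∧ (∃ i, c * a (t 0) ≤ a (x i)) ∧ (1 ≤ a (t 0) → (∀ i, a (x i) ≤ C * a (t 0)) ∧
        ∀ η : ℝ, (∀ i, a (val₂ (Ψ i) (Qf e lam t) (x i)) ≤ η) → ∃ b ∈ S,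
          ∀ i, a (val₂ (Ψ i) (Qf e lam ![1, b]) (x i / t 0)) ≤ max η (C / a (t 0) ^ S.card)) := by
  classical
  -- the constants
  obtain ⟨CS, hCS1, hCS⟩ : ∃ CS : ℝ, 1 ≤ CS ∧ ∀ b ∈ S, a b ≤ CS := by
    refine ⟨1 + ∑ b ∈ S, a b, ?_, fun b hb => ?_⟩
    · have : 0 ≤ ∑ b ∈ S, a b := Finset.sum_nonneg fun b _ => a.nonneg b
      linarith
    · have := Finset.single_le_sum (f := fun b => a b) (fun b _ => a.nonneg b) hb
      linarith
  have hCS0 : 0 < CS := zero_lt_one.trans_le hCS1
  obtain ⟨c₁, hc₁, hc₁1, hQf⟩ := Qf_ge ha e he lam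
  choose Cq' hCq'0 hCq' using fun j => homog_bound ha (hq j)
  set Cq : ℝ := 1 + Cq' 0 + Cq' 1 with hCq
  have hCq1 : 1 ≤ Cq := by linarith [hCq'0 0, hCq'0 1]
  have hCq0 : 0 < Cq := zero_lt_one.trans_le hCq1
  have hCqj : ∀ j, Cq' j ≤ Cq := by
    intro j
    fin_cases j
    · change Cq' 0 ≤ Cq
      linarith [hCq'0 0, hCq'0 1]
    · change Cq' 1 ≤ Cq
      linarith [hCq'0 0, hCq'0 1]
  set BQ : ℝ := 1 + a lam * CS ^ e + CS ^ e with hBQ
  have hBQ0 : 0 ≤ BQ := by
    have := a.nonneg lam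
    positivity
  choose SΨ hSΨ1 hSΨ using fun i => monic_dom ha (hΨ i).1 hBQ0
  set C₁ : ℝ := 1 + ∑ i, SΨ i with hC₁
  have hsΨ0 : ∀ i, 0 ≤ SΨ i := fun i => zero_le_one.trans (hSΨ1 i)
  have hC₁1 : 1 ≤ C₁ := by
    have : 0 ≤ ∑ i, SΨ i := Finset.sum_nonneg fun i _ => hsΨ0 i
    linarith
  have hC₁i : ∀ i, SΨ i ≤ C₁ := fun i => by
    have := Finset.single_le_sum (f := SΨ) (fun i _ => hsΨ0 i) (Finset.mem_univ i)
    linarith
  obtain ⟨s, hs0, hs1, hs⟩ := exists_sep ha S
  -- the Lipschitz constants; the polynomial in the variables `(τ, ξ)`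
  have hpoly : ∀ i, ∃ P : MvPolynomial (Fin 2) K, ∀ v, eval v P = val₂ (Ψ i) (Qf e lam ![1, v 0]) (v 1) := by
    intro i
    let j : MvPolynomial (Fin 2) K →ₐ[K] MvPolynomial (Fin 2) K := aeval ![1 + C lam * X 0 ^ e, X 0 ^ e]
    refine ⟨(Ψ i).eval₂ j.toRingHom (X 1), fun v => ?_⟩
    rw [Polynomial.hom_eval₂, val₂_eq, eval_X]
    congr 1
    refine MvPolynomial.ringHom_ext (fun b => ?_) fun l => ?_
    · change eval v (j (C b)) = _
      simp only [j]
      rw [aeval_C, MvPolynomial.algebraMap_eq, eval_C, eval_C]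
    · change eval v (j (X l)) = _
      simp only [j]
      rw [aeval_X, eval_X]
      fin_cases l
      · simp [Qf]
      · simp [Qf]
  choose PΨ hPΨ using hpoly
  choose CL hCL0 hCL using fun i => lipB ha (PΨ i) (B := CS + C₁) (by positivity)
  set C₂ : ℝ := 1 + ∑ i, CL i with hC₂
  have hC₂1 : 1 ≤ C₂ := by
    have : 0 ≤ ∑ i, CL i := Finset.sum_nonneg fun i _ => (hCL0 i).le
    linarith
  have hC₂i : ∀ i, CL i ≤ C₂ := fun i => by
    have := Finset.single_le_sum (f := CL) (fun i _ => (hCL0 i).le) (Finset.mem_univ i)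
    linarith
  set c₂ : ℝ := c₁ / (2 * Cq) with hc₂
  have hc₂0 : 0 < c₂ := by positivity
  have hc₂1 : c₂ ≤ 1 := by
    rw [hc₂, div_le_one (by positivity)]
    linarith
  have hD : 0 < S.card := Finset.card_pos.2 hS
  refine ⟨C₁ + C₂ / s ^ S.card, c₂ / CS, min 1 (c₁ / (2 * CS ^ e)), ?_, by positivity, by positivity,
    min_le_left _ _, fun t x hprod hqx hΨx => ?_⟩
  · have : 0 ≤ C₂ / s ^ S.card := by positivity
    linarith
  · set M := max (a (t 0)) (a (t 1)) with hM
    have hM0 : 0 ≤ M := le_max_of_le_left (a.nonneg _)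
    have hprod1 : a (∏ b ∈ S, (t 1 - b * t 0)) = 1 := by
      have e1 : ∏ b ∈ S, (t 1 - b * t 0) = 1 + (∏ b ∈ S, (t 1 - b * t 0) - 1) := by ring
      rw [e1, aadd_eq ha (by rw [map_one]; exact hprod), map_one]
    have hfac : ∀ b ∈ S, a (t 1 - b * t 0) ≤ CS * M := by
      intro b hb
      refine (asub_le ha _ _).trans (max_le ?_ ?_)
      · exact (le_max_right _ _).trans (le_mul_of_one_le_left hM0 hCS1)
      · rw [map_mul]
        exact mul_le_mul (hCS b hb) (le_max_left _ _) (a.nonneg _) hCS0.le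
    have hCSM : 1 ≤ CS * M := by
      by_contra hlt
      push Not at hlt
      have h1 : a (∏ b ∈ S, (t 1 - b * t 0)) ≤ (CS * M) ^ S.card := by
        rw [map_prod]
        rw [← Finset.prod_const]
        exact Finset.prod_le_prod (fun b hb => a.nonneg _) hfac
      rw [hprod1] at h1
      exact absurd h1 (not_le.2 (pow_lt_one₀ (by positivity) hlt hD.ne'))
    have hMp : 0 < M := by
      by_contra h0
      have h1 : M = 0 := le_antisymm (not_lt.1 h0) hM0
      rw [h1, mul_zero] at hCSM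
      linarith
    have hlow : ∃ i, c₂ * M ≤ a (x i) := by
      by_contra hno
      push Not at hno
      obtain ⟨j, hj⟩ := hQf t
      rw [← hM] at hj
      have h1 : a (eval x (q j)) ≤ Cq * (c₂ * M) ^ e :=
        (hCq' j x (c₂ * M) (fun i => (hno i).le) (by positivity)).trans
          (mul_le_mul_of_nonneg_right (hCqj j) (by positivity))
      have h2 : Cq * (c₂ * M) ^ e < c₁ * M ^ e := by
        rw [mul_pow, ← mul_assoc]
        refine mul_lt_mul_of_pos_right ?_ (pow_pos hMp e)
        have h3 : c₂ ^ e ≤ c₂ := pow_le_of_le_one hc₂0.le hc₂1 he.ne'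
        have h4 : Cq * c₂ ^ e ≤ Cq * c₂ := mul_le_mul_of_nonneg_left h3 hCq0.le
        have h5 : Cq * c₂ = c₁ / 2 := by
          rw [hc₂]
          field_simp
        rw [h5] at h4
        linarith
      have h3 : a (Qf e lam t j) ≤ max (a (eval x (q j))) (min 1 (c₁ / (2 * CS ^ e))) := by
        have e1 : Qf e lam t j = eval x (q j) - (eval x (q j) - Qf e lam t j) := by ring
        rw [e1]
        exact (asub_le ha _ _).trans (max_le_max le_rfl (hqx j))
      have h4 : min 1 (c₁ / (2 * CS ^ e)) < c₁ * M ^ e := by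
        refine (min_le_right _ _).trans_lt ?_
        rw [div_lt_iff₀ (by positivity)]
        have h5 : 1 ≤ (CS * M) ^ e := one_le_pow₀ hCSM
        rw [mul_pow] at h5
        have h6 : c₁ * 1 ≤ c₁ * (CS ^ e * M ^ e) := mul_le_mul_of_nonneg_left h5 hc₁.le
        nlinarith
      exact absurd (hj.trans h3) (not_le.2 (max_lt (h1.trans_lt h2) h4))
    obtain ⟨i₀, hi₀⟩ := hlow
    have hdiv : c₂ / CS ≤ c₂ * M := by
      rw [div_le_iff₀ hCS0]
      nlinarith
    refine ⟨⟨i₀, hdiv.trans hi₀⟩, ⟨i₀, ?_⟩, fun ht0 => ?_⟩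
    · refine le_trans ?_ hi₀
      have h1 : c₂ / CS ≤ c₂ := div_le_self hc₂0.le hCS1
      exact mul_le_mul h1 (le_max_left _ _) (a.nonneg _) hc₂0.le
    · have ht0p : 0 < a (t 0) := zero_lt_one.trans_le ht0
      have ht00 : t 0 ≠ 0 := fun h => by rw [h, a.map_zero] at ht0p; exact lt_irrefl _ ht0p
      have ht1 : a (t 1) ≤ CS * a (t 0) := by
        by_contra hlt
        push Not at hlt
        have h1 : ∀ b ∈ S, a (t 1 - b * t 0) = a (t 1) := by
          intro b hb
          rw [sub_eq_add_neg]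
          refine aadd_eq ha ?_
          rw [a.map_neg, map_mul]
          exact (mul_le_mul_of_nonneg_right (hCS b hb) (a.nonneg _)).trans_lt hlt
        have h2 : a (∏ b ∈ S, (t 1 - b * t 0)) = a (t 1) ^ S.card := by
          rw [map_prod, Finset.prod_congr rfl h1, Finset.prod_const]
        rw [hprod1] at h2
        have h3 : 1 < a (t 1) := by
          refine lt_of_le_of_lt ?_ hlt
          nlinarith
        exact absurd h2 (one_lt_pow₀ h3 hD.ne').ne
      set τ' := t 1 / t 0 with hτ'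
      have hτa : a τ' ≤ CS := by
        rw [hτ', map_div₀, div_le_iff₀ ht0p]
        exact ht1
      have hQs : Qf e lam t = fun j => t 0 ^ e * Qf e lam ![1, τ'] j := by
        rw [← Qf_smul]
        congr 1
        funext i
        fin_cases i
        · simp
        · simp only [Fin.mk_one, Matrix.cons_val_one, Matrix.cons_val_zero]
          rw [hτ', mul_div_cancel₀ _ ht00]
      have hscale : ∀ i, val₂ (Ψ i) (Qf e lam t) (x i) = t 0 ^ N i * val₂ (Ψ i) (Qf e lam ![1, τ']) (x i / t 0) := by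
        intro i
        rw [← hΨh, hQs, mul_div_cancel₀ _ ht00]
      have hle : ∀ (η : ℝ) i, a (val₂ (Ψ i) (Qf e lam t) (x i)) ≤ η →
          a (val₂ (Ψ i) (Qf e lam ![1, τ']) (x i / t 0)) ≤ η := by
        intro η i h
        rw [hscale, map_mul, map_pow] at h
        refine le_trans ?_ h
        exact le_mul_of_one_le_left (a.nonneg _) (one_le_pow₀ ht0)
      have hQb : ∀ τ'' : K, a τ'' ≤ CS → ∀ j, a (Qf e lam ![1, τ''] j) ≤ BQ := by
        intro τ'' h j
        have h0 := a.nonneg lam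
        have h1 : a τ'' ^ e ≤ CS ^ e := pow_le_pow_left₀ (a.nonneg _) h e
        have h2 : 0 ≤ a lam * CS ^ e := by positivity
        have h3 : 0 ≤ CS ^ e := by positivity
        fin_cases j
        · simp only [Qf, Fin.zero_eta, Matrix.cons_val_zero, Matrix.cons_val_one, one_pow]
          refine (ha _ _).trans (max_le ?_ ?_)
          · rw [map_one]
            linarith
          · rw [map_mul, map_pow]
            have := mul_le_mul_of_nonneg_left h1 h0
            linarith
        · simp only [Qf, Fin.mk_one, Matrix.cons_val_zero, Matrix.cons_val_one, map_pow]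
          linarith
      have hξ : ∀ i, a (x i / t 0) ≤ C₁ := by
        intro i
        by_contra hlt
        push Not at hlt
        have h1 := hSΨ i _ (x i / t 0) (hQb τ' hτa) ((hC₁i i).trans_lt hlt)
        have h2 := hle _ i (hΨx i)
        rw [h1] at h2
        have h3 : 1 < a (x i / t 0) := hC₁1.trans_lt hlt
        have h4 : 1 < a (x i / t 0) ^ (Ψ i).natDegree := one_lt_pow₀ h3 (by rw [(hΨ i).2.1]; exact (hΨ i).2.2.ne')
        exact absurd (h2.trans (min_le_left _ _)) (not_le.2 h4)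
      have hC₂s : 0 ≤ C₂ / s ^ S.card := by positivity
      refine ⟨fun i => ?_, fun η hη => ?_⟩
      · have h1 := hξ i
        rw [map_div₀, div_le_iff₀ ht0p] at h1
        refine h1.trans (mul_le_mul_of_nonneg_right ?_ ht0p.le)
        linarith
      · obtain ⟨b, hb, hmin⟩ := Finset.exists_min_image S (fun b => a (τ' - b)) hS
        have hother : ∀ b' ∈ S, b' ≠ b → s ≤ a (τ' - b') := by
          intro b' hb' hne
          refine (hs b' hb' b hb hne).trans ?_
          have e1 : b' - b = (τ' - b) - (τ' - b') := by ring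
          rw [e1]
          exact (asub_le ha _ _).trans (max_le (hmin b' hb') le_rfl)
        have hprod2 : ∏ b' ∈ S, a (τ' - b') = 1 / a (t 0) ^ S.card := by
          have e1 : ∏ b' ∈ S, (t 1 - b' * t 0) = t 0 ^ S.card * ∏ b' ∈ S, (τ' - b') := by
            rw [← Finset.prod_const, ← Finset.prod_mul_distrib]
            refine Finset.prod_congr rfl fun b' _ => ?_
            rw [mul_sub, hτ', mul_div_cancel₀ _ ht00, mul_comm (t 0) b']
          rw [e1, map_mul, map_pow, map_prod] at hprod1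
          rw [eq_div_iff (pow_pos ht0p _).ne', mul_comm]
          exact hprod1
        have hnear : a (τ' - b) ≤ 1 / s ^ S.card / a (t 0) ^ S.card := by
          have h1 : a (τ' - b) * s ^ (S.card - 1) ≤ 1 / a (t 0) ^ S.card := by
            rw [← hprod2, ← Finset.mul_prod_erase S _ hb]
            refine mul_le_mul_of_nonneg_left ?_ (a.nonneg _)
            rw [← Finset.card_erase_of_mem hb, ← Finset.prod_const]
            exact Finset.prod_le_prod (fun _ _ => hs0.le) fun b' hb' =>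
              hother b' (Finset.mem_of_mem_erase hb') (Finset.ne_of_mem_erase hb')
          have h2 : a (τ' - b) * s ^ S.card ≤ a (τ' - b) * s ^ (S.card - 1) :=
            mul_le_mul_of_nonneg_left (pow_le_pow_of_le_one hs0.le hs1 (Nat.sub_le _ _)) (a.nonneg _)
          have h3 : a (τ' - b) ≤ (1 / a (t 0) ^ S.card) / s ^ S.card := by
            rw [le_div_iff₀ (by positivity)]
            exact h2.trans h1
          refine h3.trans (le_of_eq ?_)
          rw [div_right_comm]
        refine ⟨b, hb, fun i => ?_⟩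
        have hbound : ∀ y : K, a y ≤ CS → ∀ l, a ((![y, x i / t 0] : Fin 2 → K) l) ≤ CS + C₁ := by
          intro y hy l
          fin_cases l
          · change a y ≤ _
            linarith
          · change a (x i / t 0) ≤ _
            linarith [hξ i]
        have hL := hCL i ![b, x i / t 0] ![τ', x i / t 0] (a (τ' - b)) (a.nonneg _)
          (hbound b (hCS b hb)) (hbound τ' hτa) (fun l => by
            fin_cases l
            · change a (b - τ') ≤ _
              rw [a.map_sub]
            · change a (x i / t 0 - x i / t 0) ≤ _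
              rw [sub_self, a.map_zero]
              exact a.nonneg _)
        rw [hPΨ, hPΨ] at hL
        simp only [Matrix.cons_val_zero, Matrix.cons_val_one] at hL
        have e1 : val₂ (Ψ i) (Qf e lam ![1, b]) (x i / t 0) = val₂ (Ψ i) (Qf e lam ![1, τ']) (x i / t 0) +
            (val₂ (Ψ i) (Qf e lam ![1, b]) (x i / t 0) - val₂ (Ψ i) (Qf e lam ![1, τ']) (x i / t 0)) := by ring
        rw [e1]
        refine (ha _ _).trans (max_le_max (hle η i (hη i)) (hL.trans ?_))
        calc CL i * a (τ' - b) ≤ C₂ * (1 / s ^ S.card / a (t 0) ^ S.card) :=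
              mul_le_mul (hC₂i i) hnear (a.nonneg _) (by linarith)
          _ = (C₂ / s ^ S.card) / a (t 0) ^ S.card := by ring
          _ ≤ _ := by
              refine div_le_div_of_nonneg_right ?_ (by positivity)
              linarith

end est

end Run7.h458
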