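import Pool.Agent.Run7.h458.Monic
set_option autoImplicit false
set_option linter.unusedSectionVars false

/-!
# Zeros of the approximations of monic polynomials
-/

open Pool.Agent.Y129.TA

namespace Run7.h458

variable {p : ℕ} [hp : Fact p.Prime] {K F : Type} [Field K] [Field F] [CharP F p] [IsAlgClosed F]

theorem usum {K' : Type} [Field K'] {a : AbsoluteValue K' ℝ} (ha : ∀ x y, a (x + y) ≤ max (a x) (a y)) {ι : Type}
    (s : Finset ι) (f : ι → K') {B : ℝ} (hB : 0 ≤ B) (h : ∀ i ∈ s, a (f i) ≤ B) :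
    a (∑ i ∈ s, f i) ≤ B := by
  classical
  induction s using Finset.induction_on with
  | empty => rwa [Finset.sum_empty, AbsoluteValue.map_zero]
  | insert i s hi ih =>
    rw [Finset.sum_insert hi]
    exact (ha _ _).trans (max_le (h i (Finset.mem_insert_self i s))
      (ih fun j hj => h j (Finset.mem_insert_of_mem hj)))

theorem exists_mons_bound {τ : Type} (T : Tilting p K F) (h : Polynomial (MvPolynomial τ K)) {B : ℝ}
    (hB : 1 ≤ B) : ∃ S : ℝ, 1 ≤ S ∧ ∀ u : τ → F, (∀ i, T.absF (u i) ≤ B) → ∀ a ∈ mons h,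
      T.absK (MvPolynomial.eval (fun i => T.sharp (u i))
        (MvPolynomial.monomial a.2 ((h.coeff a.1).coeff a.2))) ≤ S := by
  classical
  let f : (Σ _ : ℕ, τ →₀ ℕ) → ℝ := fun a => T.absK ((h.coeff a.1).coeff a.2) * ∏ i ∈ a.2.support, B ^ a.2 i
  have hB0 : 0 ≤ B := zero_le_one.trans hB
  have hf : ∀ a, 0 ≤ f a := fun a => mul_nonneg (T.absK.nonneg _) (Finset.prod_nonneg fun i _ => pow_nonneg hB0 _)
  refine ⟨1 + ∑ a ∈ mons h, f a, ?_, fun u hu a ha => ?_⟩
  · have : 0 ≤ ∑ a ∈ mons h, f a := Finset.sum_nonneg fun a _ => hf a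
    linarith
  · have h1 : T.absK (MvPolynomial.eval (fun i => T.sharp (u i))
        (MvPolynomial.monomial a.2 ((h.coeff a.1).coeff a.2))) ≤ f a := by
      rw [MvPolynomial.eval_monomial, map_mul, Finsupp.prod, map_prod]
      refine mul_le_mul_of_nonneg_left ?_ (T.absK.nonneg _)
      refine Finset.prod_le_prod (fun i _ => T.absK.nonneg _) fun i _ => ?_
      rw [map_pow, T.abs_sharp]
      exact pow_le_pow_left₀ (T.absF.nonneg _) (hu i) _
    have h2 := Finset.single_le_sum (f := f) (fun a _ => hf a) ha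
    linarith

theorem mons_lt {R τ : Type} [CommRing R] [Nontrivial R] {h : Polynomial (MvPolynomial τ R)} (hm : h.Monic)
    {a : Σ _ : ℕ, τ →₀ ℕ} (ha : a ∈ mons h) (hne : a ≠ ⟨h.natDegree, 0⟩) : a.1 < h.natDegree := by
  classical
  have hd1 : h.coeff h.natDegree = 1 := hm
  have h1 := Finset.mem_sigma.1 ha
  have h2 := Polynomial.le_natDegree_of_mem_supp _ h1.1
  refine lt_of_le_of_ne h2 fun heq => hne ?_
  have h3 : a.2 ∈ (h.coeff h.natDegree).support := heq ▸ h1.2
  rw [hd1, MvPolynomial.mem_support_iff, MvPolynomial.coeff_one] at h3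
  have h4 : 0 = a.2 := by
    by_contra h5
    rw [if_neg h5] at h3
    exact h3 rfl
  exact Sigma.ext heq (heq_of_eq h4.symm)

theorem star_mem {R τ : Type} [CommRing R] [Nontrivial R] {h : Polynomial (MvPolynomial τ R)} (hm : h.Monic) :
    (⟨h.natDegree, 0⟩ : Σ _ : ℕ, τ →₀ ℕ) ∈ mons h := by
  have hd1 : h.coeff h.natDegree = 1 := hm
  rw [mons, Finset.mem_sigma]
  refine ⟨Polynomial.mem_support_iff.2 (by rw [hd1]; exact one_ne_zero), ?_⟩
  rw [hd1, MvPolynomial.mem_support_iff, MvPolynomial.coeff_zero_one]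
  exact one_ne_zero

theorem small_elt (T : Tilting p K F) {ε : ℝ} (hε : 0 < ε) : ∃ t : F, t ≠ 0 ∧ T.absF t < ε := by
  obtain ⟨m, hm⟩ := exists_pow_lt_of_lt_one hε T.p_lt
  obtain ⟨t, ht⟩ := T.surj ((p : K) ^ m)
  have h1 : T.absF t = T.absK p ^ m := by rw [← T.abs_sharp, ht, map_pow]
  refine ⟨t, fun h0 => ?_, by rw [h1]; exact hm⟩
  rw [h0, map_zero] at h1
  exact (pow_pos (T.absK.pos T.p_ne) m).ne h1

theorem exists_monic_zero {τ : Type} (T : Tilting p K F) {h : Polynomial (MvPolynomial τ K)} (hm : h.Monic)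
    (hd : 0 < h.natDegree) {B : ℝ} (hB : 1 ≤ B) : ∃ S : ℝ, 1 ≤ S ∧ ∀ ε : ℝ, 0 < ε →
      ∃ g : Polynomial (MvPolynomial τ F), g.Monic ∧ 0 < g.natDegree ∧
        (∃ t : F, t ≠ 0 ∧ Polynomial.derivative g = Polynomial.C (MvPolynomial.C t)) ∧
        ∀ (u : τ → F) (w : F), (∀ i, T.absF (u i) ≤ B) → val₂ g u w = 0 →
          T.absF w ≤ S ∧ T.absK (val₂ h (fun i => T.sharp (u i)) (T.sharp w)) ≤ ε := by
  classical
  have hpp : 0 < T.absK p := T.absK.pos T.p_ne
  obtain ⟨S, hS1, hS⟩ := exists_mons_bound T h hB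
  have hS0 : 0 < S := zero_lt_one.trans_le hS1
  refine ⟨S, hS1, fun ε hε => ?_⟩
  obtain ⟨c, hc⟩ := exists_pow_lt_of_lt_one (show 0 < ε / (S * S ^ h.natDegree) by positivity) T.p_lt
  obtain ⟨M, g₀, hM, hgm, hgn, hgd, hg⟩ := approx_poly T hm (c + 1)
  have hpM : 1 < p ^ M := Nat.one_lt_pow hM.ne' hp.out.one_lt
  have hn : 1 < g₀.natDegree := by
    rw [hgn]
    exact hpM.trans_le (Nat.le_mul_of_pos_left _ hd)
  obtain ⟨t, ht0, ht⟩ := small_elt T (show 0 < min 1 (ε ^ p ^ M / S) by positivity)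
  have ht1 : T.absF t < 1 := ht.trans_le (min_le_left _ _)
  have ht2 : T.absF t < ε ^ p ^ M / S := ht.trans_le (min_le_right _ _)
  have hdegX : (Polynomial.C (MvPolynomial.C t) * Polynomial.X : Polynomial (MvPolynomial τ F)).degree < g₀.degree := by
    refine lt_of_le_of_lt (Polynomial.degree_C_mul_X_le _) ?_
    rw [Polynomial.degree_eq_natDegree hgm.ne_zero]
    exact_mod_cast hn
  have hpc : T.absK p ^ (c + 1) < 1 := pow_lt_one₀ hpp.le T.p_lt (Nat.succ_ne_zero c)
  refine ⟨g₀ + Polynomial.C (MvPolynomial.C t) * Polynomial.X, hgm.add_of_left hdegX, ?_, ⟨t, ht0, ?_⟩,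
    fun u w hu hz => ?_⟩
  · have h1 := Polynomial.degree_add_eq_left_of_degree_lt hdegX
    rw [Polynomial.natDegree_eq_of_degree_eq h1]
    omega
  · rw [Polynomial.derivative_add, hgd, zero_add, Polynomial.derivative_C_mul, Polynomial.derivative_X, mul_one]
  · have hz1 : val₂ g₀ u w = -(t * w) := by
      have h1 : val₂ (g₀ + Polynomial.C (MvPolynomial.C t) * Polynomial.X) u w = val₂ g₀ u w + t * w := by
        simp [val₂]
      rw [h1] at hz
      exact eq_neg_of_add_eq_zero_left hz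
    have hz2 : T.absF (val₂ g₀ u w) = T.absF t * T.absF w := by rw [hz1, AbsoluteValue.map_neg, map_mul]
    have hwS : T.absF w ≤ S := by
      by_contra hlt
      push Not at hlt
      have hw1 : 1 < T.absF w := hS1.trans_lt hlt
      have hw0 : 0 < T.absF w := zero_lt_one.trans hw1
      have hterm : ∀ a ∈ mons h, a ≠ ⟨h.natDegree, 0⟩ → T.absK (MvPolynomial.eval (fun i => T.sharp (u i))
          (MvPolynomial.monomial a.2 ((h.coeff a.1).coeff a.2)) * T.sharp w ^ a.1) ≤
            S * T.absF w ^ (h.natDegree - 1) := by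
        intro a ha hne
        rw [map_mul, map_pow, T.abs_sharp]
        have h2 := mons_lt hm ha hne
        refine mul_le_mul (hS u hu a ha) ?_ (by positivity) hS0.le
        exact pow_le_pow_right₀ hw1.le (by omega)
      have hpow : S * T.absF w ^ (h.natDegree - 1) < T.absF w ^ h.natDegree := by
        have h3 : T.absF w ^ h.natDegree = T.absF w * T.absF w ^ (h.natDegree - 1) := by
          rw [← pow_succ', Nat.sub_add_cancel hd]
        rw [h3]
        exact mul_lt_mul_of_pos_right hlt (pow_pos hw0 _)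
      have hstar : MvPolynomial.eval (fun i => T.sharp (u i)) (MvPolynomial.monomial
          (⟨h.natDegree, 0⟩ : Σ _ : ℕ, τ →₀ ℕ).2 ((h.coeff (⟨h.natDegree, 0⟩ : Σ _ : ℕ, τ →₀ ℕ).1).coeff
            (⟨h.natDegree, 0⟩ : Σ _ : ℕ, τ →₀ ℕ).2)) = 1 := by
        have hd1 : h.coeff h.natDegree = 1 := hm
        simp only [hd1, MvPolynomial.coeff_zero_one]
        rw [MvPolynomial.eval_monomial]
        simp
      have hval : T.absK (val₂ h (fun i => T.sharp (u i)) (T.sharp w)) = T.absF w ^ h.natDegree := by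
        rw [val₂_sum, ← Finset.add_sum_erase _ _ (star_mem hm), hstar, one_mul]
        set R := ∑ a ∈ (mons h).erase ⟨h.natDegree, 0⟩, MvPolynomial.eval (fun i => T.sharp (u i))
          (MvPolynomial.monomial a.2 ((h.coeff a.1).coeff a.2)) * T.sharp w ^ a.1 with hR
        have hR1 : T.absK R ≤ S * T.absF w ^ (h.natDegree - 1) := by
          refine usum T.ultraK _ _ (by positivity) fun a ha => ?_
          obtain ⟨h4, h5⟩ := Finset.mem_erase.1 ha
          exact hterm a h5 h4
        have hR2 : T.absK R < T.absF w ^ h.natDegree := hR1.trans_lt hpow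
        have hw2 : T.absK (T.sharp w ^ h.natDegree) = T.absF w ^ h.natDegree := by rw [map_pow, T.abs_sharp]
        change T.absK (T.sharp w ^ h.natDegree + R) = _
        refine le_antisymm ((T.ultraK _ _).trans (max_le hw2.le hR2.le)) ?_
        by_contra h6
        push Not at h6
        have h7 : T.sharp w ^ h.natDegree = (T.sharp w ^ h.natDegree + R) + -R := by ring
        have h8 := T.ultraK (T.sharp w ^ h.natDegree + R) (-R)
        rw [← h7, hw2, AbsoluteValue.map_neg] at h8
        exact absurd h8 (not_le.2 (max_lt h6 hR2))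
      obtain ⟨-, h9⟩ := hg u w (T.absF w ^ h.natDegree) fun a ha => by
        by_cases hne : a = ⟨h.natDegree, 0⟩
        · rw [hne, hstar, one_mul, map_pow, T.abs_sharp]
        · exact (hterm a ha hne).trans hpow.le
      rw [hval] at h9
      have h10 := h9 (mul_lt_of_lt_one_left (pow_pos hw0 _) hpc)
      rw [hz2, ← pow_mul] at h10
      have h11 : T.absF w ≤ T.absF w ^ (h.natDegree * p ^ M) := by
        conv_lhs => rw [← pow_one (T.absF w)]
        exact pow_le_pow_right₀ hw1.le (by rw [← hgn]; omega)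
      have h12 : T.absF t * T.absF w < T.absF w := mul_lt_of_lt_one_left hw0 ht1
      rw [h10] at h12
      exact absurd h11 (not_le.2 h12)
    refine ⟨hwS, ?_⟩
    by_contra hlt
    push Not at hlt
    obtain ⟨-, h9⟩ := hg u w (S * S ^ h.natDegree) fun a ha => by
      rw [map_mul, map_pow, T.abs_sharp]
      refine mul_le_mul (hS u hu a ha) ?_ (pow_nonneg (T.absF.nonneg _) _) hS0.le
      have h2 : a.1 ≤ h.natDegree := by
        by_cases hne : a = ⟨h.natDegree, 0⟩
        · rw [hne]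
        · exact (mons_lt hm ha hne).le
      exact (pow_le_pow_left₀ (T.absF.nonneg _) hwS _).trans (pow_le_pow_right₀ hS1 h2)
    have h10 := h9 (by
      refine lt_trans ?_ hlt
      have h11 : T.absK p ^ (c + 1) ≤ T.absK p ^ c := pow_le_pow_of_le_one hpp.le T.p_lt.le (Nat.le_succ c)
      have h12 : T.absK p ^ (c + 1) * (S * S ^ h.natDegree) ≤ T.absK p ^ c * (S * S ^ h.natDegree) :=
        mul_le_mul_of_nonneg_right h11 (by positivity)
      refine h12.trans_lt ?_
      rwa [lt_div_iff₀ (by positivity)] at hc)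
    rw [hz2] at h10
    have h13 : T.absF t * T.absF w ≤ ε ^ p ^ M := by
      have h14 : T.absF t * T.absF w ≤ T.absF t * S := mul_le_mul_of_nonneg_left hwS (T.absF.nonneg _)
      refine h14.trans ?_
      rw [lt_div_iff₀ hS0] at ht2
      exact ht2.le
    rw [h10] at h13
    exact absurd h13 (not_le.2 (pow_lt_pow_left₀ hlt hε.le (by positivity)))

theorem prod_ge {K' : Type} [Field K'] (a : AbsoluteValue K' ℝ) (w : K') {m : ℝ} (hm : 0 ≤ m) (s : Multiset K')
    (hs : ∀ z ∈ s, m ≤ a (w - z)) : m ^ s.card ≤ a (s.map fun z => w - z).prod := by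
  induction s using Multiset.induction_on with
  | empty => simp
  | cons z s ih =>
    rw [Multiset.map_cons, Multiset.prod_cons, Multiset.card_cons, map_mul, pow_succ']
    exact mul_le_mul (hs z (Multiset.mem_cons_self z s)) (ih fun y hy => hs y (Multiset.mem_cons_of_mem hy))
      (pow_nonneg hm _) (a.nonneg _)

theorem exists_roots (T : Tilting p K F) {f : Polynomial K} (hm : f.Monic)
    (hd : 0 < f.natDegree) {B : ℝ} (hB : 1 ≤ B) {ε : ℝ} (hε : 0 < ε) : ∃ R : Finset F,
      ∀ w : F, T.absF w ≤ B → ∃ z ∈ R, T.absF (w - z) ^ f.natDegree ≤ max (T.absK (f.eval (T.sharp w))) ε := by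
  classical
  have hpp : 0 < T.absK p := T.absK.pos T.p_ne
  let h : Polynomial (MvPolynomial Empty K) := f.map MvPolynomial.C
  have hhm : h.Monic := hm.map _
  have hhn : h.natDegree = f.natDegree := hm.natDegree_map _
  obtain ⟨S, hS1, hS⟩ := exists_mons_bound T h hB
  have hS0 : 0 < S := zero_lt_one.trans_le hS1
  have hB0 : 0 < B := zero_lt_one.trans_le hB
  obtain ⟨c, hc⟩ := exists_pow_lt_of_lt_one (show 0 < ε / (S * B ^ f.natDegree) by positivity) T.p_lt
  obtain ⟨M, g, hM, hgm, hgn, hgd, hg⟩ := approx_poly T hhm c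
  let u : Empty → F := fun e => e.elim
  let g₁ : Polynomial F := g.map (MvPolynomial.eval u)
  have hg₁m : g₁.Monic := hgm.map _
  have hg₁n : g₁.natDegree = f.natDegree * p ^ M := by rw [hgm.natDegree_map, hgn, hhn]
  have hpM : 0 < p ^ M := pow_pos hp.out.pos M
  refine ⟨g₁.roots.toFinset, fun w hw => ?_⟩
  have hs := IsAlgClosed.splits g₁
  have h2 : g₁.roots.card = g₁.natDegree := hs.natDegree_eq_card_roots.symm
  have hne : g₁.roots ≠ 0 := by
    intro h0
    rw [h0, Multiset.card_zero, hg₁n] at h2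
    exact (Nat.mul_pos hd hpM).ne h2
  obtain ⟨z₀, hz₀⟩ := Multiset.exists_mem_of_ne_zero hne
  obtain ⟨z, hz, hmin⟩ := Finset.exists_min_image g₁.roots.toFinset (fun z => T.absF (w - z))
    ⟨z₀, Multiset.mem_toFinset.2 hz₀⟩
  refine ⟨z, hz, ?_⟩
  have h3 := prod_ge T.absF w (T.absF.nonneg (w - z)) g₁.roots fun y hy => hmin y (Multiset.mem_toFinset.2 hy)
  have h4 : (g₁.roots.map fun z => w - z).prod = g₁.eval w := by
    have h5 : g₁ = (g₁.roots.map fun x => Polynomial.X - Polynomial.C x).prod := by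
      conv_lhs => rw [hs.eq_prod_roots, hg₁m.leadingCoeff, Polynomial.C_1, one_mul]
    conv_rhs => rw [h5, Polynomial.eval_multiset_prod, Multiset.map_map]
    congr 1
    refine Multiset.map_congr rfl fun x _ => ?_
    simp
  rw [h4, h2, hg₁n] at h3
  have h5 : val₂ h (fun i => T.sharp (u i)) (T.sharp w) = f.eval (T.sharp w) := by
    rw [val₂, Polynomial.map_map]
    have h6 : (MvPolynomial.eval fun i => T.sharp (u i)).comp (MvPolynomial.C : K →+* MvPolynomial Empty K) =
        RingHom.id K := by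
      ext x
      simp
    rw [h6, Polynomial.map_id]
  obtain ⟨h7, -⟩ := hg u w (S * B ^ f.natDegree) fun a ha => by
    rw [map_mul, map_pow, T.abs_sharp]
    refine mul_le_mul (hS u (fun i => i.elim) a ha) ?_ (pow_nonneg (T.absF.nonneg _) _) hS0.le
    have h2 : a.1 ≤ f.natDegree := by
      rw [← hhn]
      by_cases hne : a = ⟨h.natDegree, 0⟩
      · rw [hne]
      · exact (mons_lt hhm ha hne).le
    exact (pow_le_pow_left₀ (T.absF.nonneg _) hw _).trans (pow_le_pow_right₀ hB h2)
  rw [h5] at h7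
  have h8 : T.absF (val₂ g u w) = T.absF (g₁.eval w) := rfl
  rw [h8] at h7
  have h9 := h3.trans h7
  rw [pow_mul] at h9
  refine (le_of_pow_le_pow_left₀ hpM.ne' (le_max_of_le_left (T.absK.nonneg _)) h9).trans (max_le_max le_rfl ?_)
  rw [lt_div_iff₀ (by positivity)] at hc
  exact hc.le

end Run7.h458
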