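import Pool.Agent.Run7.h458.Primitive
import Pool.Agent.Run7.h458.Monic2
set_option autoImplicit false
set_option linter.unusedSectionVars false

/-!
# Equations of a curve
-/

open MvPolynomial Pool.Agent.Y129.TA Pool.Agent.R388.TP

namespace Run7.h458

section comp

variable {K : Type} [Field K] [IsAlgClosed K] {σ : Type} [Finite σ] {e : ℕ} {q : Fin 2 → MvPolynomial σ K}

theorem component_aeval (he : 0 < e) (hq : ∀ j, (q j).IsHomogeneous e) (f : MvPolynomial (Fin 2) K) (n : ℕ) :
    homogeneousComponent n (aeval q f) = if e ∣ n then aeval q (homogeneousComponent (n / e) f) else 0 := by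
  classical
  have h0 : ∀ m, (aeval q (homogeneousComponent m f)).IsHomogeneous (e * m) := fun m =>
    (homogeneousComponent_isHomogeneous m f).aeval q hq
  have h1 : homogeneousComponent n (aeval q f) = ∑ m ∈ Finset.range (f.totalDegree + 1),
      if e * m = n then aeval q (homogeneousComponent m f) else 0 := by
    conv_lhs => rw [← sum_homogeneousComponent f, map_sum, map_sum]
    refine Finset.sum_congr rfl fun m _ => ?_
    split_ifs with h
    · exact homogeneousComponent_eq_self (by rw [← h]; exact h0 m)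
    · rw [homogeneousComponent_of_mem (h0 m), if_neg (Ne.symm h)]
  rw [h1]
  split_ifs with h
  · obtain ⟨k, rfl⟩ := h
    rw [Nat.mul_div_cancel_left _ he]
    by_cases hk : k < f.totalDegree + 1
    · rw [Finset.sum_eq_single k]
      · rw [if_pos rfl]
      · intro m _ hm
        rw [if_neg]
        intro h2
        exact hm (Nat.eq_of_mul_eq_mul_left he h2)
      · intro h2
        exact absurd (Finset.mem_range.2 hk) h2
    · rw [homogeneousComponent_eq_zero _ _ (by omega), map_zero]
      refine Finset.sum_eq_zero fun m hm => ?_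
      rw [if_neg]
      intro h2
      have := Nat.eq_of_mul_eq_mul_left he h2
      rw [Finset.mem_range] at hm
      omega
  · refine Finset.sum_eq_zero fun m _ => ?_
    rw [if_neg]
    rintro rfl
    exact h (dvd_mul_right e m)

end comp

section main

variable {K : Type} [Field K] [IsAlgClosed K] [CharZero K] {σ : Type} [Fintype σ]

theorem val₂_add {R τ : Type} [CommRing R] (g h : Polynomial (MvPolynomial τ R)) (u : τ → R) (w : R) :
    val₂ (g + h) u w = val₂ g u w + val₂ h u w := by
  rw [val₂, val₂, val₂, Polynomial.map_add, Polynomial.eval_add]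

theorem val₂_sub {R τ : Type} [CommRing R] (g h : Polynomial (MvPolynomial τ R)) (u : τ → R) (w : R) :
    val₂ (g - h) u w = val₂ g u w - val₂ h u w := by
  rw [val₂, val₂, val₂, Polynomial.map_sub, Polynomial.eval_sub]

theorem val₂_mul {R τ : Type} [CommRing R] (g h : Polynomial (MvPolynomial τ R)) (u : τ → R) (w : R) :
    val₂ (g * h) u w = val₂ g u w * val₂ h u w := by
  rw [val₂, val₂, val₂, Polynomial.map_mul, Polynomial.eval_mul]

theorem val₂_C {R τ : Type} [CommRing R] (g : MvPolynomial τ R) (u : τ → R) (w : R) :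
    val₂ (Polynomial.C g) u w = eval u g := by
  rw [val₂, Polynomial.map_C, Polynomial.eval_C]

theorem exists_equations {Z : Set (σ → K)} (hZ : IsClosedCone Z) (h1 : DimGE Z 1) (h2 : DimLE Z 1) :
    ∃ (e : ℕ) (q : Fin 2 → MvPolynomial σ K) (Φ : Polynomial (MvPolynomial (Fin 2) K))
      (δ : MvPolynomial (Fin 2) K) (m : ℕ) (r : σ → Polynomial (MvPolynomial (Fin 2) K)) (N : σ → ℕ)
      (Ψ : σ → Polynomial (MvPolynomial (Fin 2) K)), 0 < e ∧ (∀ j, (q j).IsHomogeneous e) ∧ Φ.Monic ∧
      0 < Φ.natDegree ∧ δ ≠ 0 ∧ δ.IsHomogeneous m ∧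
      (∀ i, (Ψ i).Monic ∧ (Ψ i).natDegree = N i ∧ 0 < N i) ∧
      (∀ i (a : K) (Q : Fin 2 → K) (x : K), val₂ (Ψ i) (fun j => a ^ e * Q j) (a * x) = a ^ N i * val₂ (Ψ i) Q x) ∧
      ∀ (Q : Fin 2 → K) (θ : K) (x : σ → K), val₂ Φ Q θ = 0 → eval Q δ ≠ 0 →
        (∀ i, eval Q δ * x i = val₂ (r i) Q θ) →
          (∀ f, (∀ y ∈ Z, eval y f = 0) → eval x f = 0) ∧ (∀ j, eval x (q j) = Q j) ∧
            ∀ i, val₂ (Ψ i) Q (x i) = 0 := by
  classical
  obtain ⟨P, e, q, hP, hPc, hXP, he, hq, hqi, hint⟩ := exists_prime hZ h1 h2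
  let R := MvPolynomial σ K ⧸ P
  let mk : MvPolynomial σ K →ₐ[K] R := Ideal.Quotient.mkₐ K P
  let φ : MvPolynomial (Fin 2) K →ₐ[K] R := aeval fun j => mk (q j)
  let : Algebra (MvPolynomial (Fin 2) K) R := φ.toRingHom.toAlgebra
  have halg : ∀ f : MvPolynomial (Fin 2) K, algebraMap (MvPolynomial (Fin 2) K) R f = φ f := fun f => rfl
  have hst : IsScalarTower K (MvPolynomial (Fin 2) K) R := by
    refine IsScalarTower.of_algebraMap_eq fun a => ?_
    rw [halg, MvPolynomial.algebraMap_eq]
    exact (φ.commutes a).symm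
  have hinj : Function.Injective φ := hqi
  have hfs : FaithfulSMul (MvPolynomial (Fin 2) K) R := (faithfulSMul_iff_algebraMap_injective _ _).2 hinj
  have hII : Algebra.IsIntegral (MvPolynomial (Fin 2) K) R := ⟨hint⟩
  have hx : Algebra.adjoin (MvPolynomial (Fin 2) K) (Set.range fun i : σ => mk (X i)) = ⊤ := by
    rw [eq_top_iff]
    intro a _
    obtain ⟨f, rfl⟩ := Ideal.Quotient.mk_surjective a
    change mk f ∈ _
    induction f using MvPolynomial.induction_on with
    | C c =>
      have h3 : mk (C c) = algebraMap (MvPolynomial (Fin 2) K) R (C c) := by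
        rw [halg]
        change mk (algebraMap K (MvPolynomial σ K) c) = φ (algebraMap K (MvPolynomial (Fin 2) K) c)
        rw [AlgHom.commutes, AlgHom.commutes]
      rw [h3]
      exact Subalgebra.algebraMap_mem _ _
    | add f g hf hg =>
      rw [map_add]
      exact add_mem (hf trivial) (hg trivial)
    | mul_X f i hf =>
      rw [map_mul]
      exact mul_mem (hf trivial) (Algebra.subset_adjoin ⟨i, rfl⟩)
  obtain ⟨c, Φ, δ₀, r₀, hΦ, hΦn, hΦd, hδ₀, hr₀⟩ := exists_presentation (K := K) (fun i : σ => mk (X i)) hx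
  -- the linear form
  let ℓ : MvPolynomial σ K := ∑ i, C (c i) * X i
  have hℓ : ℓ.IsHomogeneous 1 := by
    refine IsHomogeneous.sum _ _ _ fun i _ => ?_
    have h3 := (isHomogeneous_C σ (c i)).mul (isHomogeneous_X K i)
    rwa [zero_add] at h3
  have hℓm : mk ℓ = ∑ i, algebraMap K R (c i) * mk (X i) := by
    simp only [ℓ, map_sum, map_mul]
    refine Finset.sum_congr rfl fun i _ => ?_
    congr 1
  rw [← hℓm] at hΦd
  simp only [← hℓm] at hr₀
  let E : Polynomial (MvPolynomial (Fin 2) K) →+* MvPolynomial σ K :=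
    Polynomial.eval₂RingHom (aeval q : MvPolynomial (Fin 2) K →ₐ[K] MvPolynomial σ K).toRingHom ℓ
  have hEφ : ∀ f : MvPolynomial (Fin 2) K, mk (aeval q f) = φ f := by
    intro f
    have h3 : mk.comp (aeval q) = φ := by
      ext j
      change mk (aeval q (X j)) = φ (X j)
      rw [aeval_X]
      simp only [φ, aeval_X]
    exact DFunLike.congr_fun h3 f
  have hE : ∀ g, mk (E g) = Polynomial.aeval (mk ℓ) g := by
    intro g
    change (mk : MvPolynomial σ K →+* R) (Polynomial.eval₂ _ ℓ g) = _
    rw [Polynomial.hom_eval₂, Polynomial.aeval_def]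
    congr 1
    exact RingHom.ext fun f => hEφ f
  have hmem : ∀ f : MvPolynomial σ K, mk f = 0 ↔ f ∈ P := fun f => Ideal.Quotient.eq_zero_iff_mem
  have hEcomp : ∀ (n : ℕ) (g : Polynomial (MvPolynomial (Fin 2) K)), ∃ g', homogeneousComponent n (E g) = E g' := by
    intro n g
    induction g using Polynomial.induction_on' with
    | add g h hg hh =>
      obtain ⟨g', hg'⟩ := hg
      obtain ⟨h', hh'⟩ := hh
      exact ⟨g' + h', by rw [map_add, map_add, map_add, hg', hh']⟩
    | monomial k a =>
      have h3 : ∀ a, E (Polynomial.monomial k a) = aeval q a * ℓ ^ k := fun a => by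
        change Polynomial.eval₂ _ ℓ (Polynomial.monomial k a) = _
        rw [Polynomial.eval₂_monomial]
        rfl
      rw [h3, component_mul (hℓ.pow k)]
      split_ifs with h4
      · rw [component_aeval he hq]
        split_ifs with h5
        · exact ⟨Polynomial.monomial k _, (h3 _).symm⟩
        · exact ⟨0, by rw [zero_mul, map_zero]⟩
      · exact ⟨0, by rw [map_zero]⟩
  -- the form δ
  obtain ⟨m, hm⟩ : ∃ m, homogeneousComponent m δ₀ ≠ 0 := by
    by_contra hno
    push Not at hno
    apply hδ₀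
    rw [← sum_homogeneousComponent δ₀]
    exact Finset.sum_eq_zero fun m _ => hno m
  set δ := homogeneousComponent m δ₀ with hδ
  have hr' : ∀ i, ∃ r, aeval q δ * X i - E r ∈ P := by
    intro i
    have h3 : aeval q δ₀ * X i - E (r₀ i) ∈ P := by
      rw [← hmem, map_sub, map_mul, hEφ, hE, ← hr₀ i, halg, sub_self]
    obtain ⟨g', hg'⟩ := hEcomp (e * m + 1) (r₀ i)
    refine ⟨g', ?_⟩
    have h4 := hPc _ h3 (e * m + 1)
    rw [map_sub, hg', component_mul (isHomogeneous_X K i), if_pos (by omega), component_aeval he hq,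
      Nat.add_sub_cancel, if_pos (dvd_mul_right e m), Nat.mul_div_cancel_left _ he] at h4
    exact h4
  choose r hr using hr'
  have hr2 : ∀ i, algebraMap (MvPolynomial (Fin 2) K) R δ * mk (X i) = Polynomial.aeval (mk ℓ) (r i) := by
    intro i
    have h3 := (hmem _).2 (hr i)
    rw [map_sub, map_mul, hEφ, hE, sub_eq_zero] at h3
    exact h3
  -- the integral equations
  have hΨ : ∀ i, ∃ (N : ℕ) (Ψ : Polynomial (MvPolynomial (Fin 2) K)), Ψ.Monic ∧ Ψ.natDegree = N ∧ 0 < N ∧
      (∀ (a : K) (Q : Fin 2 → K) (x : K), val₂ Ψ (fun j => a ^ e * Q j) (a * x) = a ^ N * val₂ Ψ Q x) ∧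
      Ψ.eval₂ (aeval q : MvPolynomial (Fin 2) K →ₐ[K] MvPolynomial σ K).toRingHom (X i) ∈ P := by
    intro i
    obtain ⟨g, hg, hg0⟩ := hint (mk (X i))
    set N := g.natDegree with hN
    have hN0 : 0 < N := by
      by_contra h0
      have h3 : g = 1 := Polynomial.eq_one_of_monic_natDegree_zero hg (by omega)
      rw [h3, Polynomial.eval₂_one] at hg0
      exact one_ne_zero hg0
    let a : ℕ → MvPolynomial (Fin 2) K := fun k => if e ∣ N - k then homogeneousComponent ((N - k) / e) (g.coeff k) else 0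
    have haN : a N = 1 := by
      simp only [a, Nat.sub_self, dvd_zero, if_true, Nat.zero_div]
      have h3 : g.coeff N = 1 := hg
      rw [h3]
      exact homogeneousComponent_eq_self (isHomogeneous_one _ _)
    let Ψ : Polynomial (MvPolynomial (Fin 2) K) := Polynomial.X ^ N +
      ∑ k ∈ Finset.range N, Polynomial.C (a k) * Polynomial.X ^ k
    have hlow : (∑ k ∈ Finset.range N, Polynomial.C (a k) * Polynomial.X ^ k :
        Polynomial (MvPolynomial (Fin 2) K)).degree < N := by
      refine (Polynomial.degree_sum_le _ _).trans_lt ?_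
      rw [Finset.sup_lt_iff (WithBot.bot_lt_coe _)]
      intro k hk
      refine (Polynomial.degree_C_mul_X_pow_le _ _).trans_lt ?_
      exact_mod_cast Finset.mem_range.1 hk
    refine ⟨N, Ψ, Polynomial.monic_X_pow_add hlow, ?_, hN0, fun b Q x => ?_, ?_⟩
    · have h3 : Ψ.degree = N := by
        rw [Polynomial.degree_add_eq_left_of_degree_lt (by rw [Polynomial.degree_X_pow]; exact hlow),
          Polynomial.degree_X_pow]
      exact Polynomial.natDegree_eq_of_degree_eq_some h3
    · have h3 : ∀ (Q : Fin 2 → K) (x : K), val₂ Ψ Q x = x ^ N + ∑ k ∈ Finset.range N, eval Q (a k) * x ^ k := by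
        intro Q x
        rw [val₂_eq]
        simp only [Ψ, Polynomial.eval₂_add, Polynomial.eval₂_X_pow, Polynomial.eval₂_finsetSum,
          Polynomial.eval₂_mul, Polynomial.eval₂_C]
      rw [h3, h3, mul_add, mul_pow, Finset.mul_sum]
      congr 1
      refine Finset.sum_congr rfl fun k hk => ?_
      have hk' := Finset.mem_range.1 hk
      by_cases h4 : e ∣ N - k
      · simp only [a, if_pos h4]
        rw [eval_smul_of_homogeneous (homogeneousComponent_isHomogeneous _ _), ← pow_mul, Nat.mul_div_cancel' h4,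
          mul_pow]
        have h5 : b ^ N = b ^ (N - k) * b ^ k := by rw [← pow_add, Nat.sub_add_cancel hk'.le]
        rw [h5]
        ring
      · simp only [a, if_neg h4, map_zero, zero_mul, mul_zero]
    · -- the component of degree `N`
      have h3 : g.eval₂ (aeval q : MvPolynomial (Fin 2) K →ₐ[K] MvPolynomial σ K).toRingHom (X i) ∈ P := by
        rw [← hmem]
        change (mk : MvPolynomial σ K →+* R) _ = 0
        rw [Polynomial.hom_eval₂, ← hg0]
        congr 1
        exact RingHom.ext fun f => hEφ f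
      have h4 := hPc _ h3 N
      have h5 : ∀ k ≤ N, homogeneousComponent N (aeval q (g.coeff k) * X i ^ k) = aeval q (a k) * X i ^ k := by
        intro k hk
        rw [component_mul (isHomogeneous_X_pow i k), if_pos hk, component_aeval he hq]
        simp only [a]
        split_ifs with h6
        · rfl
        · rw [map_zero, zero_mul]
      rw [Polynomial.eval₂_eq_sum_range, ← hN, map_sum] at h4
      have h6 : Ψ.eval₂ (aeval q : MvPolynomial (Fin 2) K →ₐ[K] MvPolynomial σ K).toRingHom (X i) =
          ∑ k ∈ Finset.range (N + 1), homogeneousComponent N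
            ((aeval q : MvPolynomial (Fin 2) K →ₐ[K] MvPolynomial σ K).toRingHom (g.coeff k) * X i ^ k) := by
        rw [Finset.sum_range_succ]
        have h7 : ∀ k ≤ N, homogeneousComponent N
            ((aeval q : MvPolynomial (Fin 2) K →ₐ[K] MvPolynomial σ K).toRingHom (g.coeff k) * X i ^ k) =
              aeval q (a k) * X i ^ k := h5
        rw [h7 N le_rfl, haN, map_one, one_mul, add_comm,
          Finset.sum_congr rfl fun k hk => h7 k (Finset.mem_range.1 hk).le]
        simp only [Ψ, Polynomial.eval₂_add, Polynomial.eval₂_X_pow, Polynomial.eval₂_finsetSum,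
          Polynomial.eval₂_mul, Polynomial.eval₂_C]
        rfl
      rw [h6]
      exact h4
  choose N Ψ hΨm hΨn hN hΨh hΨP using hΨ
  refine ⟨e, q, Φ, δ, m, r, N, Ψ, he, hq, hΦ, hΦn, hm, homogeneousComponent_isHomogeneous m δ₀,
    fun i => ⟨hΨm i, hΨn i, hN i⟩, hΨh, fun Q θ x hΦ0 hδQ hxr => ?_⟩
  -- the point
  have key : ∀ f : MvPolynomial σ K, ∃ (κ : ℕ) (ρ : Polynomial (MvPolynomial (Fin 2) K)),
      Polynomial.aeval (mk ℓ) ρ = algebraMap (MvPolynomial (Fin 2) K) R (δ ^ κ) * mk f ∧
        val₂ ρ Q θ = eval Q δ ^ κ * eval x f := by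
    intro f
    induction f using MvPolynomial.induction_on with
    | C a =>
      refine ⟨0, Polynomial.C (C a), ?_, ?_⟩
      · rw [pow_zero, map_one, one_mul, Polynomial.aeval_C, halg]
        change φ (algebraMap K (MvPolynomial (Fin 2) K) a) = mk (algebraMap K (MvPolynomial σ K) a)
        rw [AlgHom.commutes, AlgHom.commutes]
      · rw [val₂_C, eval_C, eval_C, pow_zero, one_mul]
    | add f g hf hg =>
      obtain ⟨κ, ρ, h3, h4⟩ := hf
      obtain ⟨κ', ρ', h5, h6⟩ := hg
      refine ⟨κ + κ', Polynomial.C (δ ^ κ') * ρ + Polynomial.C (δ ^ κ) * ρ', ?_, ?_⟩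
      · rw [map_add, map_mul, map_mul, Polynomial.aeval_C, Polynomial.aeval_C, h3, h5, map_add, pow_add, map_mul]
        ring
      · rw [val₂_add, val₂_mul, val₂_mul, val₂_C, val₂_C, h4, h6, map_add, pow_add, map_pow, map_pow]
        ring
    | mul_X f i hf =>
      obtain ⟨κ, ρ, h3, h4⟩ := hf
      refine ⟨κ + 1, ρ * r i, ?_, ?_⟩
      · rw [map_mul, h3, ← hr2 i, map_mul, pow_succ, map_mul]
        ring
      · rw [val₂_mul, h4, ← hxr i, map_mul, eval_X, pow_succ]
        ring
  have key2 : ∀ (f : MvPolynomial σ K) (g : MvPolynomial (Fin 2) K), mk f = algebraMap (MvPolynomial (Fin 2) K) R g →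
      eval x f = eval Q g := by
    intro f g hfg
    obtain ⟨κ, ρ, h3, h4⟩ := key f
    have h5 : Polynomial.aeval (mk ℓ) (ρ - Polynomial.C (δ ^ κ * g)) = 0 := by
      rw [map_sub, h3, Polynomial.aeval_C, map_mul, hfg, sub_self]
    obtain ⟨g', hg'⟩ := (hΦd _).1 h5
    have h6 : val₂ (ρ - Polynomial.C (δ ^ κ * g)) Q θ = val₂ (Φ * g') Q θ := by rw [hg']
    rw [val₂_sub, val₂_mul, hΦ0, zero_mul, val₂_C, map_mul, map_pow, h4, ← mul_sub] at h6
    exact sub_eq_zero.1 ((mul_eq_zero.1 h6).resolve_left (pow_ne_zero _ hδQ))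
  have hPx : ∀ f ∈ P, eval x f = 0 := by
    intro f hf
    have h3 := key2 f 0 (by rw [map_zero]; exact (hmem f).2 hf)
    rwa [map_zero] at h3
  have hqx : ∀ j, eval x (q j) = Q j := by
    intro j
    have h3 := key2 (q j) (X j) (by rw [halg]; simp only [φ, aeval_X])
    rwa [eval_X] at h3
  refine ⟨fun f hf => hPx f (hXP f hf), hqx, fun i => ?_⟩
  have h3 := hPx _ (hΨP i)
  rw [Polynomial.hom_eval₂, eval_X] at h3
  rw [val₂_eq, ← h3]
  congr 1
  refine MvPolynomial.ringHom_ext (fun a => ?_) fun j => ?_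
  · change eval Q (C a) = eval x (aeval q (C a))
    rw [eval_C, aeval_C, MvPolynomial.algebraMap_eq, eval_C]
  · change eval Q (X j) = eval x (aeval q (X j))
    rw [eval_X, aeval_X, hqx]

end main

end Run7.h458
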