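import Pool.Agent.Run7.h458.KSide
set_option autoImplicit false
set_option linter.unusedSectionVars false

/-!
# Equations of a curve: triangular form
-/

open MvPolynomial Pool.Agent.Y129.TA Pool.Agent.R388.TP

namespace Run7.h458

variable {K : Type} [Field K] [IsAlgClosed K] [CharZero K] {σ : Type} [Fintype σ]

/-- The values `(t₀ ^ e + lam t₁ ^ e, t₁ ^ e)`. -/
def Qf (e : ℕ) (lam : K) (t : Fin 2 → K) : Fin 2 → K := ![t 0 ^ e + lam * t 1 ^ e, t 1 ^ e]

theorem Qf_smul (e : ℕ) (lam a : K) (t : Fin 2 → K) :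
    Qf e lam (fun i => a * t i) = fun j => a ^ e * Qf e lam t j := by
  funext j
  fin_cases j
  · simp only [Qf, Fin.zero_eta, Matrix.cons_val_zero]
    ring
  · simp only [Qf, Fin.mk_one, Matrix.cons_val_one, Matrix.cons_val_zero]
    ring

/-- The substitution. -/
noncomputable def sub (e : ℕ) (lam : K) : MvPolynomial (Fin 2) K →ₐ[K] MvPolynomial (Fin 2) K :=
  aeval ![X 0 ^ e + C lam * X 1 ^ e, X 1 ^ e]

theorem eval_sub (e : ℕ) (lam : K) (t : Fin 2 → K) (f : MvPolynomial (Fin 2) K) :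
    eval t (sub e lam f) = eval (Qf e lam t) f := by
  have h : ((eval t).comp (sub e lam).toRingHom) = eval (Qf e lam t) := by
    refine MvPolynomial.ringHom_ext (fun a => ?_) fun j => ?_
    · change eval t (sub e lam (C a)) = _
      rw [sub, aeval_C, MvPolynomial.algebraMap_eq, eval_C, eval_C]
    · change eval t (sub e lam (X j)) = _
      rw [sub, aeval_X, eval_X]
      fin_cases j
      · simp [Qf]
      · simp [Qf]
  exact congrArg (fun ψ : MvPolynomial (Fin 2) K →+* K => ψ f) h

theorem val₂_map_sub (e : ℕ) (lam : K) (t : Fin 2 → K) (w : K) (f : Polynomial (MvPolynomial (Fin 2) K)) :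
    val₂ (f.map (sub e lam).toRingHom) t w = val₂ f (Qf e lam t) w := by
  rw [val₂, val₂, Polynomial.map_map]
  congr 2
  exact RingHom.ext fun g => eval_sub e lam t g

theorem exists_bezout {τ : Type} [Finite τ] {f g : MvPolynomial τ K}
    (h : ∀ v, eval v g = 0 → eval v f ≠ 0) : ∃ a b, a * f + b * g = 1 := by
  have h1 : (1 : MvPolynomial τ K) ∈ (Ideal.span {f, g}).radical := by
    rw [← vanishingIdeal_zeroLocus_eq_radical (K := K), mem_vanishingIdeal_iff]
    intro v hv
    exfalso
    have h2 := (mem_zeroLocus_iff.1 hv) f (Ideal.subset_span (by simp))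
    have h3 := (mem_zeroLocus_iff.1 hv) g (Ideal.subset_span (by simp))
    rw [aeval_eq_eval] at h2 h3
    exact h v h3 h2
  obtain ⟨M, hM⟩ := h1
  rw [one_pow] at hM
  obtain ⟨a, b, hab⟩ := Ideal.mem_span_pair.1 hM
  exact ⟨a, b, hab⟩

theorem eval_two (δ : MvPolynomial (Fin 2) K) {m : ℕ} (hm : δ.IsHomogeneous m) (t : Fin 2 → K) (h : t 0 ≠ 0) :
    eval t δ = t 0 ^ m * eval ![1, t 1 / t 0] δ := by
  rw [← eval_smul_of_homogeneous hm]
  congr 2
  funext i
  fin_cases i
  · simp
  · simp only [Fin.mk_one, Matrix.cons_val_one, Matrix.cons_val_zero]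
    rw [mul_div_cancel₀ _ h]

theorem eval_two' (δ : MvPolynomial (Fin 2) K) {m : ℕ} (hm : δ.IsHomogeneous m) (t : Fin 2 → K) (h : t 1 ≠ 0) :
    eval t δ = t 1 ^ m * eval ![t 0 / t 1, 1] δ := by
  rw [← eval_smul_of_homogeneous hm]
  congr 2
  funext i
  fin_cases i
  · simp only [Fin.zero_eta, Matrix.cons_val_zero]
    rw [mul_div_cancel₀ _ h]
  · simp

theorem exists_lam {δ : MvPolynomial (Fin 2) K} {m : ℕ} (hm : δ.IsHomogeneous m) (h : δ ≠ 0) :
    ∃ lam : K, eval ![lam, 1] δ ≠ 0 := by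
  by_contra hno
  push Not at hno
  have h1 : δ * X 1 = 0 := by
    refine MvPolynomial.funext fun t => ?_
    rw [map_mul, eval_X, map_zero]
    by_cases h2 : t 1 = 0
    · rw [h2, mul_zero]
    · rw [eval_two' δ hm t h2, hno, mul_zero, zero_mul]
  exact h ((mul_eq_zero.1 h1).resolve_right (X_ne_zero _))

theorem exists_triangular {Z : Set (σ → K)} (hZ : IsClosedCone Z) (h1 : DimGE Z 1) (h2 : DimLE Z 1) :
    ∃ (e : ℕ) (lam : K) (q : Fin 2 → MvPolynomial σ K) (Φ : Polynomial (MvPolynomial (Fin 2) K))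
      (N : σ → ℕ) (Ψ : σ → Polynomial (MvPolynomial (Fin 2) K)) (S₀ : Finset K), 0 < e ∧
      (∀ j, (q j).IsHomogeneous e) ∧ Φ.Monic ∧ 0 < Φ.natDegree ∧
      (∀ i, (Ψ i).Monic ∧ (Ψ i).natDegree = N i ∧ 0 < N i) ∧
      (∀ i (a : K) (Q : Fin 2 → K) (x : K), val₂ (Ψ i) (fun j => a ^ e * Q j) (a * x) = a ^ N i * val₂ (Ψ i) Q x) ∧
      ∀ S : Finset K, S₀ ⊆ S → S.Nonempty → ∃ r : σ → MvPolynomial (Fin 3) K,
        ∀ (t : Fin 2 → K) (θ : K) (x : σ → K), ∏ b ∈ S, (t 1 - b * t 0) = 1 → val₂ Φ t θ = 0 →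
          (∀ i, x i = eval ![t 0, t 1, θ] (r i)) →
          (∀ f, (∀ y ∈ Z, eval y f = 0) → eval x f = 0) ∧ (∀ j, eval x (q j) = Qf e lam t j) ∧
            ∀ i, val₂ (Ψ i) (Qf e lam t) (x i) = 0 := by
  classical
  obtain ⟨e, q, Φ, δ, m, r, N, Ψ, he, hq, hΦ, hΦn, hδ, hδm, hΨ, hΨh, hpt⟩ := exists_equations hZ h1 h2
  obtain ⟨lam, hlam⟩ := exists_lam hδm hδ
  set δ' := sub e lam δ with hδ'
  have hδe : ∀ t, eval t δ' = eval (Qf e lam t) δ := fun t => eval_sub e lam t δ
  have hδs : ∀ (a : K) (t : Fin 2 → K), eval (fun i => a * t i) δ' = a ^ (e * m) * eval t δ' := by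
    intro a t
    rw [hδe, hδe, Qf_smul, eval_smul_of_homogeneous hδm, ← pow_mul]
  have hδ01 : eval ![0, 1] δ' ≠ 0 := by
    rw [hδe]
    have h3 : Qf e lam ![0, 1] = ![lam, 1] := by
      funext j
      fin_cases j
      · simp [Qf, he.ne']
      · simp [Qf]
    rw [h3]
    exact hlam
  have hd0 : ∀ t : Fin 2 → K, t 0 ≠ 0 → eval t δ' = t 0 ^ (e * m) * eval ![1, t 1 / t 0] δ' := by
    intro t ht
    rw [← hδs]
    congr 2
    funext i
    fin_cases i
    · simp
    · simp only [Fin.mk_one, Matrix.cons_val_one, Matrix.cons_val_zero]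
      rw [mul_div_cancel₀ _ ht]
  have hd1 : ∀ a : K, eval ![0, a] δ' = a ^ (e * m) * eval ![0, 1] δ' := by
    intro a
    rw [← hδs]
    congr 2
    funext i
    fin_cases i
    · simp
    · simp
  -- the bad set
  let P : Polynomial K := aeval ![(1 : Polynomial K), Polynomial.X] δ'
  have hPe : ∀ b, P.eval b = eval ![1, b] δ' := by
    intro b
    have h3 : (Polynomial.evalRingHom b).comp (aeval ![(1 : Polynomial K), Polynomial.X] :
        MvPolynomial (Fin 2) K →ₐ[K] Polynomial K).toRingHom = eval ![1, b] := by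
      refine MvPolynomial.ringHom_ext (fun a => ?_) fun j => ?_
      · change Polynomial.eval b (aeval ![(1 : Polynomial K), Polynomial.X] (C a)) = _
        rw [aeval_C, eval_C]
        simp
      · change Polynomial.eval b (aeval ![(1 : Polynomial K), Polynomial.X] (X j)) = _
        rw [aeval_X, eval_X]
        fin_cases j
        · simp
        · simp
    exact congrArg (fun ψ : MvPolynomial (Fin 2) K →+* K => ψ δ') h3
  have hP : P ≠ 0 := by
    intro h0
    have h3 : δ' * X 0 = 0 := by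
      refine MvPolynomial.funext fun t => ?_
      rw [map_mul, eval_X, map_zero]
      by_cases h4 : t 0 = 0
      · rw [h4, mul_zero]
      · rw [hd0 t h4, ← hPe, h0, Polynomial.eval_zero, mul_zero, zero_mul]
    have h4 := (mul_eq_zero.1 h3).resolve_right (X_ne_zero _)
    rw [h4, map_zero] at hδ01
    exact hδ01 rfl
  refine ⟨e, lam, q, Φ.map (sub e lam).toRingHom, N, Ψ, P.roots.toFinset, he, hq, hΦ.map _, ?_, hΨ, hΨh,
    fun S hS hne => ?_⟩
  · rw [hΦ.natDegree_map]
    exact hΦn
  · let G : MvPolynomial (Fin 2) K := ∏ b ∈ S, (X 1 - C b * X 0) - 1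
    have hG : ∀ t, eval t G = ∏ b ∈ S, (t 1 - b * t 0) - 1 := by
      intro t
      simp only [G, map_sub, map_prod, eval_X, map_mul, eval_C, map_one]
    have hne0 : ∀ t, eval t G = 0 → eval t δ' ≠ 0 := by
      intro t ht h0
      rw [hG, sub_eq_zero] at ht
      by_cases h3 : t 0 = 0
      · have h4 : t = ![0, t 1] := by
          funext i
          fin_cases i
          · simpa using h3
          · simp
        rw [h4, hd1] at h0
        have h5 := (mul_eq_zero.1 h0).resolve_right hδ01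
        have h6 : t 1 = 0 := by
          by_contra h7
          exact pow_ne_zero _ h7 h5
        obtain ⟨b, hb⟩ := hne
        rw [Finset.prod_eq_zero hb (by rw [h3, h6, mul_zero, sub_zero])] at ht
        exact zero_ne_one ht
      · rw [hd0 t h3] at h0
        have h5 := (mul_eq_zero.1 h0).resolve_left (pow_ne_zero _ h3)
        rw [← hPe] at h5
        have h6 : t 1 / t 0 ∈ S := hS (Multiset.mem_toFinset.2 ((Polynomial.mem_roots hP).2 h5))
        rw [Finset.prod_eq_zero h6 (by rw [div_mul_cancel₀ _ h3, sub_self])] at ht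
        exact zero_ne_one ht
    obtain ⟨a, b, hab⟩ := exists_bezout hne0
    let j : MvPolynomial (Fin 2) K →ₐ[K] MvPolynomial (Fin 3) K := aeval ![X 0, X 1]
    have hj : ∀ (t : Fin 2 → K) (θ : K) (f : MvPolynomial (Fin 2) K), eval ![t 0, t 1, θ] (j f) = eval t f := by
      intro t θ f
      have h3 : (eval ![t 0, t 1, θ]).comp j.toRingHom = eval t := by
        refine MvPolynomial.ringHom_ext (fun a => ?_) fun i => ?_
        · change eval ![t 0, t 1, θ] (j (C a)) = _
          simp only [j]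
          rw [aeval_C, MvPolynomial.algebraMap_eq, eval_C, eval_C]
        · change eval ![t 0, t 1, θ] (j (X i)) = _
          simp only [j]
          rw [aeval_X, eval_X]
          fin_cases i
          · simp
          · simp
      exact congrArg (fun ψ : MvPolynomial (Fin 2) K →+* K => ψ f) h3
    refine ⟨fun i => j a * ((r i).map (sub e lam).toRingHom).eval₂ j.toRingHom (X 2), fun t θ x ht hΦ0 hx => ?_⟩
    have hval : ∀ f : Polynomial (MvPolynomial (Fin 2) K),
        eval ![t 0, t 1, θ] (f.eval₂ j.toRingHom (X 2)) = val₂ f t θ := by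
      intro f
      rw [Polynomial.hom_eval₂, val₂_eq]
      congr 1
      · exact RingHom.ext fun g => hj t θ g
      · rw [eval_X]
        rfl
    have hab' := congrArg (eval t) hab
    have hGt : eval t G = 0 := by rw [hG, ht, sub_self]
    rw [map_add, map_mul, map_mul, hGt, mul_zero, add_zero, map_one] at hab'
    refine hpt (Qf e lam t) θ x ?_ ?_ fun i => ?_
    · rw [← val₂_map_sub]
      exact hΦ0
    · rw [← hδe]
      exact hne0 t hGt
    · rw [hx i, map_mul, hval, hj, val₂_map_sub, ← hδe]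
      rw [← mul_assoc, mul_comm (eval t δ'), hab', one_mul]

end Run7.h458
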