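import Pool.Agent.Run7.h458.Chart
set_option autoImplicit false
set_option linter.unusedSectionVars false

/-!
# A chart at infinity of a finite separable extension (Krasner's lemma)
-/

open Polynomial Filter Topology Module IntermediateField

namespace Run7.h458

variable {k H : Type} [NontriviallyNormedField k] [NontriviallyNormedField H] [NormedAlgebra k H]
  [CompleteSpace H] [IsUltrametricDist H]

/-- A generator close to a given one, with a minimal polynomial the coefficients of which are Laurent polynomials. -/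
theorem exists_laurent_generator (c : Circle k H) (L : Type) [Field L] [Algebra H L] [FiniteDimensional H L]
    [Algebra.IsSeparable H L] :
    ∃ (β : L) (P : ℕ → k[X]) (m : ℕ → ℕ), H⟮β⟯ = ⊤ ∧
      aeval β (X ^ finrank H L + ∑ i ∈ Finset.range (finrank H L),
        C (aeval c.v (P i) * c.v⁻¹ ^ m i) * X ^ i : H[X]) = 0 := by
  classical
  obtain ⟨θ, hθ⟩ := Field.exists_primitive_element H L
  set n := finrank H L with hn
  have hn0 : 0 < n := finrank_pos
  set f := minpoly H θ with hf
  have hint : IsIntegral H θ := Algebra.IsIntegral.isIntegral θ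
  have hfm : f.Monic := minpoly.monic hint
  have hfn : f.natDegree = n := by
    rw [hf, ← IntermediateField.adjoin.finrank hint, hθ, IntermediateField.finrank_top']
  let Ω := AlgebraicClosure L
  have : Algebra.IsAlgebraic H Ω := Algebra.IsAlgebraic.trans H L Ω
  let : NormedField Ω := spectralNorm.normedField H Ω
  let : NormedAlgebra H Ω := spectralNorm.normedAlgebra H Ω
  let a : Ω := algebraMap L Ω θ
  have haint : IsIntegral H a := Algebra.IsIntegral.isIntegral a
  have hfa : minpoly H a = f := minpoly.algebraMap_eq (algebraMap L Ω).injective θ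
  have hfa0 : aeval a f = 0 := by rw [← hfa]; exact minpoly.aeval H a
  let S : Finset Ω := {x ∈ (f.rootSet Ω).toFinset | x ≠ a}
  obtain ⟨δ, hδ, hδ2⟩ : ∃ δ : ℝ, 0 < δ ∧ ∀ x ∈ S, δ ≤ ‖a - x‖ := by
    by_cases hS : S.Nonempty
    · obtain ⟨x, hx, hmin⟩ := Finset.exists_min_image S (fun x => ‖a - x‖) hS
      refine ⟨‖a - x‖, ?_, hmin⟩
      rw [norm_pos_iff, sub_ne_zero]
      exact (Finset.mem_filter.1 hx).2.symm
    · rw [Finset.not_nonempty_iff_eq_empty] at hS
      exact ⟨1, one_pos, fun x hx => by rw [hS] at hx; simp at hx⟩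
  set ε : ℝ := (δ / (max ‖a‖ 1)) ^ n / (n + 1) with hε
  have hmax : 0 < max ‖a‖ 1 := lt_max_of_lt_right one_pos
  have hε0 : 0 < ε := by positivity
  choose P m hPm using fun i => c.dense (f.coeff i) ε hε0
  let g : H[X] := X ^ n + ∑ i ∈ Finset.range n, C (aeval c.v (P i) * c.v⁻¹ ^ m i) * X ^ i
  have hlow : (∑ i ∈ Finset.range n, C (aeval c.v (P i) * c.v⁻¹ ^ m i) * X ^ i : H[X]).degree < n := by
    refine (degree_sum_le _ _).trans_lt ?_
    rw [Finset.sup_lt_iff (WithBot.bot_lt_coe _)]
    intro i hi
    refine (degree_C_mul_X_pow_le _ _).trans_lt ?_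
    exact_mod_cast Finset.mem_range.1 hi
  have hgm : g.Monic := monic_X_pow_add hlow
  have hgn : g.natDegree = n := by
    have h1 : g.degree = n := by
      rw [degree_add_eq_left_of_degree_lt (by rw [degree_X_pow]; exact hlow), degree_X_pow]
    exact natDegree_eq_of_degree_eq_some h1
  have hgc : ∀ i, ‖g.coeff i - f.coeff i‖ < ε := by
    intro i
    rcases lt_trichotomy i n with hi | hi | hi
    · have h1 : g.coeff i = aeval c.v (P i) * c.v⁻¹ ^ m i := by
        simp only [g, coeff_add, coeff_X_pow, finsetSum_coeff, coeff_C_mul]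
        rw [if_neg hi.ne, zero_add, Finset.sum_eq_single i]
        · simp
        · intro j _ hj
          rw [if_neg hj.symm, mul_zero]
        · intro h
          exact absurd (Finset.mem_range.2 hi) h
      rw [h1, norm_sub_rev]
      exact hPm i
    · have h1 : g.coeff i = 1 := by rw [hi, ← hgn]; exact hgm
      have h2 : f.coeff i = 1 := by rw [hi, ← hfn]; exact hfm
      rw [h1, h2, sub_self, norm_zero]
      exact hε0
    · rw [coeff_eq_zero_of_natDegree_lt (by omega), coeff_eq_zero_of_natDegree_lt (by omega), sub_self,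
        norm_zero]
      exact hε0
  obtain ⟨b, hb, hab⟩ := exists_aroots_norm_sub_lt_of_norm_coeff_sub_lt hε0 hfa0 hfm hgm
    (hgn.trans hfn.symm) hgc (IsAlgClosed.splits _)
  have hab' : ‖a - b‖ < δ := by
    refine hab.trans_le (le_of_eq ?_)
    have h1 : (((f.natDegree : ℝ) + 1) * ε) = (δ / (max ‖a‖ 1)) ^ n := by
      rw [hε, hfn]
      field_simp
    rw [h1, hfn, ← Real.rpow_natCast, ← Real.rpow_mul (by positivity), mul_inv_cancel₀ (by positivity),
      Real.rpow_one, div_mul_cancel₀ _ hmax.ne']
  have hgb : aeval b g = 0 := by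
    have h1 := (mem_aroots'.1 hb).2
    exact h1
  have hbint : IsIntegral H b := ⟨g, hgm, hgb⟩
  have hkr : a ∈ H⟮b⟯ := by
    refine IsKrasner.krasner ?_ (IsAlgClosed.splits _) hbint fun x hx hne => ?_
    · rw [hfa]
      exact Algebra.IsSeparable.isSeparable H θ
    · refine lt_of_lt_of_le hab' (hδ2 x ?_)
      rw [Finset.mem_filter]
      refine ⟨?_, hne.symm⟩
      rw [Set.mem_toFinset, ← hfa]
      exact (isConjRoot_iff_mem_minpoly_rootSet haint).1 hx
  have hle : H⟮a⟯ ≤ H⟮b⟯ := by
    rw [IntermediateField.adjoin_simple_le_iff]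
    exact hkr
  have hfina : finrank H H⟮a⟯ = n := by rw [IntermediateField.adjoin.finrank haint, hfa, hfn]
  have hfdb : FiniteDimensional H H⟮b⟯ := IntermediateField.adjoin.finiteDimensional hbint
  have hfinb : finrank H H⟮b⟯ ≤ n := by
    rw [IntermediateField.adjoin.finrank hbint, ← hgn]
    exact natDegree_le_natDegree (minpoly.min H b hgm hgb)
  have heq : H⟮a⟯ = H⟮b⟯ := IntermediateField.eq_of_le_of_finrank_le hle (by rw [hfina]; exact hfinb)
  have hbL : ∃ β : L, algebraMap L Ω β = b := by
    have h1 : b ∈ H⟮a⟯ := by rw [heq]; exact IntermediateField.mem_adjoin_simple_self H b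
    have h2 : H⟮a⟯ = (⊤ : IntermediateField H L).map (IsScalarTower.toAlgHom H L Ω) := by
      rw [← hθ, IntermediateField.adjoin_map, Set.image_singleton]
      rfl
    rw [h2] at h1
    obtain ⟨β, _, hβ⟩ := h1
    exact ⟨β, hβ⟩
  obtain ⟨β, hβ⟩ := hbL
  refine ⟨β, P, m, ?_, ?_⟩
  · have h1 : finrank H H⟮β⟯ = finrank H L := by
      have hβint : IsIntegral H β := Algebra.IsIntegral.isIntegral β
      rw [IntermediateField.adjoin.finrank hβint, ← minpoly.algebraMap_eq (algebraMap L Ω).injective β, hβ,
        ← IntermediateField.adjoin.finrank hbint, ← heq, hfina]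
    exact (Field.primitive_element_iff_minpoly_natDegree_eq H β).2 (by
      rw [← IntermediateField.adjoin.finrank (Algebra.IsIntegral.isIntegral β), h1])
  · have h1 : algebraMap L Ω (aeval β g) = 0 := by
      rw [← aeval_algebraMap_apply, hβ, hgb]
    exact (map_eq_zero_iff _ (algebraMap L Ω).injective).1 h1

end Run7.h458
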