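import Pool.Agent.Y129.TA.Main
set_option autoImplicit false
set_option linter.unusedSectionVars false

/-!
# Approximation of a linear form, with bounds in both directions
-/

open MvPolynomial WittVector Pool.Agent.Y129.TA

namespace Run7.h458

variable {p : ℕ} [hp : Fact p.Prime] {K F : Type} [Field K] [Field F] [CharP F p] [IsAlgClosed F]
  {T : Tilting p K F}

/-- The absolute value of the first coefficient after `c` steps. -/
theorem chain_abs {ϖ : T.O} (hϖ : T.sharp ϖ = p) {Y : ℕ → WittVector p T.O}
    (hY : ∀ j, Step ϖ (Y j) (Y (j + 1))) (c : ℕ) :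
    T.absF ((Y c).coeff 0) ≤ max (T.absK (T.θ (Y 0))) (T.absK p ^ c) ∧
      (T.absK p ^ c < T.absK (T.θ (Y 0)) → T.absF ((Y c).coeff 0) = T.absK (T.θ (Y 0))) := by
  have hθ : ∀ j, T.θ (Y j) = T.θ (Y 0) := by
    intro j
    induction j with
    | zero => rfl
    | succ j ih => rw [Tilting.θ_step hϖ (hY j), ih]
  obtain ⟨η, hη⟩ := T.surj (T.θ (Y 0))
  have hηa : T.absF η = T.absK (T.θ (Y 0)) := by rw [← T.abs_sharp, hη]
  have hη1 : T.absF η ≤ 1 := by rw [hηa]; exact T.θ_le _
  let η' : T.O := ⟨η, hη1⟩
  have hpp : 0 < T.absK p := T.absK.pos T.p_ne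
  have key : ∀ j, ∃ β : T.O, T.absF β = max (T.absF η) (T.absK p ^ j) ∧
      ∃ z, Y j = teichmuller p β * z := by
    intro j
    induction j with
    | zero =>
      refine ⟨1, ?_, Y 0, ?_⟩
      · rw [pow_zero, max_eq_right hη1, Subring.coe_one, map_one]
      · rw [map_one, one_mul]
    | succ j ih =>
      obtain ⟨β, hβ, z, hz⟩ := ih
      have hβp : 0 < T.absF β := by rw [hβ]; exact (pow_pos hpp j).trans_le (le_max_right _ _)
      have hβ0 : β ≠ 0 := fun h => by rw [h, Subring.coe_zero, map_zero] at hβp; exact lt_irrefl _ hβp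
      have hγ : ∃ γ : T.O, T.absF γ = max (T.absF η) (T.absK p ^ (j + 1)) := by
        rcases le_total (T.absF η) (T.absK p ^ (j + 1)) with h | h
        · refine ⟨ϖ ^ (j + 1), ?_⟩
          rw [max_eq_right h, Subring.coe_pow, map_pow, Tilting.abs_ϖ hϖ]
        · exact ⟨η', (max_eq_left h).symm⟩
      obtain ⟨γ, hγ⟩ := hγ
      refine ⟨γ, hγ, Tilting.step_gain hϖ hβ0 hz ?_ ?_ ?_ (hY j)⟩
      · rw [hθ j, ← hηa, hγ]
        exact le_max_left _ _
      · rw [hγ, hβ]
        refine max_le_max le_rfl ?_
        exact pow_le_pow_of_le_one hpp.le T.p_lt.le (Nat.le_succ j)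
      · rw [hβ, hγ, Tilting.abs_ϖ hϖ, mul_max_of_nonneg _ _ hpp.le]
        refine max_le_max ?_ ?_
        · exact mul_le_of_le_one_left (T.absF.nonneg _) T.p_lt.le
        · rw [pow_succ, mul_comm]
  obtain ⟨β, hβ, z, hz⟩ := key c
  have h0 : T.absF ((Y c).coeff 0) = T.absF β * T.absF (z.coeff 0) := by
    rw [hz, mul_coeff_zero, teichmuller_coeff_zero, Subring.coe_mul, map_mul]
  constructor
  · rw [h0, ← hηa, ← hβ]
    exact mul_le_of_le_one_right (T.absF.nonneg _) (z.coeff 0).2
  · intro hc
    have hη0 : 0 < T.absF η := by rw [hηa]; exact (pow_pos hpp c).trans hc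
    have hβη : T.absF β = T.absF η := by
      rw [hβ, max_eq_left]
      rw [hηa]
      exact hc.le
    have h1 : T.absK (T.θ z) = 1 := by
      have h2 := hθ c
      rw [hz, map_mul, T.θ_teich] at h2
      have h3 := congrArg T.absK h2
      rw [map_mul, T.abs_sharp, hβη, hηa] at h3
      have h4 : T.absK (T.θ (Y 0)) ≠ 0 := by rw [← hηa]; exact hη0.ne'
      exact mul_left_cancel₀ h4 (h3.trans (mul_one _).symm)
    have h2 : T.absF (z.coeff 0) = 1 := by
      refine le_antisymm (z.coeff 0).2 ?_
      have h3 := Tilting.abs_θ_le T z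
      rw [h1, le_max_iff] at h3
      exact h3.resolve_right (not_le.2 T.p_lt)
    rw [h0, h2, mul_one, hβη, hηa]

/-- The approximation of a linear form. -/
theorem exists_linear_approx (T : Tilting p K F) (A : Type) [Fintype A] (c : ℕ) :
    ∃ (M : ℕ) (g : MvPolynomial A F), g.IsHomogeneous (p ^ M) ∧
      (∀ a, [DecidableEq A] → eval (Pi.single a 1) g = 1) ∧
      ∀ (t : A → F) (Λ : ℝ), (∀ a, T.absF (t a) ≤ Λ) →
        T.absF (eval t g) ≤ (max (T.absK (∑ a, T.sharp (t a))) (T.absK p ^ c * Λ)) ^ p ^ M ∧
          (T.absK p ^ c * Λ < T.absK (∑ a, T.sharp (t a)) →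
            T.absF (eval t g) = T.absK (∑ a, T.sharp (t a)) ^ p ^ M) := by
  classical
  have hpp : 0 < T.absK p := T.absK.pos T.p_ne
  obtain ⟨ϖ₀, hϖ₀⟩ := T.surj (p : K)
  have hϖa : T.absF ϖ₀ = T.absK p := by rw [← T.abs_sharp, hϖ₀]
  let ϖ : T.O := ⟨ϖ₀, by change T.absF ϖ₀ ≤ 1; rw [hϖa]; exact T.p_lt.le⟩
  have hϖ : T.sharp ϖ = p := hϖ₀
  -- the chain
  let x0 : WittVector p (polyFun T A) := ∑ a, teichmuller p (monFun T (Finsupp.single a 1))
  choose next hnext using fun x : WittVector p (polyFun T A) => Step.exists (constFun T A ϖ) x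
  let Y : ℕ → WittVector p (polyFun T A) := fun j => next^[j] x0
  have hY : ∀ j, Step (constFun T A ϖ) (Y j) (Y (j + 1)) := by
    intro j
    change Step _ (next^[j] _) (next^[j + 1] _)
    rw [Function.iterate_succ_apply']
    exact hnext _
  have hYt : ∀ (t : A → T.O) j, Step ϖ (WittVector.map (ev T t) (Y j))
      (WittVector.map (ev T t) (Y (j + 1))) := fun t j => (hY j).map (ev T t)
  have hmon : ∀ (t : A → T.O) (a : A), ev T t (monFun T (Finsupp.single a 1)) = t a := by
    intro t a
    rw [ev_mon, Finset.prod_eq_single a]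
    · rw [Finsupp.single_eq_same, pow_one]
    · intro b _ hb
      rw [Finsupp.single_eq_of_ne hb, pow_zero]
    · intro h
      exact absurd (Finset.mem_univ a) h
  have hx0 : ∀ t : A → T.O, WittVector.map (ev T t) x0 = ∑ a, teichmuller p (t a) := by
    intro t
    rw [map_sum]
    refine Finset.sum_congr rfl fun a _ => ?_
    rw [map_teichmuller, hmon]
  have hsc : ∀ (a : T.O) (t : A → T.O) j, WittVector.map (ev T fun i => a * t i) (Y j) =
      teichmuller p a * WittVector.map (ev T t) (Y j) := by
    intro a t j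
    induction j with
    | zero =>
      change WittVector.map (ev T fun i => a * t i) x0 = teichmuller p a * WittVector.map (ev T t) x0
      rw [hx0, hx0, Finset.mul_sum]
      exact Finset.sum_congr rfl fun i _ => map_mul _ _ _
    | succ j ih =>
      have h1 := hYt (fun i => a * t i) j
      rw [ih] at h1
      exact h1.unique ((hYt t j).mul a)
  obtain ⟨M, Q, hQ⟩ := ((Y c).coeff 0).2
  have hval : ∀ t : A → T.O, (((WittVector.map (ev T t) (Y c)).coeff 0 : T.O) : F) ^ p ^ M =
      eval (fun i => ((t i : T.O) : F)) Q := fun t => hQ t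
  have hcomp : ∀ t : A → T.O, eval (fun i => ((t i : T.O) : F)) (homogeneousComponent (p ^ M) Q) =
      (((WittVector.map (ev T t) (Y c)).coeff 0 : T.O) : F) ^ p ^ M := by
    intro t
    rw [hval]
    refine eval_component T.toTiltPair ϖ (Tilting.ϖ_ne hϖ) (by rw [Tilting.abs_ϖ hϖ]; exact T.p_lt)
      fun a => ?_
    have h1 := hval fun i => a * t i
    have h2 := hval t
    rw [hsc a t c, mul_coeff_zero, teichmuller_coeff_zero, Subring.coe_mul, mul_pow, h2] at h1
    exact h1.symm
  refine ⟨M, homogeneousComponent (p ^ M) Q, homogeneousComponent_isHomogeneous _ _, fun a _ => ?_,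
    fun t Λ ht => ?_⟩
  · -- the unit vectors
    let e : A → T.O := Pi.single a 1
    have he : (fun i => ((e i : T.O) : F)) = Pi.single a 1 := by
      funext i
      by_cases hi : i = a
      · subst hi
        simp [e]
      · simp only [e]
        rw [Pi.single_eq_of_ne hi, Pi.single_eq_of_ne hi]
        rfl
    have h1 : ∀ j, WittVector.map (ev T e) (Y j) = 1 := by
      intro j
      induction j with
      | zero =>
        change WittVector.map (ev T e) x0 = 1
        rw [hx0, Finset.sum_eq_single a]
        · simp only [e, Pi.single_eq_same, map_one]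
        · intro b _ hb
          simp only [e, Pi.single_eq_of_ne hb]
          exact teichmuller_zero p
        · intro h
          exact absurd (Finset.mem_univ a) h
      | succ j ih =>
        have h2 := hYt e j
        rw [ih] at h2
        refine h2.unique ⟨0, ?_, ?_⟩
        · rw [one_coeff_zero, map_one, mul_zero, add_zero]
        · rw [one_coeff_zero, map_one, mul_zero, add_zero]
    have h2 := hcomp e
    rw [h1 c, one_coeff_zero, he] at h2
    convert h2
    simp
  · by_cases h0 : t = 0
    · subst h0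
      have e1 : eval (0 : A → F) (homogeneousComponent (p ^ M) Q) = 0 := by
        have h1 := eval_smul_of_homogeneous (homogeneousComponent_isHomogeneous (p ^ M) Q) 0 (0 : A → F)
        rw [zero_pow (pow_pos hp.out.pos M).ne', zero_mul] at h1
        have h2 : (fun i => (0 : F) * (0 : A → F) i) = 0 := funext fun i => zero_mul _
        rwa [h2] at h1
      have e2 : ∑ a : A, T.sharp ((0 : A → F) a) = 0 :=
        Finset.sum_eq_zero fun a _ => T.toTiltPair.sharp_zero
      rw [e1, e2, AbsoluteValue.map_zero, AbsoluteValue.map_zero]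
      refine ⟨pow_nonneg (le_max_left _ _) _, fun _ => ?_⟩
      rw [zero_pow (pow_pos hp.out.pos M).ne']
    · obtain ⟨b₀, hb₀⟩ := Function.ne_iff.1 h0
      have : Nonempty A := ⟨b₀⟩
      obtain ⟨b, -, hb⟩ := Finset.exists_max_image Finset.univ (fun a => T.absF (t a)) Finset.univ_nonempty
      have hb' : ∀ a, T.absF (t a) ≤ T.absF (t b) := fun a => hb a (Finset.mem_univ a)
      have hb0 : 0 < T.absF (t b) := (T.absF.pos hb₀).trans_le (hb' b₀)
      have hb1 : t b ≠ 0 := fun h => by rw [h, map_zero] at hb0; exact lt_irrefl _ hb0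
      let t' : A → T.O := fun a => ⟨t a / t b, by
        change T.absF (t a / t b) ≤ 1
        rw [map_div₀]
        exact div_le_one_of_le₀ (hb' a) hb0.le⟩
      have htt : t = fun a => t b * ((t' a : T.O) : F) := by
        funext a
        change t a = t b * (t a / t b)
        rw [mul_div_cancel₀ _ hb1]
      have e1 : T.absF (eval t (homogeneousComponent (p ^ M) Q)) =
          (T.absF (t b) * T.absF ((WittVector.map (ev T t') (Y c)).coeff 0 : T.O)) ^ p ^ M := by
        conv_lhs => rw [htt, eval_smul_of_homogeneous (homogeneousComponent_isHomogeneous (p ^ M) Q), hcomp t']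
        rw [map_mul, map_pow, map_pow, mul_pow]
      have e2 : T.θ (WittVector.map (ev T t') (Y 0)) = ∑ a, T.sharp (t' a) := by
        change T.θ (WittVector.map (ev T t') x0) = _
        rw [hx0, map_sum]
        exact Finset.sum_congr rfl fun a _ => T.θ_teich _
      have e3 : T.absK (∑ a, T.sharp (t a)) = T.absF (t b) * T.absK (∑ a, T.sharp (t' a)) := by
        have h1 : ∑ a, T.sharp (t a) = T.sharp (t b) * ∑ a, T.sharp (t' a) := by
          rw [Finset.mul_sum]
          refine Finset.sum_congr rfl fun a _ => ?_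
          rw [← map_mul]
          exact congrArg T.sharp (congrFun htt a)
        rw [h1, map_mul, T.abs_sharp]
      obtain ⟨h1, h2⟩ := chain_abs hϖ (Y := fun j => WittVector.map (ev T t') (Y j)) (hYt t') c
      rw [e2] at h1 h2
      have hΛ : T.absF (t b) ≤ Λ := ht b
      constructor
      · rw [e1]
        refine pow_le_pow_left₀ (by positivity) ?_ _
        refine (mul_le_mul_of_nonneg_left h1 hb0.le).trans ?_
        rw [mul_max_of_nonneg _ _ hb0.le, e3]
        refine max_le_max le_rfl ?_
        rw [mul_comm]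
        exact mul_le_mul_of_nonneg_left hΛ (pow_nonneg hpp.le c)
      · intro hlt
        rw [e1, e3]
        congr 1
        rw [e3] at hlt
        rw [h2]
        have h3 : T.absK p ^ c * T.absF (t b) < T.absF (t b) * T.absK (∑ a, T.sharp (t' a)) :=
          (mul_le_mul_of_nonneg_left hΛ (pow_nonneg hpp.le c)).trans_lt hlt
        rw [mul_comm] at h3
        exact lt_of_mul_lt_mul_left h3 hb0.le

end Run7.h458
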