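import Pool.Agent.Run7.h458.MPExc
set_option autoImplicit false
set_option linter.unusedSectionVars false

/-!
# Approximate solutions from solutions of approximating systems
-/

namespace Run7.h458.MP

open MvPolynomial Pool.Agent.W476.TP

/-- Normalisation of the solutions of the approximating system. -/
theorem norm_sol {p : ℕ} [Fact p.Prime] {C L : Type} [NormedField C] [IsUltrametricDist C] [Field L]
    [CharP L p] [IsAlgClosed L] (S : Sharp p C L) (hp1 : ‖(p : C)‖ < 1)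
    {r n : ℕ} (m : Fin r → ℕ) (D : Fin r → ℕ) (hD : D ≠ 0) (N : ℕ) (hN : 0 < N)
    (f : Fin (n + 1) → MvPolynomial (Sig m) C) (hf : ∀ i, MH (f i) D)
    (hfc : ∀ i α, ‖(f i).coeff α‖ ≤ 1)
    (G : Fin (n + 1) → Polynomial (MvPolynomial (Sig m) L)) (t : Fin (n + 1) → ℕ)
    (hG : ∀ i, MonicMH D (G i) (t i))
    (hGf : ∀ i (y : Sig m → L) (z : L), (∀ i, ‖S.sh (y i)‖ ≤ 1) → ‖S.sh z‖ ≤ 1 →
      ev (G i) y z = 0 → ‖S.sh z - eval (fun i => S.sh (y i)) (f i)‖ ≤ ‖(p : C)‖ ^ N)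
    (y : Sig m → L) (z : Fin (n + 1) → L) (hy : Rel y) (hyG : ∀ i, ev (G i) y (z i) = 0) :
    ∃ (a : L) (lam : Fin r → L), a ≠ 0 ∧ Nrm (fun i => S.sh (scl lam y i)) ∧
      (∀ i, ‖S.sh (a * z i)‖ ≤ 1) ∧
      ∀ i, ‖S.sh (a * z i) - eval (fun i => S.sh (scl lam y i)) (f i)‖ ≤ ‖(p : C)‖ ^ N := by
  have hPN : ‖(p : C)‖ ^ N < 1 := pow_lt_one₀ (norm_nonneg _) hp1 hN.ne'
  have hmax : ∀ κ : Fin r, ∃ i : Fin (m κ + 1), ∀ j, ‖S.sh (y ⟨κ, j⟩)‖ ≤ ‖S.sh (y ⟨κ, i⟩)‖ :=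
    fun κ => Finite.exists_max fun i => ‖S.sh (y ⟨κ, i⟩)‖
  choose ik hik using hmax
  have hne : ∀ κ, y ⟨κ, ik κ⟩ ≠ 0 := by
    intro κ h0
    obtain ⟨j, hj⟩ := hy κ
    have h1 := hik κ j
    rw [h0, map_zero, norm_zero] at h1
    have h2 : S.sh (y ⟨κ, j⟩) = 0 := norm_le_zero_iff.1 h1
    exact hj ((map_eq_zero S.sh).1 h2)
  obtain ⟨lam, hlam⟩ : ∃ lam : Fin r → L, lam = fun κ => (y ⟨κ, ik κ⟩)⁻¹ := ⟨_, rfl⟩
  have hlam0 : ∀ κ, lam κ ≠ 0 := by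
    intro κ
    rw [hlam]
    exact inv_ne_zero (hne κ)
  have hy'1 : ∀ i, ‖S.sh (scl lam y i)‖ ≤ 1 := by
    rintro ⟨κ, j⟩
    have h1 : 0 < ‖S.sh (y ⟨κ, ik κ⟩)‖ := by
      rw [norm_pos_iff]
      exact fun h => hne κ ((map_eq_zero S.sh).1 h)
    have h2 : scl lam y ⟨κ, j⟩ = (y ⟨κ, ik κ⟩)⁻¹ * y ⟨κ, j⟩ := by
      unfold scl
      rw [hlam]
    rw [h2, map_mul, map_inv₀, norm_mul, norm_inv, inv_mul_le_iff₀ h1, mul_one]
    exact hik κ j
  have hnrm : Nrm fun i => S.sh (scl lam y i) := by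
    refine ⟨hy'1, fun κ => ⟨ik κ, ?_⟩⟩
    have h2 : scl lam y ⟨κ, ik κ⟩ = 1 := by
      unfold scl
      rw [hlam]
      exact inv_mul_cancel₀ (hne κ)
    simp only [h2, map_one, norm_one]
  have hG' : ∀ i, ev (G i) (scl lam y) (sp lam D * z i) = 0 := by
    intro i
    rw [ev_scl (hG i), hyG i, mul_zero]
  have hclaim : ∀ i, ‖S.sh (sp lam D * z i)‖ ≤ 1 := by
    intro i
    by_contra hcon
    rw [not_le] at hcon
    obtain ⟨Z, hZ⟩ : ∃ Z, Z = sp lam D * z i := ⟨_, rfl⟩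
    rw [← hZ] at hcon
    have hZ0 : Z ≠ 0 := by
      rintro rfl
      rw [map_zero, norm_zero] at hcon
      linarith
    obtain ⟨κ, hκ⟩ : ∃ κ, D κ ≠ 0 := by
      by_contra h
      push Not at h
      exact hD (funext h)
    obtain ⟨μ, hμ⟩ := IsAlgClosed.exists_pow_nat_eq Z⁻¹ (Nat.pos_of_ne_zero hκ)
    obtain ⟨lam', hlam'⟩ : ∃ lam' : Fin r → L,
      lam' = Function.update (1 : Fin r → L) κ μ := ⟨_, rfl⟩
    have hsp : sp lam' D = Z⁻¹ := by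
      unfold sp
      rw [Finset.prod_eq_single κ, hlam', Function.update_self, hμ]
      · intro κ' _ hne'
        rw [hlam', Function.update_of_ne hne', Pi.one_apply, one_pow]
      · intro h
        exact absurd (Finset.mem_univ κ) h
    have hZinv : ‖S.sh Z⁻¹‖ < 1 := by
      rw [map_inv₀, norm_inv]
      exact inv_lt_one_of_one_lt₀ hcon
    have hμ1 : ‖S.sh μ‖ ≤ 1 := by
      by_contra h
      rw [not_le] at h
      have h1 : 1 ≤ ‖S.sh μ‖ ^ D κ := one_le_pow₀ h.le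
      rw [← norm_pow, ← map_pow, hμ] at h1
      linarith
    have hlam1 : ∀ κ', ‖S.sh (lam' κ')‖ ≤ 1 := by
      intro κ'
      rw [hlam']
      by_cases h : κ' = κ
      · rw [h, Function.update_self]
        exact hμ1
      · rw [Function.update_of_ne h, Pi.one_apply, map_one, norm_one]
    have hy'' : ∀ i, ‖S.sh (scl lam' (scl lam y) i)‖ ≤ 1 := by
      intro j
      have h2 : scl lam' (scl lam y) j = lam' j.1 * scl lam y j := rfl
      rw [h2, map_mul, norm_mul]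
      exact mul_le_one₀ (hlam1 _) (norm_nonneg _) (hy'1 j)
    have hev : ev (G i) (scl lam' (scl lam y)) 1 = 0 := by
      have h2 := ev_scl (hG i) lam' (scl lam y) Z
      rw [hsp, inv_mul_cancel₀ hZ0] at h2
      rw [h2, hZ, hG' i, mul_zero]
    have h3 := hGf i _ 1 hy'' (by rw [map_one, norm_one]) hev
    rw [map_one] at h3
    have h4 : (fun i => S.sh (scl lam' (scl lam y) i)) =
        scl (fun κ => S.sh (lam' κ)) (fun i => S.sh (scl lam y i)) := by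
      funext j
      exact map_mul _ _ _
    have h5 : ‖eval (fun i => S.sh (scl lam' (scl lam y) i)) (f i)‖ < 1 := by
      rw [h4, eval_scl (hf i), Pool.Agent.W177.TP.sh_sp, hsp, norm_mul]
      calc ‖S.sh Z⁻¹‖ * ‖eval (fun i => S.sh (scl lam y i)) (f i)‖ ≤ ‖S.sh Z⁻¹‖ * 1 :=
            mul_le_mul_of_nonneg_left (Pool.Agent.W177.TP.norm_eval_le (hfc i) hy'1)
              (norm_nonneg _)
        _ < 1 := by rw [mul_one]; exact hZinv
    have h6 := IsUltrametricDist.norm_add_le_max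
      (1 - eval (fun i => S.sh (scl lam' (scl lam y) i)) (f i))
      (eval (fun i => S.sh (scl lam' (scl lam y) i)) (f i))
    rw [sub_add_cancel, norm_one] at h6
    exact absurd h6 (not_le.2 (max_lt (h3.trans_lt hPN) h5))
  exact ⟨sp lam D, lam, sp_ne_zero hlam0 D, hnrm, hclaim,
    fun i => hGf i _ _ hy'1 (hclaim i) (hG' i)⟩

/-- Closeness of `P (x)` to `P (f y)`, which vanishes on the zero set. -/
theorem close_one' {C : Type} [NormedField C] [IsUltrametricDist C] [IsAlgClosed C]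
    {r n : ℕ} {m : Fin r → ℕ} {J : Type} [Fintype J] (g : J → MvPolynomial (Sig m) C)
    (f : Fin (n + 1) → MvPolynomial (Sig m) C) (hf1 : ∀ i α, ‖(f i).coeff α‖ ≤ 1)
    (P : MvPolynomial (Fin (n + 1)) C)
    (hP : ∀ y : Sig m → C, Rel y → (∀ j, eval y (g j) = 0) →
      eval (fun i => eval y (f i)) P = 0) (ε : ℝ) (hε : 0 < ε) :
    ∃ η : ℝ, 0 < η ∧ ∀ (y : Sig m → C) (x : Fin (n + 1) → C), Nrm y →
      (∀ j, ‖eval y (g j)‖ ≤ η) → (∀ i, ‖x i‖ ≤ 1) → (∀ i, ‖x i - eval y (f i)‖ ≤ η) →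
      ‖eval x P‖ ≤ ε := by
  obtain ⟨δ, hδ, h1⟩ := W351.TP.t_VAN C m J g (bind₁ f P) (by
    intro y hy hy2
    rw [← hP y hy hy2, ← aeval_eq_eval, ← aeval_eq_eval, aeval_bind₁]) (ε / 2) (by positivity)
  obtain ⟨A, hA, hA1, hA2⟩ := exists_lip P
  refine ⟨min δ (ε / (2 * (A + 1))), by positivity, ?_⟩
  intro y x hy hg hx hxf
  have h2 := h1 y hy (fun j => (hg j).trans (min_le_left _ _))
  have h3 : eval y (bind₁ f P) = eval (fun i => eval y (f i)) P := by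
    rw [← aeval_eq_eval, ← aeval_eq_eval, aeval_bind₁]
  rw [h3] at h2
  have h4 := hA2 x (fun i => eval y (f i)) (ε / (2 * (A + 1))) hx
    (fun i => Pool.Agent.W177.TP.norm_eval_le (hf1 i) hy.1)
    (fun i => (hxf i).trans (min_le_right _ _)) (by positivity)
  have h5 : A * (ε / (2 * (A + 1))) ≤ ε / 2 := by
    rw [mul_div_assoc', div_le_div_iff₀ (by positivity) (by positivity)]
    nlinarith
  calc ‖eval x P‖ = ‖(eval x P - eval (fun i => eval y (f i)) P) +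
        eval (fun i => eval y (f i)) P‖ := by rw [sub_add_cancel]
    _ ≤ ε / 2 + ε / 2 := (norm_add_le _ _).trans (add_le_add (h4.trans h5) h2)
    _ = ε := by ring

/-- The approximating system. -/
theorem core {p : ℕ} [Fact p.Prime] {C L : Type} [NormedField C] [IsUltrametricDist C]
    [IsAlgClosed C] [Field L] [CharP L p] [IsAlgClosed L] (S : Sharp p C L)
    (hp0 : 0 < ‖(p : C)‖) (hp1 : ‖(p : C)‖ < 1)
    {r c n : ℕ} (m : Fin r → ℕ) {s : Fin r → ℕ}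
    (h : ∀ κ, Fin (s κ) → MvPolynomial (Fin (m κ + 1)) C)
    (g : Fin c → MvPolynomial (Sig m) C)
    (a : Fin c → Fin r → ℕ) (hg : ∀ j, MH (g j) (a j)) (hg1 : ∀ j α, ‖(g j).coeff α‖ ≤ 1)
    (f : Fin (n + 1) → MvPolynomial (Sig m) C) (D : Fin r → ℕ) (hf : ∀ i, MH (f i) D)
    (hf1 : ∀ i α, ‖(f i).coeff α‖ ≤ 1) (hD : D ≠ 0)
    (hbpf : ∀ y : Sig m → C, Rel y → (∀ κ l, eval (fun i => y ⟨κ, i⟩) (h κ l) = 0) →
      (∀ j, eval y (g j) = 0) → ∃ i, eval y (f i) ≠ 0)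
    {ι : Type} [Finite ι] (Q : ι → MvPolynomial (Fin (n + 1)) C)
    (hQ : ∀ k, ∀ y : Sig m → C, Rel y → (∀ κ l, eval (fun i => y ⟨κ, i⟩) (h κ l) = 0) →
      (∀ j, eval y (g j) = 0) → eval (fun i => eval y (f i)) (Q k) = 0) :
    ∃ δ1 : ℝ, 0 < δ1 ∧ δ1 ≤ 1 ∧ ∀ ε δ2 : ℝ, 0 < ε → 0 < δ2 →
      ∃ (N : ℕ) (H : Fin c → MvPolynomial (Sig m) L) (sH : Fin c → ℕ)
        (G : Fin (n + 1) → Polynomial (MvPolynomial (Sig m) L)) (t : Fin (n + 1) → ℕ),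
        ‖(p : C)‖ ^ N ≤ δ2 ∧ (∀ j, MH (H j) (p ^ sH j • a j)) ∧ (∀ i, MonicMH D (G i) (t i)) ∧
        ∀ (y : Sig m → L) (z : Fin (n + 1) → L), Rel y → (∀ j, eval y (H j) = 0) →
          (∀ i, ev (G i) y (z i) = 0) →
          (∀ lam : Fin r → L, (∀ i, ‖S.sh (scl lam y i)‖ ≤ 1) → ∀ κ l,
            ‖eval (fun i => S.sh (scl lam y ⟨κ, i⟩)) (h κ l)‖ ≤ ‖(p : C)‖ ^ N) →
          ∃ b : L, b ≠ 0 ∧ (∀ i, ‖S.sh (b * z i)‖ ≤ 1) ∧ (∃ i, δ1 ≤ ‖S.sh (b * z i)‖) ∧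
            ∀ k, ‖eval (fun i => S.sh (b * z i)) (Q k)‖ ≤ ε := by
  classical
  -- the system of all equations
  let gg : Fin c ⊕ ((κ : Fin r) × Fin (s κ)) → MvPolynomial (Sig m) C :=
    Sum.elim g fun x => grp m x.1 (h x.1 x.2)
  have hgg : ∀ y : Sig m → C, (∀ j, eval y (gg j) = 0) →
      (∀ κ l, eval (fun i => y ⟨κ, i⟩) (h κ l) = 0) ∧ ∀ j, eval y (g j) = 0 := by
    intro y hy
    refine ⟨fun κ l => ?_, fun j => hy (Sum.inl j)⟩
    have h1 := hy (Sum.inr ⟨κ, l⟩)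
    rwa [show gg (Sum.inr ⟨κ, l⟩) = grp m κ (h κ l) from rfl, eval_grp] at h1
  -- the lower bound
  obtain ⟨δ0, hδ0, hδ0'⟩ := W351.TP.t_NZ C m
    ((Fin c ⊕ ((κ : Fin r) × Fin (s κ))) ⊕ Fin (n + 1)) (Sum.elim gg f) (by
      intro y hy
      by_cases h1 : ∀ j, eval y (gg j) = 0
      · obtain ⟨i, hi⟩ := hbpf y hy (hgg y h1).1 (hgg y h1).2
        exact ⟨Sum.inr i, hi⟩
      · push Not at h1
        obtain ⟨j, hj⟩ := h1
        exact ⟨Sum.inl j, hj⟩)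
  refine ⟨min δ0 1, lt_min hδ0 one_pos, min_le_right _ _, fun ε δ2 hε hδ2 => ?_⟩
  set δ1 := min δ0 1 with hδ1d
  have hδ1 : 0 < δ1 := lt_min hδ0 one_pos
  have hδ : ∀ y : Sig m → C, Nrm y →
      (∃ j, δ1 ≤ ‖eval y (gg j)‖) ∨ ∃ i, δ1 ≤ ‖eval y (f i)‖ := by
    intro y hy
    obtain ⟨j | i, hj⟩ := hδ0' y hy
    · exact Or.inl ⟨j, (min_le_left _ _).trans hj⟩
    · exact Or.inr ⟨i, (min_le_left _ _).trans hj⟩
  have h1 : ∀ k, ∃ η : ℝ, 0 < η ∧ ∀ (y : Sig m → C) (x : Fin (n + 1) → C), Nrm y →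
      (∀ j, ‖eval y (gg j)‖ ≤ η) → (∀ i, ‖x i‖ ≤ 1) → (∀ i, ‖x i - eval y (f i)‖ ≤ η) →
      ‖eval x (Q k)‖ ≤ ε := fun k => close_one' gg f hf1 (Q k)
        (fun y hy hy2 => hQ k y hy (hgg y hy2).1 (hgg y hy2).2) ε hε
  choose η hη1 hη2 using h1
  obtain ⟨θ, hθ0, hθ⟩ := Pool.Agent.Y129.TA.exists_pos_le η hη1
  obtain ⟨N0, hN0⟩ := exists_pow_lt_of_lt_one
    (show (0 : ℝ) < min (min δ1 δ2) θ from lt_min (lt_min hδ1 hδ2) hθ0) hp1
  set N := N0 + 1 with hN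
  have hNle : ‖(p : C)‖ ^ N < min (min δ1 δ2) θ :=
    lt_of_le_of_lt (pow_le_pow_of_le_one hp0.le hp1.le (Nat.le_succ _)) hN0
  have hN1 : ‖(p : C)‖ ^ N < δ1 := hNle.trans_le ((min_le_left _ _).trans (min_le_left _ _))
  have hN2 : ‖(p : C)‖ ^ N < δ2 := hNle.trans_le ((min_le_left _ _).trans (min_le_right _ _))
  have hN3 : ‖(p : C)‖ ^ N < θ := hNle.trans_le (min_le_right _ _)
  have hH := fun j => t_APP' p C L S hp0 hp1 (Sig m) (Fin r → ℕ) (wt m) (a j) (g j) (hg j)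
    (hg1 j) N
  choose sH H hH1 hH2 using hH
  have hG := fun i => Pool.Agent.W515.TP.t_MON t_APP' p C L S hp0 hp1 m D hD (f i) (hf i)
    (hf1 i) N (Nat.succ_pos _)
  choose t G hG1 hG2 using hG
  refine ⟨N, H, sH, G, t, hN2.le, hH1, hG1, ?_⟩
  intro y z hy hyH hyG hyh
  obtain ⟨b, lam, hb, hy', hz, h3⟩ := norm_sol S hp1 m D hD N (Nat.succ_pos _) f hf hf1 G t hG1
    hG2 y z hy hyG
  have h2 : ∀ j, ‖eval (fun i => S.sh (scl lam y i)) (gg j)‖ ≤ ‖(p : C)‖ ^ N := by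
    rintro (j | x)
    · exact hH2 j _ hy'.1 (by rw [eval_scl (hH1 j), hyH j, mul_zero])
    · have h4 := hyh lam hy'.1 x.1 x.2
      rwa [show gg (Sum.inr x) = grp m x.1 (h x.1 x.2) from rfl, eval_grp]
  refine ⟨b, hb, hz, ?_, ?_⟩
  · rcases hδ _ hy' with ⟨j, hj⟩ | ⟨i, hi⟩
    · exact absurd (hj.trans (h2 j)) (not_le.2 hN1)
    · refine ⟨i, ?_⟩
      by_contra hlt
      push Not at hlt
      have h4 : ‖eval (fun i => S.sh (scl lam y i)) (f i)‖ ≤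
          max ‖S.sh (b * z i)‖ ‖S.sh (b * z i) - eval (fun i => S.sh (scl lam y i)) (f i)‖ := by
        have h5 : eval (fun i => S.sh (scl lam y i)) (f i) =
          S.sh (b * z i) - (S.sh (b * z i) - eval (fun i => S.sh (scl lam y i)) (f i)) := by ring
        conv_lhs => rw [h5, sub_eq_add_neg]
        refine (IsUltrametricDist.norm_add_le_max _ _).trans ?_
        rw [norm_neg]
      have h6 : max ‖S.sh (b * z i)‖
          ‖S.sh (b * z i) - eval (fun i => S.sh (scl lam y i)) (f i)‖ < δ1 :=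
        max_lt hlt (lt_of_le_of_lt (h3 i) hN1)
      exact absurd (lt_of_le_of_lt (hi.trans h4) h6) (lt_irrefl _)
  · intro k
    exact hη2 k _ _ hy' (fun j => (h2 j).trans (hN3.le.trans (hθ k))) hz
      (fun i => (h3 i).trans (hN3.le.trans (hθ k)))

end Run7.h458.MP
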