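import Pool.Agent.W476.TP.Fin
import Pool.Agent.R388.TP.Gens
set_option autoImplicit false
set_option linter.unusedSectionVars false

/-!
# Common zeros of multihomogeneous forms on products of closed sets
-/

namespace Run7.h458.MP

open MvPolynomial Pool.Agent.W476.TP Pool.Agent.W762.TP
open Pool.Agent.Y129.TA (DimGE IsForm)

/-- A form in the coordinates of one group. -/
noncomputable def grp {L : Type} [Field L] {r : ℕ} (m : Fin r → ℕ) (κ : Fin r)
    (q : MvPolynomial (Fin (m κ + 1)) L) : MvPolynomial (Sig m) L :=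
  rename (fun i => (⟨κ, i⟩ : Sig m)) q

theorem grp_hom {L : Type} [Field L] {r : ℕ} (m : Fin r → ℕ) (κ : Fin r)
    {q : MvPolynomial (Fin (m κ + 1)) L} {b : ℕ} (hq : q.IsHomogeneous b) :
    MH (grp m κ q) (Pi.single κ b) := by
  classical
  have h0 : q = ∑ α ∈ q.support, monomial α (q.coeff α) := (support_sum_monomial_coeff q).symm
  unfold grp MH
  rw [h0, map_sum]
  refine IsWeightedHomogeneous.sum _ _ _ fun α hα => ?_
  rw [rename_monomial]
  refine isWeightedHomogeneous_monomial _ _ _ ?_
  have h1 : ∑ i, α i = b := by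
    have := hq (mem_support_iff.1 hα)
    rw [← this, Finsupp.weight_apply, Finsupp.sum_fintype _ _ (fun i => by simp)]
    simp
  have h2 : ∀ i : Fin (m κ + 1), α i • wt m ⟨κ, i⟩ = Pi.single κ (α i) := by
    intro i
    unfold wt
    rw [← Pi.single_smul, smul_eq_mul, mul_one]
  rw [Finsupp.weight_apply, Finsupp.sum_mapDomain_index]
  · rw [Finsupp.sum_fintype _ _ (fun i => by exact zero_smul ℕ _)]
    simp only [h2]
    rw [← h1]
    exact (map_sum (AddMonoidHom.single (fun _ : Fin r => ℕ) κ) α Finset.univ).symm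
  · intro b; exact zero_smul _ _
  · intro b u v; exact add_smul _ _ _

theorem eval_grp {L : Type} [Field L] {r : ℕ} (m : Fin r → ℕ) (κ : Fin r)
    (q : MvPolynomial (Fin (m κ + 1)) L) (y : Sig m → L) :
    eval y (grp m κ q) = eval (fun i => y ⟨κ, i⟩) q := by
  unfold grp
  rw [eval_rename]
  rfl

/-- The linear form with the values of a linear functional. -/
noncomputable def linOf {L : Type} [Field L] {n : ℕ} (φ : (Fin n → L) →ₗ[L] L) :
    MvPolynomial (Fin n) L := ∑ i, C (φ (Pi.single i 1)) * X i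

theorem eval_linOf {L : Type} [Field L] {n : ℕ} (φ : (Fin n → L) →ₗ[L] L) (v : Fin n → L) :
    eval v (linOf φ) = φ v := by
  unfold linOf
  rw [map_sum]
  conv_rhs => rw [show v = ∑ i, v i • (Pi.single i 1 : Fin n → L) by
    funext j
    simp [Finset.sum_apply, Pi.single_apply], map_sum]
  refine Finset.sum_congr rfl fun i _ => ?_
  rw [map_mul, eval_C, eval_X, map_smul, smul_eq_mul, mul_comm]

theorem linOf_form {L : Type} [Field L] {n : ℕ} (φ : (Fin n → L) →ₗ[L] L) : IsForm (linOf φ) := by
  refine ⟨1, one_pos, ?_⟩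
  unfold linOf
  refine IsHomogeneous.sum _ _ _ fun i _ => ?_
  have := (isHomogeneous_C (Fin n) (φ (Pi.single i 1))).mul (isHomogeneous_X L i)
  rwa [zero_add] at this

/-- Common zeros of multihomogeneous forms on products of closed sets. -/
theorem exc {L : Type} [Field L] [IsAlgClosed L] {r n : ℕ} (m : Fin r → ℕ) (D : Fin r → ℕ)
    (hD : D ≠ 0) (G : Fin (n + 1) → Polynomial (MvPolynomial (Sig m) L)) (t : Fin (n + 1) → ℕ)
    (hG : ∀ i, MonicMH D (G i) (t i)) {s : Fin r → ℕ}
    (q : ∀ κ, Fin (s κ) → MvPolynomial (Fin (m κ + 1)) L) (b : ∀ κ, Fin (s κ) → ℕ)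
    (hq : ∀ κ l, (q κ l).IsHomogeneous (b κ l)) (δ : Fin r → ℕ)
    (hY : ∀ κ, DimGE {v : Fin (m κ + 1) → L | ∀ l, eval v (q κ l) = 0} (δ κ))
    {J : Type} [Fintype J] [DecidableEq J] (F : J → MvPolynomial (Sig m ⊕ Fin (n + 1)) L)
    (dd : J → Fin r → ℕ) (hF : ∀ j, IsWeightedHomogeneous (wt2 m D n) (F j) (dd j))
    (τ : J → Fin r) (hτ : ∀ j, 0 < dd j (τ j))
    (hcard : ∀ κ, (Finset.univ.filter fun j => τ j = κ).card ≤ δ κ) :
    ∃ (y : Sig m → L) (z : Fin (n + 1) → L), Rel y ∧ (∀ i, ev (G i) y (z i) = 0) ∧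
      (∀ j, eval (Sum.elim y z) (F j) = 0) ∧ ∀ κ l, eval (fun i => y ⟨κ, i⟩) (q κ l) = 0 := by
  classical
  have key : ∀ A : Finset J, ∀ l : (j : J) → Fin (m (τ j) + 1) → L,
      ∃ (y : Sig m → L) (z : Fin (n + 1) → L), Rel y ∧ (∀ i, ev (G i) y (z i) = 0) ∧
        (∀ j ∈ A, eval (Sum.elim y z) (F j) = 0) ∧
        (∀ κ l, eval (fun i => y ⟨κ, i⟩) (q κ l) = 0) ∧
        ∀ j, j ∉ A → ∑ i, l j i * y ⟨τ j, i⟩ = 0 := by
    intro A
    induction A using Finset.induction_on with
    | empty =>
      intro l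
      have h1 : ∀ κ : Fin r, ∃ v : Fin (m κ + 1) → L, (∀ l, eval v (q κ l) = 0) ∧ v ≠ 0 ∧
          ∀ (j : J) (h : τ j = κ), phi m (l j) h v = 0 := by
        intro κ
        obtain ⟨v, hv, hv0, hv1⟩ := Pool.Agent.R388.TP.dimGE_fintype (hY κ)
          (κ := {j : J // τ j = κ}) (by
            rw [Fintype.card_subtype]
            exact hcard κ) (fun j => linOf (phi m (l j.1) j.2)) (fun j => linOf_form _)
        refine ⟨v, hv, hv0, fun j h => ?_⟩
        have h3 := hv1 ⟨j, h⟩
        rwa [eval_linOf] at h3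
      choose v hvq hv0 hv using h1
      let y : Sig m → L := fun s => v s.1 s.2
      have hz : ∀ i, ∃ z : L, ev (G i) y z = 0 := by
        intro i
        obtain ⟨ht, hmon, hdeg, _⟩ := hG i
        have h4 : ((G i).map (eval y)).natDegree = t i := by
          rw [hmon.natDegree_map, hdeg]
        have h5 : ((G i).map (eval y)).degree ≠ 0 := by
          have h6 : 0 < ((G i).map (eval y)).degree :=
            Polynomial.natDegree_pos_iff_degree_pos.1 (by rw [h4]; exact ht)
          exact h6.ne'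
        obtain ⟨z, hz⟩ := IsAlgClosed.exists_root _ h5
        exact ⟨z, hz⟩
      choose z hz using hz
      refine ⟨y, z, ?_, hz, ?_, ?_, ?_⟩
      · intro κ
        by_contra hcon
        push Not at hcon
        exact hv0 κ (funext fun i => hcon i)
      · intro j hj
        exact absurd hj (Finset.notMem_empty j)
      · intro κ l
        exact hvq κ l
      · intro j _
        have := hv (τ j) j rfl
        rw [phi_rfl] at this
        exact this
    | insert j0 A hj0 ih =>
      intro l
      let F' : {j : J // j ≠ j0} ⊕ ((κ : Fin r) × Fin (s κ)) →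
          MvPolynomial (Sig m ⊕ Fin (n + 1)) L := Sum.elim (fun j =>
        if j.1 ∈ A then F j.1 else ∑ i, C (l j.1 i) * X (Sum.inl ⟨τ j.1, i⟩))
        (fun x => rename Sum.inl (grp m x.1 (q x.1 x.2)))
      let δ' : {j : J // j ≠ j0} ⊕ ((κ : Fin r) × Fin (s κ)) → Fin r → ℕ := Sum.elim (fun j =>
        if j.1 ∈ A then dd j.1 else Pi.single (τ j.1) 1) (fun x => Pi.single x.1 (b x.1 x.2))
      have hF' : ∀ j, IsWeightedHomogeneous (wt2 m D n) (F' j) (δ' j) := by
        rintro (j | x)
        · by_cases h : j.1 ∈ A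
          · simp only [F', δ', Sum.elim_inl, if_pos h]
            exact hF j.1
          · simp only [F', δ', Sum.elim_inl, if_neg h]
            exact lin_hom m D (l j.1)
        · exact rename_hom (grp_hom m x.1 (hq x.1 x.2)) D n
      have hq' : ∀ (y : Sig m → L) (z : Fin (n + 1) → L) (x : (κ : Fin r) × Fin (s κ)),
          eval (Sum.elim y z) (F' (Sum.inr x)) = eval (fun i => y ⟨x.1, i⟩) (q x.1 x.2) := by
        intro y z x
        simp only [F', Sum.elim_inr]
        rw [eval_rename, Sum.elim_comp_inl, eval_grp]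
      obtain ⟨y, z, h1, h2, h3, h4⟩ := Pool.Agent.W338.TP.t_KEY t_NST L m D hD G t hG
        ({j : J // j ≠ j0} ⊕ ((κ : Fin r) × Fin (s κ))) F' δ' hF' (τ j0)
        (by
          intro l0
          obtain ⟨y, z, h1, h2, h3, hqy, h4⟩ := ih (Function.update l j0 l0)
          refine ⟨y, z, h1, h2, ?_, ?_⟩
          · rintro (j | x)
            · by_cases h : j.1 ∈ A
              · simp only [F', Sum.elim_inl, if_pos h]
                exact h3 j.1 h
              · simp only [F', Sum.elim_inl, if_neg h]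
                rw [lin_eval]
                have h5 := h4 j.1 h
                rwa [Function.update_of_ne j.2] at h5
            · rw [hq']
              exact hqy x.1 x.2
          · have h5 := h4 j0 hj0
            rwa [Function.update_self] at h5)
        (F j0) (dd j0) (hF j0) (hτ j0)
      refine ⟨y, z, h1, h2, ?_, ?_, ?_⟩
      · intro j hj
        by_cases h : j = j0
        · rw [h]; exact h4
        · have hjA : j ∈ A := Finset.mem_of_mem_insert_of_ne hj h
          have h5 := h3 (Sum.inl ⟨j, h⟩)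
          simp only [F', Sum.elim_inl, if_pos hjA] at h5
          exact h5
      · intro κ l
        have h5 := h3 (Sum.inr ⟨κ, l⟩)
        rwa [hq'] at h5
      · intro j hj
        rw [Finset.mem_insert, not_or] at hj
        have h5 := h3 (Sum.inl ⟨j, hj.1⟩)
        simp only [F', Sum.elim_inl, if_neg hj.2] at h5
        rwa [lin_eval] at h5
  obtain ⟨y, z, h1, h2, h3, h4, _⟩ := key Finset.univ (fun _ _ => 0)
  exact ⟨y, z, h1, h2, fun j => h3 j (Finset.mem_univ j), h4⟩

end Run7.h458.MP
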