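import Pool.Agent.Run7.h458.MPFinal
import Pool.Agent.R388.TP.ProductMain
set_option autoImplicit false
set_option linter.unusedSectionVars false

/-!
# Factors for which Q1 is known
-/

namespace Run7.h458.MP

open MvPolynomial Pool.Agent.Y129.TA
open Pool.Agent.Y129.TB (IsConeOver Approximable eval_map_alg BaseField DimLEOver form_map)
open Pool.Agent.R388.TP (IsToricUnion q1_of_toricUnion)

variable {p : ℕ} [hp : Fact p.Prime] {C F K E : Type} [Field C] [Field F] [CharP F p]
  [Field K] [Field E] [Algebra K C] [Algebra E F]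

/-- A closed subset of dimension `d` of a projective space for which Q1 is known: the whole space, a
curve, a finite union of images of complete intersections in toric varieties, or a closed subset which
satisfies Q1. -/
def IsFactor (T : TiltPair p C F) (K E : Type) [Field K] [Field E] [Algebra K C] [Algebra E F]
    {m : ℕ} (X : Set (Fin (m + 1) → C)) (d : ℕ) : Prop :=
  (X = Set.univ ∧ d = m) ∨ (d = 1 ∧ IsConeOver K X ∧ DimGE X 1 ∧ DimLEOver K X 1) ∨
    IsToricUnion K X d ∨ (IsConeOver K X ∧ Approximable T K E X d)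

/-- The whole projective space. -/
theorem univ_q1 [IsAlgClosed C] [IsAlgClosed F] (T : Tilting p C F) (m : ℕ) :
    IsConeOver K (Set.univ : Set (Fin (m + 1) → C)) ∧
      Approximable T.toTiltPair K E (Set.univ : Set (Fin (m + 1) → C)) m := by
  have hinf : Infinite C := IsAlgClosed.instInfinite
  refine ⟨⟨⟨⊥, ?_⟩, fun _ _ _ => Set.mem_univ _⟩, ?_⟩
  · ext x
    rw [mem_zeroLocus_iff]
    simp
  · intro r P D hP hPX ε hε
    have hP0 : ∀ k, MvPolynomial.map (algebraMap K C) (P k) = 0 := by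
      intro k
      refine MvPolynomial.funext fun x => ?_
      rw [eval_map_alg, hPX k x (Set.mem_univ _), map_zero]
    refine ⟨Set.univ, ⟨⟨⊥, ?_⟩, fun _ _ _ => Set.mem_univ _⟩, ?_, ?_, ?_⟩
    · ext x
      rw [mem_zeroLocus_iff]
      simp
    · intro q hq
      choose Dq hDq hq' using hq
      obtain ⟨w, hw, hwq⟩ := exists_zero q Dq hDq hq' (by simp)
      exact ⟨w, Set.mem_univ _, hw, hwq⟩
    · refine ⟨fun j => X j, fun j => ⟨1, one_pos, isHomogeneous_X F j⟩, fun y _ hy => ?_⟩
      funext j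
      have := hy j
      rwa [eval_X] at this
    · intro y _ k B hB
      have h1 : aeval (fun i => T.sharp (y i)) (P k) = 0 := by
        rw [← eval_map_alg, hP0 k, map_zero]
      have hB0 : 0 ≤ B := (T.absF.nonneg _).trans (hB 0)
      rw [h1, map_zero]
      positivity

theorem q1_of_factor [IsAlgClosed C] [IsAlgClosed F] (T : Tilting p C F) (B : BaseField T K E)
    (hE : IsCompletedClosure T.toTiltPair E) {m d : ℕ} {X : Set (Fin (m + 1) → C)}
    (hX : IsFactor T.toTiltPair K E X d) :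
    IsConeOver K X ∧ Approximable T.toTiltPair K E X d := by
  rcases hX with ⟨rfl, rfl⟩ | ⟨rfl, h1, h2, h3⟩ | h | h
  · exact univ_q1 T _
  · exact ⟨h1, curves_over T B hE h1 h2 h3⟩
  · exact q1_of_toricUnion T B (Or.inl h)
  · exact h

/-- The indices of the coordinates of the product of the projective spaces of dimensions `m κ`. -/
abbrev Coord {r : ℕ} (m : Fin r → ℕ) : Type := (κ : Fin r) × Fin (m κ + 1)

/-- All monomials of `F` have degree `d κ` in the coordinates of the factor `κ`. -/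
def IsMultihomogeneous {r : ℕ} {m : Fin r → ℕ} {K : Type} [Field K]
    (F : MvPolynomial (Coord m) K) (d : Fin r → ℕ) : Prop :=
  ∀ α ∈ F.support, ∀ κ, ∑ i, α ⟨κ, i⟩ = d κ

/-- The coordinate vectors (no group of coordinates vanishes) of the common zeros of the `g j` in the
product of the `X κ`. -/
def zeroSet {C K : Type} [Field C] [Field K] [Algebra K C] {r c : ℕ} {m : Fin r → ℕ}
    (X : ∀ κ, Set (Fin (m κ + 1) → C)) (g : Fin c → MvPolynomial (Coord m) K) :
    Set (Coord m → C) :=
  {y | (∀ κ, (fun i => y ⟨κ, i⟩) ∈ X κ ∧ (fun i => y ⟨κ, i⟩) ≠ 0) ∧ ∀ j, aeval y (g j) = 0}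

/-- The multidegrees `a j` and `e` copies of the multidegree `D` can be assigned to factors in which
they are positive, with at most `δ κ` of them assigned to the factor `κ`. -/
def PositiveIntersection {r c : ℕ} (δ : Fin r → ℕ) (a : Fin c → Fin r → ℕ) (D : Fin r → ℕ)
    (e : ℕ) : Prop :=
  ∃ τ : Fin c ⊕ Fin e → Fin r, (∀ j, 0 < a j (τ (Sum.inl j))) ∧
    (∀ k, 0 < D (τ (Sum.inr k))) ∧ ∀ κ, (Finset.univ.filter fun x => τ x = κ).card ≤ δ κ

theorem mh_of {r : ℕ} {m : Fin r → ℕ} {K : Type} [Field K] {F : MvPolynomial (Coord m) K}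
    {d : Fin r → ℕ} (h : IsMultihomogeneous F d) : Pool.Agent.W476.TP.MH F d := by
  intro α hα
  have h1 := h α (mem_support_iff.2 hα)
  rw [Finsupp.weight_apply, Finsupp.sum_fintype _ _ (fun i => by exact zero_smul ℕ _)]
  funext κ
  rw [← h1 κ, Finset.sum_apply, Fintype.sum_sigma, Finset.sum_eq_single κ]
  · refine Finset.sum_congr rfl fun i _ => ?_
    simp [Pool.Agent.W476.TP.wt]
  · intro b _ hb
    refine Finset.sum_eq_zero fun i _ => ?_
    simp [Pool.Agent.W476.TP.wt, Pi.single_eq_of_ne (Ne.symm hb)]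
  · intro h
    exact absurd (Finset.mem_univ _) h

theorem multi_main [IsAlgClosed C] [IsAlgClosed F] (T : Tilting p C F) (B : BaseField T K E)
    (hE : IsCompletedClosure T.toTiltPair E) {r c n e : ℕ} {m δ : Fin r → ℕ}
    (X : ∀ κ, Set (Fin (m κ + 1) → C)) (hX : ∀ κ, IsFactor T.toTiltPair K E (X κ) (δ κ))
    (g : Fin c → MvPolynomial (Coord m) K) (a : Fin c → Fin r → ℕ)
    (hg : ∀ j, IsMultihomogeneous (g j) (a j))
    (f : Fin (n + 1) → MvPolynomial (Coord m) K) (D : Fin r → ℕ)
    (hf : ∀ i, IsMultihomogeneous (f i) D) (hD : D ≠ 0)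
    (h0 : ∀ y ∈ zeroSet X g, ∃ i, aeval y (f i) ≠ 0) (hpos : PositiveIntersection δ a D e)
    {Z : Set (Fin (n + 1) → C)} (hZ : IsConeOver K Z) (hZe : DimLEOver K Z e)
    (hsub : ∀ y ∈ zeroSet X g, (fun i => aeval y (f i)) ∈ Z) :
    DimGE Z e ∧ Approximable T.toTiltPair K E Z e := by
  obtain ⟨τ, h1, h2, h3⟩ := hpos
  exact image_q1 T B hE X (fun κ => q1_of_factor T B hE (hX κ)) g a (fun j => mh_of (hg j)) f D
    (fun i => mh_of (hf i)) hD (fun y hy hyg => h0 y ⟨hy, hyg⟩) τ h1 h2 h3 hZ hZe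
    fun y hy hyg => hsub y ⟨hy, hyg⟩

end Run7.h458.MP
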