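import Pool.Agent.Run7.h458.MPTilt
set_option autoImplicit false
set_option linter.unusedSectionVars false

/-!
# Images of complete intersections of arbitrary multidegrees in products
-/

namespace Run7.h458.MP

open MvPolynomial Pool.Agent.W476.TP Pool.Agent.Y129.TA
open Pool.Agent.Y129.TB (IsConeOver Approximable eval_map_alg BaseField DimLEOver form_map)
open Pool.Agent.R388.TP (exists_gens small_of_approximable nonempty_of_approximable dimGE_of_small)

variable {p : ℕ} [hp : Fact p.Prime] {C F K E : Type} [Field C] [Field F] [CharP F p]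
  [Field K] [Field E] [Algebra K C] [Algebra E F]

/-- The point is in the product of the closed sets: no group of coordinates vanishes. -/
def InProd {r : ℕ} {m : Fin r → ℕ} {C : Type} [Field C] (X : ∀ κ, Set (Fin (m κ + 1) → C))
    (y : (κ : Fin r) × Fin (m κ + 1) → C) : Prop :=
  ∀ κ, (fun i => y ⟨κ, i⟩) ∈ X κ ∧ (fun i => y ⟨κ, i⟩) ≠ 0

theorem MH_map {K' L' : Type} [Field K'] [Field L'] (φ : K' →+* L') {r : ℕ} {m : Fin r → ℕ}
    {F : MvPolynomial (Sig m) K'} {d : Fin r → ℕ} (hF : MH F d) : MH (MvPolynomial.map φ F) d := by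
  intro α hα
  rw [coeff_map] at hα
  exact hF fun h => hα (by rw [h, map_zero])

/-- The tubes around the image. -/
theorem exists_tube [IsAlgClosed C] [IsAlgClosed F] (T : Tilting p C F)
    {r c n e : ℕ} {m δ : Fin r → ℕ} (X : ∀ κ, Set (Fin (m κ + 1) → C))
    (hX : ∀ κ, IsConeOver K (X κ) ∧ Approximable T.toTiltPair K E (X κ) (δ κ))
    (g : Fin c → MvPolynomial ((κ : Fin r) × Fin (m κ + 1)) K) (a : Fin c → Fin r → ℕ)
    (hg : ∀ j, MH (m := m) (g j) (a j))
    (f : Fin (n + 1) → MvPolynomial ((κ : Fin r) × Fin (m κ + 1)) K) (D : Fin r → ℕ)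
    (hf : ∀ i, MH (m := m) (f i) D) (hD : D ≠ 0)
    (hbpf : ∀ y : (κ : Fin r) × Fin (m κ + 1) → C, InProd X y → (∀ j, aeval y (g j) = 0) →
      ∃ i, aeval y (f i) ≠ 0)
    (τ : Fin c ⊕ Fin e → Fin r) (hτ1 : ∀ j, 0 < a j (τ (Sum.inl j)))
    (hτ2 : ∀ k, 0 < D (τ (Sum.inr k)))
    (hτ3 : ∀ κ, (Finset.univ.filter fun x => τ x = κ).card ≤ δ κ)
    {ι : Type} [Finite ι] (Q : ι → MvPolynomial (Fin (n + 1)) C) (dQ : ι → ℕ)
    (hQd : ∀ k, (Q k).IsHomogeneous (dQ k))
    (hQ : ∀ k, ∀ y : (κ : Fin r) × Fin (m κ + 1) → C, InProd X y → (∀ j, aeval y (g j) = 0) →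
      eval (fun i => aeval y (f i)) (Q k) = 0) (ε : ℝ) (hε : 0 < ε) :
    ∃ I : Ideal (MvPolynomial (Fin (n + 1)) F), HomI I ∧
      DimGE {z : Fin (n + 1) → F | ∀ P ∈ I, eval z P = 0} e ∧
      ∀ z : Fin (n + 1) → F, z ≠ 0 → (∀ P ∈ I, eval z P = 0) → ∀ k,
        ∃ i, T.absK (eval (fun i => T.sharp (z i)) (Q k)) ≤ ε * T.absF (z i) ^ dQ k := by
  classical
  have hinfC : Infinite C := IsAlgClosed.instInfinite
  let nC : NormedField C := T.absK.toNormedField
  have huC : IsUltrametricDist C :=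
    IsUltrametricDist.isUltrametricDist_of_forall_norm_add_le_max_norm fun x y => T.ultraK x y
  obtain ⟨S, hS⟩ := exists_sharp T (fun _ => rfl)
  have hp0 : 0 < ‖(p : C)‖ := T.absK.pos T.p_ne
  have hp1 : ‖(p : C)‖ < 1 := T.p_lt
  have hne := fun κ => nonempty_of_approximable T.toTiltPair (hX κ).2
  choose s h0 hh0 hXg using fun κ => exists_gens (hX κ).1 (hne κ)
  obtain ⟨I, hI, hI1, hI2⟩ := exists_image S hp0 hp1 m δ
    (fun κ l => MvPolynomial.map (algebraMap K C) (h0 κ l)) (fun κ ε' hε' => by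
      obtain ⟨κ1, _, G0, hG0f, hG0d, hG0s⟩ :=
        small_of_approximable T.toTiltPair (h0 κ) (hh0 κ) (hXg κ) (hX κ).2 ε' hε'
      let eJ := Fintype.equivFin κ1
      choose b hb hb' using hG0f
      refine ⟨Fintype.card κ1, fun l => MvPolynomial.map (algebraMap E F) (G0 (eJ.symm l)),
        fun l => b (eJ.symm l), fun l => (hb' _).map _, ?_, ?_⟩
      · have e1 : {v : Fin (m κ + 1) → F | ∀ l, eval v (MvPolynomial.map (algebraMap E F)
            (G0 (eJ.symm l))) = 0} = {t | ∀ l, aeval t (G0 l) = 0} := by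
          ext v
          simp only [Set.mem_ofPred_eq, eval_map_alg]
          constructor
          · intro hv l
            have := hv (eJ l)
            rwa [Equiv.symm_apply_apply] at this
          · intro hv l
            exact hv _
        rw [e1]
        exact hG0d
      · intro v hv hv1 l
        have h1 := hG0s v (fun l' => by
          have := hv (eJ l')
          simp only [Equiv.symm_apply_apply, eval_map_alg] at this
          exact this) (fun i => by
            rw [← T.abs_sharp, ← hS]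
            exact hv1 i) l
        have e2 : (fun i => S.sh (v i)) = fun i => T.sharp (v i) := funext fun i => hS _
        rw [e2, eval_map_alg]
        exact h1)
    (fun j => MvPolynomial.map (algebraMap K C) (g j)) a (fun j => MH_map _ (hg j))
    (fun i => MvPolynomial.map (algebraMap K C) (f i)) D (fun i => MH_map _ (hf i)) hD
    (fun y hy hyh hyg => by
      obtain ⟨i, hi⟩ := hbpf y (fun κ => ⟨by
        rw [hXg]
        intro l
        rw [← eval_map_alg]
        exact hyh κ l, fun h => by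
        obtain ⟨i, hi⟩ := hy κ
        exact hi (congrFun h i)⟩) (fun j => by rw [← eval_map_alg]; exact hyg j)
      exact ⟨i, by rw [eval_map_alg]; exact hi⟩) τ hτ1 hτ2 hτ3 Q dQ hQd
    (fun k y hy hyh hyg => by
      have h1 := hQ k y (fun κ => ⟨by
        rw [hXg]
        intro l
        rw [← eval_map_alg]
        exact hyh κ l, fun h => by
        obtain ⟨i, hi⟩ := hy κ
        exact hi (congrFun h i)⟩) (fun j => by rw [← eval_map_alg]; exact hyg j)
      rw [← h1]
      congr 2
      funext i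
      exact eval_map_alg _ _) ε hε
  refine ⟨I, hI, hI1, fun z hz hzI k => ?_⟩
  obtain ⟨i, hi⟩ := hI2 z hz hzI k
  refine ⟨i, ?_⟩
  have e2 : (fun i => S.sh (z i)) = fun i => T.sharp (z i) := funext fun i => hS _
  rw [e2, hS] at hi
  rw [← T.abs_sharp]
  exact hi

/-- Closed cones from homogeneous ideals. -/
theorem cone_of_homI {n : ℕ} {I : Ideal (MvPolynomial (Fin (n + 1)) F)} (hI : HomI I) :
    IsClosedCone {z : Fin (n + 1) → F | ∀ P ∈ I, eval z P = 0} := by
  refine ⟨⟨I, ?_⟩, ?_⟩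
  · ext z
    rw [mem_zeroLocus_iff]
    simp only [Set.mem_ofPred_eq, aeval_eq_eval]
  · intro b z hz P hP
    rw [← sum_homogeneousComponent P, map_sum]
    refine Finset.sum_eq_zero fun k _ => ?_
    have h1 := eval_smul_hom (homogeneousComponent_isHomogeneous k P) b z
    have h2 : (b • z) = fun i => b * z i := rfl
    rw [h2, h1, hz _ (hI P hP k), mul_zero]

/-- **Q1 for closed sets which contain the image of a complete intersection in a product.** -/
theorem image_q1 [IsAlgClosed C] [IsAlgClosed F] (T : Tilting p C F) (B : BaseField T K E)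
    (hE : IsCompletedClosure T.toTiltPair E)
    {r c n e : ℕ} {m δ : Fin r → ℕ} (X : ∀ κ, Set (Fin (m κ + 1) → C))
    (hX : ∀ κ, IsConeOver K (X κ) ∧ Approximable T.toTiltPair K E (X κ) (δ κ))
    (g : Fin c → MvPolynomial ((κ : Fin r) × Fin (m κ + 1)) K) (a : Fin c → Fin r → ℕ)
    (hg : ∀ j, MH (m := m) (g j) (a j))
    (f : Fin (n + 1) → MvPolynomial ((κ : Fin r) × Fin (m κ + 1)) K) (D : Fin r → ℕ)
    (hf : ∀ i, MH (m := m) (f i) D) (hD : D ≠ 0)
    (hbpf : ∀ y : (κ : Fin r) × Fin (m κ + 1) → C, InProd X y → (∀ j, aeval y (g j) = 0) →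
      ∃ i, aeval y (f i) ≠ 0)
    (τ : Fin c ⊕ Fin e → Fin r) (hτ1 : ∀ j, 0 < a j (τ (Sum.inl j)))
    (hτ2 : ∀ k, 0 < D (τ (Sum.inr k)))
    (hτ3 : ∀ κ, (Finset.univ.filter fun x => τ x = κ).card ≤ δ κ)
    {Z : Set (Fin (n + 1) → C)} (hZ : IsConeOver K Z) (hZe : DimLEOver K Z e)
    (hsub : ∀ y : (κ : Fin r) × Fin (m κ + 1) → C, InProd X y → (∀ j, aeval y (g j) = 0) →
      (fun i => aeval y (f i)) ∈ Z) :
    DimGE Z e ∧ Approximable T.toTiltPair K E Z e := by
  classical
  have hinfC : Infinite C := IsAlgClosed.instInfinite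
  -- `Z` is not empty
  have hne : Z.Nonempty := by
    by_contra hno
    rw [Set.not_nonempty_iff_eq_empty] at hno
    obtain ⟨I, -, hI1, hI2⟩ := exists_tube (K := K) (E := E) T X hX g a hg f D hf hD hbpf τ hτ1 hτ2
      hτ3 (fun i : Fin (n + 1) => (MvPolynomial.X i : MvPolynomial (Fin (n + 1)) C)) (fun _ => 1)
      (fun i => isHomogeneous_X C i) (fun k y hy hyg => by
        have h1 := hsub y hy hyg
        rw [hno] at h1
        exact absurd h1 (Set.notMem_empty _)) (1 / 2) (by norm_num)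
    obtain ⟨z, hz, hz0, -⟩ := hI1 (fun _ => 0) fun _ => ⟨1, one_pos, isHomogeneous_zero _ _ _⟩
    obtain ⟨b, hb, h1, t, ht⟩ := exists_normal T.toTiltPair hz0
    obtain ⟨i, hi⟩ := hI2 z hz0 hz t
    rw [eval_X, T.abs_sharp, pow_one] at hi
    have h2 := h1 i
    rw [map_mul] at h2 ht
    have h3 : 0 < T.absF b := T.absF.pos hb
    nlinarith
  have hZ0 : (0 : Fin (n + 1) → C) ∈ Z := by
    obtain ⟨y, hy⟩ := hne
    have := hZ.2 0 y hy
    rwa [zero_smul] at this
  have hle : DimLE Z e := by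
    obtain ⟨q, hq, hq0⟩ := hZe
    refine ⟨fun j => MvPolynomial.map (algebraMap K C) (q j), fun j => form_map (hq j),
      fun y hy hyq => ?_⟩
    exact hq0 y hy fun j => by
      rw [← eval_map_alg]
      exact hyq j
  have hq : Approximable T.toTiltPair K E Z e := by
    refine descends T B hE hZ hZe ?_
    have h2 : T.toTiltPair.Approximable Z e := by
      refine approximable_of_tubes T (cone_extend hZ) hne hle ?_
      intro κ' _ P DP hP hPZ ε hε
      obtain ⟨I, hI, hI1, hI2⟩ := exists_tube (K := K) (E := E) T X hX g a hg f D hf hD hbpf τ hτ1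
        hτ2 hτ3 P DP hP (fun k y hy hyg => hPZ k _ (hsub y hy hyg)) ε hε
      refine ⟨_, cone_of_homI hI, hI1, fun y hy k B' hB' => ?_⟩
      have hB0 : 0 ≤ B' := (T.absF.nonneg _).trans (hB' 0)
      by_cases hy0 : y = 0
      · have h3 : (fun i => T.sharp (y i)) = 0 := by
          funext i
          rw [hy0, Pi.zero_apply, T.sharp_zero, Pi.zero_apply]
        rw [h3, hPZ k 0 hZ0, map_zero]
        positivity
      · obtain ⟨i, hi⟩ := hI2 y hy0 hy k
        refine hi.trans (mul_le_mul_of_nonneg_left ?_ hε.le)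
        exact pow_le_pow_left₀ (T.absF.nonneg _) (hB' i) _
    intro r' P DP hP hPX ε hε
    obtain ⟨Y, hY, hY1, hY2, hY3⟩ := h2 r' P DP hP (fun k x hx => by
      rw [← aeval_eq_eval]
      exact hPX k x hx) ε hε
    refine ⟨Y, hY, hY1, hY2, fun y hy k B hB => ?_⟩
    rw [aeval_eq_eval]
    exact hY3 y hy k B hB
  refine ⟨?_, hq⟩
  obtain ⟨s, gZ, hgZ, hZg⟩ := exists_gens hZ hne
  have h3 := dimGE_of_small T (small_of_approximable T.toTiltPair gZ hgZ hZg hq)
  rw [hZg]
  exact h3

end Run7.h458.MP
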