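import Pool.Agent.Run7.h458.MPCore
set_option autoImplicit false
set_option linter.unusedSectionVars false

/-!
# Approximation of images for an abstract sharp map
-/

namespace Run7.h458.MP

open MvPolynomial Pool.Agent.W476.TP
open Pool.Agent.Y129.TA (DimGE IsForm)

theorem rename_inr_hom {K : Type} [Field K] {r n : ℕ} {m : Fin r → ℕ} {q : MvPolynomial (Fin (n + 1)) K}
    {k : ℕ} (hq : q.IsHomogeneous k) (D : Fin r → ℕ) :
    IsWeightedHomogeneous (wt2 m D n) (rename Sum.inr q : MvPolynomial (Sig m ⊕ Fin (n + 1)) K)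
      (k • D) := by
  classical
  have h0 : q = ∑ α ∈ q.support, monomial α (q.coeff α) := (support_sum_monomial_coeff q).symm
  rw [h0, map_sum]
  refine IsWeightedHomogeneous.sum _ _ _ fun α hα => ?_
  rw [rename_monomial]
  refine isWeightedHomogeneous_monomial _ _ _ ?_
  have h1 : ∑ i, α i = k := by
    have := hq (mem_support_iff.1 hα)
    rw [← this, Finsupp.weight_apply, Finsupp.sum_fintype _ _ (fun i => by simp)]
    simp
  rw [Finsupp.weight_apply, Finsupp.sum_mapDomain_index]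
  · rw [Finsupp.sum_fintype _ _ (fun i => by exact zero_smul ℕ _)]
    rw [← h1]
    change ∑ i, α i • D = (∑ i, α i) • D
    rw [Finset.sum_smul]
  · intro b; exact zero_smul _ _
  · intro b u v; exact add_smul _ _ _

theorem exists_image {p : ℕ} [Fact p.Prime] {C L : Type} [NormedField C] [IsUltrametricDist C]
    [IsAlgClosed C] [Field L] [CharP L p] [IsAlgClosed L] (S : Sharp p C L)
    (hp0 : 0 < ‖(p : C)‖) (hp1 : ‖(p : C)‖ < 1)
    {r c n e : ℕ} (m δ : Fin r → ℕ) {s : Fin r → ℕ}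
    (h : ∀ κ, Fin (s κ) → MvPolynomial (Fin (m κ + 1)) C)
    (hX : ∀ κ, ∀ ε : ℝ, 0 < ε → ∃ (s' : ℕ) (q : Fin s' → MvPolynomial (Fin (m κ + 1)) L)
      (b : Fin s' → ℕ), (∀ l, (q l).IsHomogeneous (b l)) ∧
        DimGE {v : Fin (m κ + 1) → L | ∀ l, eval v (q l) = 0} (δ κ) ∧
        ∀ v : Fin (m κ + 1) → L, (∀ l, eval v (q l) = 0) → (∀ i, ‖S.sh (v i)‖ ≤ 1) →
          ∀ l, ‖eval (fun i => S.sh (v i)) (h κ l)‖ ≤ ε)
    (g : Fin c → MvPolynomial (Sig m) C)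
    (a : Fin c → Fin r → ℕ) (hg : ∀ j, MH (g j) (a j))
    (f : Fin (n + 1) → MvPolynomial (Sig m) C) (D : Fin r → ℕ) (hf : ∀ i, MH (f i) D)
    (hD : D ≠ 0)
    (hbpf : ∀ y : Sig m → C, Rel y → (∀ κ l, eval (fun i => y ⟨κ, i⟩) (h κ l) = 0) →
      (∀ j, eval y (g j) = 0) → ∃ i, eval y (f i) ≠ 0)
    (τ : Fin c ⊕ Fin e → Fin r) (hτ1 : ∀ j, 0 < a j (τ (Sum.inl j)))
    (hτ2 : ∀ k, 0 < D (τ (Sum.inr k)))
    (hτ3 : ∀ κ, (Finset.univ.filter fun x => τ x = κ).card ≤ δ κ)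
    {ι : Type} [Finite ι] (Q : ι → MvPolynomial (Fin (n + 1)) C) (dQ : ι → ℕ)
    (hQd : ∀ k, (Q k).IsHomogeneous (dQ k))
    (hQ : ∀ k, ∀ y : Sig m → C, Rel y → (∀ κ l, eval (fun i => y ⟨κ, i⟩) (h κ l) = 0) →
      (∀ j, eval y (g j) = 0) → eval (fun i => eval y (f i)) (Q k) = 0)
    (ε : ℝ) (hε : 0 < ε) :
    ∃ I : Ideal (MvPolynomial (Fin (n + 1)) L), HomI I ∧
      DimGE {z : Fin (n + 1) → L | ∀ P ∈ I, eval z P = 0} e ∧
      ∀ z : Fin (n + 1) → L, z ≠ 0 → (∀ P ∈ I, eval z P = 0) → ∀ k,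
        ∃ i, ‖eval (fun i => S.sh (z i)) (Q k)‖ ≤ ε * ‖S.sh (z i)‖ ^ dQ k := by
  classical
  have hpC : (p : C) ≠ 0 := norm_pos_iff.1 hp0
  -- scaling
  obtain ⟨u, hu0, hu⟩ := exists_scale hpC hp1 (Sum.elim g f)
  set g' : Fin c → MvPolynomial (Sig m) C := fun j => MvPolynomial.C u * g j with hg'
  set f' : Fin (n + 1) → MvPolynomial (Sig m) C := fun i => MvPolynomial.C u * f i with hf'
  have hg'h : ∀ j, MH (g' j) (a j) := fun j => MH_C_mul (hg j) u
  have hf'h : ∀ i, MH (f' i) D := fun i => MH_C_mul (hf i) u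
  have hg'1 : ∀ j α, ‖(g' j).coeff α‖ ≤ 1 := by
    intro j α
    rw [hg']
    simp only [coeff_C_mul]
    exact hu (Sum.inl j) α
  have hf'1 : ∀ i α, ‖(f' i).coeff α‖ ≤ 1 := by
    intro i α
    rw [hf']
    simp only [coeff_C_mul]
    exact hu (Sum.inr i) α
  have hg'0 : ∀ y : Sig m → C, (∀ j, eval y (g' j) = 0) → ∀ j, eval y (g j) = 0 := by
    intro y hy j
    have h1 := hy j
    rw [hg'] at h1
    simp only [map_mul, eval_C] at h1
    exact (mul_eq_zero.1 h1).resolve_left hu0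
  obtain ⟨δ1, hδ1, hδ1', hcore0⟩ := core S hp0 hp1 m h g' a hg'h hg'1 f' D hf'h hf'1 hD
    (fun y hy hyh hyg => by
      obtain ⟨i, hi⟩ := hbpf y hy hyh (hg'0 y hyg)
      refine ⟨i, ?_⟩
      rw [hf']
      simp only [map_mul, eval_C]
      exact mul_ne_zero hu0 hi) Q
    (fun k y hy hyh hyg => by
      have h1 : (fun i => eval y (f' i)) = fun i => u * eval y (f i) := by
        funext i
        rw [hf']
        simp only [map_mul, eval_C]
      rw [h1, eval_smul_hom (hQd k), hQ k y hy hyh (hg'0 y hyg), mul_zero])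
  obtain ⟨B, hB⟩ : ∃ B : ℕ, ∀ k, dQ k ≤ B := by
    cases nonempty_fintype ι
    exact ⟨Finset.univ.sup dQ, fun k => Finset.le_sup (Finset.mem_univ k)⟩
  obtain ⟨N, H, sH, G, t, -, hH, hG, hcore⟩ := hcore0 (ε * δ1 ^ B) 1 (by positivity) one_pos
  -- the approximations of the factors
  choose s' q b hqb hqd hqs using fun κ => hX κ (‖(p : C)‖ ^ N) (pow_pos hp0 _)
  have hYlam : ∀ y : Sig m → L, (∀ κ l, eval (fun i => y ⟨κ, i⟩) (q κ l) = 0) →
      ∀ lam : Fin r → L, (∀ i, ‖S.sh (scl lam y i)‖ ≤ 1) → ∀ κ l,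
        ‖eval (fun i => S.sh (scl lam y ⟨κ, i⟩)) (h κ l)‖ ≤ ‖(p : C)‖ ^ N := by
    intro y hy lam hlam κ l
    refine hqs κ (fun i => scl lam y ⟨κ, i⟩) (fun l' => ?_) (fun i => hlam _) l
    have h1 : (fun i => scl lam y ⟨κ, i⟩) = fun i => lam κ * y ⟨κ, i⟩ := rfl
    rw [h1, eval_smul_hom (hqb κ l'), hy κ l', mul_zero]
  have hz0 : ∀ y : Sig m → L, Rel y → (∀ j, eval y (H j) = 0) →
      (∀ κ l, eval (fun i => y ⟨κ, i⟩) (q κ l) = 0) → ∃ i, ev (G i) y 0 ≠ 0 := by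
    intro y hy hy2 hy3
    by_contra hcon
    push Not at hcon
    obtain ⟨b, _, _, ⟨i, hi⟩, _⟩ := hcore y (fun _ => 0) hy hy2 hcon (hYlam y hy3)
    rw [mul_zero, map_zero, norm_zero] at hi
    exact absurd hi (not_le.2 hδ1)
  -- the ideal of the image
  let J0 : Type := Fin c ⊕ ((κ : Fin r) × Fin (s' κ))
  let H0 : J0 → MvPolynomial (Sig m) L := Sum.elim H fun x => grp m x.1 (q x.1 x.2)
  let b0 : J0 → Fin r → ℕ := Sum.elim (fun j => p ^ sH j • a j) fun x => Pi.single x.1 (b x.1 x.2)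
  have hH0 : ∀ j, MH (H0 j) (b0 j) := by
    rintro (j | x)
    · exact hH j
    · exact grp_hom m x.1 (hqb x.1 x.2)
  let eJ := Fintype.equivFin J0
  have hH0v : ∀ y : Sig m → L, (∀ j, eval y (H0 (eJ.symm j)) = 0) ↔
      (∀ j, eval y (H j) = 0) ∧ ∀ κ l, eval (fun i => y ⟨κ, i⟩) (q κ l) = 0 := by
    intro y
    constructor
    · intro hy
      have hy' : ∀ x, eval y (H0 x) = 0 := fun x => by
        have := hy (eJ x)
        rwa [Equiv.symm_apply_apply] at this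
      refine ⟨fun j => hy' (Sum.inl j), fun κ l => ?_⟩
      have h1 := hy' (Sum.inr ⟨κ, l⟩)
      rwa [show H0 (Sum.inr ⟨κ, l⟩) = grp m κ (q κ l) from rfl, eval_grp] at h1
    · rintro ⟨h1, h2⟩ j
      rcases eJ.symm j with j | x
      · exact h1 j
      · rw [show H0 (Sum.inr x) = grp m x.1 (q x.1 x.2) from rfl, eval_grp]
        exact h2 x.1 x.2
  obtain ⟨I, hI, hI2⟩ := Pool.Agent.W356.TP.t_CLO t_NST L m D hD G t hG
    (fun j => H0 (eJ.symm j)) (fun j => b0 (eJ.symm j)) (fun j => hH0 _)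
    (fun y hy hy2 => hz0 y hy ((hH0v y).1 hy2).1 ((hH0v y).1 hy2).2)
  have hI3 : ∀ z : Fin (n + 1) → L, z ≠ 0 → ((∀ P ∈ I, eval z P = 0) ↔
      ∃ y : Sig m → L, Rel y ∧ ((∀ j, eval y (H j) = 0) ∧
        ∀ κ l, eval (fun i => y ⟨κ, i⟩) (q κ l) = 0) ∧ ∀ i, ev (G i) y (z i) = 0) := by
    intro z hz
    rw [hI2 z hz]
    constructor
    · rintro ⟨y, h1, h2, h3⟩
      exact ⟨y, h1, (hH0v y).1 h2, h3⟩
    · rintro ⟨y, h1, h2, h3⟩
      exact ⟨y, h1, (hH0v y).2 h2, h3⟩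
  refine ⟨I, hI, ?_, ?_⟩
  · -- the dimension
    intro w hw
    choose k hk0 hk using hw
    obtain ⟨y, z, hy, hyG, hyF, hyq⟩ := exc m D hD G t hG q b hqb δ hqd (J := Fin c ⊕ Fin e)
      (Sum.elim (fun j => rename Sum.inl (H j)) (fun l => rename Sum.inr (w l)))
      (Sum.elim (fun j => p ^ sH j • a j) (fun l => k l • D)) (by
        rintro (j | l)
        · exact rename_hom (hH j) D n
        · exact rename_inr_hom (hk l) D) τ (by
        rintro (j | l)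
        · simp only [Sum.elim_inl, Pi.smul_apply, smul_eq_mul]
          exact Nat.mul_pos (pow_pos (Fact.out : p.Prime).pos _) (hτ1 j)
        · simp only [Sum.elim_inr, Pi.smul_apply, smul_eq_mul]
          exact Nat.mul_pos (hk0 l) (hτ2 l)) hτ3
    have hyH : ∀ j, eval y (H j) = 0 := by
      intro j
      have := hyF (Sum.inl j)
      rw [Sum.elim_inl, eval_rename, Sum.elim_comp_inl] at this
      exact this
    have hz : z ≠ 0 := by
      intro hz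
      obtain ⟨i, hi⟩ := hz0 y hy hyH hyq
      apply hi
      have := hyG i
      rwa [hz] at this
    refine ⟨z, (hI3 z hz).2 ⟨y, hy, ⟨hyH, hyq⟩, hyG⟩, hz, fun l => ?_⟩
    have := hyF (Sum.inr l)
    rw [Sum.elim_inr, eval_rename, Sum.elim_comp_inr] at this
    exact this
  · intro z hz hzI k
    obtain ⟨y, hy, ⟨hyH, hyq⟩, hyG⟩ := (hI3 z hz).1 hzI
    obtain ⟨b, hb, _, ⟨i, hi⟩, h2⟩ := hcore y z hy hyH hyG (hYlam y hyq)
    exact ⟨i, close_hom S (hQd k) (hB k) hε hδ1 hδ1' hb (h2 k) hi⟩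

end Run7.h458.MP
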