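import Pool.Agent.Run7.h458.MPMain
import Pool.Agent.Run7.h458.BaseChange
set_option autoImplicit false
set_option linter.unusedSectionVars false

/-!
# Images of complete intersections in products over algebraically closed perfectoid fields
-/

namespace Run7.h458.MP

open MvPolynomial Pool.Agent.W476.TP Pool.Agent.Y129.TA

/-- The sharp map of a tilting. -/
theorem exists_sharp {p : ℕ} [Fact p.Prime] {C F : Type} [NormedField C] [Field F] [CharP F p]
    [IsAlgClosed F] (T : Tilting p C F) (hT : ∀ x, T.absK x = ‖x‖) :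
    ∃ S : Sharp p C F, ∀ x, S.sh x = T.sharp x := by
  have hle : ∀ u v : F, T.absF v ≤ T.absF u →
      T.absK (T.sharp (u + v) - (T.sharp u + T.sharp v)) ≤ T.absK p * T.absF u := by
    intro u v huv
    have hpp : 0 ≤ T.absK (p : C) := T.absK.nonneg _
    by_cases hu : u = 0
    · have hv : v = 0 := by
        rw [hu, T.absF.map_zero] at huv
        exact T.absF.eq_zero.1 (le_antisymm huv (T.absF.nonneg _))
      rw [hu, hv, add_zero, T.sharp_zero, add_zero, sub_zero, T.absK.map_zero]
      exact mul_nonneg hpp (T.absF.nonneg _)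
    have hu0 : 0 < T.absF u := T.absF.pos hu
    have hx : T.absF (v / u) ≤ 1 := by
      rw [map_div₀]
      exact div_le_one_of_le₀ huv hu0.le
    have h1x : T.absF (1 + v / u) ≤ 1 := (T.ultraF _ _).trans (max_le (by rw [map_one]) hx)
    let x' : T.O := ⟨v / u, hx⟩
    let y' : T.O := ⟨1 + v / u, h1x⟩
    let z : WittVector p T.O := WittVector.teichmuller p y' - (1 + WittVector.teichmuller p x')
    have h1 : T.θ z = T.sharp (1 + v / u) - (1 + T.sharp (v / u)) := by
      rw [map_sub, map_add, map_one, T.θ_teich, T.θ_teich]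
    have h2 : z.coeff 0 = 0 := by
      have h3 : WittVector.constantCoeff z = WittVector.constantCoeff (WittVector.teichmuller p y') -
          (1 + WittVector.constantCoeff (WittVector.teichmuller p x')) := by
        rw [map_sub, map_add, map_one]
      rw [WittVector.constantCoeff_apply, WittVector.constantCoeff_apply,
        WittVector.constantCoeff_apply, WittVector.teichmuller_coeff_zero,
        WittVector.teichmuller_coeff_zero] at h3
      rw [h3]
      exact Subtype.ext (sub_self _)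
    have h3 := Tilting.abs_θ_le T z
    rw [h1, h2] at h3
    have h4 : T.absK (T.sharp (1 + v / u) - (1 + T.sharp (v / u))) ≤ T.absK p := by
      refine h3.trans (max_le ?_ le_rfl)
      change T.absF ((0 : T.O) : F) ≤ T.absK p
      rw [ZeroMemClass.coe_zero, T.absF.map_zero]
      exact hpp
    have h5 : T.sharp (u + v) - (T.sharp u + T.sharp v) =
        T.sharp u * (T.sharp (1 + v / u) - (1 + T.sharp (v / u))) := by
      rw [mul_sub, mul_add, mul_one, ← map_mul, ← map_mul, mul_add, mul_one,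
        mul_div_cancel₀ _ hu]
    rw [h5, map_mul, T.abs_sharp, mul_comm]
    exact mul_le_mul_of_nonneg_right h4 hu0.le
  refine ⟨{ sh := { toFun := T.sharp, map_zero' := T.sharp_zero, map_one' := map_one _,
                    map_mul' := map_mul _ }
            surj := T.surj
            add := ?_ }, fun _ => rfl⟩
  intro u v
  change ‖T.sharp (u + v) - (T.sharp u + T.sharp v)‖ ≤ ‖(p : C)‖ * max ‖T.sharp u‖ ‖T.sharp v‖
  rw [← hT, ← hT, ← hT, ← hT, T.abs_sharp, T.abs_sharp]
  rcases le_total (T.absF v) (T.absF u) with h | h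
  · rw [max_eq_left h]
    exact hle u v h
  · rw [max_eq_right h, add_comm u v, add_comm (T.sharp u)]
    exact hle v u h

/-- Q1 from closed sets of large dimension in the tubes. -/
theorem approximable_of_tubes {p : ℕ} [Fact p.Prime] {K F : Type} [Field K] [IsAlgClosed K]
    [Field F] [IsAlgClosed F] [CharP F p] (T : Tilting p K F) {σ : Type} [Fintype σ] {d : ℕ}
    {Z : Set (σ → K)} (hZ : IsClosedCone Z) (hne : Z.Nonempty) (h2 : DimLE Z d)
    (H : ∀ (κ : Type) [Finite κ] (P : κ → MvPolynomial σ K) (D : κ → ℕ),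
      (∀ k, (P k).IsHomogeneous (D k)) → (∀ k, ∀ x ∈ Z, eval x (P k) = 0) → ∀ ε : ℝ, 0 < ε →
        ∃ Y : Set (σ → F), IsClosedCone Y ∧ DimGE Y d ∧ ∀ y ∈ Y, ∀ k, T.InTube (P k) (D k) ε y) :
    T.toTiltPair.Approximable Z d := by
  classical
  have hinf : Infinite K := IsAlgClosed.instInfinite
  obtain ⟨s, g, hg, hZg⟩ := Pool.Agent.R388.TP.exists_gens (k := K) (L := K) hZ hne
  have hZg' : ∀ w, w ∈ Z ↔ ∀ l, eval w (g l) = 0 := by
    intro w
    rw [hZg]
    simp only [Set.mem_ofPred_eq, aeval_eq_eval]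
  obtain ⟨q, hq, hq0⟩ := id h2
  let G : Fin s ⊕ Fin (d + 1) → MvPolynomial σ K := Sum.elim g q
  have s1 : ∀ t : σ, ∃ δ : ℝ, 0 < δ ∧ ∀ v : σ → K, (∀ i, T.absK (v i) ≤ 1) →
      (∀ k, T.absK (eval v (G k)) ≤ δ) → T.absK (eval v (X t)) ≤ 1 / 2 := by
    intro t
    refine small T.ultraK _ _ (fun v hv => ?_) (by norm_num)
    have h3 := hq0 v ((hZg' v).2 fun l => hv (Sum.inl l)) fun j => hv (Sum.inr j)
    rw [eval_X, h3]
    rfl
  choose δ₁ hδ₁ hs1 using s1
  obtain ⟨δ, hδ, hδ'⟩ := exists_pos_le δ₁ hδ₁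
  have a2 : ∀ j : Fin (d + 1), ∃ D, 0 < D ∧ ∃ g : MvPolynomial σ F, g.IsHomogeneous D ∧
      ∀ t : σ → F, (∀ i, T.absF (t i) ≤ 1) → eval t g = 0 →
        T.absK (eval (fun i => T.sharp (t i)) (q j)) ≤ δ := by
    intro j
    obtain ⟨D, hD, hD'⟩ := hq j
    exact Pool.Agent.Y129.TA.approx T hD hD' hδ
  choose Dg hDg u hu hua using a2
  choose D hD hgD using hg
  intro r P DP hPD hPX ε hε
  obtain ⟨Y, hY, hY1, hYt⟩ := H (Fin r ⊕ Fin s) (Sum.elim P g) (Sum.elim DP D)
    (by rintro (k | l); exacts [hPD k, hgD l])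
    (by rintro (k | l) x hx; exacts [hPX k x hx, (hZg' x).1 hx l]) (min ε δ) (lt_min hε hδ)
  refine ⟨Y, hY, hY1, ?_, ?_⟩
  · refine ⟨u, fun j => ⟨Dg j, hDg j, hu j⟩, ?_⟩
    intro y hy hy2
    by_contra hy0
    obtain ⟨a, ha', h3, t, h4⟩ := exists_normal T.toTiltPair hy0
    have h5 := hs1 t (fun t => T.sharp (a * y t)) (fun i => by rw [T.abs_sharp]; exact h3 i) (by
      rintro (l | j)
      · have h4 := hYt (a • y) (hY.2 a y hy) (Sum.inr l) 1 h3
        simp only [Sum.elim_inr, one_pow, mul_one] at h4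
        exact h4.trans ((min_le_right _ _).trans (hδ' t))
      · refine (hua j (fun i => a * y i) h3 ?_).trans (hδ' t)
        rw [eval_smul_of_homogeneous (hu j), hy2 j, mul_zero])
    rw [eval_X, T.abs_sharp, h4] at h5
    norm_num at h5
  · intro y hy k B hB
    have hne' : Nonempty σ := by
      by_contra h
      rw [not_nonempty_iff] at h
      obtain ⟨w, -, hw0, -⟩ := hY1 (fun _ => 0) fun _ => ⟨1, one_pos, isHomogeneous_zero _ _ _⟩
      exact hw0 (funext fun t => h.elim t)
    have hB0 : 0 ≤ B := (T.absF.nonneg _).trans (hB (Classical.arbitrary _))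
    exact (hYt y hy (Sum.inl k) B hB).trans
      (mul_le_mul_of_nonneg_right (min_le_left _ _) (pow_nonneg hB0 _))

end Run7.h458.MP
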