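import Pool.Agent.Run7.h458.Linear
set_option autoImplicit false
set_option linter.unusedSectionVars false

/-!
# Approximation of monic polynomials
-/

open Pool.Agent.Y129.TA

namespace Run7.h458

variable {p : ℕ} [hp : Fact p.Prime] {K F : Type} [Field K] [Field F] [CharP F p] [IsAlgClosed F]

/-- The value of a polynomial with coefficients in a polynomial ring. -/
noncomputable def val₂ {R τ : Type} [CommRing R] (h : Polynomial (MvPolynomial τ R)) (u : τ → R) (w : R) : R :=
  (h.map (MvPolynomial.eval u)).eval w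

theorem val₂_eq {R τ : Type} [CommRing R] (h : Polynomial (MvPolynomial τ R)) (u : τ → R) (w : R) :
    val₂ h u w = h.eval₂ (MvPolynomial.eval u) w := by
  rw [val₂, Polynomial.eval_map]

/-- The index set of the monomials. -/
noncomputable def mons {R τ : Type} [CommRing R] (h : Polynomial (MvPolynomial τ R)) :
    Finset (Σ _ : ℕ, τ →₀ ℕ) :=
  h.support.sigma fun i => (h.coeff i).support

theorem val₂_sum {R τ : Type} [CommRing R] (h : Polynomial (MvPolynomial τ R)) (u : τ → R) (w : R) :
    val₂ h u w = ∑ a ∈ mons h, MvPolynomial.eval u (MvPolynomial.monomial a.2 ((h.coeff a.1).coeff a.2)) * w ^ a.1 := by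
  rw [val₂_eq, Polynomial.eval₂_eq_sum, Polynomial.sum_def, mons, Finset.sum_sigma]
  refine Finset.sum_congr rfl fun i _ => ?_
  change _ = ∑ s ∈ (h.coeff i).support,
    MvPolynomial.eval u (MvPolynomial.monomial s (MvPolynomial.coeff s (h.coeff i))) * w ^ i
  rw [← Finset.sum_mul]
  congr 1
  conv_lhs => rw [← MvPolynomial.support_sum_monomial_coeff (h.coeff i), map_sum]

theorem exists_lift (T : Tilting p K F) : ∃ lf : K → F, (∀ x, T.sharp (lf x) = x) ∧ lf 1 = 1 := by
  classical
  choose lf hlf using T.surj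
  refine ⟨fun x => if x = 1 then 1 else lf x, fun x => ?_, if_pos rfl⟩
  by_cases hx : x = 1
  · simp only [hx, if_true, map_one]
  · simp only [if_neg hx]
    exact hlf x

theorem sharp_eval_monomial {τ : Type} (T : Tilting p K F) (u : τ → F) (α : τ →₀ ℕ) (b : F) :
    T.sharp (MvPolynomial.eval u (MvPolynomial.monomial α b)) =
      MvPolynomial.eval (fun i => T.sharp (u i)) (MvPolynomial.monomial α (T.sharp b)) := by
  rw [MvPolynomial.eval_monomial, MvPolynomial.eval_monomial, map_mul, Finsupp.prod, Finsupp.prod, map_prod]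
  congr 1
  exact Finset.prod_congr rfl fun i _ => map_pow _ _ _

/-- The approximation of a monic polynomial. -/
theorem approx_poly {τ : Type} (T : Tilting p K F) {h : Polynomial (MvPolynomial τ K)} (hm : h.Monic)
    (c : ℕ) : ∃ (M : ℕ) (g : Polynomial (MvPolynomial τ F)), 0 < M ∧ g.Monic ∧ g.natDegree = h.natDegree * p ^ M ∧
      Polynomial.derivative g = 0 ∧ ∀ (u : τ → F) (w : F) (Λ : ℝ),
        (∀ a ∈ mons h, T.absK (MvPolynomial.eval (fun i => T.sharp (u i))
          (MvPolynomial.monomial a.2 ((h.coeff a.1).coeff a.2)) * T.sharp w ^ a.1) ≤ Λ) →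
        T.absF (val₂ g u w) ≤ (max (T.absK (val₂ h (fun i => T.sharp (u i)) (T.sharp w)))
          (T.absK p ^ c * Λ)) ^ p ^ M ∧
        (T.absK p ^ c * Λ < T.absK (val₂ h (fun i => T.sharp (u i)) (T.sharp w)) →
          T.absF (val₂ g u w) = T.absK (val₂ h (fun i => T.sharp (u i)) (T.sharp w)) ^ p ^ M) := by
  classical
  have hcp : CharP (MvPolynomial τ F) p := inferInstance
  have hcp2 : CharP (Polynomial (MvPolynomial τ F)) p := inferInstance
  obtain ⟨lf, hlf, hlf1⟩ := exists_lift T
  obtain ⟨M, gL, hgL, hgL1, hgL2⟩ := exists_linear_approx T (mons h) c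
  let t : mons h → Polynomial (MvPolynomial τ F) := fun a =>
    Polynomial.C (MvPolynomial.monomial a.1.2 (lf ((h.coeff a.1.1).coeff a.1.2))) * Polynomial.X ^ a.1.1
  let g₀ : Polynomial (MvPolynomial τ F) :=
    MvPolynomial.eval₂ (Polynomial.C.comp MvPolynomial.C) t gL
  have hval0 : ∀ (u : τ → F) (w : F), val₂ g₀ u w =
      MvPolynomial.eval (fun a => MvPolynomial.eval u (MvPolynomial.monomial a.1.2
        (lf ((h.coeff a.1.1).coeff a.1.2))) * w ^ a.1.1) gL := by
    intro u w
    rw [val₂_eq]
    change Polynomial.eval₂RingHom (MvPolynomial.eval u) w (MvPolynomial.eval₂ _ t gL) = _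
    rw [MvPolynomial.hom_eval₂, MvPolynomial.eval]
    change MvPolynomial.eval₂ _ _ gL = MvPolynomial.eval₂ _ _ gL
    congr 1
    · ext x
      simp
    · funext a
      simp [t]
  have hsum : ∀ (u : τ → F) (w : F), ∑ a : mons h, T.sharp (MvPolynomial.eval u (MvPolynomial.monomial a.1.2
      (lf ((h.coeff a.1.1).coeff a.1.2))) * w ^ a.1.1) = val₂ h (fun i => T.sharp (u i)) (T.sharp w) := by
    intro u w
    rw [val₂_sum, ← Finset.sum_coe_sort (mons h)]
    refine Finset.sum_congr rfl fun a _ => ?_
    rw [map_mul, map_pow, sharp_eval_monomial, hlf]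
  -- the degree
  have hdeg : h.natDegree ∈ h.support ∧ h.coeff h.natDegree = 1 := by
    have h1 : h.coeff h.natDegree = 1 := hm
    exact ⟨Polynomial.mem_support_iff.2 (by rw [h1]; exact one_ne_zero), h1⟩
  have hstar : (⟨h.natDegree, 0⟩ : Σ _ : ℕ, τ →₀ ℕ) ∈ mons h := by
    rw [mons, Finset.mem_sigma]
    refine ⟨hdeg.1, ?_⟩
    rw [hdeg.2, MvPolynomial.mem_support_iff, MvPolynomial.coeff_zero_one]
    exact one_ne_zero
  let s : mons h := ⟨⟨h.natDegree, 0⟩, hstar⟩
  have hts : t s = Polynomial.X ^ h.natDegree := by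
    simp only [t, s, hdeg.2, MvPolynomial.coeff_zero_one, hlf1]
    change Polynomial.C (1 : MvPolynomial τ F) * _ = _
    rw [Polynomial.C_1, one_mul]
  have hlt : ∀ a : mons h, a ≠ s → a.1.1 < h.natDegree := by
    intro a ha
    have h1 := Finset.mem_sigma.1 a.2
    have h2 := Polynomial.le_natDegree_of_mem_supp _ h1.1
    refine lt_of_le_of_ne h2 fun heq => ha ?_
    have h3 : a.1.2 ∈ (h.coeff h.natDegree).support := heq ▸ h1.2
    rw [hdeg.2, MvPolynomial.mem_support_iff, MvPolynomial.coeff_one] at h3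
    have h4 : 0 = a.1.2 := by
      by_contra h5
      rw [if_neg h5] at h3
      exact h3 rfl
    refine Subtype.ext (Sigma.ext heq (heq_of_eq h4.symm))
  have hle : ∀ a : mons h, a.1.1 ≤ h.natDegree := fun a => by
    by_cases ha : a = s
    · rw [ha]
    · exact (hlt a ha).le
  have hcoef : MvPolynomial.coeff (Finsupp.single s (p ^ M)) gL = 1 := by
    have h1 := hgL1 s
    rw [MvPolynomial.eval_eq'] at h1
    rw [Finset.sum_eq_single (Finsupp.single s (p ^ M))] at h1
    · rw [Finset.prod_eq_one, mul_one] at h1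
      · exact h1
      · intro a _
        by_cases ha : a = s
        · rw [ha, Pi.single_eq_same, one_pow]
        · rw [Finsupp.single_eq_of_ne ha, pow_zero]
    · intro β hβ hne
      have h2 := sum_of_homogeneous hgL hβ
      obtain ⟨a, ha, haβ⟩ : ∃ a, a ≠ s ∧ β a ≠ 0 := by
        by_contra hno
        push Not at hno
        apply hne
        ext a
        by_cases ha : a = s
        · rw [ha, Finsupp.single_eq_same, ← h2, Finset.sum_eq_single s]
          · intro b _ hb
            exact hno b hb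
          · intro hs
            exact absurd (Finset.mem_univ s) hs
        · rw [Finsupp.single_eq_of_ne ha]
          exact hno a ha
      rw [Finset.prod_eq_zero (Finset.mem_univ a), mul_zero]
      rw [Pi.single_eq_of_ne ha, zero_pow haβ]
    · intro hs
      rw [MvPolynomial.notMem_support_iff.1 hs, zero_mul]
  have hterm : ∀ β ∈ gL.support, β ≠ Finsupp.single s (p ^ M) →
      (Polynomial.C (MvPolynomial.C (MvPolynomial.coeff β gL)) * ∏ a, t a ^ β a).degree <
        ((h.natDegree * p ^ M : ℕ) : WithBot ℕ) := by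
    intro β hβ hne
    have h2 := sum_of_homogeneous hgL hβ
    obtain ⟨a, ha, haβ⟩ : ∃ a, a ≠ s ∧ β a ≠ 0 := by
      by_contra hno
      push Not at hno
      apply hne
      ext a
      by_cases ha : a = s
      · rw [ha, Finsupp.single_eq_same, ← h2, Finset.sum_eq_single s]
        · intro b _ hb
          exact hno b hb
        · intro hs
          exact absurd (Finset.mem_univ s) hs
      · rw [Finsupp.single_eq_of_ne ha]
        exact hno a ha
    have h3 : (Polynomial.C (MvPolynomial.C (MvPolynomial.coeff β gL)) * ∏ a, t a ^ β a).natDegree ≤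
        ∑ a : mons h, β a * a.1.1 := by
      refine (Polynomial.natDegree_C_mul_le _ _).trans ((Polynomial.natDegree_prod_le _ _).trans ?_)
      refine Finset.sum_le_sum fun a _ => ?_
      refine Polynomial.natDegree_pow_le.trans (Nat.mul_le_mul_left _ ?_)
      exact Polynomial.natDegree_C_mul_X_pow_le _ _
    have h4 : ∑ a : mons h, β a * a.1.1 < h.natDegree * p ^ M := by
      rw [← h2, Finset.mul_sum]
      refine Finset.sum_lt_sum (fun a _ => ?_) ⟨a, Finset.mem_univ a, ?_⟩
      · rw [mul_comm]
        exact Nat.mul_le_mul_right _ (hle a)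
      · rw [mul_comm]
        exact Nat.mul_lt_mul_of_pos_right (hlt a ha) (Nat.pos_of_ne_zero haβ)
    refine Polynomial.degree_le_natDegree.trans_lt ?_
    exact_mod_cast h3.trans_lt h4
  have hg₀ : g₀ = Polynomial.X ^ (h.natDegree * p ^ M) +
      ∑ β ∈ gL.support.erase (Finsupp.single s (p ^ M)),
        Polynomial.C (MvPolynomial.C (MvPolynomial.coeff β gL)) * ∏ a, t a ^ β a := by
    have h1 : Finsupp.single s (p ^ M) ∈ gL.support := by
      rw [MvPolynomial.mem_support_iff, hcoef]
      exact one_ne_zero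
    have h2 : g₀ = ∑ β ∈ gL.support, Polynomial.C (MvPolynomial.C (MvPolynomial.coeff β gL)) * ∏ a, t a ^ β a := by
      change MvPolynomial.eval₂ _ t gL = _
      rw [MvPolynomial.eval₂_eq']
      rfl
    rw [h2, ← Finset.add_sum_erase _ _ h1]
    congr 1
    rw [hcoef, map_one, Polynomial.C_1, one_mul, Finset.prod_eq_single s]
    · rw [hts, Finsupp.single_eq_same, ← pow_mul]
    · intro a _ ha
      rw [Finsupp.single_eq_of_ne ha, pow_zero]
    · intro hs
      exact absurd (Finset.mem_univ s) hs
  have hlow : (∑ β ∈ gL.support.erase (Finsupp.single s (p ^ M)),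
      Polynomial.C (MvPolynomial.C (MvPolynomial.coeff β gL)) * ∏ a, t a ^ β a).degree <
        ((h.natDegree * p ^ M : ℕ) : WithBot ℕ) := by
    refine (Polynomial.degree_sum_le _ _).trans_lt ?_
    rw [Finset.sup_lt_iff (WithBot.bot_lt_coe _)]
    intro β hβ
    obtain ⟨h1, h2⟩ := Finset.mem_erase.1 hβ
    exact hterm β h2 h1
  have hg₀m : g₀.Monic := by
    rw [hg₀]
    exact Polynomial.monic_X_pow_add hlow
  have hg₀n : g₀.natDegree = h.natDegree * p ^ M := by
    rw [hg₀]
    have h1 := Polynomial.degree_add_eq_left_of_degree_lt (by rw [Polynomial.degree_X_pow]; exact hlow :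
      (∑ β ∈ gL.support.erase (Finsupp.single s (p ^ M)),
        Polynomial.C (MvPolynomial.C (MvPolynomial.coeff β gL)) * ∏ a, t a ^ β a).degree <
          (Polynomial.X ^ (h.natDegree * p ^ M) : Polynomial (MvPolynomial τ F)).degree)
    rw [Polynomial.degree_X_pow] at h1
    exact Polynomial.natDegree_eq_of_degree_eq_some h1
  refine ⟨M + 1, g₀ ^ p, Nat.succ_pos M, hg₀m.pow p, ?_, ?_, fun u w Λ hΛ => ?_⟩
  · rw [hg₀m.natDegree_pow, hg₀n, pow_succ]
    ring
  · rw [Polynomial.derivative_pow, CharP.cast_eq_zero]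
    simp
  · have h1 : val₂ (g₀ ^ p) u w = val₂ g₀ u w ^ p := by
      rw [val₂, val₂, Polynomial.map_pow, Polynomial.eval_pow]
    have h2 := hgL2 (fun a => MvPolynomial.eval u (MvPolynomial.monomial a.1.2
        (lf ((h.coeff a.1.1).coeff a.1.2))) * w ^ a.1.1) Λ fun a => by
      rw [← T.abs_sharp, map_mul, map_pow, sharp_eval_monomial, hlf]
      exact hΛ a.1 a.2
    rw [hsum, ← hval0] at h2
    rw [h1, map_pow, pow_succ p M, pow_mul, pow_mul]
    refine ⟨pow_le_pow_left₀ (T.absF.nonneg _) h2.1 p, fun hlt => ?_⟩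
    rw [h2.2 hlt]

end Run7.h458
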