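import Pool.Agent.Run7.h458.Transfer
set_option autoImplicit false
set_option linter.unusedSectionVars false

/-!
# The center of a component
-/

open Polynomial Filter Topology Module

namespace Run7.h458

variable {k H : Type} [NontriviallyNormedField k] [NontriviallyNormedField H] [NormedAlgebra k H]
  [IsUltrametricDist H]

theorem exists_pow_mul_lt {N ρ D G : ℝ} (hρ : 0 < ρ) (hD : ρ < D) (hG : 0 < G) :
    ∃ m : ℕ, N * ρ ^ m < G * D ^ m := by
  have hD0 : 0 < D := hρ.trans hD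
  obtain ⟨m, hm⟩ := pow_unbounded_of_one_lt (N / G) ((one_lt_div hρ).2 hD)
  refine ⟨m, ?_⟩
  rw [div_pow, div_lt_div_iff₀ hG (pow_pos hρ m)] at hm
  linarith

theorem exists_center [CompleteSpace H] {A : Type} [CommRing A] [Algebra H A] {c : Circle k H}
    (ch : Chart c A) (hrk : ∀ x : k, x ≠ 0 → ∀ n : ℕ, n ≠ 0 → ‖x‖ ≠ ‖c.v‖ ^ n)
    {F : Type} [NormedField F] [NormedAlgebra k F] [IsUltrametricDist F] [IsAlgClosed F] (hd : DenseNorm F)
    {r₁ r₂ ρ : ℝ} (h1 : r₁ < ‖c.v‖) (h2 : ‖c.v‖ < r₂) (hρ : 0 < ρ) {ι : Type} [Fintype ι] [Nonempty ι]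
    (y : ι → ch.B) (Z : Finset (ι → k))
    (hpts : ∀ a : F, r₁ < ‖a‖ → ‖a‖ < r₂ → ∀ ψ : ch.B →+* F,
      (∀ P : k[X], ψ (algebraMap k[X] ch.B P) = aeval a P) →
        ∃ z ∈ Z, ∀ i, ‖ψ (y i) - algebraMap k F (z i) * a‖ ≤ ρ * ‖a‖)
    {L : Type} [Field L] [Algebra H L] [FiniteDimensional H L] (g : A →ₐ[H] L) :
    ∃ z ∈ Z, ∀ i, spectralNorm H L (g (ch.φ (y i)) - algebraMap H L (algebraMap k H (z i) * c.v)) ≤
      ρ * ‖c.v‖ := by
  classical
  have hv0 := c.norm_v_pos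
  let n1 : NormedField L := spectralNorm.normedField H L
  let n2 : NormedAlgebra H L := spectralNorm.normedAlgebra H L
  have n3 : IsUltrametricDist L := by
    refine IsUltrametricDist.isUltrametricDist_of_forall_norm_add_le_max_norm fun x y => ?_
    exact isNonarchimedean_spectralNorm x y
  have hext : ∀ x : H, ‖algebraMap H L x‖ = ‖x‖ := fun x => spectralNorm_extends x
  change ∃ z ∈ Z, ∀ i, ‖g (ch.φ (y i)) - algebraMap H L (algebraMap k H (z i) * c.v)‖ ≤ ρ * ‖c.v‖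
  by_contra hno
  push Not at hno
  let comp : (ι → k) → ι → L := fun z i => g (ch.φ (y i)) - algebraMap H L (algebraMap k H (z i) * c.v)
  have hmx : ∀ z : ι → k, ∃ i, ∀ j, ‖comp z j‖ ≤ ‖comp z i‖ := by
    intro z
    obtain ⟨i, -, hi⟩ := Finset.exists_max_image Finset.univ (fun i => ‖comp z i‖) Finset.univ_nonempty
    exact ⟨i, fun j => hi j (Finset.mem_univ j)⟩
  choose i hi using hmx
  let D : (ι → k) → ℝ := fun z => ‖comp z (i z)‖
  have hD : ∀ z ∈ Z, ρ * ‖c.v‖ < D z := by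
    intro z hz
    obtain ⟨j, hj⟩ := hno z hz
    exact hj.trans_le (hi z j)
  let u : (ι → k) → ch.B := fun z => y (i z) - algebraMap k[X] ch.B (C (z (i z)) * X)
  have hu : ∀ z, g (ch.φ (u z)) = comp z (i z) := by
    intro z
    simp only [u, comp, map_sub, ch.φ_alg, AlgHom.commutes, map_mul, aeval_C, aeval_X]
  have hψu : ∀ (a : F) (ψ : ch.B →+* F), (∀ P : k[X], ψ (algebraMap k[X] ch.B P) = aeval a P) → ∀ z,
      ψ (u z) = ψ (y (i z)) - algebraMap k F (z (i z)) * a := by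
    intro a ψ hψ z
    simp only [u, map_sub, hψ, map_mul, aeval_C, aeval_X]
  have hdist : ∀ z z' : ι → k, ∀ j, ‖z j - z' j‖ * ‖c.v‖ ≤ max (D z) (D z') := by
    intro z z' j
    have e1 : algebraMap H L (algebraMap k H (z j - z' j) * c.v) = comp z' j - comp z j := by
      simp only [comp, map_sub, map_mul]
      ring
    have e2 : ‖algebraMap H L (algebraMap k H (z j - z' j) * c.v)‖ = ‖z j - z' j‖ * ‖c.v‖ := by
      rw [hext, norm_mul, norm_algebraMap']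
    rw [← e2, e1, max_comm]
    exact (nsub_le_max _ _).trans (max_le_max (hi z' j) (hi z j))
  let μ : (ι → k) → (ι → k) → ℝ := fun z₁ z => max ρ ‖z₁ (i z) - z (i z)‖
  have hμ0 : ∀ z₁ z, 0 < μ z₁ z := fun z₁ z => hρ.trans_le (le_max_left _ _)
  have hμz : ∀ z, μ z z = ρ := fun z => by
    simp only [μ, sub_self, norm_zero]
    exact max_eq_left hρ.le
  let near : (ι → k) → F → (ch.B →+* F) → Prop := fun z a ψ =>
    (∀ P : k[X], ψ (algebraMap k[X] ch.B P) = aeval a P) ∧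
      ∀ j, ‖ψ (y j) - algebraMap k F (z j) * a‖ ≤ ρ * ‖a‖
  have hnear : ∀ z₁ a ψ, near z₁ a ψ → ∀ z, ‖ψ (u z)‖ ≤ μ z₁ z * ‖a‖ := by
    intro z₁ a ψ hn z
    have e1 : ψ (u z) = (ψ (y (i z)) - algebraMap k F (z₁ (i z)) * a) + algebraMap k F (z₁ (i z) - z (i z)) * a := by
      rw [hψu a ψ hn.1, map_sub]
      ring
    rw [e1]
    refine (IsUltrametricDist.norm_add_le_max _ _).trans ?_
    rw [max_mul_of_nonneg _ _ (norm_nonneg a)]
    refine max_le_max (hn.2 _) (le_of_eq ?_)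
    rw [norm_mul, norm_algebraMap']
  -- the test functions
  have key : ∀ s : Finset (ι → k), s ⊆ Z → ∃ (f : ch.B) (e : ℕ) (N : (ι → k) → ℝ), (∀ z, 0 ≤ N z) ∧
      0 < ‖g (ch.φ f)‖ ∧ (∀ z₁ a ψ, near z₁ a ψ → ‖ψ f‖ ≤ N z₁ * ‖a‖ ^ e) ∧
      ∀ z₁ ∈ s, N z₁ * ‖c.v‖ ^ e < ‖g (ch.φ f)‖ := by
    intro s
    refine Finset.induction_on_max_value D s (fun _ => ?_) fun z s hz hmax ih hsub => ?_
    · refine ⟨1, 0, fun _ => 1, fun _ => zero_le_one, ?_, fun z₁ a ψ _ => ?_, fun z₁ hz₁ => ?_⟩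
      · rw [map_one, map_one, norm_one]
        exact one_pos
      · rw [map_one, norm_one, pow_zero, mul_one]
      · exact absurd hz₁ (Finset.notMem_empty _)
    · have hzZ : z ∈ Z := hsub (Finset.mem_insert_self z s)
      have hsZ : s ⊆ Z := fun x hx => hsub (Finset.mem_insert_of_mem hx)
      obtain ⟨f, e, N, hN0, hf0, hf, hlt⟩ := ih hsZ
      obtain ⟨m, hm⟩ := exists_pow_mul_lt (N := N z * ‖c.v‖ ^ e) (mul_pos hρ hv0) (hD z hzZ) hf0
      have hDz0 : 0 < D z := (mul_pos hρ hv0).trans (hD z hzZ)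
      have hval : ‖g (ch.φ (f * u z ^ m))‖ = ‖g (ch.φ f)‖ * D z ^ m := by
        rw [map_mul, map_pow, map_mul, map_pow, norm_mul, norm_pow, hu]
      refine ⟨f * u z ^ m, e + m, fun z₁ => N z₁ * μ z₁ z ^ m, fun z₁ => mul_nonneg (hN0 z₁) (pow_nonneg (hμ0 z₁ z).le m),
        ?_, fun z₁ a ψ hn => ?_, fun z₁ hz₁ => ?_⟩
      · rw [hval]
        exact mul_pos hf0 (pow_pos hDz0 m)
      · rw [map_mul, map_pow, norm_mul, norm_pow, pow_add]
        have h3 := hf z₁ a ψ hn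
        have h4 := pow_le_pow_left₀ (norm_nonneg _) (hnear z₁ a ψ hn z) m
        rw [mul_pow] at h4
        calc ‖ψ f‖ * ‖ψ (u z)‖ ^ m ≤ (N z₁ * ‖a‖ ^ e) * (μ z₁ z ^ m * ‖a‖ ^ m) :=
              mul_le_mul h3 h4 (by positivity) (mul_nonneg (hN0 z₁) (by positivity))
          _ = _ := by ring
      · rw [hval]
        have e1 : N z₁ * μ z₁ z ^ m * ‖c.v‖ ^ (e + m) = (N z₁ * ‖c.v‖ ^ e) * (μ z₁ z * ‖c.v‖) ^ m := by
          rw [pow_add, mul_pow]
          ring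
        rw [e1]
        rcases Finset.mem_insert.1 hz₁ with rfl | hz₁
        · rw [hμz]
          exact hm
        · have h3 : μ z₁ z * ‖c.v‖ ≤ D z := by
            rw [max_mul_of_nonneg _ _ hv0.le]
            refine max_le (hD z hzZ).le ((hdist z₁ z (i z)).trans ?_)
            exact max_le (hmax z₁ hz₁) le_rfl
          exact mul_lt_mul (hlt z₁ hz₁) (pow_le_pow_left₀ (mul_nonneg (hμ0 z₁ z).le hv0.le) h3 m)
            (pow_pos (mul_pos (hμ0 z₁ z) hv0) m) hf0.le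
  obtain ⟨f, e, N, hN0, hf0, hf, hlt⟩ := key Z (Finset.Subset.refl Z)
  -- choose `R`
  obtain ⟨R, hR0, hRN, hRlt⟩ : ∃ R : ℝ, 0 < R ∧ (∀ z ∈ Z, N z ≤ R) ∧ R * ‖c.v‖ ^ e < ‖g (ch.φ f)‖ := by
    have hve : 0 < ‖c.v‖ ^ e := pow_pos hv0 e
    rcases Z.eq_empty_or_nonempty with h0 | hne
    · refine ⟨‖g (ch.φ f)‖ / (2 * ‖c.v‖ ^ e), by positivity, fun z hz => ?_, ?_⟩
      · rw [h0] at hz
        exact absurd hz (Finset.notMem_empty _)
      · have e1 : ‖g (ch.φ f)‖ / (2 * ‖c.v‖ ^ e) * ‖c.v‖ ^ e = ‖g (ch.φ f)‖ / 2 := by field_simp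
        rw [e1]
        linarith
    · obtain ⟨z, hz, hzmax⟩ := Finset.exists_max_image Z N hne
      have h3 : N z < ‖g (ch.φ f)‖ / ‖c.v‖ ^ e := by
        rw [lt_div_iff₀ hve]
        exact hlt z hz
      obtain ⟨R, hR1, hR2⟩ := exists_between h3
      refine ⟨R, (hN0 z).trans_lt hR1, fun z' hz' => (hzmax z' hz').trans hR1.le, ?_⟩
      rwa [lt_div_iff₀ hve] at hR2
  have h3 := spectralNorm_le_of_points ch hrk hd h1 h2 hR0 (e := e) f (fun a ha1 ha2 ψ hψ => by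
    obtain ⟨z, hz, hz2⟩ := hpts a ha1 ha2 ψ hψ
    refine (hf z a ψ ⟨hψ, hz2⟩).trans ?_
    exact mul_le_mul_of_nonneg_right (hRN z hz) (by positivity)) g
  exact absurd h3 (not_le.2 hRlt)

end Run7.h458
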