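import Pool.Agent.Run7.h458.Monic2
import Pool.Agent.R388.TP.Gens
set_option autoImplicit false
set_option linter.unusedSectionVars false

/-!
# Approximate zeros are close to zeros
-/

open MvPolynomial Pool.Agent.Y129.TA

namespace Run7.h458

theorem exists_near_root {F : Type} [Field F] [IsAlgClosed F] (a : AbsoluteValue F ℝ) {P : Polynomial F}
    (hP : P.Monic) (h0 : 0 < P.natDegree) {η : ℝ} (hη : 0 ≤ η) {v : F}
    (h : a (P.eval v) ≤ η ^ P.natDegree) : ∃ ρ, P.eval ρ = 0 ∧ a (v - ρ) ≤ η := by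
  classical
  have hs := IsAlgClosed.splits P
  have h2 : P.roots.card = P.natDegree := hs.natDegree_eq_card_roots.symm
  have hne : P.roots ≠ 0 := by
    intro h0'
    rw [h0', Multiset.card_zero] at h2
    omega
  obtain ⟨z₀, hz₀⟩ := Multiset.exists_mem_of_ne_zero hne
  obtain ⟨z, hz, hmin⟩ := Finset.exists_min_image P.roots.toFinset (fun z => a (v - z))
    ⟨z₀, Multiset.mem_toFinset.2 hz₀⟩
  refine ⟨z, (Polynomial.mem_roots hP.ne_zero).1 (Multiset.mem_toFinset.1 hz), ?_⟩
  have h3 := prod_ge a v (a.nonneg (v - z)) P.roots fun y hy => hmin y (Multiset.mem_toFinset.2 hy)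
  have h4 : (P.roots.map fun z => v - z).prod = P.eval v := by
    have h5 : P = (P.roots.map fun x => Polynomial.X - Polynomial.C x).prod := by
      conv_lhs => rw [hs.eq_prod_roots, hP.leadingCoeff, Polynomial.C_1, one_mul]
    conv_rhs => rw [h5, Polynomial.eval_multiset_prod, Multiset.map_map]
    congr 1
    refine Multiset.map_congr rfl fun x _ => ?_
    simp
  rw [h4, h2] at h3
  exact le_of_pow_le_pow_left₀ h0.ne' hη (h3.trans h)

/-- Interpolation at nodes whose distances are `1`. -/
theorem coeff_le_of_nodes {F : Type} [Field F] {a : AbsoluteValue F ℝ}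
    (ha : ∀ x y, a (x + y) ≤ max (a x) (a y)) {η : ℝ} (hη : 0 ≤ η) (M : Finset F)
    (h1 : ∀ x ∈ M, a x ≤ 1) (h2 : ∀ x ∈ M, ∀ y ∈ M, x ≠ y → a (x - y) = 1) (f : Polynomial F)
    (hf : f.degree < M.card) (hM : ∀ x ∈ M, a (f.eval x) ≤ η) (i : ℕ) : a (f.coeff i) ≤ η := by
  classical
  induction M using Finset.induction_on generalizing f i with
  | empty =>
    rw [(Polynomial.degree_lt_iff_coeff_zero f 0).1 (by exact_mod_cast hf) i (Nat.zero_le i), map_zero]
    exact hη
  | insert μ M hμ ih =>
    have hμ1 := h1 μ (Finset.mem_insert_self _ _)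
    have e0 : f = Polynomial.C (f.eval μ) + (Polynomial.X - Polynomial.C μ) * (f /ₘ (Polynomial.X - Polynomial.C μ)) := by
      conv_lhs => rw [← Polynomial.modByMonic_add_div f (Polynomial.X - Polynomial.C μ)]
      rw [Polynomial.modByMonic_X_sub_C_eq_C_eval]
    set g := f /ₘ (Polynomial.X - Polynomial.C μ) with hg
    have hgd : g.degree < M.card := by
      rw [Finset.card_insert_of_notMem hμ] at hf
      by_cases hf0 : g = 0
      · rw [hf0, Polynomial.degree_zero]
        exact WithBot.bot_lt_coe _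
      · have h3 : f.natDegree < M.card + 1 := by
          have hfne : f ≠ 0 := by
            intro hh
            apply hf0
            rw [hg, hh, Polynomial.zero_divByMonic]
          exact (Polynomial.natDegree_lt_iff_degree_lt hfne).2 (by exact_mod_cast hf)
        have h4 : g.natDegree = f.natDegree - 1 := by
          rw [hg, Polynomial.natDegree_divByMonic _ (Polynomial.monic_X_sub_C μ), Polynomial.natDegree_X_sub_C]
        have h5 : 0 < f.natDegree := by
          by_contra h6
          apply hf0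
          have h7 : f.natDegree = 0 := by omega
          rw [hg, Polynomial.divByMonic_eq_zero_iff (Polynomial.monic_X_sub_C μ), Polynomial.degree_X_sub_C]
          exact lt_of_le_of_lt Polynomial.degree_le_natDegree (by rw [h7]; exact_mod_cast Nat.zero_lt_one)
        rw [Polynomial.degree_eq_natDegree hf0]
        exact_mod_cast (show g.natDegree < M.card by omega)
    have hgM : ∀ x ∈ M, a (g.eval x) ≤ η := by
      intro x hx
      have hne : x ≠ μ := fun h => hμ (h ▸ hx)
      have h3 := h2 x (Finset.mem_insert_of_mem hx) μ (Finset.mem_insert_self _ _) hne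
      have h4 : f.eval x - f.eval μ = (x - μ) * g.eval x := by
        conv_lhs => rw [e0]
        simp
      have h5 : a (f.eval x - f.eval μ) ≤ η := by
        rw [sub_eq_add_neg]
        refine (ha _ _).trans (max_le (hM x (Finset.mem_insert_of_mem hx)) ?_)
        rw [a.map_neg]
        exact hM μ (Finset.mem_insert_self _ _)
      rw [h4, map_mul, h3, one_mul] at h5
      exact h5
    have ih' := ih (fun x hx => h1 x (Finset.mem_insert_of_mem hx))
      (fun x hx y hy => h2 x (Finset.mem_insert_of_mem hx) y (Finset.mem_insert_of_mem hy)) g hgd hgM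
    have h3 : a (μ * g.coeff i) ≤ η := by
      rw [map_mul]
      exact (mul_le_of_le_one_left (a.nonneg _) hμ1).trans (ih' i)
    rw [e0, Polynomial.coeff_add, sub_mul, Polynomial.coeff_sub, Polynomial.coeff_C_mul]
    rcases i with _ | i
    · rw [Polynomial.coeff_C_zero, Polynomial.coeff_X_mul_zero, zero_sub]
      refine (ha _ _).trans (max_le (hM μ (Finset.mem_insert_self _ _)) ?_)
      rw [a.map_neg]
      exact h3
    · rw [Polynomial.coeff_C_succ, zero_add, Polynomial.coeff_X_mul, sub_eq_add_neg]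
      refine (ha _ _).trans (max_le (ih' i) ?_)
      rw [a.map_neg]
      exact h3

/-- There are many elements whose differences have absolute value `1`. -/
def ManyNodes {F : Type} [Field F] (a : AbsoluteValue F ℝ) : Prop :=
  ∀ N : ℕ, ∃ M : Finset F, N ≤ M.card ∧ (∀ x ∈ M, a x ≤ 1) ∧ ∀ x ∈ M, ∀ y ∈ M, x ≠ y → a (x - y) = 1

theorem manyNodes {F : Type} [Field F] [IsAlgClosed F] {p : ℕ} [Fact p.Prime] [CharP F p]
    (a : AbsoluteValue F ℝ) : ManyNodes a := by
  classical
  intro N
  have hp1 : 1 < p := (Fact.out : p.Prime).one_lt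
  let q := p ^ (N + 1)
  have hq : 1 < q := Nat.one_lt_pow (Nat.succ_ne_zero N) hp1
  have hNq : N ≤ q := by
    have := Nat.lt_pow_self hp1 (n := N + 1)
    omega
  let P : Polynomial F := Polynomial.X ^ q - Polynomial.X
  have hP0 : P ≠ 0 := FiniteField.X_pow_card_sub_X_ne_zero F hq
  have hsep : P.Separable := galois_poly_separable p q (dvd_pow_self p (Nat.succ_ne_zero N))
  refine ⟨P.roots.toFinset, ?_, ?_, ?_⟩
  · have h1 : P.roots.toFinset.card = P.roots.card := Multiset.toFinset_card_of_nodup (Polynomial.nodup_roots hsep)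
    rw [h1, ← (IsAlgClosed.splits P).natDegree_eq_card_roots, FiniteField.X_pow_card_sub_X_natDegree_eq F hq]
    exact hNq
  · intro x hx
    have h1 : x ^ q = x := by
      have := (Polynomial.mem_roots hP0).1 (Multiset.mem_toFinset.1 hx)
      simpa [P, Polynomial.IsRoot, sub_eq_zero] using this
    have h2 : a x ^ q = a x := by rw [← map_pow, h1]
    by_contra hlt
    push Not at hlt
    have h3 := pow_lt_pow_right₀ hlt hq
    rw [h2, pow_one] at h3
    exact lt_irrefl _ h3
  · intro x hx y hy hne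
    have h1 : x ^ q = x := by
      have := (Polynomial.mem_roots hP0).1 (Multiset.mem_toFinset.1 hx)
      simpa [P, Polynomial.IsRoot, sub_eq_zero] using this
    have h1' : y ^ q = y := by
      have := (Polynomial.mem_roots hP0).1 (Multiset.mem_toFinset.1 hy)
      simpa [P, Polynomial.IsRoot, sub_eq_zero] using this
    have h3 : (x - y) ^ q = x - y := by rw [sub_pow_char_pow, h1, h1']
    have h4 : (x - y) ^ (q - 1) = 1 := by
      have h5 : (x - y) ^ (q - 1) * (x - y) = 1 * (x - y) := by
        rw [← pow_succ, Nat.sub_add_cancel hq.le, h3, one_mul]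
      exact mul_right_cancel₀ (sub_ne_zero.2 hne) h5
    have h5 : a (x - y) ^ (q - 1) = 1 := by rw [← map_pow, h4, map_one]
    exact (pow_eq_one_iff_of_nonneg (a.nonneg _) (by omega)).1 h5

/-- Points at which the elements of a prime ideal are small are close to zeros of the ideal. -/
theorem near_prime {F : Type} [Field F] [IsAlgClosed F] {a : AbsoluteValue F ℝ}
    (ha : ∀ x y, a (x + y) ≤ max (a x) (a y)) (hM : ManyNodes a) {n : ℕ}
    (𝔭 : Ideal (MvPolynomial (Fin n) F)) [h𝔭 : 𝔭.IsPrime] {η : ℝ} (hη : 0 < η) :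
    ∃ (Q : Finset (MvPolynomial (Fin n) F)) (δ : ℝ), 0 < δ ∧ (∀ q ∈ Q, q ∈ 𝔭) ∧
      ∀ y : Fin n → F, (∀ q ∈ Q, a (eval y q) ≤ δ) →
        ∃ z : Fin n → F, (∀ f ∈ 𝔭, eval z f = 0) ∧ ∀ i, a (z i - y i) ≤ η := by
  classical
  obtain ⟨s, -, g, hgi, hgint⟩ := exists_integral_inj_algHom_of_quotient 𝔭 h𝔭.ne_top
  let mk : MvPolynomial (Fin n) F →ₐ[F] (MvPolynomial (Fin n) F ⧸ 𝔭) := Ideal.Quotient.mkₐ F 𝔭
  have hmk : Function.Surjective mk := Ideal.Quotient.mk_surjective
  have hdom : IsDomain (MvPolynomial (Fin n) F ⧸ 𝔭) := inferInstance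
  let iA : Algebra (MvPolynomial (Fin s) F) (MvPolynomial (Fin n) F ⧸ 𝔭) := g.toRingHom.toAlgebra
  have hint : Algebra.IsIntegral (MvPolynomial (Fin s) F) (MvPolynomial (Fin n) F ⧸ 𝔭) :=
    ⟨fun b => hgint b⟩
  have htf : Module.IsTorsionFree (MvPolynomial (Fin s) F) (MvPolynomial (Fin n) F ⧸ 𝔭) :=
    Module.isTorsionFree_iff_algebraMap_injective.2 hgi
  have halg : ∀ f : MvPolynomial (Fin s) F, algebraMap _ (MvPolynomial (Fin n) F ⧸ 𝔭) f = g f := fun _ => rfl
  -- lifts
  choose τ hτ using fun j => hmk (g (X j))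
  let lift : MvPolynomial (Fin s) F →ₐ[F] MvPolynomial (Fin n) F := aeval τ
  have hlift : ∀ f, mk (lift f) = g f := by
    intro f
    have : mk.comp lift = g := by
      refine MvPolynomial.algHom_ext fun j => ?_
      rw [AlgHom.comp_apply]
      simp only [lift, aeval_X, hτ]
    exact congrArg (fun ψ : MvPolynomial (Fin s) F →ₐ[F] (MvPolynomial (Fin n) F ⧸ 𝔭) => ψ f) this
  let P : (MvPolynomial (Fin n) F) → Polynomial (MvPolynomial (Fin s) F) := fun β =>
    minpoly (MvPolynomial (Fin s) F) (mk β)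
  have hPm : ∀ β, (P β).Monic := fun β => minpoly.monic (hint.isIntegral _)
  have hPd : ∀ β, 0 < (P β).natDegree := fun β => minpoly.natDegree_pos (hint.isIntegral _)
  let Q : MvPolynomial (Fin n) F → MvPolynomial (Fin n) F := fun β => (P β).eval₂ lift.toRingHom β
  have hQ : ∀ β, Q β ∈ 𝔭 := by
    intro β
    rw [← Ideal.Quotient.eq_zero_iff_mem]
    change mk.toRingHom ((P β).eval₂ lift.toRingHom β) = 0
    rw [Polynomial.hom_eval₂]
    have h1 : mk.toRingHom.comp lift.toRingHom = algebraMap (MvPolynomial (Fin s) F) (MvPolynomial (Fin n) F ⧸ 𝔭) :=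
      RingHom.ext fun f => hlift f
    rw [h1]
    exact minpoly.aeval _ _
  have hQe : ∀ β y, eval y (Q β) = ((P β).map (eval fun j => eval y (τ j))).eval (eval y β) := by
    intro β y
    change eval y ((P β).eval₂ lift.toRingHom β) = _
    rw [Polynomial.hom_eval₂, Polynomial.eval_map]
    congr 1
    refine MvPolynomial.ringHom_ext (fun c => ?_) fun j => ?_
    · rw [RingHom.comp_apply, eval_C]
      change eval y (lift (C c)) = c
      rw [show lift (C c) = C c from aeval_C _ _, eval_C]
    · rw [RingHom.comp_apply, eval_X]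
      change eval y (lift (X j)) = _
      rw [show lift (X j) = τ j from aeval_X _ _]
  -- the nodes
  set N₀ : ℕ := ∏ i : Fin n, (P (X i)).natDegree with hN₀
  obtain ⟨M, hMc, hM1, hM2⟩ := hM (N₀ * n + 1)
  let β : F → MvPolynomial (Fin n) F := fun μ => ∑ i : Fin n, C (μ ^ (i : ℕ)) * X i
  have hβ : ∀ μ y, eval y (β μ) = ∑ i : Fin n, μ ^ (i : ℕ) * y i := by
    intro μ y
    simp only [β, map_sum, map_mul, eval_C, eval_X]
  obtain ⟨δ, hδ, hδ'⟩ := exists_pos_le (fun μ : M => η ^ (P (β μ)).natDegree) fun μ => pow_pos hη _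
  refine ⟨M.image fun μ => Q (β μ), δ, hδ, ?_, fun y hy => ?_⟩
  · intro q hq
    obtain ⟨μ, -, rfl⟩ := Finset.mem_image.1 hq
    exact hQ _
  let u : Fin s → F := fun j => eval y (τ j)
  let 𝒵 : Finset (Fin n → F) := Fintype.piFinset fun i => ((P (X i)).map (eval u)).roots.toFinset
  have h𝒵 : 𝒵.card ≤ N₀ := by
    rw [Fintype.card_piFinset, hN₀]
    refine Finset.prod_le_prod' fun i _ => ?_
    refine (Multiset.toFinset_card_le _).trans ((Polynomial.card_roots' _).trans ?_)
    rw [(hPm _).natDegree_map]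
  -- the points
  have hpt : ∀ μ ∈ M, ∃ z : Fin n → F, z ∈ 𝒵 ∧ (∀ f ∈ 𝔭, eval z f = 0) ∧
      a (eval z (β μ) - eval y (β μ)) ≤ η := by
    intro μ hμ
    have h1 : a (((P (β μ)).map (eval u)).eval (eval y (β μ))) ≤ η ^ ((P (β μ)).map (eval u)).natDegree := by
      rw [(hPm _).natDegree_map, ← hQe]
      exact (hy _ (Finset.mem_image_of_mem _ hμ)).trans (hδ' ⟨μ, hμ⟩)
    obtain ⟨ρ, hρ, hρ2⟩ := exists_near_root a ((hPm (β μ)).map _) (by rw [(hPm _).natDegree_map]; exact hPd _) hη.le h1
    let iR : Algebra (Polynomial (MvPolynomial (Fin s) F)) (MvPolynomial (Fin n) F ⧸ 𝔭) :=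
      (Polynomial.aeval (mk (β μ)) : Polynomial (MvPolynomial (Fin s) F) →ₐ[MvPolynomial (Fin s) F] _).toRingHom.toAlgebra
    have hR : Algebra.IsIntegral (Polynomial (MvPolynomial (Fin s) F)) (MvPolynomial (Fin n) F ⧸ 𝔭) := by
      refine ⟨fun b => ?_⟩
      obtain ⟨f, hf, hf0⟩ := hint.isIntegral b
      refine ⟨f.map Polynomial.C, hf.map _, ?_⟩
      rw [Polynomial.eval₂_map]
      rw [← hf0]
      congr 1
      refine RingHom.ext fun f => ?_
      change Polynomial.aeval (mk (β μ)) (Polynomial.C f) = algebraMap _ _ f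
      rw [Polynomial.aeval_C]
    obtain ⟨ψ, hψ⟩ := Pool.Agent.Y129.TB.exists_hom (R := Polynomial (MvPolynomial (Fin s) F))
      (S := MvPolynomial (Fin n) F ⧸ 𝔭) (Polynomial.eval₂RingHom (eval u) ρ) (by
        intro f hf
        rw [RingHom.mem_ker] at hf ⊢
        have h2 : Polynomial.aeval (mk (β μ)) f = 0 := hf
        obtain ⟨c, rfl⟩ := minpoly.isIntegrallyClosed_dvd (hint.isIntegral _) h2
        rw [map_mul]
        have h3 : Polynomial.eval₂RingHom (eval u) ρ (minpoly (MvPolynomial (Fin s) F) (mk (β μ))) = 0 := by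
          rw [Polynomial.coe_eval₂RingHom, ← Polynomial.eval_map]
          exact hρ
        rw [h3, zero_mul])
    have hψ1 : ∀ f, ψ (g f) = eval u f := by
      intro f
      have h2 := congrArg (fun φ : Polynomial (MvPolynomial (Fin s) F) →+* F => φ (Polynomial.C f)) hψ
      have h3 : Polynomial.eval₂RingHom (eval u) ρ (Polynomial.C f) = eval u f := by
        rw [Polynomial.coe_eval₂RingHom, Polynomial.eval₂_C]
      rw [← h3, ← h2]
      change _ = ψ (Polynomial.aeval (mk (β μ)) (Polynomial.C f))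
      rw [Polynomial.aeval_C, halg]
    have hψ2 : ψ (mk (β μ)) = ρ := by
      have h2 := congrArg (fun φ : Polynomial (MvPolynomial (Fin s) F) →+* F => φ Polynomial.X) hψ
      have h3 : Polynomial.eval₂RingHom (eval u) ρ Polynomial.X = ρ := by
        rw [Polynomial.coe_eval₂RingHom, Polynomial.eval₂_X]
      rw [← h3, ← h2]
      change _ = ψ (Polynomial.aeval (mk (β μ)) Polynomial.X)
      rw [Polynomial.aeval_X]
    have hψe : ∀ f : MvPolynomial (Fin n) F, ψ (mk f) = eval (fun i => ψ (mk (X i))) f := by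
      intro f
      have h1 : ψ.comp mk.toRingHom = eval (fun i => ψ (mk (X i))) := by
        refine MvPolynomial.ringHom_ext (fun c => ?_) fun i => ?_
        · rw [eval_C]
          have h2 := hψ1 (C c)
          rw [eval_C] at h2
          conv_rhs => rw [← h2]
          change ψ (mk (C c)) = ψ (g (C c))
          congr 1
          exact (mk.commutes c).trans (g.commutes c).symm
        · rw [eval_X]
          rfl
      exact congrArg (fun χ : MvPolynomial (Fin n) F →+* F => χ f) h1
    refine ⟨fun i => ψ (mk (X i)), ?_, fun f hf => ?_, ?_⟩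
    · rw [Fintype.mem_piFinset]
      intro i
      rw [Multiset.mem_toFinset, Polynomial.mem_roots ((hPm _).map _).ne_zero, Polynomial.IsRoot]
      have h1 : Polynomial.aeval (mk (X i)) (P (X i)) = 0 := minpoly.aeval _ _
      have h2 := congrArg ψ h1
      rw [map_zero, Polynomial.aeval_def, Polynomial.hom_eval₂] at h2
      rw [← h2, Polynomial.eval_map]
      congr 1
      exact RingHom.ext fun f => (hψ1 f).symm
    · rw [← hψe]
      have h1 : mk f = 0 := Ideal.Quotient.eq_zero_iff_mem.2 hf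
      rw [h1, map_zero]
    · rw [← hψe, hψ2, ← a.map_neg, neg_sub]
      exact hρ2
  choose! z hz𝒵 hz1 hz2 using hpt
  obtain ⟨z₀, hz₀, hcard⟩ := Finset.exists_lt_card_fiber_of_mul_lt_card_of_maps_to (s := M) (t := 𝒵) (f := z)
    (n := n) hz𝒵 (lt_of_le_of_lt (Nat.mul_le_mul_right n h𝒵) (by omega))
  have hne : ({μ ∈ M | z μ = z₀}).Nonempty := Finset.card_pos.1 (by omega)
  obtain ⟨μ₀, hμ₀⟩ := hne
  rw [Finset.mem_filter] at hμ₀
  refine ⟨z₀, fun f hf => ?_, fun i => ?_⟩
  · rw [← hμ₀.2]
    exact hz1 μ₀ hμ₀.1 f hf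
  · let f : Polynomial F := ∑ i : Fin n, Polynomial.C (z₀ i - y i) * Polynomial.X ^ (i : ℕ)
    have hfd : f.degree < (({μ ∈ M | z μ = z₀}).card : WithBot ℕ) := by
      refine lt_of_lt_of_le (b := (n : WithBot ℕ)) ?_ (by exact_mod_cast hcard.le)
      refine (Polynomial.degree_lt_iff_coeff_zero f n).2 fun m hm => ?_
      simp only [f, Polynomial.finsetSum_coeff, Polynomial.coeff_C_mul, Polynomial.coeff_X_pow]
      refine Finset.sum_eq_zero fun i _ => ?_
      rw [if_neg (by omega), mul_zero]
    have hfc : f.coeff i = z₀ i - y i := by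
      simp only [f, Polynomial.finsetSum_coeff, Polynomial.coeff_C_mul, Polynomial.coeff_X_pow]
      rw [Finset.sum_eq_single i]
      · rw [if_pos rfl, mul_one]
      · intro j _ hj
        rw [if_neg (fun h => hj (Fin.ext h.symm)), mul_zero]
      · intro h
        exact absurd (Finset.mem_univ i) h
    rw [← hfc]
    refine coeff_le_of_nodes ha hη.le _ (fun x hx => hM1 x (Finset.mem_filter.1 hx).1)
      (fun x hx y hy => hM2 x (Finset.mem_filter.1 hx).1 y (Finset.mem_filter.1 hy).1) f hfd (fun x hx => ?_) i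
    obtain ⟨hx1, hx2⟩ := Finset.mem_filter.1 hx
    have h1 := hz2 x hx1
    rw [hx2, hβ, hβ, ← Finset.sum_sub_distrib] at h1
    have h2 : f.eval x = ∑ i : Fin n, (x ^ (i : ℕ) * z₀ i - x ^ (i : ℕ) * y i) := by
      simp only [f, Polynomial.eval_finsetSum, Polynomial.eval_mul, Polynomial.eval_C, Polynomial.eval_pow,
        Polynomial.eval_X]
      refine Finset.sum_congr rfl fun j _ => ?_
      ring
    rw [h2]
    exact h1

end Run7.h458
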