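import Pool.Agent.Run7.h458.NearV
set_option autoImplicit false
set_option linter.unusedSectionVars false

/-!
# Approximate zeros of closed sets, and the density of the algebraic points
-/

open MvPolynomial Pool.Agent.Y129.TA

namespace Run7.h458

/-- Approximate zeros in the unit ball are close to zeros. -/
theorem near_closed {F : Type} [Field F] [IsAlgClosed F] {a : AbsoluteValue F ℝ}
    (ha : ∀ x y, a (x + y) ≤ max (a x) (a y)) (hM : ManyNodes a) {n : ℕ} {κ : Type} [Fintype κ]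
    (G : κ → MvPolynomial (Fin n) F) {η : ℝ} (hη : 0 < η) :
    ∃ δ : ℝ, 0 < δ ∧ ∀ y : Fin n → F, (∀ i, a (y i) ≤ 1) → (∀ k, a (eval y (G k)) ≤ δ) →
      ∃ z : Fin n → F, (∀ k, eval z (G k) = 0) ∧ ∀ i, a (z i - y i) ≤ η := by
  classical
  let I : Ideal (MvPolynomial (Fin n) F) := Ideal.span (Set.range G)
  have hfin : I.minimalPrimes.Finite := Ideal.finite_minimalPrimes_of_isNoetherianRing _ I
  let Pm : Finset (Ideal (MvPolynomial (Fin n) F)) := hfin.toFinset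
  have hPm : ∀ 𝔭 : Pm, (𝔭 : Ideal (MvPolynomial (Fin n) F)) ∈ I.minimalPrimes := fun 𝔭 =>
    (Set.Finite.mem_toFinset hfin).1 𝔭.2
  have hex : ∀ 𝔭 : Pm, ∃ (Q : Finset (MvPolynomial (Fin n) F)) (δ : ℝ), 0 < δ ∧
      (∀ q ∈ Q, q ∈ (𝔭 : Ideal (MvPolynomial (Fin n) F))) ∧
      ∀ y : Fin n → F, (∀ q ∈ Q, a (eval y q) ≤ δ) →
        ∃ z : Fin n → F, (∀ f ∈ (𝔭 : Ideal (MvPolynomial (Fin n) F)), eval z f = 0) ∧
          ∀ i, a (z i - y i) ≤ η := fun 𝔭 => by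
    have : (𝔭 : Ideal (MvPolynomial (Fin n) F)).IsPrime := (hPm 𝔭).1.1
    exact near_prime ha hM _ hη
  choose Q δ hδ hQ hQy using hex
  have hprod : 0 < ∏ 𝔭, δ 𝔭 := Finset.prod_pos fun 𝔭 _ => hδ 𝔭
  -- the products
  have s1 : ∀ c : (∀ 𝔭 : Pm, Q 𝔭), ∃ δ' : ℝ, 0 < δ' ∧ ∀ v : Fin n → F, (∀ i, a (v i) ≤ 1) →
      (∀ k, a (eval v (G k)) ≤ δ') → a (eval v (∏ 𝔭, (c 𝔭 : MvPolynomial (Fin n) F))) ≤ (∏ 𝔭, δ 𝔭) / 2 := by
    intro c
    refine small ha G _ (fun v hv => ?_) (by positivity)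
    have hI : I ≤ RingHom.ker (eval v) := by
      rw [Ideal.span_le]
      rintro _ ⟨k, rfl⟩
      exact hv k
    have hpr : (RingHom.ker (eval v)).IsPrime := RingHom.ker_isPrime _
    obtain ⟨𝔭, h𝔭, hle⟩ := Ideal.exists_minimalPrimes_le hI
    rw [map_prod]
    let 𝔭' : Pm := ⟨𝔭, (Set.Finite.mem_toFinset hfin).2 h𝔭⟩
    refine Finset.prod_eq_zero (Finset.mem_univ 𝔭') ?_
    exact hle (hQ 𝔭' _ (c 𝔭').2)
  choose δ₁ hδ₁ hs1 using s1
  obtain ⟨δ₂, hδ₂, hδ₂'⟩ := exists_pos_le δ₁ hδ₁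
  refine ⟨δ₂, hδ₂, fun y hy hyG => ?_⟩
  by_contra hno
  have hbad : ∀ 𝔭 : Pm, ∃ q : Q 𝔭, δ 𝔭 < a (eval y (q : MvPolynomial (Fin n) F)) := by
    intro 𝔭
    by_contra hall
    push Not at hall
    obtain ⟨z, hz, hzy⟩ := hQy 𝔭 y fun q hq => hall ⟨q, hq⟩
    exact hno ⟨z, fun k => hz _ ((hPm 𝔭).1.2 (Ideal.subset_span ⟨k, rfl⟩)), hzy⟩
  choose c hc using hbad
  have h1 := hs1 c y hy fun k => (hyG k).trans (hδ₂' c)
  rw [map_prod, map_prod] at h1
  have h2 : ∏ 𝔭, δ 𝔭 ≤ ∏ 𝔭, a (eval y (c 𝔭 : MvPolynomial (Fin n) F)) :=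
    Finset.prod_le_prod (fun 𝔭 _ => (hδ 𝔭).le) fun 𝔭 _ => (hc 𝔭).le
  linarith

/-- Specialization: a tuple of elements of `F` can be approximated by tuples of elements of a dense
algebraically closed subfield with the same relations. -/
theorem exists_specialization {E₁ F : Type} [Field E₁] [IsAlgClosed E₁] [NormedField F] [Algebra E₁ F]
    (ha : ∀ x y : F, ‖x + y‖ ≤ max ‖x‖ ‖y‖)
    (hM : ManyNodes ((NormedField.toAbsoluteValue F).comp (algebraMap E₁ F).injective))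
    (hd : ∀ x : F, ∀ ε : ℝ, 0 < ε → ∃ e : E₁, ‖algebraMap E₁ F e - x‖ < ε) {m : ℕ} (s : Fin m → F) {δ : ℝ}
    (hδ : 0 < δ) : ∃ z : Fin m → E₁, (∀ f : MvPolynomial (Fin m) E₁, aeval s f = 0 → eval z f = 0) ∧
      ∀ i, ‖algebraMap E₁ F (z i) - s i‖ ≤ δ := by
  classical
  let 𝔮 : Ideal (MvPolynomial (Fin m) E₁) := RingHom.ker (aeval s : MvPolynomial (Fin m) E₁ →ₐ[E₁] F)
  have h𝔮 : 𝔮.IsPrime := RingHom.ker_isPrime _
  obtain ⟨Q, δ', hδ', hQ, hQy⟩ := near_prime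
    (a := (NormedField.toAbsoluteValue F).comp (algebraMap E₁ F).injective) (fun x y => by
      change ‖algebraMap E₁ F (x + y)‖ ≤ max ‖algebraMap E₁ F x‖ ‖algebraMap E₁ F y‖
      rw [map_add]
      exact ha _ _) hM 𝔮 hδ
  have hcont : ∀ q ∈ Q, ∃ r : ℝ, 0 < r ∧ ∀ v : Fin m → F, (∀ i, ‖v i - s i‖ < r) → ‖aeval v q‖ < δ' := by
    intro q hq
    have h1 : Continuous fun v : Fin m → F => eval v (map (algebraMap E₁ F) q) := MvPolynomial.continuous_eval _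
    have h2 : eval s (map (algebraMap E₁ F) q) = 0 := by
      rw [Pool.Agent.Y129.TB.eval_map_alg]
      exact hQ q hq
    have h3 := Metric.continuous_iff.1 h1 s δ' hδ'
    obtain ⟨r, hr, hr'⟩ := h3
    refine ⟨r, hr, fun v hv => ?_⟩
    have h4 := hr' v ((dist_pi_lt_iff hr).2 fun i => by rw [dist_eq_norm]; exact hv i)
    rw [h2, dist_zero_right, Pool.Agent.Y129.TB.eval_map_alg] at h4
    exact h4
  choose! r hr hr' using hcont
  obtain ⟨r₀, hr₀, hr₀'⟩ := exists_pos_le (fun q : Q => r q) fun q => hr q q.2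
  choose y hy using fun i => hd (s i) (min r₀ δ) (lt_min hr₀ hδ)
  obtain ⟨z, hz, hzy⟩ := hQy y fun q hq => by
    have h1 := hr' q hq (fun i => algebraMap E₁ F (y i)) fun i =>
      (hy i).trans_le ((min_le_left _ _).trans (hr₀' ⟨q, hq⟩))
    have h2 : aeval (fun i => algebraMap E₁ F (y i)) q = algebraMap E₁ F (eval y q) := by
      exact (MvPolynomial.eval₂_comp_left (algebraMap E₁ F) (RingHom.id E₁) y q).symm
    rw [h2] at h1
    exact h1.le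
  refine ⟨z, fun f hf => hz f hf, fun i => ?_⟩
  have h1 : algebraMap E₁ F (z i) - s i = algebraMap E₁ F (z i - y i) + (algebraMap E₁ F (y i) - s i) := by
    rw [map_sub]
    ring
  rw [h1]
  exact (ha _ _).trans (max_le (hzy i) ((hy i).le.trans (min_le_right _ _)))

end Run7.h458
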