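import Pool.Agent.Run7.h458.Chart
set_option autoImplicit false
set_option linter.unusedSectionVars false

/-!
# Norms on finite algebras, and the vanishing of the first cohomology
-/

open Polynomial Filter Topology Module

namespace Run7.h458

section

variable {H : Type} [NontriviallyNormedField H] [CompleteSpace H] [IsUltrametricDist H]

/-- A bound of the coordinates by the spectral norms. -/
theorem exists_bound_spectral {A ι I : Type} [CommRing A] [Algebra H A] [Fintype ι] [Fintype I] (b : Basis ι H A)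
    {L : I → Type} [∀ i, Field (L i)] [∀ i, Algebra H (L i)] [∀ i, FiniteDimensional H (L i)]
    (e : A ≃ₐ[H] (∀ i, L i)) :
    ∃ C : ℝ, 0 ≤ C ∧ ∀ (f : A) (R : ℝ), 0 ≤ R → (∀ i, spectralNorm H (L i) (e f i) ≤ R) →
      ‖b.equivFun f‖ ≤ C * R := by
  let n1 : ∀ i, NormedField (L i) := fun i => spectralNorm.normedField H (L i)
  let n2 : ∀ i, NormedAlgebra H (L i) := fun i => spectralNorm.normedAlgebra H (L i)
  let T : (∀ i, L i) →ₗ[H] (ι → H) := b.equivFun.toLinearMap ∘ₗ e.symm.toLinearEquiv.toLinearMap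
  let T' : (∀ i, L i) →L[H] (ι → H) := LinearMap.toContinuousLinearMap T
  refine ⟨‖T'‖, norm_nonneg _, fun f R hR h => ?_⟩
  have h1 : b.equivFun f = T' (e f) := by
    change b.equivFun f = b.equivFun (e.symm (e f))
    rw [AlgEquiv.symm_apply_apply]
  rw [h1]
  refine (T'.le_opNorm _).trans (mul_le_mul_of_nonneg_left ?_ (norm_nonneg _))
  rw [pi_norm_le_iff_of_nonneg hR]
  intro i
  exact h i

theorem exists_bound_basis {A ι κ : Type} [CommRing A] [Algebra H A] [Fintype ι] [Fintype κ] (b : Basis ι H A)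
    (b' : Basis κ H A) : ∃ C : ℝ, 0 ≤ C ∧ ∀ f : A, ‖b'.equivFun f‖ ≤ C * ‖b.equivFun f‖ := by
  refine ⟨∑ i, ‖b'.equivFun (b i)‖, Finset.sum_nonneg fun i _ => norm_nonneg _, fun f => ?_⟩
  have h1 : b'.equivFun f = ∑ i, b.equivFun f i • b'.equivFun (b i) := by
    conv_lhs => rw [← b.sum_equivFun f]
    rw [map_sum]
    refine Finset.sum_congr rfl fun i _ => ?_
    rw [map_smul]
  rw [h1]
  refine (norm_sum_le _ _).trans ?_
  rw [Finset.sum_mul]
  refine Finset.sum_le_sum fun i _ => ?_
  rw [norm_smul, mul_comm]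
  exact mul_le_mul_of_nonneg_left (norm_le_pi_norm _ i) (norm_nonneg _)

end

end Run7.h458
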