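import Pool.Agent.Run7.h458.Chart
set_option autoImplicit false
set_option linter.unusedSectionVars false

/-!
# Points of charts
-/

open Polynomial Filter Topology Module

namespace Run7.h458

theorem exists_hom_of_nontrivial {F A : Type} [Field F] [IsAlgClosed F] [CommRing A] [Algebra F A]
    [Module.Finite F A] [Nontrivial A] : Nonempty (A →ₐ[F] F) := by
  obtain ⟨M, hM⟩ := Ideal.exists_maximal A
  let : Field (A ⧸ M) := Ideal.Quotient.field M
  have hb : Function.Bijective (algebraMap F (A ⧸ M)) := IsAlgClosed.algebraMap_bijective_of_isIntegral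
  let e : F ≃ₐ[F] (A ⧸ M) := AlgEquiv.ofBijective (Algebra.ofId F (A ⧸ M)) hb
  exact ⟨(e.symm : (A ⧸ M) →ₐ[F] F).comp (Ideal.Quotient.mkₐ F M)⟩

namespace Chart

variable {k H A : Type} [NontriviallyNormedField k] [NormedField H] [NormedAlgebra k H] {c : Circle k H}
  [CommRing A] [Algebra H A] (ch : Chart c A) {F : Type} [NormedField F] [NormedAlgebra k F] [IsAlgClosed F]

theorem exists_over (a : F) [Nonempty ch.ι] :
    ∃ ψ : ch.B →+* F, ∀ P : k[X], ψ (algebraMap k[X] ch.B P) = aeval a P := by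
  let : Algebra k[X] F := (aeval a : k[X] →ₐ[k] F).toRingHom.toAlgebra
  have halg : ∀ P : k[X], algebraMap k[X] F P = aeval a P := fun P => rfl
  let bF : Basis ch.ι F (TensorProduct k[X] F ch.B) := Algebra.TensorProduct.basis F ch.b
  have : Module.Finite F (TensorProduct k[X] F ch.B) := Module.Finite.of_basis bF
  have : Nontrivial (TensorProduct k[X] F ch.B) := by
    obtain ⟨i⟩ := (inferInstance : Nonempty ch.ι)
    exact ⟨⟨bF i, 0, bF.ne_zero i⟩⟩
  obtain ⟨ψ⟩ := exists_hom_of_nontrivial (F := F) (A := TensorProduct k[X] F ch.B)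
  refine ⟨(ψ : TensorProduct k[X] F ch.B →+* F).comp
    (Algebra.TensorProduct.includeRight : ch.B →ₐ[k[X]] TensorProduct k[X] F ch.B).toRingHom, fun P => ?_⟩
  change ψ ((Algebra.TensorProduct.includeRight : ch.B →ₐ[k[X]] TensorProduct k[X] F ch.B) (algebraMap k[X] ch.B P)) = _
  rw [AlgHom.commutes, IsScalarTower.algebraMap_apply k[X] F (TensorProduct k[X] F ch.B), AlgHom.commutes]
  rfl

/-- The value at a point is a root of the characteristic polynomial. -/
theorem root_of_point {a : F} (E : Tate k c.v →+* F)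
    (hE : ∀ P : k[X], E ⟨aeval c.v P, aeval_mem_tate _ _⟩ = aeval a P) (h : ch.ι → Tate k c.v) {Q : k[X][X]}
    (hQ : Q.map (aeval c.v : k[X] →ₐ[k] H).toRingHom = (Algebra.leftMulMatrix ch.bA (ch.elt h)).charpoly)
    (ψ : ch.B →+* F) (hψ : ∀ P : k[X], ψ (algebraMap k[X] ch.B P) = aeval a P) :
    (Q.map (aeval a : k[X] →ₐ[k] F).toRingHom).eval (∑ i, E (h i) * ψ (ch.b i)) = 0 := by
  let : Algebra k[X] F := (aeval a : k[X] →ₐ[k] F).toRingHom.toAlgebra
  have halg : ∀ P : k[X], algebraMap k[X] F P = aeval a P := fun P => rfl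
  have h1 : (ch.mat h).charpoly = Q.map (toTate c) := by
    refine Polynomial.map_injective (Tate k c.v).subtype Subtype.val_injective ?_
    rw [← Matrix.charpoly_map, mat_map_subtype, ← hQ, Polynomial.map_map]
    rfl
  let bF : Basis ch.ι F (TensorProduct k[X] F ch.B) := Algebra.TensorProduct.basis F ch.b
  have h2 : ∀ x : ch.B, Algebra.leftMulMatrix bF (1 ⊗ₜ[k[X]] x) =
      (Algebra.leftMulMatrix ch.b x).map (algebraMap k[X] F) := by
    intro x
    ext i j
    rw [Algebra.leftMulMatrix_eq_repr_mul, Matrix.map_apply, Algebra.leftMulMatrix_eq_repr_mul]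
    change (Algebra.TensorProduct.basis F ch.b).repr _ i = _
    rw [Algebra.TensorProduct.basis_apply, Algebra.TensorProduct.tmul_mul_tmul, mul_one,
      Algebra.TensorProduct.basis_repr_tmul, one_smul, Finsupp.mapRange_apply]
  let fa : TensorProduct k[X] F ch.B := ∑ i, E (h i) • (1 ⊗ₜ[k[X]] ch.b i)
  have h3 : (ch.mat h).map E = Algebra.leftMulMatrix bF fa := by
    rw [map_sum, mat]
    ext i j
    rw [Matrix.map_apply, Matrix.sum_apply, map_sum, Matrix.sum_apply]
    refine Finset.sum_congr rfl fun l _ => ?_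
    rw [map_smul, h2]
    simp only [Matrix.smul_apply, Matrix.map_apply, smul_eq_mul, map_mul, halg]
    congr 1
    exact hE _
  have h4 : (Algebra.leftMulMatrix bF fa).charpoly = Q.map (aeval a : k[X] →ₐ[k] F).toRingHom := by
    rw [← h3, Matrix.charpoly_map, h1, Polynomial.map_map]
    have h5 : E.comp (toTate c) = (aeval a : k[X] →ₐ[k] F).toRingHom := RingHom.ext fun P => hE P
    rw [h5]
  let ψ1 : ch.B →ₐ[k[X]] F := ⟨ψ, hψ⟩
  let ψ' : TensorProduct k[X] F ch.B →ₐ[F] F :=
    Algebra.TensorProduct.lift (AlgHom.id F F) ψ1 fun x y => Commute.all _ _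
  have h6 : ψ' fa = ∑ i, E (h i) * ψ (ch.b i) := by
    rw [map_sum]
    refine Finset.sum_congr rfl fun i _ => ?_
    rw [map_smul, smul_eq_mul]
    congr 1
    change Algebra.TensorProduct.lift (AlgHom.id F F) ψ1 _ (1 ⊗ₜ[k[X]] ch.b i) = _
    rw [Algebra.TensorProduct.lift_tmul, map_one, one_mul]
    rfl
  have h7 : aeval fa (Algebra.leftMulMatrix bF fa).charpoly = 0 := by
    apply Algebra.leftMulMatrix_injective bF
    rw [map_zero, ← aeval_algHom_apply, Matrix.aeval_self_charpoly]
  have h8 := congrArg ψ' h7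
  rw [map_zero, ← aeval_algHom_apply, h6, h4] at h8
  rwa [coe_aeval_eq_eval] at h8

end Chart

end Run7.h458
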