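import Pool.Agent.R388.TP.Kummer
import Pool.Agent.R388.TP.Indep
set_option autoImplicit false
set_option linter.unusedSectionVars false

/-!
# A homogeneous prime ideal of a curve
-/

open MvPolynomial Pool.Agent.Y129.TA Pool.Agent.R388.TP

namespace Run7.h458

section

variable {K : Type} [Field K] [IsAlgClosed K] {σ : Type} [Finite σ]

attribute [local instance] MvPolynomial.gradedAlgebra

theorem decompose_eq (f : MvPolynomial σ K) (m : ℕ) :
    ((DirectSum.decompose (homogeneousSubmodule σ K) f m : homogeneousSubmodule σ K m) :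
      MvPolynomial σ K) = homogeneousComponent m f :=
  decomposition.decompose'_apply f m

open Cardinal in
theorem exists_prime {X : Set (σ → K)} (hX : IsClosedCone X) (h1 : DimGE X 1) (h2 : DimLE X 1) :
    ∃ (P : Ideal (MvPolynomial σ K)) (e : ℕ) (q : Fin 2 → MvPolynomial σ K), P.IsPrime ∧
      (∀ f ∈ P, ∀ n, homogeneousComponent n f ∈ P) ∧ (∀ f, (∀ x ∈ X, eval x f = 0) → f ∈ P) ∧
      0 < e ∧ (∀ j, (q j).IsHomogeneous e) ∧
      AlgebraicIndependent K (fun j => Ideal.Quotient.mkₐ K P (q j)) ∧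
      (aeval (R := K) fun j => Ideal.Quotient.mkₐ K P (q j)).toRingHom.IsIntegral := by
  classical
  have : Fintype σ := Fintype.ofFinite σ
  obtain ⟨⟨J, rfl⟩, hcone⟩ := hX
  set I : Ideal (MvPolynomial σ K) := vanishingIdeal K (zeroLocus K J) with hI
  have hzI : zeroLocus K I = zeroLocus K J := by
    rw [hI]
    apply Set.Subset.antisymm
    · intro x hx
      rw [mem_zeroLocus_iff] at hx ⊢
      intro f hf
      exact hx f (mem_vanishingIdeal_iff.2 fun y hy => (mem_zeroLocus_iff.1 hy) f hf)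
    · intro x hx
      rw [mem_zeroLocus_iff]
      intro f hf
      exact (mem_vanishingIdeal_iff.1 hf) x hx
  have hIc : ∀ f ∈ I, ∀ n, homogeneousComponent n f ∈ I := by
    intro f hf n
    rw [hI, mem_vanishingIdeal_iff] at hf ⊢
    intro x hx
    exact component_zero (k := K) (L := K) hcone hf n hx
  obtain ⟨P, hP, hIP, z, hz⟩ := exists_algInd (J := I) (d := 1) (by rw [hzI]; exact hcone) (by rw [hzI]; exact h1)
  let P₀ : Ideal (MvPolynomial σ K) := (P.homogeneousCore (homogeneousSubmodule σ K)).toIdeal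
  have hP₀ : P₀.IsPrime := hP.homogeneousCore
  have hP₀P : P₀ ≤ P := Ideal.toIdeal_homogeneousCore_le _ P
  have hP₀c : ∀ f ∈ P₀, ∀ n, homogeneousComponent n f ∈ P₀ := by
    intro f hf n
    have h3 := (P.homogeneousCore (homogeneousSubmodule σ K)).isHomogeneous n hf
    rw [decompose_eq] at h3
    exact h3
  have hIP₀ : I ≤ P₀ := by
    intro f hf
    rw [← sum_homogeneousComponent f]
    refine Ideal.sum_mem _ fun n _ => ?_
    refine Ideal.mem_homogeneousCore_of_homogeneous_of_mem ⟨n, homogeneousComponent_isHomogeneous n f⟩ ?_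
    exact hIP (hIc f hf n)
  -- the forms
  obtain ⟨q', hq', hq'0⟩ := h2
  choose D hD hqD using hq'
  let q : Fin 2 → MvPolynomial σ K := ![q' 0 ^ D 1, q' 1 ^ D 0]
  have hqh : ∀ j, (q j).IsHomogeneous (D 0 * D 1) := by
    intro j
    fin_cases j
    · exact (hqD 0).pow (D 1)
    · change (q' 1 ^ D 0).IsHomogeneous (D 0 * D 1)
      rw [mul_comm]
      exact (hqD 1).pow (D 0)
  have he : 0 < D 0 * D 1 := Nat.mul_pos (hD 0) (hD 1)
  have hq0 : ∀ w ∈ zeroLocus K P₀, (∀ j, eval w (q j) = 0) → w = 0 := by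
    intro w hw hqw
    have hw' : w ∈ zeroLocus K J := by
      rw [← hzI]
      exact zeroLocus_anti_mono hIP₀ hw
    refine hq'0 w hw' fun j => ?_
    fin_cases j
    · have h3 := hqw 0
      simp only [q, Matrix.cons_val_zero, map_pow] at h3
      exact pow_eq_zero_iff (hD 1).ne' |>.1 h3
    · have h3 := hqw 1
      simp only [q, Matrix.cons_val_one, Matrix.cons_val_zero, map_pow] at h3
      exact pow_eq_zero_iff (hD 0).ne' |>.1 h3
  have hint := integral_of_no_zero hP₀c q (fun j => ⟨_, he, hqh j⟩) hq0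
  refine ⟨P₀, D 0 * D 1, q, hP₀, hP₀c, fun f hf => hIP₀ ?_, he, hqh, ?_, hint⟩
  · rw [hI, mem_vanishingIdeal_iff]
    intro x hx
    rw [aeval_eq_eval]
    exact hf x hx
  · -- the transcendence degree
    let x : Fin 2 → MvPolynomial σ K ⧸ P₀ := fun j => Ideal.Quotient.mkₐ K P₀ (q j)
    have h3 : Algebra.IsIntegral (Algebra.adjoin K (Set.range x)) (MvPolynomial σ K ⧸ P₀) := by
      constructor
      intro a
      obtain ⟨f, hf, hfa⟩ := hint a
      have hmem : ∀ r : MvPolynomial (Fin 2) K, aeval x r ∈ Algebra.adjoin K (Set.range x) := by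
        intro r
        rw [Algebra.adjoin_range_eq_range_aeval]
        exact ⟨r, rfl⟩
      let g : MvPolynomial (Fin 2) K →+* Algebra.adjoin K (Set.range x) :=
        ((aeval x).codRestrict _ hmem).toRingHom
      refine ⟨f.map g, hf.map g, ?_⟩
      rw [Polynomial.eval₂_map]
      exact hfa
    have h4 : Algebra.IsAlgebraic (Algebra.adjoin K (Set.range x)) (MvPolynomial σ K ⧸ P₀) :=
      Algebra.IsIntegral.isAlgebraic
    have h5 : #(Fin 2) ≤ Algebra.trdeg K (MvPolynomial σ K ⧸ P₀) := by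
      let f : (MvPolynomial σ K ⧸ P₀) →ₐ[K] (MvPolynomial σ K ⧸ P) :=
        Ideal.Quotient.liftₐ P₀ (Ideal.Quotient.mkₐ K P) fun a ha =>
          Ideal.Quotient.eq_zero_iff_mem.2 (hP₀P ha)
      have hf : Function.Surjective f := by
        intro a
        obtain ⟨b, rfl⟩ := Ideal.Quotient.mk_surjective a
        exact ⟨Ideal.Quotient.mk P₀ b, rfl⟩
      exact hz.cardinalMk_le_trdeg.trans (_root_.trdeg_le_of_surjective f hf)
    exact (Algebra.IsAlgebraic.isTranscendenceBasis_of_le_trdeg_of_finite K x h5).1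

end

end Run7.h458
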