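import Pool.Agent.Run7.h458.Prime
set_option autoImplicit false
set_option linter.unusedSectionVars false

/-!
# A primitive element which is a linear combination of the generators
-/

open Module

namespace Run7.h458

theorem exists_primitive_span {K K₀ L σ : Type} [Field K] [Infinite K] [Field K₀] [Field L] [Algebra K L]
    [Algebra K₀ L] [Algebra K K₀] [IsScalarTower K K₀ L] [FiniteDimensional K₀ L] [Algebra.IsSeparable K₀ L]
    [Fintype σ] (x : σ → L) (hx : IntermediateField.adjoin K₀ (Set.range x) = ⊤) :
    ∃ c : σ → K, IntermediateField.adjoin K₀ {∑ i, algebraMap K L (c i) * x i} = ⊤ := by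
  classical
  have hfin : Finite (IntermediateField K₀ L) :=
    Field.finite_intermediateField_of_exists_primitive_element K₀ L (Field.exists_primitive_element K₀ L)
  let _ : Fintype (IntermediateField K₀ L) := Fintype.ofFinite _
  let f : (σ → K) →ₗ[K] L :=
    { toFun := fun c => ∑ i, algebraMap K L (c i) * x i
      map_add' := fun c d => by
        rw [← Finset.sum_add_distrib]
        refine Finset.sum_congr rfl fun i _ => ?_
        rw [Pi.add_apply, map_add, add_mul]
      map_smul' := fun a c => by
        rw [RingHom.id_apply, Finset.smul_sum]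
        refine Finset.sum_congr rfl fun i _ => ?_
        rw [Pi.smul_apply, smul_eq_mul, map_mul, Algebra.smul_def, mul_assoc] }
  let p : IntermediateField K₀ L → Submodule K (σ → K) := fun M =>
    { carrier := {c | f c ∈ M}
      add_mem' := fun {c d} hc hd => by
        change f (c + d) ∈ M
        rw [map_add]
        exact add_mem hc hd
      zero_mem' := by
        change f 0 ∈ M
        rw [map_zero]
        exact zero_mem M
      smul_mem' := fun a c hc => by
        change f (a • c) ∈ M
        rw [map_smul, Algebra.smul_def, IsScalarTower.algebraMap_apply K K₀ L]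
        exact mul_mem (M.algebraMap_mem _) hc }
  let s : Finset (Submodule K (σ → K)) := (Finset.univ.filter fun M : IntermediateField K₀ L => M ≠ ⊤).image p
  have hs : (⊤ : Submodule K (σ → K)) ∉ s := by
    intro h
    obtain ⟨M, hM, hMt⟩ := Finset.mem_image.1 h
    have hM' := (Finset.mem_filter.1 hM).2
    apply hM'
    rw [eq_top_iff, ← hx, IntermediateField.adjoin_le_iff]
    rintro _ ⟨i, rfl⟩
    have h1 : (Pi.single i 1 : σ → K) ∈ p M := by
      rw [hMt]
      exact Submodule.mem_top
    have h2 : f (Pi.single i 1) = x i := by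
      change ∑ j, algebraMap K L ((Pi.single i 1 : σ → K) j) * x j = x i
      rw [Finset.sum_eq_single i]
      · rw [Pi.single_eq_same, map_one, one_mul]
      · intro j _ hj
        rw [Pi.single_eq_of_ne hj, map_zero, zero_mul]
      · intro hi
        exact absurd (Finset.mem_univ i) hi
    have h3 : f (Pi.single i 1) ∈ M := h1
    rw [h2] at h3
    exact h3
  have h1 := Subspace.biUnion_ne_univ_of_top_notMem hs
  obtain ⟨c, hc⟩ := (Set.ne_univ_iff_exists_notMem _).1 h1
  refine ⟨c, ?_⟩
  by_contra hne
  apply hc
  rw [Set.mem_iUnion₂]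
  refine ⟨p (IntermediateField.adjoin K₀ {∑ i, algebraMap K L (c i) * x i}), ?_, ?_⟩
  · exact Finset.mem_image.2 ⟨_, Finset.mem_filter.2 ⟨Finset.mem_univ _, hne⟩, rfl⟩
  · exact IntermediateField.mem_adjoin_simple_self K₀ _

open Polynomial in
theorem exists_presentation {K A₀ R σ : Type} [Field K] [CharZero K] [CommRing A₀] [IsDomain A₀]
    [IsIntegrallyClosed A₀] [CommRing R] [IsDomain R] [Algebra K A₀] [Algebra K R] [Algebra A₀ R]
    [IsScalarTower K A₀ R] [FaithfulSMul A₀ R] [Algebra.IsIntegral A₀ R] [Fintype σ] (x : σ → R)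
    (hx : Algebra.adjoin A₀ (Set.range x) = ⊤) :
    ∃ (c : σ → K) (Φ : A₀[X]) (δ : A₀) (r : σ → A₀[X]), Φ.Monic ∧ 0 < Φ.natDegree ∧
      (∀ g : A₀[X], aeval (∑ i, algebraMap K R (c i) * x i) g = 0 ↔ Φ ∣ g) ∧ δ ≠ 0 ∧
        ∀ i, algebraMap A₀ R δ * x i = aeval (∑ i, algebraMap K R (c i) * x i) (r i) := by
  classical
  let K₀ := FractionRing A₀
  let L := FractionRing R
  let : Algebra K₀ L := FractionRing.liftAlgebra A₀ L
  have hst : IsScalarTower A₀ K₀ L := FractionRing.isScalarTower_liftAlgebra A₀ L
  have hst2 : IsScalarTower K K₀ L := by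
    refine IsScalarTower.of_algebraMap_eq fun a => ?_
    rw [IsScalarTower.algebraMap_apply K A₀ K₀, ← IsScalarTower.algebraMap_apply A₀ K₀ L,
      IsScalarTower.algebraMap_apply A₀ R L, ← IsScalarTower.algebraMap_apply K A₀ R,
      ← IsScalarTower.algebraMap_apply K R L]
  have hc0 : CharZero K₀ := charZero_of_injective_algebraMap (algebraMap K K₀).injective
  let x' : σ → L := fun i => algebraMap R L (x i)
  have hint : ∀ a : R, IsIntegral K₀ (algebraMap R L a) := by
    intro a
    have h1 : IsIntegral A₀ (algebraMap R L a) := (Algebra.IsIntegral.isIntegral (R := A₀) a).algebraMap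
    exact h1.tower_top
  have htop : IntermediateField.adjoin K₀ (Set.range x') = ⊤ := by
    rw [eq_top_iff]
    intro y _
    obtain ⟨a, b, hb, rfl⟩ := IsFractionRing.div_surjective R y
    have h1 : ∀ a : R, algebraMap R L a ∈ IntermediateField.adjoin K₀ (Set.range x') := by
      intro a
      have h2 : a ∈ Algebra.adjoin A₀ (Set.range x) := by rw [hx]; trivial
      induction h2 using Algebra.adjoin_induction with
      | mem a ha =>
        obtain ⟨i, rfl⟩ := ha
        exact IntermediateField.subset_adjoin _ _ ⟨i, rfl⟩
      | algebraMap r =>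
        rw [← IsScalarTower.algebraMap_apply A₀ R L, IsScalarTower.algebraMap_apply A₀ K₀ L]
        exact IntermediateField.algebraMap_mem _ _
      | add a b _ _ ha hb =>
        rw [map_add]
        exact add_mem ha hb
      | mul a b _ _ ha hb =>
        rw [map_mul]
        exact mul_mem ha hb
    exact div_mem (h1 a) (h1 b)
  have hfd : FiniteDimensional K₀ L := by
    have h1 : FiniteDimensional K₀ (IntermediateField.adjoin K₀ (Set.range x')) :=
      IntermediateField.finiteDimensional_adjoin fun y hy => by
        obtain ⟨i, rfl⟩ := hy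
        exact hint _
    rw [htop] at h1
    exact (IntermediateField.topEquiv (F := K₀) (E := L)).toLinearEquiv.finiteDimensional
  obtain ⟨c, hc⟩ := exists_primitive_span (K := K) x' htop
  set θ : R := ∑ i, algebraMap K R (c i) * x i with hθ
  have hθ' : algebraMap R L θ = ∑ i, algebraMap K L (c i) * x' i := by
    rw [hθ, map_sum]
    refine Finset.sum_congr rfl fun i _ => ?_
    rw [map_mul, ← IsScalarTower.algebraMap_apply K R L]
  rw [← hθ'] at hc
  have hθi : IsIntegral A₀ θ := Algebra.IsIntegral.isIntegral θ
  have hgen : ∀ y : L, ∃ f : K₀[X], aeval (algebraMap R L θ) f = y := by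
    intro y
    have h1 : y ∈ (IntermediateField.adjoin K₀ {algebraMap R L θ}).toSubalgebra := by
      rw [hc]
      trivial
    rw [IntermediateField.adjoin_simple_toSubalgebra_of_isAlgebraic (hint θ).isAlgebraic,
      Algebra.adjoin_singleton_eq_range_aeval] at h1
    obtain ⟨f, hf⟩ := h1
    exact ⟨f, hf⟩
  choose f hf using fun i => hgen (x' i)
  choose b hb0 hb using fun i => IsLocalization.integerNormalization_spec (nonZeroDivisors A₀) (f i)
  let δ : A₀ := ∏ i, b i
  have hinj : Function.Injective (algebraMap R L) := IsFractionRing.injective R L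
  refine ⟨c, minpoly A₀ θ, δ, fun i => C (∏ j ∈ Finset.univ.erase i, b j) *
    IsLocalization.integerNormalization (nonZeroDivisors A₀) (f i), minpoly.monic hθi, minpoly.natDegree_pos hθi,
    fun g => minpoly.isIntegrallyClosed_dvd_iff hθi g, ?_, fun i => ?_⟩
  · exact Finset.prod_ne_zero_iff.2 fun i _ => nonZeroDivisors.ne_zero (hb0 i)
  · apply hinj
    have h1 : algebraMap R L (aeval θ (IsLocalization.integerNormalization (nonZeroDivisors A₀) (f i))) =
        algebraMap A₀ L (b i) * x' i := by
      have h2 : (b i • f i) = C (algebraMap A₀ K₀ (b i)) * f i := by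
        rw [Algebra.smul_def]
        rfl
      rw [← aeval_algebraMap_apply, ← aeval_map_algebraMap K₀, hb i, h2, map_mul, aeval_C, hf i,
        ← IsScalarTower.algebraMap_apply A₀ K₀ L]
    rw [map_mul, map_mul, aeval_C, map_mul, h1, ← IsScalarTower.algebraMap_apply A₀ R L,
      ← IsScalarTower.algebraMap_apply A₀ R L, ← mul_assoc, ← map_mul]
    congr 2
    exact (Finset.prod_erase_mul Finset.univ (fun j => b j) (Finset.mem_univ i)).symm

end Run7.h458
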