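import Pool.Agent.Run7.h458.Split
import Pool.Agent.Run7.h458.Points
set_option autoImplicit false
set_option linter.unusedSectionVars false

/-!
# Sections of the glued curve
-/

open Polynomial Filter Topology Module

namespace Run7.h458

variable {k H : Type} [NontriviallyNormedField k] [NontriviallyNormedField H] [NormedAlgebra k H]
  [CompleteSpace k] [CompleteSpace H] [IsUltrametricDist H] {c : Circle k H} {A : Type} [CommRing A] [Algebra H A]
  (V : Chart c A) (W : Chart c.inv A)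

theorem exists_sections {ι : Type} (y : ι → V.B) (ω : ι → W.B) (i₀ : ι) (hy : V.φ (y i₀) = algebraMap H A c.v)
    (hω : ω i₀ = 1) :
    ∃ (m₀ : ℕ) (C : ℝ), 0 ≤ C ∧ ∀ m, m₀ ≤ m → ∃ s : ι → A, (∀ i, V.Mem (s i)) ∧
      (∀ i, W.Mem (c.v⁻¹ ^ m • s i)) ∧ s i₀ = algebraMap H A (c.v ^ m) ∧
      ∀ i, ‖V.bA.equivFun (V.φ (y i) ^ m - s i)‖ ≤
          C * ‖V.bA.equivFun (V.φ (y i) ^ m - c.v ^ m • W.φ (ω i) ^ m)‖ ∧
        ‖V.bA.equivFun (s i - c.v ^ m • W.φ (ω i) ^ m)‖ ≤
          C * ‖V.bA.equivFun (V.φ (y i) ^ m - c.v ^ m • W.φ (ω i) ^ m)‖ := by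
  obtain ⟨m₀, C, hC, h⟩ := exists_split V W
  refine ⟨m₀, C, hC, fun m hm => ?_⟩
  choose g e hge hg he hg2 he2 using fun i => h (V.φ (y i) ^ m - c.v ^ m • W.φ (ω i) ^ m)
  have hvv : c.v⁻¹ ^ m * c.v ^ m = 1 := by rw [← mul_pow, inv_mul_cancel₀ c.v_ne, one_pow]
  have hs : ∀ i, V.φ (y i) ^ m - g i = c.v ^ m • W.φ (ω i) ^ m + e i := by
    intro i
    have h1 := hge i
    rw [sub_eq_iff_eq_add] at h1
    rw [h1]
    ring
  refine ⟨fun i => V.φ (y i) ^ m - g i, fun i => ?_, fun i => ?_, ?_, fun i => ⟨?_, ?_⟩⟩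
  · change V.Mem (V.φ (y i) ^ m - g i)
    rw [← map_pow]
    exact (V.mem_φ _).sub (hg i)
  · change W.Mem (c.v⁻¹ ^ m • (V.φ (y i) ^ m - g i))
    rw [hs, smul_add, smul_smul, hvv, one_smul, ← map_pow]
    refine (W.mem_φ _).add ?_
    have h1 : c.v⁻¹ ^ m • e i = c.v⁻¹ ^ (m - m₀) • (c.v⁻¹ ^ m₀ • e i) := by
      rw [smul_smul, ← pow_add, Nat.sub_add_cancel hm]
    rw [h1]
    exact (he i).smul (pow_mem (self_mem_tate _) _)
  · have h1 : V.φ (y i₀) ^ m - c.v ^ m • W.φ (ω i₀) ^ m = 0 := by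
      rw [hy, hω, map_one, one_pow, ← map_pow, Algebra.algebraMap_eq_smul_one, sub_self]
    have h2 := hg2 i₀
    rw [h1, map_zero, norm_zero, mul_zero] at h2
    have h3 : g i₀ = 0 := by
      have h4 := norm_le_zero_iff.1 h2
      exact V.bA.equivFun.map_eq_zero_iff.1 h4
    change V.φ (y i₀) ^ m - g i₀ = _
    rw [h3, sub_zero, hy, map_pow]
  · have h1 : V.φ (y i) ^ m - (V.φ (y i) ^ m - g i) = g i := by ring
    rw [h1]
    exact hg2 i
  · have h1 : V.φ (y i) ^ m - g i - c.v ^ m • W.φ (ω i) ^ m = e i := by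
      rw [hs]
      ring
    rw [h1]
    exact he2 i

theorem charpoly_eq_charpoly {ι κ : Type} [Fintype ι] [DecidableEq ι] [Fintype κ] [DecidableEq κ] (b : Basis ι H A)
    (b' : Basis κ H A) (f : A) :
    (Algebra.leftMulMatrix b f).charpoly = (Algebra.leftMulMatrix b' f).charpoly := by
  have h1 : Module.Finite H A := Module.Finite.of_basis b
  rw [Algebra.leftMulMatrix_apply, Algebra.leftMulMatrix_apply, LinearMap.charpoly_toMatrix,
    LinearMap.charpoly_toMatrix]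

theorem card_eq : Fintype.card W.ι = Fintype.card V.ι := by
  rw [← Module.finrank_eq_card_basis W.bA, ← Module.finrank_eq_card_basis V.bA]

/-- The characteristic polynomial of a section. -/
theorem exists_charpoly [IsUltrametricDist k] {f : A} {m : ℕ} (hV : V.Mem f) (hW : W.Mem (c.v⁻¹ ^ m • f)) :
    ∃ P : ℕ → k[X], (∀ j, (P j).natDegree ≤ m * (Fintype.card V.ι - j)) ∧ P (Fintype.card V.ι) = 1 ∧
      (∑ j ∈ Finset.range (Fintype.card V.ι + 1), C (P j) * X ^ j : k[X][X]).map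
        (aeval c.v : k[X] →ₐ[k] H).toRingHom = (Algebra.leftMulMatrix V.bA f).charpoly ∧
      (∑ j ∈ Finset.range (Fintype.card V.ι + 1),
        C (reflect (m * (Fintype.card V.ι - j)) (P j)) * X ^ j : k[X][X]).map
          (aeval c.v⁻¹ : k[X] →ₐ[k] H).toRingHom = (Algebra.leftMulMatrix W.bA (c.v⁻¹ ^ m • f)).charpoly := by
  classical
  set N := Fintype.card V.ι with hN
  have hvv : c.v⁻¹ * c.v = 1 := inv_mul_cancel₀ c.v_ne
  have hWc : ∀ j ≤ N, (Algebra.leftMulMatrix W.bA (c.v⁻¹ ^ m • f)).charpoly.coeff j =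
      c.v⁻¹ ^ (m * (N - j)) * (Algebra.leftMulMatrix V.bA f).charpoly.coeff j := by
    intro j hj
    rw [map_smul, charpoly_smul_coeff _ (pow_ne_zero m (inv_ne_zero c.v_ne)) j (by rw [card_eq V W]; exact hj),
      card_eq V W, ← hN, ← pow_mul, charpoly_eq_charpoly W.bA V.bA]
  have hP : ∀ j, ∃ P : k[X], P.natDegree ≤ m * (N - j) ∧ (j ≤ N →
      (Algebra.leftMulMatrix V.bA f).charpoly.coeff j = aeval c.v P) := by
    intro j
    by_cases hj : j ≤ N
    · have h1 := V.charpoly_coeff_mem hV j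
      have h2 := W.charpoly_coeff_mem hW j
      rw [hWc j hj] at h2
      obtain ⟨P, hP, hP2⟩ := c.polynomial_of_mem h1 h2
      exact ⟨P, hP, fun _ => hP2⟩
    · exact ⟨0, by simp, fun h => absurd h hj⟩
  choose P0 hPd0 hPc0 using hP
  have hmonic : (Algebra.leftMulMatrix V.bA f).charpoly.coeff N = 1 := by
    have h1 := Matrix.charpoly_monic (Algebra.leftMulMatrix V.bA f)
    have h2 := Matrix.charpoly_natDegree_eq_dim (Algebra.leftMulMatrix V.bA f)
    rw [← hN] at h2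
    rw [← h2]
    exact h1
  let P : ℕ → k[X] := fun j => if j = N then 1 else P0 j
  have hPd : ∀ j, (P j).natDegree ≤ m * (N - j) := by
    intro j
    simp only [P]
    split_ifs with h
    · simp
    · exact hPd0 j
  have hPc : ∀ j ≤ N, (Algebra.leftMulMatrix V.bA f).charpoly.coeff j = aeval c.v (P j) := by
    intro j hj
    simp only [P]
    split_ifs with h
    · rw [h, hmonic, map_one]
    · exact hPc0 j hj
  have hsum : ∀ (R : H[X]), R.natDegree = N → ∀ q : ℕ → k[X], ∀ t : H, (∀ j ≤ N, R.coeff j = aeval t (q j)) →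
      (∑ j ∈ Finset.range (N + 1), C (q j) * X ^ j : k[X][X]).map (aeval t : k[X] →ₐ[k] H).toRingHom = R := by
    intro R hR q t hq
    rw [Polynomial.map_sum]
    conv_rhs => rw [R.as_sum_range_C_mul_X_pow, hR]
    refine Finset.sum_congr rfl fun j hj => ?_
    rw [hq j (by have := Finset.mem_range.1 hj; omega), Polynomial.map_mul, Polynomial.map_pow, map_X, map_C]
    rfl
  refine ⟨P, hPd, by simp [P], hsum _ (Matrix.charpoly_natDegree_eq_dim _) _ _ hPc,
    hsum _ ((Matrix.charpoly_natDegree_eq_dim _).trans (card_eq V W)) _ _ fun j hj => ?_⟩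
  rw [hWc j hj, hPc j hj, aeval_reflect c.v_ne (P j) (hPd j), ← mul_assoc, ← mul_pow, hvv, one_pow, one_mul]

end Run7.h458
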