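import Pool.Agent.Run7.h458.ChartInf
import Pool.Agent.Run7.h458.Norms
set_option autoImplicit false
set_option linter.unusedSectionVars false

/-!
# Vanishing of the first cohomology
-/

open Polynomial Filter Topology Module

namespace Run7.h458

variable {k H : Type} [NontriviallyNormedField k] [NontriviallyNormedField H] [NormedAlgebra k H]
  [CompleteSpace H] [IsUltrametricDist H]

theorem Circle.laurent_inv (c : Circle k H) (P : k[X]) (n m : ℕ) (hm : P.natDegree ≤ m) :
    c.v⁻¹ ^ m * (aeval c.v P * c.v⁻¹ ^ n) ∈ Tate k c.v⁻¹ := by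
  rw [aeval_reflect c.v_ne P hm]
  have h1 : c.v⁻¹ ^ m * c.v ^ m = 1 := by rw [← mul_pow, inv_mul_cancel₀ c.v_ne, one_pow]
  have h2 : c.v⁻¹ ^ m * (c.v ^ m * aeval c.v⁻¹ (reflect m P) * c.v⁻¹ ^ n) =
      aeval c.v⁻¹ (reflect m P) * c.v⁻¹ ^ n := by
    calc _ = (c.v⁻¹ ^ m * c.v ^ m) * (aeval c.v⁻¹ (reflect m P) * c.v⁻¹ ^ n) := by ring
      _ = _ := by rw [h1, one_mul]
  rw [h2]
  exact mul_mem (aeval_mem_tate _ _) (pow_mem (self_mem_tate _) n)

/-- Every element is a sum of an element of the lattice at `0` and an element of the lattice at infinity with a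
bounded pole, with bounds. -/
theorem exists_split {c : Circle k H} {A : Type} [CommRing A] [Algebra H A] (V : Chart c A) (W : Chart c.inv A) :
    ∃ (m₀ : ℕ) (C : ℝ), 0 ≤ C ∧ ∀ f : A, ∃ g h : A, f = g + h ∧ V.Mem g ∧ W.Mem (c.v⁻¹ ^ m₀ • h) ∧
      ‖V.bA.equivFun g‖ ≤ C * ‖V.bA.equivFun f‖ ∧ ‖V.bA.equivFun h‖ ≤ C * ‖V.bA.equivFun f‖ := by
  classical
  have hc0 : CompleteSpace (Tate k c.v) := (tate_isClosed c.v).completeSpace_coe
  have hc1 : CompleteSpace (Tate k c.v⁻¹) := (tate_isClosed c.v⁻¹).completeSpace_coe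
  -- the approximation of the basis
  set M : ℝ := ∑ j, ‖V.bA.equivFun (W.bA j)‖ + 1 with hM
  have hM0 : 0 < M := by
    have : 0 ≤ ∑ j, ‖V.bA.equivFun (W.bA j)‖ := Finset.sum_nonneg fun i _ => norm_nonneg _
    linarith
  choose P n hPn using fun (i : V.ι) (j : W.ι) => c.dense (W.bA.equivFun (V.bA i) j) (1 / (4 * M)) (by positivity)
  let u : V.ι → A := fun i => ∑ j, (aeval c.v (P i j) * c.v⁻¹ ^ n i j) • W.bA j
  have hu : ∀ i l, ‖V.bA.equivFun (V.bA i - u i) l‖ ≤ 1 / 4 := by
    intro i l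
    have h1 : V.bA i - u i = ∑ j, (W.bA.equivFun (V.bA i) j - aeval c.v (P i j) * c.v⁻¹ ^ n i j) • W.bA j := by
      conv_lhs => rw [← W.bA.sum_equivFun (V.bA i)]
      rw [← Finset.sum_sub_distrib]
      exact Finset.sum_congr rfl fun j _ => (sub_smul _ _ _).symm
    rw [h1, map_sum, Finset.sum_apply]
    refine IsUltrametricDist.norm_sum_le_of_forall_le_of_nonneg (by norm_num) fun j _ => ?_
    rw [map_smul, Pi.smul_apply, smul_eq_mul, norm_mul]
    have h2 : ‖V.bA.equivFun (W.bA j) l‖ ≤ M := by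
      refine (norm_le_pi_norm _ l).trans ?_
      have := Finset.single_le_sum (f := fun j => ‖V.bA.equivFun (W.bA j)‖) (fun i _ => norm_nonneg _)
        (Finset.mem_univ j)
      linarith
    calc _ ≤ 1 / (4 * M) * M := mul_le_mul (hPn i j).le h2 (norm_nonneg _) (by positivity)
      _ = 1 / 4 := by field_simp
  obtain ⟨m₀, hm₀⟩ : ∃ m₀ : ℕ, ∀ i j, (P i j).natDegree ≤ m₀ :=
    ⟨Finset.univ.sup fun x : V.ι × W.ι => (P x.1 x.2).natDegree, fun i j =>
      Finset.le_sup (f := fun x : V.ι × W.ι => (P x.1 x.2).natDegree) (Finset.mem_univ (i, j))⟩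
  have hWu : ∀ i, W.Mem (c.v⁻¹ ^ m₀ • u i) := by
    intro i
    rw [Finset.smul_sum]
    refine W.mem_sum _ _ fun j _ => ?_
    rw [smul_smul]
    refine Chart.Mem.smul ?_ (c.laurent_inv _ _ _ (hm₀ i j))
    intro l
    rw [Basis.repr_self, Finsupp.single_apply]
    split_ifs
    · exact one_mem _
    · exact zero_mem _
  let Φ : ((V.ι → Tate k c.v) × (V.ι → Tate k c.v⁻¹)) →+ (V.ι → H) :=
    { toFun := fun x i => (x.1 i : H) + ∑ j, (x.2 j : H) * V.bA.equivFun (u j) i
      map_zero' := by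
        funext i
        simp
      map_add' := fun x y => by
        funext i
        simp only [Prod.fst_add, Prod.snd_add, Pi.add_apply, Subring.coe_add, add_mul, Finset.sum_add_distrib]
        ring }
  have hΦ : Continuous Φ := by
    refine continuous_pi fun i => ?_
    refine Continuous.add ?_ (continuous_finsetSum _ fun j _ => Continuous.mul ?_ continuous_const)
    · exact continuous_subtype_val.comp ((continuous_apply i).comp continuous_fst)
    · exact continuous_subtype_val.comp ((continuous_apply j).comp continuous_snd)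
  refine ⟨m₀, 4 + 1, by norm_num, fun f => ?_⟩
  obtain ⟨g, hg, hg2⟩ := succApprox Φ hΦ (C := 2) (by norm_num) (fun e => by
    choose a ha b hb hab h1 h2 using fun i => c.split (e i)
    refine ⟨(fun i => ⟨a i, ha i⟩, fun i => ⟨b i, hb i⟩), ?_, ?_⟩
    · rw [Prod.norm_def]
      refine max_le ?_ ?_
      · refine (pi_norm_le_iff_of_nonneg (by positivity)).2 fun i => ?_
        exact (h1 i).trans (mul_le_mul_of_nonneg_left (norm_le_pi_norm e i) (by norm_num))
      · refine (pi_norm_le_iff_of_nonneg (by positivity)).2 fun i => ?_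
        exact (h2 i).trans (mul_le_mul_of_nonneg_left (norm_le_pi_norm e i) (by norm_num))
    · refine (pi_norm_le_iff_of_nonneg (by positivity)).2 fun i => ?_
      have h3 : (e - Φ (fun i => ⟨a i, ha i⟩, fun i => ⟨b i, hb i⟩)) i =
          ∑ j, b j * V.bA.equivFun (V.bA j - u j) i := by
        change e i - (a i + ∑ j, b j * V.bA.equivFun (u j) i) = _
        have h4 : ∀ j, V.bA.equivFun (V.bA j - u j) i = (if j = i then 1 else 0) - V.bA.equivFun (u j) i := by
          intro j
          rw [map_sub, Pi.sub_apply, Basis.equivFun_self]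
        simp_rw [h4, mul_sub, Finset.sum_sub_distrib]
        simp only [mul_ite, mul_one, mul_zero, Finset.sum_ite_eq', Finset.mem_univ, if_true]
        rw [hab i]
        ring
      rw [h3]
      refine IsUltrametricDist.norm_sum_le_of_forall_le_of_nonneg (by positivity) fun j _ => ?_
      rw [norm_mul]
      calc ‖b j‖ * ‖V.bA.equivFun (V.bA j - u j) i‖ ≤ (2 * ‖e‖) * (1 / 4) :=
            mul_le_mul ((h2 j).trans (mul_le_mul_of_nonneg_left (norm_le_pi_norm e j) (by norm_num))) (hu j i)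
              (norm_nonneg _) (by positivity)
        _ = ‖e‖ / 2 := by ring) (V.bA.equivFun f)
  let g1 : A := ∑ i, (g.1 i : H) • V.bA i
  let g2 : A := ∑ i, (g.2 i : H) • u i
  have e1 : V.bA.equivFun g1 = fun i => (g.1 i : H) := by
    funext i
    have h2 := V.bA.repr_sum_self fun i => ((g.1 i : Tate k c.v) : H)
    exact congrFun h2 i
  have hfg : f = g1 + g2 := by
    apply V.bA.equivFun.injective
    rw [map_add, e1, ← hg]
    funext i
    change (g.1 i : H) + ∑ j, (g.2 j : H) * V.bA.equivFun (u j) i = (g.1 i : H) + V.bA.equivFun g2 i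
    simp only [g2, map_sum, map_smul, Finset.sum_apply, Pi.smul_apply, smul_eq_mul]
  have hn1 : ‖V.bA.equivFun g1‖ ≤ 4 * ‖V.bA.equivFun f‖ := by
    rw [e1]
    refine (pi_norm_le_iff_of_nonneg (by positivity)).2 fun i => ?_
    have h5 : ‖g.1 i‖ ≤ ‖g‖ := (norm_le_pi_norm g.1 i).trans (norm_fst_le g)
    have h6 : ‖(g.1 i : H)‖ = ‖g.1 i‖ := rfl
    rw [h6]
    linarith
  refine ⟨g1, g2, hfg, ?_, ?_, ?_, ?_⟩
  · intro i
    have h1 := congrFun e1 i
    rw [Basis.equivFun_apply] at h1
    rw [h1]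
    exact (g.1 i).2
  · simp only [g2, Finset.smul_sum]
    refine W.mem_sum _ _ fun i _ => ?_
    rw [smul_comm]
    exact (hWu i).smul (g.2 i).2
  · have := norm_nonneg (V.bA.equivFun f)
    linarith
  · have h3 : g2 = f - g1 := by rw [hfg]; ring
    rw [h3, map_sub]
    refine (norm_sub_le _ _).trans ?_
    linarith

end Run7.h458
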