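import Pool.Agent.Run7.h458.Near
import Pool.Agent.Run7.h458.Glued
set_option autoImplicit false
set_option linter.unusedSectionVars false

/-!
# The glued curve of an extension of the field of rational functions
-/

open Polynomial Filter Topology Module Pool.Agent.Y129.TA

namespace Run7.h458

variable {k H : Type} [NontriviallyNormedField k] [NontriviallyNormedField H] [NormedAlgebra k H]
  [CompleteSpace k] [IsUltrametricDist k] [CompleteSpace H] [IsUltrametricDist H] {c : Circle k H}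
  {F : Type} [NormedField F] [NormedAlgebra k F]
  [IsUltrametricDist F] [CompleteSpace F] [IsAlgClosed F]

theorem pi_hom {R S I : Type} [CommRing R] [Field S] [Fintype I] [DecidableEq I] {B : I → Type}
    [∀ i, CommRing (B i)] [∀ i, Algebra R (B i)] (ψ : (∀ i, B i) →+* S) :
    ∃ l, ∀ x : I → R, ψ (fun i => algebraMap R (B i) (x i)) = ψ (algebraMap R (∀ i, B i) (x l)) := by
  have h1 : ∑ i, ψ (Pi.single i 1) = 1 := by
    have h0 : ∑ i, Pi.single i (1 : B i) = (1 : ∀ i, B i) := Finset.univ_sum_single (1 : ∀ i, B i)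
    rw [← map_sum, h0, map_one]
  obtain ⟨l, -, hl⟩ := Finset.exists_ne_zero_of_sum_ne_zero (by rw [h1]; exact one_ne_zero : ∑ i, ψ (Pi.single i 1) ≠ 0)
  refine ⟨l, fun x => ?_⟩
  have h2 : (Pi.single l 1 : ∀ i, B i) * (fun i => algebraMap R (B i) (x i)) =
      Pi.single l 1 * algebraMap R (∀ i, B i) (x l) := by
    funext i
    rw [Pi.mul_apply, Pi.mul_apply]
    by_cases hi : i = l
    · subst hi
      rfl
    · rw [Pi.single_eq_of_ne hi, zero_mul, zero_mul]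
  have h3 := congrArg ψ h2
  rw [map_mul, map_mul] at h3
  exact mul_left_cancel₀ hl h3

theorem exists_curve (p : ℕ) [hp : Fact p.Prime] [CharP F p] (c : Circle k H) (hrk : ∀ x : k, x ≠ 0 → ∀ n : ℕ, n ≠ 0 → ‖x‖ ≠ ‖c.v‖ ^ n)
    (hd : DenseNorm F) (L₀ : Type) [Field L₀]
    [Algebra (RatFunc k) L₀] [Algebra k[X] L₀] [IsScalarTower k[X] (RatFunc k) L₀]
    [FiniteDimensional (RatFunc k) L₀] [Algebra.IsSeparable (RatFunc k) L₀]
    {ι : Type} [Fintype ι] (y : ι → integralClosure k[X] L₀) (i₀ : ι)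
    (hy : y i₀ = algebraMap k[X] (integralClosure k[X] L₀) X) (Z : Finset (ι → k)) (hZ : ∀ z ∈ Z, z i₀ = 1)
    {r₁ r₂ ρ η η' : ℝ} (h1 : r₁ < ‖c.v‖) (h2 : ‖c.v‖ < r₂) (hρ : 0 < ρ) (hη : ρ * ‖c.v‖ < η) (hη' : ρ < η')
    (hpts : ∀ a : F, r₁ < ‖a‖ → ‖a‖ < r₂ → ∀ ψ : integralClosure k[X] L₀ →+* F,
      (∀ P : k[X], ψ (algebraMap k[X] (integralClosure k[X] L₀) P) = aeval a P) →
        ∃ z ∈ Z, ∀ i, ‖ψ (y i) - algebraMap k F (z i) * a‖ ≤ ρ * ‖a‖) :
    ∃ Y : Set (Option ι → F), IsClosedCone Y ∧ DimGE Y 1 ∧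
      (∀ w ∈ Y, w none = 0 → w (some i₀) = 0 → w = 0) ∧ ∀ w ∈ Y,
      (w none ≠ 0 → ‖w (some i₀)‖ ≤ ‖c.v‖ * ‖w none‖ → ∃ ψ : integralClosure k[X] L₀ →+* F,
        (∀ P : k[X], ψ (algebraMap k[X] (integralClosure k[X] L₀) P) = aeval (w (some i₀) / w none) P) ∧
          ∀ i, ‖w (some i) / w none - ψ (y i)‖ ≤ η) ∧
      (w (some i₀) ≠ 0 → ‖c.v‖ * ‖w none‖ ≤ ‖w (some i₀)‖ → ∃ z ∈ Z,
        ∀ i, ‖w (some i) / w (some i₀) - algebraMap k F (z i)‖ ≤ η') := by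
  classical
  have hv0 := c.norm_v_pos
  obtain ⟨A, iA, iA2, iA3, V, e, I, iI, L, iL1, iL2, iL3, iL4, eA, he⟩ := exists_chart_integral c L₀
  have hpts' : ∀ a : F, r₁ < ‖a‖ → ‖a‖ < r₂ → ∀ ψ : V.B →+* F,
      (∀ P : k[X], ψ (algebraMap k[X] V.B P) = aeval a P) →
        ∃ z ∈ Z, ∀ i, ‖ψ (e (y i)) - algebraMap k F (z i) * a‖ ≤ ρ * ‖a‖ := fun a ha1 ha2 ψ hψ =>
    hpts a ha1 ha2 (ψ.comp e) fun P => by rw [RingHom.comp_apply, he, hψ]
  have : Nonempty ι := ⟨i₀⟩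
  choose z hzZ hz using fun l => exists_center V hrk hd h1 h2 hρ (fun i => e (y i)) Z hpts'
    ((Pi.evalAlgHom H L l).comp (eA : A →ₐ[H] ∀ i, L i))
  let ch : ∀ l, Chart c.inv (L l) := fun l => (exists_chart_field c (L l)).some
  let W : Chart c.inv A := Chart.pi ch eA
  let ω : ι → W.B := fun i => fun l => algebraMap k[X] (ch l).B (C (z l i))
  have hω0 : ω i₀ = 1 := by
    funext l
    change algebraMap k[X] (ch l).B (C (z l i₀)) = 1
    rw [hZ _ (hzZ l), C_1, map_one]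
  have hWω : ∀ i l, eA (W.φ (ω i)) l = algebraMap H (L l) (algebraMap k H (z l i)) := by
    intro i l
    change eA (eA.symm fun l => (ch l).φ (ω i l)) l = _
    rw [AlgEquiv.apply_symm_apply]
    change (ch l).φ (algebraMap k[X] (ch l).B (C (z l i))) = _
    rw [(ch l).φ_alg, aeval_C]
  obtain ⟨C₀, hC₀, hC₀'⟩ := exists_bound_spectral V.bA eA
  have hck : CharP k p := (algebraMap k F).charP (algebraMap k F).injective p
  have hcH : CharP H p := charP_of_injective_ringHom (algebraMap k H).injective p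
  have hclose : ∀ (M : ℕ) (i : ι), ‖V.bA.equivFun (V.φ (e (y i)) ^ p ^ M - c.v ^ p ^ M • W.φ (ω i) ^ p ^ M)‖ ≤
      C₀ * (ρ * ‖c.v‖) ^ p ^ M := by
    intro M i
    refine hC₀' _ _ (by positivity) fun l => ?_
    let n1 : NormedField (L l) := spectralNorm.normedField H (L l)
    have hcL : CharP (L l) p := charP_of_injective_ringHom (algebraMap H (L l)).injective p
    have e1 : eA (V.φ (e (y i)) ^ p ^ M - c.v ^ p ^ M • W.φ (ω i) ^ p ^ M) l =
        (eA (V.φ (e (y i))) l - algebraMap H (L l) (algebraMap k H (z l i) * c.v)) ^ p ^ M := by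
      rw [sub_pow_char_pow, map_sub, map_smul, map_pow, map_pow, Pi.sub_apply, Pi.smul_apply, Pi.pow_apply,
        Pi.pow_apply, hWω, Algebra.smul_def, map_mul, mul_pow, map_pow]
      ring
    rw [e1]
    have h3 : ‖eA (V.φ (e (y i))) l - algebraMap H (L l) (algebraMap k H (z l i) * c.v)‖ ≤ ρ * ‖c.v‖ := hz l i
    have h4 := pow_le_pow_left₀ (norm_nonneg _) h3 (p ^ M)
    rw [← norm_pow] at h4
    exact h4
  obtain ⟨Y, hY1, hY2, hY3, hY4⟩ := exists_glued V W (F := F) (p := p) (fun i => e (y i)) ω i₀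
    (by rw [hy, he]) hω0 (δ := ρ * ‖c.v‖) (η := η) (η' := η') (C₀ := C₀) (by positivity) hη
    (by rw [mul_div_cancel_right₀ _ hv0.ne']; exact hη') hclose
  refine ⟨Y, hY1, hY2, hY3, fun w hw => ⟨fun h0 hle => ?_, fun h0 hle => ?_⟩⟩
  · obtain ⟨ψ, hψ, hψ2⟩ := (hY4 w hw).1 h0 hle
    exact ⟨ψ.comp e, fun P => by rw [RingHom.comp_apply, he, hψ], hψ2⟩
  · obtain ⟨ψ, hψ, hψ2⟩ := (hY4 w hw).2 h0 hle
    obtain ⟨l, hl⟩ := pi_hom (R := k[X]) (B := fun l => (ch l).B) ψ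
    refine ⟨z l, hzZ l, fun i => ?_⟩
    have h3 : ψ (ω i) = algebraMap k F (z l i) := by
      have h4 := hl fun l => C (z l i)
      have h5 := hψ (C (z l i))
      rw [aeval_C] at h5
      exact h4.trans h5
    rw [← h3]
    exact hψ2 i

end Run7.h458
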