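import Mathlib
set_option autoImplicit false

/-!
# Successive approximation
-/

open Polynomial Filter Topology

namespace Run7.h458

/-- Successive approximation: if `Φ` approximates every element up to half its norm, with bounded
preimages, then it is surjective with bounded preimages. -/
theorem succApprox {G E : Type} [NormedAddCommGroup G] [CompleteSpace G] [NormedAddCommGroup E]
    (Φ : G →+ E) (hΦ : Continuous Φ) {C : ℝ} (hC : 0 ≤ C)
    (h : ∀ e : E, ∃ g : G, ‖g‖ ≤ C * ‖e‖ ∧ ‖e - Φ g‖ ≤ ‖e‖ / 2) (e : E) :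
    ∃ g : G, Φ g = e ∧ ‖g‖ ≤ 2 * C * ‖e‖ := by
  choose s hs1 hs2 using h
  let u : ℕ → E := fun n => Nat.rec e (fun _ x => x - Φ (s x)) n
  have hu0 : u 0 = e := rfl
  have hu1 : ∀ n, u (n + 1) = u n - Φ (s (u n)) := fun n => rfl
  have hun : ∀ n, ‖u n‖ ≤ ‖e‖ * (1 / 2) ^ n := by
    intro n
    induction n with
    | zero => rw [hu0]; simp
    | succ n ih =>
      rw [hu1]
      refine (hs2 _).trans ?_
      rw [pow_succ]
      linarith
  have hg : ∀ n, ‖s (u n)‖ ≤ C * ‖e‖ * (1 / 2) ^ n := by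
    intro n
    refine (hs1 _).trans ?_
    rw [mul_assoc]
    exact mul_le_mul_of_nonneg_left (hun n) hC
  have hgeo : HasSum (fun n : ℕ => C * ‖e‖ * (1 / 2 : ℝ) ^ n) (C * ‖e‖ * 2) :=
    hasSum_geometric_two.mul_left _
  have hsum : Summable fun n => s (u n) := Summable.of_norm_bounded hgeo.summable hg
  refine ⟨∑' n, s (u n), ?_, ?_⟩
  · have h1 : Tendsto (fun n => Φ (∑ i ∈ Finset.range n, s (u i))) atTop (𝓝 (Φ (∑' n, s (u n)))) :=
      (hΦ.tendsto _).comp hsum.hasSum.tendsto_sum_nat
    have h2 : ∀ n, Φ (∑ i ∈ Finset.range n, s (u i)) = e - u n := by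
      intro n
      induction n with
      | zero => simp [hu0]
      | succ n ih =>
        rw [Finset.sum_range_succ, map_add, ih, hu1]
        abel
    have h3 : Tendsto u atTop (𝓝 0) := by
      refine squeeze_zero_norm hun ?_
      have h4 := (tendsto_pow_atTop_nhds_zero_of_lt_one (r := (1 / 2 : ℝ)) (by norm_num)
        (by norm_num)).const_mul ‖e‖
      rwa [mul_zero] at h4
    simp_rw [h2] at h1
    have h5 : Tendsto (fun n => e - u n) atTop (𝓝 (e - 0)) := tendsto_const_nhds.sub h3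
    rw [sub_zero] at h5
    exact tendsto_nhds_unique h1 h5
  · have h1 := tsum_of_norm_bounded hgeo hg
    linarith

theorem nsub_le_max {E : Type} [NormedAddCommGroup E] [IsUltrametricDist E] (x y : E) :
    ‖x - y‖ ≤ max ‖x‖ ‖y‖ := by
  rw [sub_eq_add_neg, ← norm_neg y]
  exact IsUltrametricDist.norm_add_le_max _ _

end Run7.h458
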