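import Pool.Agent.Run7.h458.ChartInt
set_option autoImplicit false
set_option linter.unusedSectionVars false

/-!
# Transfer of bounds from the points of `F` near a circle to the field of the circle
-/

open Polynomial Filter Topology Module

namespace Run7.h458

section basic

variable {F : Type} [NormedField F] [IsUltrametricDist F]

theorem coeff_prod_le {ϱ : ℝ} (hϱ : 0 ≤ ϱ) (s : Multiset F) (hs : ∀ x ∈ s, ‖x‖ ≤ ϱ) (j : ℕ) :
    ‖(s.map fun x => X - C x).prod.coeff j‖ * ϱ ^ j ≤ ϱ ^ s.card := by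
  induction s using Multiset.induction_on generalizing j with
  | empty =>
    rw [Multiset.map_zero, Multiset.prod_zero, coeff_one, Multiset.card_zero, pow_zero]
    split_ifs with h
    · rw [h, norm_one, pow_zero, one_mul]
    · rw [norm_zero, zero_mul]
      exact zero_le_one
  | cons x s ih =>
    have ih' := ih fun y hy => hs y (Multiset.mem_cons_of_mem hy)
    rw [Multiset.map_cons, Multiset.prod_cons, Multiset.card_cons, sub_mul, coeff_sub, coeff_C_mul]
    set Q := (s.map fun x => X - C x).prod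
    have h1 : ‖(X * Q).coeff j‖ * ϱ ^ j ≤ ϱ ^ (s.card + 1) := by
      cases j with
      | zero =>
        rw [coeff_X_mul_zero, norm_zero, zero_mul]
        positivity
      | succ j =>
        rw [coeff_X_mul, pow_succ, pow_succ, ← mul_assoc]
        exact mul_le_mul_of_nonneg_right (ih' j) hϱ
    have h2 : ‖x * Q.coeff j‖ * ϱ ^ j ≤ ϱ ^ (s.card + 1) := by
      rw [norm_mul, mul_assoc, pow_succ']
      exact mul_le_mul (hs x (Multiset.mem_cons_self x s)) (ih' j) (by positivity) hϱ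
    refine (mul_le_mul_of_nonneg_right (nsub_le_max _ _) (pow_nonneg hϱ j)).trans ?_
    rw [max_mul_of_nonneg _ _ (pow_nonneg hϱ j)]
    exact max_le h1 h2

theorem coeff_le_of_roots [IsAlgClosed F] {Q : F[X]} (hQ : Q.Monic) {ϱ : ℝ} (hϱ : 0 < ϱ)
    (h : ∀ x, Q.eval x = 0 → ‖x‖ ≤ ϱ) {j : ℕ} (hj : j ≤ Q.natDegree) : ‖Q.coeff j‖ ≤ ϱ ^ (Q.natDegree - j) := by
  have hs := IsAlgClosed.splits Q
  have h1 : Q = (Q.roots.map fun x => X - C x).prod := by
    conv_lhs => rw [hs.eq_prod_roots, hQ.leadingCoeff, C_1, one_mul]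
  have h2 : Q.roots.card = Q.natDegree := hs.natDegree_eq_card_roots.symm
  have h3 := coeff_prod_le hϱ.le Q.roots (fun x hx => h x (isRoot_of_mem_roots hx)) j
  rw [← h1, h2] at h3
  have h4 : ϱ ^ Q.natDegree = ϱ ^ (Q.natDegree - j) * ϱ ^ j := by rw [← pow_add, Nat.sub_add_cancel hj]
  rw [h4] at h3
  exact le_of_mul_le_mul_right h3 (pow_pos hϱ j)

theorem root_le {Q : F[X]} (hQ : Q.Monic) {ϱ : ℝ} (hϱ : 0 ≤ ϱ)
    (h : ∀ j < Q.natDegree, ‖Q.coeff j‖ ≤ ϱ ^ (Q.natDegree - j)) {x : F} (hx : Q.eval x = 0) : ‖x‖ ≤ ϱ := by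
  by_contra hlt
  push Not at hlt
  set n := Q.natDegree with hn
  have hx0 : 0 < ‖x‖ := hϱ.trans_lt hlt
  rw [eval_eq_sum_range, ← hn, Finset.sum_range_succ, hn, hQ.coeff_natDegree, one_mul, ← hn] at hx
  have h4 : x ^ n = -∑ j ∈ Finset.range n, Q.coeff j * x ^ j := eq_neg_of_add_eq_zero_right hx
  rcases Nat.eq_zero_or_pos n with h0 | h0
  · rw [h0] at h4
    simp at h4
  have h5 : ‖x ^ n‖ ≤ ϱ * ‖x‖ ^ (n - 1) := by
    rw [h4, norm_neg]
    refine IsUltrametricDist.norm_sum_le_of_forall_le_of_nonneg (by positivity) fun j hj => ?_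
    have hj' := Finset.mem_range.1 hj
    rw [norm_mul, norm_pow]
    have h6 : ϱ ^ (n - j) * ‖x‖ ^ j ≤ ϱ * ‖x‖ ^ (n - 1) := by
      have h7 : n - j = (n - 1 - j) + 1 := by omega
      have h8 : n - 1 = (n - 1 - j) + j := by omega
      rw [h7, pow_succ']
      conv_rhs => rw [h8, pow_add]
      rw [mul_assoc]
      refine mul_le_mul_of_nonneg_left ?_ hϱ
      exact mul_le_mul_of_nonneg_right (pow_le_pow_left₀ hϱ hlt.le _) (by positivity)
    exact (mul_le_mul_of_nonneg_right (h j hj') (by positivity)).trans h6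
  rw [norm_pow] at h5
  have h7 : ‖x‖ ^ n = ‖x‖ * ‖x‖ ^ (n - 1) := by rw [← pow_succ', Nat.sub_add_cancel h0]
  rw [h7] at h5
  exact absurd (le_of_mul_le_mul_right h5 (pow_pos hx0 _)) (not_le.2 hlt)

end basic

variable {k H : Type} [NontriviallyNormedField k] [NontriviallyNormedField H] [NormedAlgebra k H]
  [IsUltrametricDist H]

theorem Chart.exists_point_of_root {A : Type} [CommRing A] [Algebra H A] {c : Circle k H} (ch : Chart c A)
    {F : Type} [NormedField F] [NormedAlgebra k F] [IsAlgClosed F] {a : F} (f : ch.B) {x : F}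
    (hx : ((Algebra.leftMulMatrix ch.b f).charpoly.map (aeval a : k[X] →ₐ[k] F).toRingHom).eval x = 0) :
    ∃ ψ : ch.B →+* F, (∀ P : k[X], ψ (algebraMap k[X] ch.B P) = aeval a P) ∧ ψ f = x := by
  let : Algebra k[X] F := (aeval a : k[X] →ₐ[k] F).toRingHom.toAlgebra
  let bF : Basis ch.ι F (TensorProduct k[X] F ch.B) := Algebra.TensorProduct.basis F ch.b
  have h2 : Algebra.leftMulMatrix bF (1 ⊗ₜ[k[X]] f) =
      (Algebra.leftMulMatrix ch.b f).map (algebraMap k[X] F) := by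
    ext i j
    rw [Algebra.leftMulMatrix_eq_repr_mul, Matrix.map_apply, Algebra.leftMulMatrix_eq_repr_mul]
    change (Algebra.TensorProduct.basis F ch.b).repr _ i = _
    rw [Algebra.TensorProduct.basis_apply, Algebra.TensorProduct.tmul_mul_tmul, mul_one,
      Algebra.TensorProduct.basis_repr_tmul, one_smul, Finsupp.mapRange_apply]
  have h4 : (Algebra.leftMulMatrix bF (1 ⊗ₜ[k[X]] f)).charpoly.eval x = 0 := by
    rw [h2, Matrix.charpoly_map]
    exact hx
  obtain ⟨ψ, hψ⟩ := exists_hom_of_root bF _ x h4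
  refine ⟨(ψ : TensorProduct k[X] F ch.B →+* F).comp
    (Algebra.TensorProduct.includeRight : ch.B →ₐ[k[X]] TensorProduct k[X] F ch.B).toRingHom, fun P => ?_, ?_⟩
  · change ψ ((Algebra.TensorProduct.includeRight : ch.B →ₐ[k[X]] TensorProduct k[X] F ch.B) (algebraMap k[X] ch.B P)) = _
    rw [AlgHom.commutes, IsScalarTower.algebraMap_apply k[X] F (TensorProduct k[X] F ch.B), AlgHom.commutes]
    rfl
  · exact hψ

/-- The value group is dense. -/
def DenseNorm (F : Type) [NormedField F] : Prop := ∀ s t : ℝ, 0 < s → s < t → ∃ a : F, s < ‖a‖ ∧ ‖a‖ < t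

theorem aeval_le_of_points {c : Circle k H} (hrk : ∀ x : k, x ≠ 0 → ∀ n : ℕ, n ≠ 0 → ‖x‖ ≠ ‖c.v‖ ^ n)
    {F : Type} [NormedField F] [NormedAlgebra k F] [IsUltrametricDist F] (hd : DenseNorm F) {r₁ r₂ R : ℝ}
    (h1 : r₁ < ‖c.v‖) (h2 : ‖c.v‖ < r₂) {e m : ℕ} (S : k[X])
    (h : ∀ a : F, r₁ < ‖a‖ → ‖a‖ < r₂ → ‖aeval a S‖ ≤ (R * ‖a‖ ^ e) ^ m) :
    ‖aeval c.v S‖ ≤ (R * ‖c.v‖ ^ e) ^ m := by
  classical
  set r := ‖c.v‖ with hr
  have hr0 : 0 < r := c.norm_v_pos
  by_contra hlt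
  push Not at hlt
  -- the dominant term
  have hS : S.support.Nonempty := by
    rw [Polynomial.nonempty_support_iff]
    rintro rfl
    rw [map_zero, norm_zero] at hlt
    -- use one point
    obtain ⟨a, ha⟩ := hd (max r₁ (r / 2)) r (lt_max_of_lt_right (by positivity)) (max_lt h1 (by linarith))
    have h3 := h a ((le_max_left _ _).trans_lt ha.1) (ha.2.trans h2)
    rw [map_zero, norm_zero] at h3
    -- the sign
    have : 0 ≤ (R * r ^ e) ^ m := by
      rcases le_or_gt 0 R with hR | hR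
      · positivity
      · rcases Nat.even_or_odd m with hm | hm
        · exact hm.pow_nonneg _
        · exfalso
          have ha0 : 0 < ‖a‖ := lt_trans (lt_of_lt_of_le (by positivity) (le_max_right r₁ (r / 2))) ha.1
          have h5 : R * ‖a‖ ^ e < 0 := mul_neg_of_neg_of_pos hR (pow_pos ha0 e)
          exact absurd h3 (not_le.2 (hm.pow_neg h5))
    exact absurd hlt (not_lt.2 this)
  obtain ⟨i₀, hi₀, hmax⟩ := Finset.exists_max_image S.support (fun i => ‖S.coeff i‖ * r ^ i) hS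
  have hS0 : S.coeff i₀ ≠ 0 := mem_support_iff.1 hi₀
  have hle : ‖aeval c.v S‖ ≤ ‖S.coeff i₀‖ * r ^ i₀ := by
    refine norm_aeval_le c.v S (by positivity) fun i => ?_
    by_cases hi : i ∈ S.support
    · exact hmax i hi
    · rw [notMem_support_iff.1 hi, norm_zero, zero_mul]
      positivity
  have hstrict : ∀ i ∈ S.support.erase i₀, ‖S.coeff i‖ * r ^ i < ‖S.coeff i₀‖ * r ^ i₀ := by
    intro i hi
    obtain ⟨hne, hi⟩ := Finset.mem_erase.1 hi
    have hSi : S.coeff i ≠ 0 := mem_support_iff.1 hi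
    refine lt_of_le_of_ne (hmax i hi) fun heq => ?_
    rcases lt_or_gt_of_ne hne with h3 | h3
    · refine hrk (S.coeff i / S.coeff i₀) (div_ne_zero hSi hS0) (i₀ - i) (by omega) ?_
      rw [norm_div, div_eq_iff (norm_pos_iff.2 hS0).ne']
      have h4 : r ^ i₀ = r ^ (i₀ - i) * r ^ i := by rw [← pow_add, Nat.sub_add_cancel h3.le]
      rw [h4] at heq
      have h5 : 0 < r ^ i := pow_pos hr0 i
      have h6 : ‖S.coeff i‖ * r ^ i = (r ^ (i₀ - i) * ‖S.coeff i₀‖) * r ^ i := by rw [heq]; ring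
      exact mul_right_cancel₀ h5.ne' h6
    · refine hrk (S.coeff i₀ / S.coeff i) (div_ne_zero hS0 hSi) (i - i₀) (by omega) ?_
      rw [norm_div, div_eq_iff (norm_pos_iff.2 hSi).ne']
      have h4 : r ^ i = r ^ (i - i₀) * r ^ i₀ := by rw [← pow_add, Nat.sub_add_cancel h3.le]
      rw [h4] at heq
      have h5 : 0 < r ^ i₀ := pow_pos hr0 i₀
      have h6 : ‖S.coeff i₀‖ * r ^ i₀ = (r ^ (i - i₀) * ‖S.coeff i‖) * r ^ i₀ := by rw [← heq]; ring
      exact mul_right_cancel₀ h5.ne' h6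
  have hev : ∀ᶠ s in 𝓝 r, (∀ i ∈ S.support.erase i₀, ‖S.coeff i‖ * s ^ i < ‖S.coeff i₀‖ * s ^ i₀) ∧
      (R * s ^ e) ^ m < ‖S.coeff i₀‖ * s ^ i₀ ∧ r₁ < s ∧ s < r₂ ∧ 0 < s := by
    refine Filter.Eventually.and ?_ (Filter.Eventually.and ?_ (Filter.Eventually.and ?_
      (Filter.Eventually.and ?_ ?_)))
    · rw [Filter.eventually_all_finset]
      intro i hi
      have hc1 : ContinuousAt (fun s : ℝ => ‖S.coeff i‖ * s ^ i) r := by fun_prop
      have hc2 : ContinuousAt (fun s : ℝ => ‖S.coeff i₀‖ * s ^ i₀) r := by fun_prop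
      exact hc1.eventually_lt hc2 (hstrict i hi)
    · have hc1 : ContinuousAt (fun s : ℝ => (R * s ^ e) ^ m) r := by fun_prop
      have hc2 : ContinuousAt (fun s : ℝ => ‖S.coeff i₀‖ * s ^ i₀) r := by fun_prop
      exact hc1.eventually_lt hc2 (hlt.trans_le hle)
    · exact lt_mem_nhds h1
    · exact gt_mem_nhds h2
    · exact lt_mem_nhds hr0
  obtain ⟨l, u, ⟨hl, hu⟩, hlu⟩ := mem_nhds_iff_exists_Ioo_subset.1 hev
  obtain ⟨a, ha1, ha2⟩ := hd (max l (r / 2)) r (lt_max_of_lt_right (by positivity)) (max_lt hl (by linarith))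
  obtain ⟨h3, h4, h5, h6, h7⟩ := hlu ⟨(le_max_left _ _).trans_lt ha1, ha2.trans hu⟩
  have h8 := h a h5 h6
  -- the value is the dominant term
  have h9 : ‖aeval a S‖ = ‖S.coeff i₀‖ * ‖a‖ ^ i₀ := by
    have e1 : aeval a S = S.coeff i₀ • a ^ i₀ + ∑ i ∈ S.support.erase i₀, S.coeff i • a ^ i := by
      rw [aeval_eq_sum_range' (Nat.lt_succ_self _)]
      rw [Finset.add_sum_erase _ (fun i => S.coeff i • a ^ i) hi₀]
      symm
      refine Finset.sum_subset (fun i hi => ?_) fun i _ hi => ?_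
      · rw [Finset.mem_range]
        exact Nat.lt_succ_of_le (le_natDegree_of_mem_supp i hi)
      · rw [notMem_support_iff.1 hi, zero_smul]
    have e2 : ‖S.coeff i₀ • a ^ i₀‖ = ‖S.coeff i₀‖ * ‖a‖ ^ i₀ := by rw [norm_smul, norm_pow]
    have e3 : ‖∑ i ∈ S.support.erase i₀, S.coeff i • a ^ i‖ < ‖S.coeff i₀‖ * ‖a‖ ^ i₀ := by
      have hpos : 0 < ‖S.coeff i₀‖ * ‖a‖ ^ i₀ := mul_pos (norm_pos_iff.2 hS0) (pow_pos h7 i₀)
      rcases (S.support.erase i₀).eq_empty_or_nonempty with h0 | hne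
      · rw [h0, Finset.sum_empty, norm_zero]
        exact hpos
      · obtain ⟨i, hi, hi2⟩ := IsUltrametricDist.exists_norm_finsetSum_le_of_nonempty hne
          (fun i => S.coeff i • a ^ i)
        refine hi2.trans_lt ?_
        rw [norm_smul, norm_pow]
        exact h3 i hi
    rw [e1, IsUltrametricDist.norm_add_eq_max_of_norm_ne_norm (by rw [e2]; exact e3.ne'), e2, max_eq_left e3.le]
  rw [h9] at h8
  exact absurd h8 (not_le.2 h4)

/-- A bound at the points near the circle gives a bound of the spectral norm. -/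
theorem spectralNorm_le_of_points [CompleteSpace H] {A : Type} [CommRing A] [Algebra H A] {c : Circle k H}
    (ch : Chart c A)
    (hrk : ∀ x : k, x ≠ 0 → ∀ n : ℕ, n ≠ 0 → ‖x‖ ≠ ‖c.v‖ ^ n)
    {F : Type} [NormedField F] [NormedAlgebra k F] [IsUltrametricDist F] [IsAlgClosed F] (hd : DenseNorm F)
    {r₁ r₂ R : ℝ} (h1 : r₁ < ‖c.v‖) (h2 : ‖c.v‖ < r₂) (hR : 0 < R) {e : ℕ} (f : ch.B)
    (h : ∀ a : F, r₁ < ‖a‖ → ‖a‖ < r₂ → ∀ ψ : ch.B →+* F,
      (∀ P : k[X], ψ (algebraMap k[X] ch.B P) = aeval a P) → ‖ψ f‖ ≤ R * ‖a‖ ^ e)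
    {L : Type} [Field L] [Algebra H L] [FiniteDimensional H L] (g : A →ₐ[H] L) :
    spectralNorm H L (g (ch.φ f)) ≤ R * ‖c.v‖ ^ e := by
  classical
  have hv0 := c.norm_v_pos
  set P := (Algebra.leftMulMatrix ch.b f).charpoly with hP
  have hPm : P.Monic := Matrix.charpoly_monic _
  have hPn : P.natDegree = Fintype.card ch.ι := Matrix.charpoly_natDegree_eq_dim _
  have hcoef : ∀ j ≤ Fintype.card ch.ι, ‖aeval c.v (P.coeff j)‖ ≤ (R * ‖c.v‖ ^ e) ^ (Fintype.card ch.ι - j) := by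
    intro j hj
    refine aeval_le_of_points hrk (F := F) hd (r₁ := max r₁ (‖c.v‖ / 2)) (r₂ := r₂)
      (max_lt h1 (by linarith)) h2 _ fun a ha1 ha2 => ?_
    have ha0 : 0 < ‖a‖ := lt_trans (lt_of_lt_of_le (by positivity) (le_max_right r₁ (‖c.v‖ / 2))) ha1
    have ha1' := (le_max_left r₁ (‖c.v‖ / 2)).trans_lt ha1
    set Q := P.map (aeval a : k[X] →ₐ[k] F).toRingHom with hQ
    have hQm : Q.Monic := hPm.map _
    have hQn : Q.natDegree = Fintype.card ch.ι := by rw [hQ, hPm.natDegree_map, hPn]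
    have h3 := coeff_le_of_roots hQm (ϱ := R * ‖a‖ ^ e) (by positivity) (fun x hx => by
      obtain ⟨ψ, hψ, hψx⟩ := ch.exists_point_of_root f hx
      rw [← hψx]
      exact h a ha1' ha2 ψ hψ) (j := j) (by rw [hQn]; exact hj)
    rw [hQn, hQ, coeff_map] at h3
    exact h3
  let n1 : NormedField L := spectralNorm.normedField H L
  let n2 : NormedAlgebra H L := spectralNorm.normedAlgebra H L
  have n3 : IsUltrametricDist L := by
    refine IsUltrametricDist.isUltrametricDist_of_forall_norm_add_le_max_norm fun x y => ?_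
    exact isNonarchimedean_spectralNorm x y
  have hext : ∀ x : H, ‖algebraMap H L x‖ = ‖x‖ := fun x => spectralNorm_extends x
  change ‖g (ch.φ f)‖ ≤ _
  set Q : L[X] := P.map ((algebraMap H L).comp (aeval c.v : k[X] →ₐ[k] H).toRingHom) with hQ
  have hQm : Q.Monic := hPm.map _
  have hQn : Q.natDegree = Fintype.card ch.ι := by rw [hQ, hPm.natDegree_map, hPn]
  refine root_le hQm (by positivity) (fun j hj => ?_) ?_
  · rw [hQn] at hj ⊢
    rw [hQ, coeff_map]
    change ‖algebraMap H L (aeval c.v (P.coeff j))‖ ≤ _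
    rw [hext]
    exact hcoef j hj.le
  · have h3 : aeval f P = 0 := by
      have h4 : Algebra.leftMulMatrix ch.b (aeval f P) = 0 := by
        rw [← Polynomial.aeval_algHom_apply]
        exact Matrix.aeval_self_charpoly _
      exact (injective_iff_map_eq_zero _).1 (Algebra.leftMulMatrix_injective ch.b) _ h4
    have h4 := congrArg (fun x => g (ch.φ x)) h3
    simp only [map_zero] at h4
    rw [hQ, eval_map, ← h4, aeval_def]
    change _ = ((g : A →+* L).comp ch.φ) (eval₂ (algebraMap k[X] ch.B) f P)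
    rw [Polynomial.hom_eval₂]
    congr 1
    refine RingHom.ext fun S => ?_
    change algebraMap H L (aeval c.v S) = g (ch.φ (algebraMap k[X] ch.B S))
    rw [ch.φ_alg, AlgHom.commutes]

end Run7.h458
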