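import Pool.Agent.Run7.h458.Family
set_option autoImplicit false
set_option linter.unusedSectionVars false

/-!
# Values of sections at points
-/

open Polynomial Filter Topology Module

namespace Run7.h458

namespace Chart

variable {k H : Type} [NontriviallyNormedField k] [NontriviallyNormedField H] [NormedAlgebra k H] {c : Circle k H}
  {A : Type} [CommRing A] [Algebra H A] (ch : Chart c A) {F : Type} [NormedField F] [NormedAlgebra k F]

/-- The value of an element of the lattice at a point. -/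
noncomputable def value (E : Tate k c.v →+* F) (ψ : ch.B →+* F) {f : A} (hf : ch.Mem f) : F :=
  ∑ l, E (coord hf l) * ψ (ch.b l)

variable {E : Tate k c.v →+* F} {a : F}
  (hE : ∀ P : k[X], E ⟨aeval c.v P, aeval_mem_tate _ _⟩ = aeval a P) {ψ : ch.B →+* F}
  (hψ : ∀ P : k[X], ψ (algebraMap k[X] ch.B P) = aeval a P)

theorem value_congr {f g : A} (hf : ch.Mem f) (hg : ch.Mem g) (h : f = g) :
    ch.value E ψ hf = ch.value E ψ hg := by
  subst h
  rfl

theorem value_sub {f g : A} (hf : ch.Mem f) (hg : ch.Mem g) :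
    ch.value E ψ (hf.sub hg) = ch.value E ψ hf - ch.value E ψ hg := by
  rw [value, value, value, ← Finset.sum_sub_distrib]
  refine Finset.sum_congr rfl fun l _ => ?_
  rw [← sub_mul, ← map_sub]
  congr 2
  refine Subtype.ext ?_
  change ch.bA.repr (f - g) l = ch.bA.repr f l - ch.bA.repr g l
  rw [map_sub, Finsupp.sub_apply]

include hE hψ in
theorem value_φ (x : ch.B) : ch.value E ψ (ch.mem_φ x) = ψ x := by
  conv_rhs => rw [← ch.b.sum_repr x]
  rw [value, map_sum]
  refine Finset.sum_congr rfl fun l _ => ?_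
  rw [Algebra.smul_def, map_mul, hψ, ← hE]
  congr 2
  exact Subtype.ext (ch.φ_repr x l)

theorem norm_value_le [IsUltrametricDist F] (hE2 : ∀ h, ‖E h‖ ≤ ‖h‖) {C : ℝ} (hC : ∀ l, ‖ψ (ch.b l)‖ ≤ C)
    (hC0 : 0 ≤ C) {f : A} (hf : ch.Mem f) : ‖ch.value E ψ hf‖ ≤ C * ‖ch.bA.equivFun f‖ := by
  refine IsUltrametricDist.norm_sum_le_of_forall_le_of_nonneg (by positivity) fun l _ => ?_
  rw [norm_mul, mul_comm]
  refine mul_le_mul (hC l) ((hE2 _).trans ?_) (norm_nonneg _) hC0
  exact norm_le_pi_norm (ch.bA.equivFun f) l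

theorem mem_comb {ι : Type} [Fintype ι] {s : ι → A} (hs : ∀ i, ch.Mem (s i)) (T : ι → k) :
    ch.Mem (comb (H := H) s T) :=
  ch.mem_sum _ _ fun i _ => (hs i).smul (algebraMap_mem_tate _ _)

variable [IsAlgClosed F]

include hE hψ in
theorem root_of_point_comb {ι : Type} [Fintype ι] {s : ι → A} (hs : ∀ i, ch.Mem (s i)) (T : ι → k) {Q : k[X][X]}
    (hQ : Q.map (aeval c.v : k[X] →ₐ[k] H).toRingHom =
      (Algebra.leftMulMatrix ch.bA (comb (H := H) s T)).charpoly) :
    (Q.map (aeval a : k[X] →ₐ[k] F).toRingHom).eval (∑ i, algebraMap k F (T i) * ch.value E ψ (hs i)) = 0 := by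
  have hEk : ∀ t : k, E ⟨algebraMap k H t, algebraMap_mem_tate _ t⟩ = algebraMap k F t := by
    intro t
    have e1 : (⟨algebraMap k H t, algebraMap_mem_tate _ t⟩ : Tate k c.v) = ⟨aeval c.v (C t), aeval_mem_tate _ _⟩ :=
      Subtype.ext (aeval_C _ _).symm
    rw [e1, hE, aeval_C]
  let hT' : ch.ι → Tate k c.v := fun l =>
    ∑ i, ⟨algebraMap k H (T i), algebraMap_mem_tate _ (T i)⟩ * coord (hs i) l
  have h4 : ch.elt hT' = comb (H := H) s T := by
    apply ch.bA.repr.injective
    ext l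
    rw [ch.elt_repr, comb, map_sum, Finsupp.coe_finsetSum, Finset.sum_apply]
    simp only [hT', AddSubmonoidClass.coe_finsetSum, map_smul, Finsupp.smul_apply, smul_eq_mul]
    rfl
  rw [← h4] at hQ
  have h5 := ch.root_of_point E hE hT' hQ ψ hψ
  have h6 : ∑ l, E (hT' l) * ψ (ch.b l) = ∑ i, algebraMap k F (T i) * ch.value E ψ (hs i) := by
    simp only [hT', map_sum, map_mul, hEk, value, Finset.mul_sum, Finset.sum_mul]
    rw [Finset.sum_comm]
    refine Finset.sum_congr rfl fun l _ => Finset.sum_congr rfl fun i _ => ?_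
    ring
  rwa [h6] at h5

omit [IsAlgClosed F] in
/-- A uniform bound of the values of the basis over a disc. -/
theorem exists_bound_points [IsUltrametricDist F] (ch : Chart c A) (R : ℝ) (hR : 0 ≤ R) :
    ∃ C : ℝ, 0 ≤ C ∧ ∀ (a : F), ‖a‖ ≤ R → ∀ ψ : ch.B →+* F,
      (∀ P : k[X], ψ (algebraMap k[X] ch.B P) = aeval a P) → ∀ l, ‖ψ (ch.b l)‖ ≤ C := by
  classical
  have hfin : Module.Finite k[X] ch.B := Module.Finite.of_basis ch.b
  have hint : ∀ l, ∃ Q : k[X][X], Q.Monic ∧ Q.eval₂ (algebraMap k[X] ch.B) (ch.b l) = 0 := fun l =>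
    Algebra.IsIntegral.isIntegral (R := k[X]) (ch.b l)
  choose Q hQ hQ0 using hint
  let S : k[X] → ℝ := fun P => ∑ i ∈ P.support, ‖P.coeff i‖ * R ^ i
  have hS0 : ∀ P, 0 ≤ S P := fun P => Finset.sum_nonneg fun i _ => by positivity
  have hS : ∀ (a : F), ‖a‖ ≤ R → ∀ P : k[X], ‖aeval a P‖ ≤ S P := by
    intro a ha P
    refine norm_aeval_le a P (hS0 P) fun i => ?_
    by_cases hi : i ∈ P.support
    · refine le_trans ?_ (Finset.single_le_sum (f := fun i => ‖P.coeff i‖ * R ^ i) (fun i _ => by positivity) hi)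
      exact mul_le_mul_of_nonneg_left (pow_le_pow_left₀ (norm_nonneg _) ha i) (norm_nonneg _)
    · rw [notMem_support_iff.1 hi, norm_zero, zero_mul]
      exact hS0 P
  let D : ch.ι → ℝ := fun l => 1 + ∑ j ∈ Finset.range ((Q l).natDegree), S ((Q l).coeff j)
  have hD1 : ∀ l, 1 ≤ D l := fun l => by
    have : 0 ≤ ∑ j ∈ Finset.range ((Q l).natDegree), S ((Q l).coeff j) := Finset.sum_nonneg fun j _ => hS0 _
    change 1 ≤ 1 + _
    linarith
  refine ⟨∑ l, D l, Finset.sum_nonneg fun l _ => (zero_le_one.trans (hD1 l)), fun a ha ψ hψ l => ?_⟩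
  have h1 : ‖ψ (ch.b l)‖ ≤ D l := by
    by_contra hlt
    push Not at hlt
    set x := ψ (ch.b l) with hx
    have hx1 : 1 < ‖x‖ := (hD1 l).trans_lt hlt
    set n := (Q l).natDegree with hn
    have h2 : ((Q l).map (aeval a : k[X] →ₐ[k] F).toRingHom).eval x = 0 := by
      have h3 := congrArg ψ (hQ0 l)
      rw [map_zero, Polynomial.hom_eval₂] at h3
      rw [eval_map]
      have h4 : ψ.comp (algebraMap k[X] ch.B) = (aeval a : k[X] →ₐ[k] F).toRingHom := RingHom.ext hψ
      rwa [h4] at h3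
    have h3 : ((Q l).map (aeval a : k[X] →ₐ[k] F).toRingHom).natDegree = n := (hQ l).natDegree_map _
    rw [eval_eq_sum_range, h3, Finset.sum_range_succ, coeff_map, hn, (hQ l).coeff_natDegree, map_one, one_mul] at h2
    rw [← hn] at h2
    have h4 : x ^ n = -∑ j ∈ Finset.range n, ((Q l).map (aeval a : k[X] →ₐ[k] F).toRingHom).coeff j * x ^ j :=
      eq_neg_of_add_eq_zero_right h2
    have hn0 : 0 < n := by
      by_contra h0
      have h0' : n = 0 := by omega
      rw [h0'] at h4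
      simp at h4
    have h5 : ‖x ^ n‖ ≤ D l * ‖x‖ ^ (n - 1) := by
      rw [h4, norm_neg]
      refine IsUltrametricDist.norm_sum_le_of_forall_le_of_nonneg (by positivity) fun j hj => ?_
      have hj' := Finset.mem_range.1 hj
      rw [norm_mul, norm_pow, coeff_map]
      refine mul_le_mul ?_ (pow_le_pow_right₀ hx1.le (by omega)) (by positivity) (zero_le_one.trans (hD1 l))
      refine (hS a ha _).trans ?_
      have h6 := Finset.single_le_sum (f := fun j => S ((Q l).coeff j)) (fun j _ => hS0 _) hj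
      change _ ≤ 1 + _
      linarith
    rw [norm_pow] at h5
    have h7 : ‖x‖ ^ n = ‖x‖ * ‖x‖ ^ (n - 1) := by
      rw [← pow_succ', Nat.sub_add_cancel hn0]
    rw [h7] at h5
    have h8 : 0 < ‖x‖ ^ (n - 1) := pow_pos (zero_lt_one.trans hx1) _
    exact absurd (le_of_mul_le_mul_right h5 h8) (not_le.2 hlt)
  exact h1.trans (Finset.single_le_sum (f := D) (fun l _ => (zero_le_one.trans (hD1 l))) (Finset.mem_univ l))

end Chart

end Run7.h458
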